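import Pool.Agent.Q48.MDS.Hat

/-!
# Bochner's tube theorem for tempered functions
-/

set_option autoImplicit false
set_option linter.unusedSectionVars false

open MeasureTheory Set Filter Topology Metric Complex

namespace Pool.Agent.Q48.MDS

variable {ι : Type*} [Fintype ι] [DecidableEq ι]

open scoped FourierTransform RealInnerProductSpace

theorem continuous_slice {Ω : Set (ι → ℝ)} {F : (ι → ℂ) → ℂ} (hF : Tempered Ω F)
    (η : EuclideanSpace ℝ ι) {x : ι → ℝ} (hx : x ∈ Ω) :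
    Continuous (fun y : EuclideanSpace ℝ ι => F (cpt (rl x) y) * cexp (gau η (cpt (rl x) y))) := by
  have h := continuous_ker hF η 0 (rl_mem hx)
  unfold ker at h
  simpa [pair] using h

theorem integrable_slice {Ω : Set (ι → ℝ)} {F : (ι → ℂ) → ℂ} (hF : Tempered Ω F)
    (η : EuclideanSpace ℝ ι) {x : ι → ℝ} (hx : x ∈ Ω) :
    Integrable (fun y : EuclideanSpace ℝ ι => F (cpt (rl x) y) * cexp (gau η (cpt (rl x) y))) := by
  have h := integrable_ker hF η 0 (rl_mem hx)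
  unfold ker at h
  simpa [pair] using h

theorem continuous_hat {Ω : Set (ι → ℝ)} {F : (ι → ℂ) → ℂ}
    (hF : Tempered Ω F) (η : EuclideanSpace ℝ ι) {u : ι → ℂ} (hu : u ∈ tube Ω) :
    Continuous (fun ξ : EuclideanSpace ℝ ι => hat F η ξ u) := by
  set x : ι → ℝ := fun j => (u j).re with hxdef
  have hx : x ∈ Ω := hu
  have h1 : (fun ξ : EuclideanSpace ℝ ι => hat F η ξ u) = fun ξ =>
      ((Real.exp (-(2 * Real.pi * ∑ j, x j * ξ j)) : ℝ) : ℂ) *
        𝓕 (fun y : EuclideanSpace ℝ ι => F (cpt (rl x) y) * cexp (gau η (cpt (rl x) y))) ξ := by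
    funext ξ
    rw [fourier_slice, hat_eq_re F η ξ u, ← mul_assoc, ← Complex.ofReal_mul, ← Real.exp_add]
    simp [hxdef]
  rw [h1]
  refine Continuous.mul ?_ ?_
  · fun_prop
  · exact VectorFourier.fourierIntegral_continuous Real.continuous_fourierChar
      (by exact continuous_inner) (integrable_slice hF η hx)

/-- The Fourier-Laplace integral. -/
noncomputable def lap (F : (ι → ℂ) → ℂ) (η : EuclideanSpace ℝ ι) (u z : ι → ℂ) : ℂ :=
  ∫ ξ : EuclideanSpace ℝ ι, hat F η ξ u * cexp (((2 * Real.pi : ℝ) : ℂ) * pair z ξ)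

/-- Inversion on the original tube. -/
theorem lap_eq {Ω : Set (ι → ℝ)} (hΩ : IsOpen Ω) (hp : IsPreconnected Ω) {F : (ι → ℂ) → ℂ}
    (hF : Tempered Ω F) (η : EuclideanSpace ℝ ι) {u z : ι → ℂ} (hu : u ∈ tube Ω)
    (hz : z ∈ tube Ω) : lap F η u z = F z * cexp (gau η z) := by
  set x : ι → ℝ := fun j => (z j).re with hxdef
  have hx : x ∈ Ω := hz
  set g : EuclideanSpace ℝ ι → ℂ := fun y => F (cpt (rl x) y) * cexp (gau η (cpt (rl x) y)) with hg
  have hgc : Continuous g := continuous_slice hF η hx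
  have hgi : Integrable g := integrable_slice hF η hx
  have hFg : ∀ ξ, 𝓕 g ξ = ((Real.exp (2 * Real.pi * ∑ j, x j * ξ j) : ℝ) : ℂ) * hat F η ξ u := by
    intro ξ
    rw [hg, fourier_slice, hat_const hΩ hp hF η ξ (rl_mem hx) hu]
  have hFgi : Integrable (𝓕 g) := by
    obtain ⟨r, C, N, hr, hC0, hC⟩ := hat_decay hΩ hp hF hu hx
    refine ((integrable_exp_norm (V := EuclideanSpace ℝ ι) hr).const_mul
      (C * (1 + ‖η‖) ^ N)).mono' ?_ (Eventually.of_forall fun ξ => ?_)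
    · exact (VectorFourier.fourierIntegral_continuous Real.continuous_fourierChar
        (by exact continuous_inner) hgi).aestronglyMeasurable
    · rw [hFg, norm_mul, Complex.norm_real, Real.norm_of_nonneg (Real.exp_pos _).le, mul_comm]
      exact hC η ξ
  have hinv := congrFun (hgc.fourierInv_fourier_eq hgi hFgi) (imV z)
  have hz' : cpt (rl x) (imV z) = z := cpt_re_imV z
  have h1 : g (imV z) = F z * cexp (gau η z) := by
    simp only [hg]; rw [hz']
  rw [← h1, ← hinv, Real.fourierInv_eq']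
  unfold lap
  congr 1
  funext ξ
  rw [hFg, smul_eq_mul]
  have h2 : pair z ξ = ((∑ j, x j * ξ j : ℝ) : ℂ) + I * ((⟪ξ, imV z⟫ : ℝ) : ℂ) := by
    unfold pair
    rw [PiLp.inner_apply]
    push_cast
    rw [Finset.mul_sum, ← Finset.sum_add_distrib]
    refine Finset.sum_congr rfl fun j _ => ?_
    simp only [RCLike.inner_apply, conj_trivial, hxdef, imV]
    conv_lhs => rw [← Complex.re_add_im (z j)]
    push_cast
    ring
  rw [h2, Complex.ofReal_exp]
  have h3 : cexp (((2 * Real.pi : ℝ) : ℂ) * (((∑ j, x j * ξ j : ℝ) : ℂ) +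
      I * ((⟪ξ, imV z⟫ : ℝ) : ℂ))) =
      cexp ((2 * Real.pi * ∑ j, x j * ξ j : ℝ) : ℂ) *
        cexp ((((2 * Real.pi * ⟪ξ, imV z⟫ : ℝ)) : ℂ) * I) := by
    rw [← Complex.exp_add]
    congr 1
    push_cast
    ring
  rw [h3]
  ring

/-- the set of the real points at which the Laplace integral converges exponentially fast -/
def Pset (F : (ι → ℂ) → ℂ) (u : ι → ℂ) : Set (ι → ℝ) :=
  {x | ∃ (r C : ℝ) (N : ℕ), 0 < r ∧ 0 ≤ C ∧ ∀ η ξ : EuclideanSpace ℝ ι,
      ‖hat F η ξ u‖ * Real.exp (2 * Real.pi * ∑ j, x j * ξ j) ≤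
        C * (1 + ‖η‖) ^ N * Real.exp (-r * ‖ξ‖)}

theorem convex_Pset (F : (ι → ℂ) → ℂ) (u : ι → ℂ) : Convex ℝ (Pset F u) := by
  intro x hx x' hx' a b ha hb hab
  obtain ⟨r, C, N, hr, hC0, hC⟩ := hx
  obtain ⟨r', C', N', hr', hC0', hC'⟩ := hx'
  refine ⟨min r r', C + C', max N N', lt_min hr hr', by positivity, fun η ξ => ?_⟩
  have h1 : Real.exp (2 * Real.pi * ∑ j, (a • x + b • x') j * ξ j) ≤
      a * Real.exp (2 * Real.pi * ∑ j, x j * ξ j) + b * Real.exp (2 * Real.pi * ∑ j, x' j * ξ j) := by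
    have h2 := convexOn_exp.2 (mem_univ (2 * Real.pi * ∑ j, x j * ξ j))
      (mem_univ (2 * Real.pi * ∑ j, x' j * ξ j)) ha hb hab
    have h3 : 2 * Real.pi * ∑ j, (a • x + b • x') j * ξ j =
        a • (2 * Real.pi * ∑ j, x j * ξ j) + b • (2 * Real.pi * ∑ j, x' j * ξ j) := by
      simp only [smul_eq_mul, Pi.add_apply, Pi.smul_apply, Finset.mul_sum]
      rw [← Finset.sum_add_distrib]
      refine Finset.sum_congr rfl fun j _ => ?_
      ring
    rw [h3]
    simpa [smul_eq_mul] using h2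
  have hη : 1 ≤ 1 + ‖η‖ := by linarith [norm_nonneg η]
  have h4 : (1 + ‖η‖) ^ N ≤ (1 + ‖η‖) ^ max N N' := pow_le_pow_right₀ hη (le_max_left _ _)
  have h5 : (1 + ‖η‖) ^ N' ≤ (1 + ‖η‖) ^ max N N' := pow_le_pow_right₀ hη (le_max_right _ _)
  have h6 : Real.exp (-r * ‖ξ‖) ≤ Real.exp (-(min r r') * ‖ξ‖) := by
    apply Real.exp_le_exp.2
    nlinarith [min_le_left r r', norm_nonneg ξ]
  have h7 : Real.exp (-r' * ‖ξ‖) ≤ Real.exp (-(min r r') * ‖ξ‖) := by
    apply Real.exp_le_exp.2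
    nlinarith [min_le_right r r', norm_nonneg ξ]
  have ha1 : a ≤ 1 := by linarith
  have hb1 : b ≤ 1 := by linarith
  calc ‖hat F η ξ u‖ * Real.exp (2 * Real.pi * ∑ j, (a • x + b • x') j * ξ j)
      ≤ ‖hat F η ξ u‖ * (a * Real.exp (2 * Real.pi * ∑ j, x j * ξ j) +
          b * Real.exp (2 * Real.pi * ∑ j, x' j * ξ j)) := by gcongr
    _ = a * (‖hat F η ξ u‖ * Real.exp (2 * Real.pi * ∑ j, x j * ξ j)) +
        b * (‖hat F η ξ u‖ * Real.exp (2 * Real.pi * ∑ j, x' j * ξ j)) := by ring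
    _ ≤ 1 * (C * (1 + ‖η‖) ^ max N N' * Real.exp (-(min r r') * ‖ξ‖)) +
        1 * (C' * (1 + ‖η‖) ^ max N N' * Real.exp (-(min r r') * ‖ξ‖)) := by
        have e1 : ‖hat F η ξ u‖ * Real.exp (2 * Real.pi * ∑ j, x j * ξ j) ≤
            C * (1 + ‖η‖) ^ max N N' * Real.exp (-(min r r') * ‖ξ‖) :=
          (hC η ξ).trans (by gcongr)
        have e2 : ‖hat F η ξ u‖ * Real.exp (2 * Real.pi * ∑ j, x' j * ξ j) ≤
            C' * (1 + ‖η‖) ^ max N N' * Real.exp (-(min r r') * ‖ξ‖) :=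
          (hC' η ξ).trans (by gcongr)
        gcongr
    _ = _ := by ring

theorem sum_le_norm (x : ι → ℝ) (ξ : EuclideanSpace ℝ ι) :
    ∑ j, x j * ξ j ≤ Fintype.card ι * ‖x‖ * ‖ξ‖ := by
  calc ∑ j, x j * ξ j ≤ ∑ _j : ι, ‖x‖ * ‖ξ‖ := by
        refine Finset.sum_le_sum fun j _ => ?_
        have h1 : ‖x j‖ ≤ ‖x‖ := norm_le_pi_norm x j
        have h2 : ‖ξ j‖ ≤ ‖ξ‖ := PiLp.norm_apply_le (p := 2) ξ j
        calc x j * ξ j ≤ ‖x j * ξ j‖ := Real.le_norm_self _
          _ = ‖x j‖ * ‖ξ j‖ := norm_mul _ _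
          _ ≤ _ := by gcongr
    _ = _ := by simp; ring

/-- stability of the estimate under small displacements -/
theorem Pset_near {F : (ι → ℂ) → ℂ} {u : ι → ℂ} {x : ι → ℝ} (hx : x ∈ Pset F u) :
    ∃ (δ r C : ℝ) (N : ℕ), 0 < δ ∧ 0 < r ∧ 0 ≤ C ∧ ∀ x' ∈ ball x δ,
      ∀ η ξ : EuclideanSpace ℝ ι,
      ‖hat F η ξ u‖ * Real.exp (2 * Real.pi * ∑ j, x' j * ξ j) ≤
        C * (1 + ‖η‖) ^ N * Real.exp (-r * ‖ξ‖) := by
  obtain ⟨r, C, N, hr, hC0, hC⟩ := hx
  set A : ℝ := 2 * Real.pi * (Fintype.card ι + 1) with hA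
  have hA0 : 0 < A := by positivity
  refine ⟨r / (2 * A), r / 2, C, N, by positivity, by positivity, hC0, fun x' hx' η ξ => ?_⟩
  rw [mem_ball, dist_eq_norm] at hx'
  have h1 : 2 * Real.pi * ∑ j, x' j * ξ j ≤ 2 * Real.pi * ∑ j, x j * ξ j + r / 2 * ‖ξ‖ := by
    have h2 := sum_le_norm (x' - x) ξ
    have h3 : ∑ j, (x' - x) j * ξ j = ∑ j, x' j * ξ j - ∑ j, x j * ξ j := by
      rw [← Finset.sum_sub_distrib]
      refine Finset.sum_congr rfl fun j _ => ?_
      simp; ring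
    rw [h3] at h2
    have h4 : (Fintype.card ι : ℝ) * ‖x' - x‖ * ‖ξ‖ ≤ (Fintype.card ι + 1) * (r / (2 * A)) * ‖ξ‖ := by
      gcongr
      linarith
    have h5 : 2 * Real.pi * ((Fintype.card ι + 1) * (r / (2 * A)) * ‖ξ‖) = r / 2 * ‖ξ‖ := by
      rw [hA]; field_simp
    have h6 : 2 * Real.pi * (∑ j, x' j * ξ j - ∑ j, x j * ξ j) ≤
        2 * Real.pi * ((Fintype.card ι + 1) * (r / (2 * A)) * ‖ξ‖) := by
      gcongr
      exact h2.trans h4
    rw [h5] at h6
    linarith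
  calc ‖hat F η ξ u‖ * Real.exp (2 * Real.pi * ∑ j, x' j * ξ j)
      ≤ ‖hat F η ξ u‖ * Real.exp (2 * Real.pi * ∑ j, x j * ξ j + r / 2 * ‖ξ‖) := by gcongr
    _ = (‖hat F η ξ u‖ * Real.exp (2 * Real.pi * ∑ j, x j * ξ j)) * Real.exp (r / 2 * ‖ξ‖) := by
        rw [Real.exp_add]; ring
    _ ≤ (C * (1 + ‖η‖) ^ N * Real.exp (-r * ‖ξ‖)) * Real.exp (r / 2 * ‖ξ‖) := by
        exact mul_le_mul_of_nonneg_right (hC η ξ) (Real.exp_pos _).le
    _ = C * (1 + ‖η‖) ^ N * Real.exp (-(r / 2) * ‖ξ‖) := by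
        rw [mul_assoc (C * (1 + ‖η‖) ^ N), ← Real.exp_add]
        congr 2; ring

theorem isOpen_Pset (F : (ι → ℂ) → ℂ) (u : ι → ℂ) : IsOpen (Pset F u) := by
  rw [Metric.isOpen_iff]
  intro x hx
  obtain ⟨δ, r, C, N, hδ, hr, hC0, hC⟩ := Pset_near hx
  exact ⟨δ, hδ, fun x' hx' => ⟨r, C, N, hr, hC0, hC x' hx'⟩⟩

theorem subset_Pset {Ω : Set (ι → ℝ)} (hΩ : IsOpen Ω) (hp : IsPreconnected Ω) {F : (ι → ℂ) → ℂ}
    (hF : Tempered Ω F) {u : ι → ℂ} (hu : u ∈ tube Ω) : Ω ⊆ Pset F u :=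
  fun _ hx => hat_decay hΩ hp hF hu hx

/-- the Laplace integral is holomorphic over the set `Pset` -/
theorem differentiableOn_lap {Ω : Set (ι → ℝ)} {F : (ι → ℂ) → ℂ} (hF : Tempered Ω F) (η : EuclideanSpace ℝ ι) {u : ι → ℂ}
    (hu : u ∈ tube Ω) : DifferentiableOn ℂ (lap F η u) (tube (Pset F u)) := by
  refine differentiableOn_integral (isOpen_tube (isOpen_Pset F u))
    (fun z ξ => hat F η ξ u * cexp (((2 * Real.pi : ℝ) : ℂ) * pair z ξ)) ?_ ?_ ?_
  · intro ξ
    exact (((differentiable_pair ξ).const_mul _).cexp.const_mul _).differentiableOn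
  · intro z _
    refine ((continuous_hat hF η hu).mul ?_).aestronglyMeasurable
    exact Complex.continuous_exp.comp (continuous_const.mul (continuous_pair_right z))
  · intro z₀ hz₀
    obtain ⟨δ, r, C, N, hδ, hr, hC0, hC⟩ := Pset_near (show (fun i => (z₀ i).re) ∈ Pset F u from hz₀)
    refine ⟨{z | (fun i => (z i).re) ∈ ball (fun i => (z₀ i).re) δ}, ?_,
      fun ξ => C * (1 + ‖η‖) ^ N * Real.exp (-r * ‖ξ‖),
      (integrable_exp_norm hr).const_mul _, fun z hz ξ => ?_⟩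
    · have hn : ball (fun i => (z₀ i).re) δ ∈ 𝓝 (fun i => (z₀ i).re) := ball_mem_nhds _ hδ
      exact (continuous_re' (ι := ι)).continuousAt.preimage_mem_nhds (x := z₀) hn
    · rw [norm_mul, norm_exp_pair]
      exact hC _ hz η ξ

/-- the identity theorem for convex tubes -/
theorem eqOn_tube {Ω P : Set (ι → ℝ)} (hΩ : IsOpen Ω) (hne : Ω.Nonempty) (hP : IsOpen P)
    (hc : Convex ℝ P) (hs : Ω ⊆ P) {f g : (ι → ℂ) → ℂ} (hf : DifferentiableOn ℂ f (tube P))
    (hg : DifferentiableOn ℂ g (tube P)) (h : EqOn f g (tube Ω)) : EqOn f g (tube P) := by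
  intro z hz
  obtain ⟨x₀, hx₀⟩ := hne
  set z₀ : ι → ℂ := rl x₀ with hz₀
  have hz₀' : z₀ ∈ tube Ω := rl_mem hx₀
  -- the line through `z₀` and `z`
  set ℓ : ℂ → ι → ℂ := fun τ => z₀ + τ • (z - z₀) with hℓ
  set S : Set ℂ := ℓ ⁻¹' tube P with hS
  have hℓd : Differentiable ℂ ℓ := by
    intro τ
    exact ((differentiableAt_id).smul_const _).const_add _
  have hSo : IsOpen S := (isOpen_tube hP).preimage hℓd.continuous
  have hSc : Convex ℝ S := by
    intro τ hτ τ' hτ' a b ha hb hab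
    show (fun i => (ℓ (a • τ + b • τ') i).re) ∈ P
    have : (fun i => (ℓ (a • τ + b • τ') i).re) =
        a • (fun i => (ℓ τ i).re) + b • (fun i => (ℓ τ' i).re) := by
      funext i
      simp only [hℓ, Pi.add_apply, Pi.smul_apply, smul_eq_mul, Pi.sub_apply, Complex.add_re]
      have e1 : ((a • τ + b • τ') * (z i - z₀ i)).re =
          a * (τ * (z i - z₀ i)).re + b * (τ' * (z i - z₀ i)).re := by
        simp [Complex.mul_re, Complex.add_re]; ring
      rw [e1]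
      have e2 : (z₀ i).re = (a + b) * (z₀ i).re := by rw [hab, one_mul]
      conv_lhs => rw [e2]
      ring
    rw [this]
    exact hc hτ hτ' ha hb hab
  have h0 : (0 : ℂ) ∈ S := by
    show ℓ 0 ∈ tube P
    simp only [hℓ, zero_smul, add_zero]
    exact hs hz₀'
  have h1 : (1 : ℂ) ∈ S := by
    show ℓ 1 ∈ tube P
    simpa [hℓ] using hz
  have hfa : AnalyticOnNhd ℂ (f ∘ ℓ) S :=
    (hf.comp hℓd.differentiableOn (fun τ hτ => hτ)).analyticOnNhd hSo
  have hga : AnalyticOnNhd ℂ (g ∘ ℓ) S :=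
    (hg.comp hℓd.differentiableOn (fun τ hτ => hτ)).analyticOnNhd hSo
  have hev : (f ∘ ℓ) =ᶠ[𝓝 0] (g ∘ ℓ) := by
    have : ℓ ⁻¹' tube Ω ∈ 𝓝 (0 : ℂ) := by
      refine ((isOpen_tube hΩ).preimage hℓd.continuous).mem_nhds ?_
      show ℓ 0 ∈ tube Ω
      simpa [hℓ] using hz₀'
    filter_upwards [this] with τ hτ
    exact h hτ
  have := hfa.eqOn_of_preconnected_of_eventuallyEq hga hSc.isPreconnected h0 hev h1
  simpa [hℓ] using this

/-- **Bochner's tube theorem with polynomial bounds.** A function which is holomorphic and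
polynomially bounded in vertical strips on the tube over a connected open set extends to such a
function on the tube over the convex hull. -/
theorem bochner {Ω : Set (ι → ℝ)} (hΩ : IsOpen Ω) (hp : IsConnected Ω) {F : (ι → ℂ) → ℂ}
    (hF : Tempered Ω F) : ∃ G : (ι → ℂ) → ℂ, Tempered (convexHull ℝ Ω) G ∧ EqOn G F (tube Ω) := by
  obtain ⟨x₀, hx₀⟩ := hp.nonempty
  set u : ι → ℂ := rl x₀ with hu'
  have hu : u ∈ tube Ω := rl_mem hx₀
  have hpre := hp.isPreconnected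
  set P := Pset F u with hPdef
  have hsub : Ω ⊆ P := subset_Pset hΩ hpre hF hu
  set G : EuclideanSpace ℝ ι → (ι → ℂ) → ℂ := fun η z => lap F η u z * cexp (-gau η z) with hG
  have hGd : ∀ η, DifferentiableOn ℂ (G η) (tube P) := fun η =>
    (differentiableOn_lap hF η hu).mul (differentiable_gau η).neg.cexp.differentiableOn
  have hGF : ∀ η, EqOn (G η) F (tube Ω) := by
    intro η z hz
    simp only [hG]
    rw [lap_eq hΩ hpre hF η hu hz, mul_assoc, ← Complex.exp_add]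
    simp
  have hGG : ∀ η, EqOn (G 0) (G η) (tube P) := fun η =>
    eqOn_tube hΩ hp.nonempty (isOpen_Pset F u) (convex_Pset F u) hsub (hGd 0) (hGd η)
      (fun z hz => (hGF 0 hz).trans (hGF η hz).symm)
  have hT : Tempered P (G 0) := by
    refine ⟨hGd 0, fun K hK hc => ?_⟩
    -- a local bound
    have hloc : ∀ x ∈ K, ∃ (δ C : ℝ) (N : ℕ), 0 < δ ∧ 0 ≤ C ∧ ∀ z : ι → ℂ,
        (fun i => (z i).re) ∈ ball x δ → ‖G 0 z‖ ≤ C * (1 + ‖fun i => (z i).im‖) ^ N := by
      intro x hx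
      obtain ⟨δ, r, C, N, hδ, hr, hC0, hC⟩ := Pset_near (hK hx)
      set J := ∫ ξ : EuclideanSpace ℝ ι, Real.exp (-r * ‖ξ‖) with hJ
      have hJ0 : 0 ≤ J := integral_nonneg fun y => by positivity
      set D : ℝ := (Real.sqrt (Fintype.card ι) + 1) with hD
      have hD1 : 1 ≤ D := by rw [hD]; linarith [Real.sqrt_nonneg (Fintype.card ι : ℝ)]
      refine ⟨δ, C * D ^ N * J, N, hδ, by positivity, fun z hz => ?_⟩
      have hzP : z ∈ tube P := ⟨r, C, N, hr, hC0, hC _ hz⟩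
      rw [hGG (imV z) hzP]
      simp only [hG]
      rw [norm_mul]
      have h1 : ‖cexp (-gau (imV z) z)‖ ≤ 1 := by
        rw [Complex.exp_neg, norm_inv, norm_exp_gau]
        simp only [sub_self, norm_zero]
        apply inv_le_one_of_one_le₀
        have : (0 : ℝ) ≤ ∑ j, (z j).re ^ 2 := Finset.sum_nonneg fun j _ => sq_nonneg _
        simpa using this
      have h2 : ‖lap F (imV z) u z‖ ≤ C * (1 + ‖imV z‖) ^ N * J := by
        unfold lap
        calc _ ≤ ∫ ξ : EuclideanSpace ℝ ι,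
              ‖hat F (imV z) ξ u * cexp (((2 * Real.pi : ℝ) : ℂ) * pair z ξ)‖ :=
              norm_integral_le_integral_norm _
          _ ≤ ∫ ξ : EuclideanSpace ℝ ι, C * (1 + ‖imV z‖) ^ N * Real.exp (-r * ‖ξ‖) := by
              refine integral_mono_of_nonneg (Eventually.of_forall fun _ => norm_nonneg _)
                ((integrable_exp_norm hr).const_mul _) (Eventually.of_forall fun ξ => ?_)
              show ‖hat F (imV z) ξ u * cexp (((2 * Real.pi : ℝ) : ℂ) * pair z ξ)‖ ≤ _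
              rw [norm_mul, norm_exp_pair]
              exact hC _ hz (imV z) ξ
          _ = _ := integral_const_mul _ _
      have h3 : ‖imV z‖ ≤ D * ‖fun i => (z i).im‖ := by
        have h4 : ‖imV z‖ ^ 2 ≤ (Fintype.card ι : ℝ) * ‖fun i => (z i).im‖ ^ 2 := by
          rw [EuclideanSpace.norm_sq_eq]
          calc ∑ i, ‖imV z i‖ ^ 2 ≤ ∑ _i : ι, ‖fun i => (z i).im‖ ^ 2 := by
                refine Finset.sum_le_sum fun i _ => ?_
                have : ‖imV z i‖ ≤ ‖fun i => (z i).im‖ := norm_le_pi_norm (fun i => (z i).im) i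
                gcongr
            _ = _ := by simp
        have h5 : ‖imV z‖ ≤ Real.sqrt (Fintype.card ι) * ‖fun i => (z i).im‖ := by
          rw [← pow_le_pow_iff_left₀ (norm_nonneg _) (by positivity) two_ne_zero]
          rw [mul_pow, Real.sq_sqrt (by positivity)]
          exact h4
        refine h5.trans ?_
        gcongr
        rw [hD]; linarith
      have h6 : 1 + ‖imV z‖ ≤ D * (1 + ‖fun i => (z i).im‖) := by
        rw [mul_add, mul_one]; linarith
      calc ‖lap F (imV z) u z‖ * ‖cexp (-gau (imV z) z)‖ ≤ (C * (1 + ‖imV z‖) ^ N * J) * 1 := by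
            gcongr
        _ ≤ (C * (D * (1 + ‖fun i => (z i).im‖)) ^ N * J) * 1 := by gcongr
        _ = _ := by rw [mul_pow]; ring
    choose! δ C N hδ hC0 hC using hloc
    obtain ⟨t, ht, hcov⟩ := hc.elim_nhds_subcover (fun x => ball x (δ x))
      (fun x hx => ball_mem_nhds x (hδ x hx))
    refine ⟨∑ x ∈ t, C x, t.sup N, fun z hz => ?_⟩
    obtain ⟨x, hxt, hzx⟩ := mem_iUnion₂.1 (hcov hz)
    have h1 := hC x (ht x hxt) z hzx
    have h2 : 1 ≤ 1 + ‖fun i => (z i).im‖ := by linarith [norm_nonneg (fun i => (z i).im)]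
    calc ‖G 0 z‖ ≤ C x * (1 + ‖fun i => (z i).im‖) ^ N x := h1
      _ ≤ (∑ x ∈ t, C x) * (1 + ‖fun i => (z i).im‖) ^ t.sup N := by
          have e1 : C x ≤ ∑ x ∈ t, C x := Finset.single_le_sum (fun y hy => hC0 y (ht y hy)) hxt
          have e2 : (1 + ‖fun i => (z i).im‖) ^ N x ≤ (1 + ‖fun i => (z i).im‖) ^ t.sup N :=
            pow_le_pow_right₀ h2 (Finset.le_sup (f := N) hxt)
          have e3 : 0 ≤ C x := hC0 x (ht x hxt)
          gcongr
          exact e3.trans e1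
  exact ⟨G 0, hT.mono (convexHull_min hsub (convex_Pset F u)), hGF 0⟩

end Pool.Agent.Q48.MDS
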