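import Pool.Agent.Q48.MDS.Solve

/-!
# The chain of first order equations for vertical integrals
-/

set_option autoImplicit false
set_option linter.unusedSectionVars false

open MeasureTheory Set Filter Topology Metric Complex

namespace Pool.Agent.Q48.MDS

/-- the product of the factors `(w - ρ)⁻¹` -/
noncomputable def XL (l : List ℂ) (w : ℂ) : ℂ := (l.map (fun ρ => (w - ρ)⁻¹)).prod

theorem XL_cons (ρ : ℂ) (l : List ℂ) (w : ℂ) : XL (ρ :: l) w = (w - ρ)⁻¹ * XL l w := by
  simp [XL]

theorem norm_XL_le {l : List ℂ} (hl : ∀ ρ ∈ l, ρ.re = 1) {w : ℂ} (hw : 2 ≤ w.re) :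
    ‖XL l w‖ ≤ 1 := by
  induction l with
  | nil => simp [XL]
  | cons ρ l ih =>
    rw [XL_cons, norm_mul, norm_inv]
    have h1 : 1 ≤ ‖w - ρ‖ := by
      have h2 := Complex.abs_re_le_norm (w - ρ)
      have h3 : (w - ρ).re = w.re - 1 := by rw [Complex.sub_re, hl ρ (by simp)]
      rw [h3, abs_of_nonneg (by linarith)] at h2
      linarith
    have h4 := ih fun σ hσ => hl σ (by simp [hσ])
    calc ‖w - ρ‖⁻¹ * ‖XL l w‖ ≤ 1 * 1 := by
          gcongr
          exact inv_le_one_of_one_le₀ h1
      _ = 1 := one_mul 1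

theorem sub_ne_of_re {ρ w : ℂ} (h : ρ.re = 1) (hw : 2 ≤ w.re) : w - ρ ≠ 0 := by
  intro h0
  have := congrArg Complex.re h0
  rw [Complex.sub_re, h, Complex.zero_re] at this
  linarith

theorem continuous_XL {l : List ℂ} (hl : ∀ ρ ∈ l, ρ.re = 1) {b : ℝ} (hb : 2 ≤ b) :
    Continuous (fun y : ℝ => XL l ((b : ℂ) + I * y)) := by
  induction l with
  | nil => simp only [XL, List.map_nil, List.prod_nil]; exact continuous_const
  | cons ρ l ih =>
    simp only [XL_cons]
    refine Continuous.mul (Continuous.inv₀ (by fun_prop) fun y => ?_)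
      (ih fun σ hσ => hl σ (by simp [hσ]))
    exact sub_ne_of_re (hl ρ (by simp)) (by simpa using hb)

/-- vertical integrals -/
noncomputable def hh (φ : ℝ → ℂ) (b : ℝ) (l : List ℂ) (u : ℝ) : ℂ :=
  ∫ y : ℝ, φ y * XL l ((b : ℂ) + I * y) * cexp (((b : ℂ) + I * y) * u)

theorem norm_exp_vert (b y u : ℝ) : ‖cexp (((b : ℂ) + I * y) * u)‖ = Real.exp (b * u) := by
  rw [Complex.norm_exp]
  congr 1
  simp

section

variable {φ : ℝ → ℂ} (hφ : Continuous φ) {D : ℝ} (hD : ∀ y, ‖φ y‖ ≤ D / (1 + |y|) ^ 3)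
  {b : ℝ} (hb : 2 ≤ b)

include hφ hD hb

theorem hh_hasDerivAt {ρ : ℂ} {l : List ℂ} (hl : ∀ σ ∈ ρ :: l, σ.re = 1) (u : ℝ) :
    HasDerivAt (hh φ b (ρ :: l)) (ρ * hh φ b (ρ :: l) u + hh φ b l u) u := by
  have hl' : ∀ σ ∈ l, σ.re = 1 := fun σ hσ => hl σ (by simp [hσ])
  have hD0 : 0 ≤ D := by
    have := hD 0
    simp only [abs_zero, add_zero, one_pow, div_one] at this
    exact (norm_nonneg _).trans this
  have hbw : ∀ y : ℝ, 2 ≤ ((b : ℂ) + I * y).re := fun y => by simpa using hb
  -- integrability of the integrands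
  have hcont : ∀ (l : List ℂ), (∀ σ ∈ l, σ.re = 1) → ∀ u : ℝ,
      Continuous (fun y : ℝ => φ y * XL l ((b : ℂ) + I * y) * cexp (((b : ℂ) + I * y) * u)) := by
    intro l hl u
    exact (hφ.mul (continuous_XL hl hb)).mul (by fun_prop)
  have hsq : ∀ y : ℝ, (1 : ℝ) / (1 + |y|) ^ 3 ≤ 1 / (1 + |y|) ^ 2 := by
    intro y
    have h1 : (1 : ℝ) ≤ 1 + |y| := by linarith [abs_nonneg y]
    exact one_div_le_one_div_of_le (by positivity) (pow_le_pow_right₀ h1 (by norm_num))
  have hint : ∀ (l : List ℂ), (∀ σ ∈ l, σ.re = 1) → ∀ u : ℝ,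
      Integrable (fun y : ℝ => φ y * XL l ((b : ℂ) + I * y) * cexp (((b : ℂ) + I * y) * u)) := by
    intro l hl u
    refine integrable_of_sq_bound (C := D * Real.exp (b * u)) (hcont l hl u) (fun y => ?_)
    rw [norm_mul, norm_mul, norm_exp_vert]
    calc ‖φ y‖ * ‖XL l ((b : ℂ) + I * y)‖ * Real.exp (b * u) ≤
          (D / (1 + |y|) ^ 3) * 1 * Real.exp (b * u) := by
          gcongr
          · exact hD y
          · exact norm_XL_le hl (hbw y)
      _ = D * Real.exp (b * u) * (1 / (1 + |y|) ^ 3) := by ring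
      _ ≤ D * Real.exp (b * u) * (1 / (1 + |y|) ^ 2) := by
          gcongr D * Real.exp (b * u) * ?_
          exact hsq y
      _ = _ := by ring
  -- the derivative of the integrand
  set F' : ℝ → ℝ → ℂ := fun u y => ((b : ℂ) + I * y) *
    (φ y * XL (ρ :: l) ((b : ℂ) + I * y) * cexp (((b : ℂ) + I * y) * u)) with hF'
  have hF'eq : ∀ u y, F' u y = ρ * (φ y * XL (ρ :: l) ((b : ℂ) + I * y) *
      cexp (((b : ℂ) + I * y) * u)) + φ y * XL l ((b : ℂ) + I * y) * cexp (((b : ℂ) + I * y) * u) := by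
    intro u y
    simp only [hF']
    have h1 := sub_ne_of_re (hl ρ (by simp)) (hbw y)
    have h2 : ((b : ℂ) + I * y) * XL (ρ :: l) ((b : ℂ) + I * y) =
        ρ * XL (ρ :: l) ((b : ℂ) + I * y) + XL l ((b : ℂ) + I * y) := by
      rw [XL_cons]
      field_simp
      ring
    linear_combination (φ y * cexp (((b : ℂ) + I * y) * u)) * h2
  have hder : HasDerivAt (hh φ b (ρ :: l)) (∫ y, F' u y) u := by
    have h := hasDerivAt_integral_of_dominated_loc_of_deriv_le (μ := volume) (𝕜 := ℝ)
      (F := fun u y => φ y * XL (ρ :: l) ((b : ℂ) + I * y) * cexp (((b : ℂ) + I * y) * u))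
      (F' := F') (x₀ := u) (s := ball u 1)
      (bound := fun y => (b + 1) * D * Real.exp (b * (u + 1)) / (1 + |y|) ^ 2)
      (ball_mem_nhds u one_pos)
      (Eventually.of_forall fun v => (hcont _ hl v).aestronglyMeasurable)
      (hint _ hl u) ?_ ?_ ?_ ?_
    · exact h.2
    · exact ((by fun_prop : Continuous fun y : ℝ => ((b : ℂ) + I * y)).mul
        (hcont _ hl u)).aestronglyMeasurable
    · refine Eventually.of_forall fun y v hv => ?_
      simp only [hF']
      rw [norm_mul, norm_mul, norm_mul, norm_exp_vert]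
      have h1 : ‖(b : ℂ) + I * y‖ ≤ (b + 1) * (1 + |y|) := by
        refine (norm_add_le _ _).trans ?_
        rw [norm_mul, norm_I, one_mul, Complex.norm_real, Complex.norm_real,
          Real.norm_of_nonneg (by linarith), Real.norm_eq_abs]
        nlinarith [abs_nonneg y]
      have h2 : Real.exp (b * v) ≤ Real.exp (b * (u + 1)) := by
        apply Real.exp_le_exp.2
        have : v < u + 1 := by
          have := (abs_lt.1 (by simpa [Real.dist_eq] using hv : |v - u| < 1)).2
          linarith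
        nlinarith
      calc _ ≤ ((b + 1) * (1 + |y|)) * ((D / (1 + |y|) ^ 3) * 1 * Real.exp (b * (u + 1))) := by
            gcongr
            · exact hD y
            · exact norm_XL_le hl (hbw y)
        _ = _ := by field_simp
    · have : Integrable (fun y : ℝ => (((b + 1) * D * Real.exp (b * (u + 1)) : ℝ) : ℝ) /
          (1 + |y|) ^ 2) := by
        refine integrable_of_sq_bound (C := (b + 1) * D * Real.exp (b * (u + 1))) ?_ (fun y => ?_)
        · refine continuous_const.div (by fun_prop) (fun y => ?_)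
          have := abs_nonneg y
          positivity
        · rw [Real.norm_of_nonneg (by positivity)]
      exact this
    · refine Eventually.of_forall fun y v _ => ?_
      have e1 : HasDerivAt (fun v : ℝ => (v : ℂ)) 1 v := Complex.ofRealCLM.hasDerivAt
      have e3 := ((e1.const_mul ((b : ℂ) + I * y)).cexp).const_mul
        (φ y * XL (ρ :: l) ((b : ℂ) + I * y))
      convert! e3 using 1
      simp only [hF']
      ring
  convert! hder using 1
  simp_rw [hF'eq]
  rw [integral_add ((hint _ hl u).const_mul _) (hint _ hl' u), integral_const_mul]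
  rfl

end

end Pool.Agent.Q48.MDS
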