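import Pool.Agent.Q48.MDS.Drop
import Pool.Agent.H38R2.CG.KR
import Pool.Agent.H379R2.SW1

/-!
# The characters of the positive fundamental discriminants and a crude bound for their L-functions
-/

set_option autoImplicit false
set_option linter.unusedSectionVars false

open MeasureTheory Set Filter Topology Metric Complex

namespace Pool.Agent.Q48.MDS

theorem chi_eq_kron {d : ℕ} (h : FundDisc d) (n : ℕ) :
    Pool.Agent.H38R2.CG.chi (d : ℤ) n = kron d n := by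
  have h8 : d % 4 = 1 ∨ d % 4 = 0 := by
    rcases h with ⟨h, _⟩ | ⟨m, h, h2, _⟩ <;> omega
  have h2 : Pool.Agent.H38R2.CG.chi2 (d : ℤ) = kronTwo d := by
    unfold Pool.Agent.H38R2.CG.chi2 kronTwo
    have h5 : ((d : ℤ) % 8 = 1 ↔ d % 8 = 1) := by omega
    have h6 : ((d : ℤ) % 8 = 5 ↔ d % 8 = 5) := by omega
    simp only [h5, h6]
    have h7 : ¬ d % 8 = 7 := by omega
    have h9 : ¬ d % 8 = 3 := by omega
    simp only [h7, h9, or_false, false_or]
  unfold Pool.Agent.H38R2.CG.chi kron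
  rw [h2]

/-- `χ` is the Kronecker character of the fundamental discriminant `d`. -/
def IsChi (d : ℕ) (χ : DirichletCharacter ℂ d) : Prop :=
  ∀ n : ℕ, 1 ≤ n → χ (n : ZMod d) = (kron d n : ℂ)

theorem exists_isChi {d : ℕ} (h : FundDisc d) (h1 : 1 < d) :
    ∃ χ : DirichletCharacter ℂ d, χ ≠ 1 ∧ IsChi d χ := by
  obtain ⟨χ, hχ, hv⟩ := Pool.Agent.H38R2.CG.T_KR d ⟨h1, h⟩
  refine ⟨χ, hχ, fun n hn => ?_⟩
  rw [hv n hn, chi_eq_kron h]

theorem isChi_unique {d : ℕ} [NeZero d] {χ χ' : DirichletCharacter ℂ d} (h : IsChi d χ)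
    (h' : IsChi d χ') : χ = χ' := by
  ext a
  have h1 : ((a.val.val + d : ℕ) : ZMod d) = (a : ZMod d) := by
    push_cast
    rw [ZMod.natCast_zmod_val, ZMod.natCast_self, add_zero]
  have hd : 1 ≤ d := Nat.one_le_iff_ne_zero.2 (NeZero.ne d)
  have h2 := h (a.val.val + d) (by omega)
  have h3 := h' (a.val.val + d) (by omega)
  rw [h1] at h2 h3
  rw [h2, h3]

/-- `L(s, χ_d)` continued: the L-function of the character of `d`, zero if there is none. -/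
noncomputable def Lc (d : ℕ) (s : ℂ) : ℂ :=
  open scoped Classical in
  if h : ∃ χ : DirichletCharacter ℂ d, χ ≠ 1 ∧ IsChi d χ then
    if hd : NeZero d then DirichletCharacter.LFunction h.choose s else 0 else 0

theorem Lc_eq {d : ℕ} (hd : NeZero d) {χ : DirichletCharacter ℂ d} (h1 : χ ≠ 1) (h : IsChi d χ)
    (s : ℂ) : Lc d s = DirichletCharacter.LFunction χ s := by
  have hex : ∃ χ : DirichletCharacter ℂ d, χ ≠ 1 ∧ IsChi d χ := ⟨χ, h1, h⟩
  unfold Lc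
  rw [dif_pos hex, dif_pos hd]
  have := isChi_unique hex.choose_spec.2 h
  rw [this]

theorem Lc_eq_Lchi {d : ℕ} (h : FundDisc d) (h1 : 1 < d) {s : ℂ} (hs : 1 < s.re) :
    Lc d s = Lchi d s := by
  obtain ⟨χ, hχ, hχ'⟩ := exists_isChi h h1
  have hd : NeZero d := ⟨by omega⟩
  rw [Lc_eq hd hχ hχ', DirichletCharacter.LFunction_eq_LSeries χ hs]
  unfold Lchi
  refine LSeries_congr (fun {n} hn => ?_) s
  exact hχ' n (Nat.one_le_iff_ne_zero.2 hn)

theorem differentiable_Lc {d : ℕ} (h : FundDisc d) (h1 : 1 < d) : Differentiable ℂ (Lc d) := by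
  obtain ⟨χ, hχ, hχ'⟩ := exists_isChi h h1
  have hd : NeZero d := ⟨by omega⟩
  have : Lc d = DirichletCharacter.LFunction χ := funext (Lc_eq hd hχ hχ')
  rw [this]
  exact DirichletCharacter.differentiable_LFunction hχ

section crude

open Pool.Agent.H379R2.SW Finset

variable {q : ℕ} [NeZero q]

/-- the constant `∑ (m+1)^{-a-1}` -/
noncomputable def Ka (a : ℝ) : ℝ := ∑' m : ℕ, ((m : ℝ) + 1) ^ (-a - 1)

theorem summable_Ka {a : ℝ} (ha : 0 < a) : Summable (fun m : ℕ => ((m : ℝ) + 1) ^ (-a - 1)) := by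
  have h := (Real.summable_nat_rpow (p := -a - 1)).2 (by linarith)
  have h2 := (summable_nat_add_iff 1).2 h
  simpa using h2

theorem blk_bound (Φ : ZMod q → ℂ) (hΦ : ∀ j, ‖Φ j‖ ≤ 1) (h0 : ∑ j, Φ j = 0) {a : ℝ} (ha : 0 < a)
    (m : ℕ) {s : ℂ} (hs : a ≤ s.re) :
    ‖blk Φ m s‖ ≤ (q : ℝ) ^ 2 * ‖s‖ * ((m : ℝ) + 1) ^ (-a - 1) := by
  refine (blk_norm_le Φ hΦ h0 m (by linarith)).trans ?_
  have hq : (1 : ℝ) ≤ q := by exact_mod_cast NeZero.one_le
  have h1 : (m : ℝ) + 1 ≤ ((m * q + 1 : ℕ) : ℝ) := by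
    push_cast
    nlinarith [(Nat.cast_nonneg m : (0 : ℝ) ≤ m)]
  have h2 : ((m * q + 1 : ℕ) : ℝ) ^ (-s.re - 1) ≤ ((m : ℝ) + 1) ^ (-s.re - 1) :=
    Real.rpow_le_rpow_of_nonpos (by positivity) h1 (by linarith)
  have h3 : ((m : ℝ) + 1) ^ (-s.re - 1) ≤ ((m : ℝ) + 1) ^ (-a - 1) :=
    Real.rpow_le_rpow_of_exponent_le (by linarith [(Nat.cast_nonneg m : (0 : ℝ) ≤ m)]) (by linarith)
  have := h2.trans h3
  gcongr

theorem tsum_blk_differentiableAt' (Φ : ZMod q → ℂ) (hΦ : ∀ j, ‖Φ j‖ ≤ 1) (h0 : ∑ j, Φ j = 0)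
    {s : ℂ} (hs : 0 < s.re) : DifferentiableAt ℂ (fun s => ∑' m, blk Φ m s) s := by
  set a := s.re / 2 with ha
  have ha0 : 0 < a := by positivity
  set U : Set ℂ := {w | a < w.re} ∩ Metric.ball 0 (‖s‖ + 1) with hU
  have hUo : IsOpen U := (isOpen_lt continuous_const continuous_re).inter Metric.isOpen_ball
  have hsU : s ∈ U := ⟨show a < s.re by rw [ha]; linarith, by simp⟩
  have hd : DifferentiableOn ℂ (fun s => ∑' m, blk Φ m s) U := by
    refine Complex.differentiableOn_tsum_of_summable_norm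
      (u := fun m : ℕ => (q : ℝ) ^ 2 * (‖s‖ + 1) * ((m : ℝ) + 1) ^ (-a - 1))
      ((summable_Ka ha0).mul_left _) (fun m => (blk_differentiable Φ m).differentiableOn) hUo
      (fun m w hw => ?_)
    refine (blk_bound Φ hΦ h0 ha0 m (le_of_lt hw.1)).trans ?_
    have h1 : ‖w‖ ≤ ‖s‖ + 1 := by
      have := hw.2
      rw [Metric.mem_ball, dist_zero_right] at this
      exact this.le
    gcongr
  exact hd.differentiableAt (hUo.mem_nhds hsU)

theorem LFunction_eq_tsum' (Φ : ZMod q → ℂ) (hΦ : ∀ j, ‖Φ j‖ ≤ 1) (h0 : ∑ j, Φ j = 0)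
    {s : ℂ} (hs : 0 < s.re) : ZMod.LFunction Φ s = ∑' m, blk Φ m s := by
  set V : Set ℂ := {w | 0 < w.re} with hV
  have hVo : IsOpen V := isOpen_lt continuous_const continuous_re
  have hVc : IsPreconnected V := (convex_halfSpace_re_gt 0).isPreconnected
  have h1 : AnalyticOnNhd ℂ (ZMod.LFunction Φ) V :=
    (ZMod.differentiable_LFunction_of_sum_zero h0).differentiableOn.analyticOnNhd hVo
  have h2 : AnalyticOnNhd ℂ (fun s => ∑' m, blk Φ m s) V := by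
    refine DifferentiableOn.analyticOnNhd (fun w hw => ?_) hVo
    exact (tsum_blk_differentiableAt' Φ hΦ h0 hw).differentiableWithinAt
  have h3 : ZMod.LFunction Φ =ᶠ[𝓝 (2 : ℂ)] fun s => ∑' m, blk Φ m s := by
    have : {w : ℂ | 1 < w.re} ∈ 𝓝 (2 : ℂ) :=
      (isOpen_lt continuous_const continuous_re).mem_nhds (by simp)
    filter_upwards [this] with w hw
    exact LFunction_eq_tsum_of_one_lt Φ hΦ h0 hw
  exact h1.eqOn_of_preconnected_of_eventuallyEq h2 hVc (show (0 : ℝ) < (2 : ℂ).re by simp) h3 hs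

theorem LFunction_crude (Φ : ZMod q → ℂ) (hΦ : ∀ j, ‖Φ j‖ ≤ 1) (h0 : ∑ j, Φ j = 0) {a : ℝ}
    (ha : 0 < a) {s : ℂ} (hs : a ≤ s.re) :
    ‖ZMod.LFunction Φ s‖ ≤ Ka a * (q : ℝ) ^ 2 * ‖s‖ := by
  rw [LFunction_eq_tsum' Φ hΦ h0 (by linarith)]
  refine (tsum_of_norm_bounded (((summable_Ka ha).mul_left ((q : ℝ) ^ 2 * ‖s‖)).hasSum)
    (fun m => blk_bound Φ hΦ h0 ha m hs)).trans ?_
  rw [tsum_mul_left]
  unfold Ka
  exact le_of_eq (by ring)

end crude

theorem Ka_nonneg (a : ℝ) : 0 ≤ Ka a := tsum_nonneg fun m => by positivity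

/-- The crude bound. -/
theorem Lc_crude {d : ℕ} (h : FundDisc d) (h1 : 1 < d) {a : ℝ} (ha : 0 < a) {s : ℂ}
    (hs : a ≤ s.re) : ‖Lc d s‖ ≤ Ka a * (d : ℝ) ^ 2 * ‖s‖ := by
  obtain ⟨χ, hχ, hχ'⟩ := exists_isChi h h1
  have hd : NeZero d := ⟨by omega⟩
  rw [Lc_eq hd hχ hχ']
  exact LFunction_crude (fun j => χ j) (fun j => DirichletCharacter.norm_le_one χ j)
    (MulChar.sum_eq_zero_of_ne_one hχ) ha hs

theorem Lc_norm_right {d : ℕ} (h : FundDisc d) (h1 : 1 < d) {s : ℂ} (hs : 1 < s.re) :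
    ‖Lc d s‖ ≤ Zc s.re := by
  rw [Lc_eq_Lchi h h1 hs]
  exact norm_LSeries_le (norm_kron_le d) hs

end Pool.Agent.Q48.MDS
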