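import Pool.Agent.Q48.MDS.Tsum

/-!
# The multiple Dirichlet series with the continued L-functions
-/

set_option autoImplicit false
set_option linter.unusedSectionVars false

open MeasureTheory Set Filter Topology Metric Complex

namespace Pool.Agent.Q48.MDS

section algebra

variable {ι : Type*} [Fintype ι] [DecidableEq ι] {Ω : Set (ι → ℝ)}

theorem Tempered.mul {G G' : (ι → ℂ) → ℂ} (hG : Tempered Ω G) (hG' : Tempered Ω G') :
    Tempered Ω (fun z => G z * G' z) := by
  refine ⟨hG.1.mul hG'.1, fun K hK hc => ?_⟩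
  obtain ⟨C, N, h1⟩ := hG.2 K hK hc
  obtain ⟨C', N', h2⟩ := hG'.2 K hK hc
  refine ⟨|C| * |C'|, N + N', fun z hz => ?_⟩
  have e1 : ‖G z‖ ≤ |C| * (1 + ‖fun i => (z i).im‖) ^ N := (h1 z hz).trans (by
    gcongr; exact le_abs_self C)
  have e2 : ‖G' z‖ ≤ |C'| * (1 + ‖fun i => (z i).im‖) ^ N' := (h2 z hz).trans (by
    gcongr; exact le_abs_self C')
  rw [norm_mul]
  calc ‖G z‖ * ‖G' z‖ ≤ (|C| * (1 + ‖fun i => (z i).im‖) ^ N) *
        (|C'| * (1 + ‖fun i => (z i).im‖) ^ N') := by gcongr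
    _ = _ := by ring

theorem tempered_const (c : ℂ) : Tempered Ω (fun _ => c) :=
  ⟨differentiableOn_const _, fun K _ _ => ⟨‖c‖, 0, fun z _ => by simp⟩⟩

theorem tempered_finsetProd {β : Type*} (s : Finset β) (g : β → (ι → ℂ) → ℂ)
    (h : ∀ b, Tempered Ω (g b)) : Tempered Ω (fun z => ∏ b ∈ s, g b z) := by
  classical
  induction s using Finset.induction_on with
  | empty => simpa using tempered_const (Ω := Ω) 1
  | insert b s hb ih =>
    have : (fun z => ∏ b ∈ insert b s, g b z) = fun z => g b z * ∏ b ∈ s, g b z := by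
      funext z; rw [Finset.prod_insert hb]
    rw [this]
    exact (h b).mul ih

end algebra

theorem tempered_sigma {k : ℕ} {Ω : Set (Fin (k + 1) → ℝ)} (J : Finset (Fin k)) :
    Tempered Ω (fun z => sigma J z - 1) := by
  refine ⟨((differentiable_sigma J).sub_const _).differentiableOn, fun K hK hc => ?_⟩
  -- the real part is bounded, the imaginary part is at most `(k + 1) ‖im‖`
  obtain ⟨E, hE⟩ := (hc.image ((continuous_rsig J).sub continuous_const (f := rsig J)
    (g := fun _ => (1 : ℝ))).norm).bddAbove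
  refine ⟨|E| + (k + 1), 1, fun z hz => ?_⟩
  have h1 : |(sigma J z - 1).re| ≤ |E| := by
    have h2 : (sigma J z - 1).re = rsig J (fun i => (z i).re) - 1 := by
      rw [Complex.sub_re, sigma_re, Complex.one_re]
    rw [h2]
    exact (hE ⟨_, hz, rfl⟩).trans (le_abs_self E)
  have h3 : |(sigma J z - 1).im| ≤ (k + 1) * ‖fun i => (z i).im‖ := by
    have h4 : (sigma J z - 1).im = (z 0).im + ∑ j ∈ J, (z j.succ).im := by
      unfold sigma
      rw [Complex.sub_im, Complex.add_im, Complex.sub_im, Complex.im_sum, Complex.one_im]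
      have : ((J.card : ℂ) / 2).im = 0 := by
        have h5 : ((J.card : ℂ) / 2) = (((J.card : ℝ) / 2 : ℝ) : ℂ) := by push_cast; rfl
        rw [h5, Complex.ofReal_im]
      rw [this]; ring
    rw [h4]
    have h5 : |(z 0).im| ≤ ‖fun i => (z i).im‖ := norm_le_pi_norm (fun i => (z i).im) 0
    have h6 : |∑ j ∈ J, (z j.succ).im| ≤ k * ‖fun i => (z i).im‖ := by
      calc |∑ j ∈ J, (z j.succ).im| ≤ ∑ j ∈ J, |(z j.succ).im| := Finset.abs_sum_le_sum_abs _ _
        _ ≤ ∑ _j ∈ J, ‖fun i => (z i).im‖ :=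
            Finset.sum_le_sum fun j _ => norm_le_pi_norm (fun i => (z i).im) j.succ
        _ = J.card * ‖fun i => (z i).im‖ := by simp
        _ ≤ k * ‖fun i => (z i).im‖ := by
            gcongr
            simpa using Finset.card_le_univ J
    calc |(z 0).im + ∑ j ∈ J, (z j.succ).im| ≤ |(z 0).im| + |∑ j ∈ J, (z j.succ).im| :=
          abs_add_le _ _
      _ ≤ ‖fun i => (z i).im‖ + k * ‖fun i => (z i).im‖ := add_le_add h5 h6
      _ = _ := by ring
  have h7 := Complex.norm_le_abs_re_add_abs_im (sigma J z - 1)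
  have h8 := norm_nonneg (fun i => (z i).im)
  rw [pow_one]
  have h9 := abs_nonneg E
  have hk : (0 : ℝ) ≤ k := Nat.cast_nonneg k
  nlinarith [mul_nonneg h9 h8]

theorem tempered_polar {k : ℕ} {Ω : Set (Fin (k + 1) → ℝ)} :
    Tempered Ω (fun z => ∏ J : Finset (Fin k), (sigma J z - 1)) :=
  tempered_finsetProd _ _ fun J => tempered_sigma J

/-- positive fundamental discriminants greater than 1 -/
abbrev DD : Type := {d : ℕ // FundDisc d ∧ 1 < d}

/-- the terms of the continued series -/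
noncomputable def cf (k M : ℕ) (d : DD) (z : Fin (k + 1) → ℂ) : ℂ :=
  (kron d M : ℂ) * (d : ℂ) ^ (-(z 0)) * ∏ j : Fin k, Lc d (z j.succ)

/-- the continued function -/
noncomputable def Bc (k M : ℕ) (z : Fin (k + 1) → ℂ) : ℂ :=
  (∑' d : DD, cf k M d z) * ∏ J : Finset (Fin k), (sigma J z - 1)

theorem Lchi_one {s : ℂ} (hs : 1 < s.re) : Lchi 1 s = riemannZeta s := by
  rw [← LSeries_one_eq_riemannZeta hs]
  unfold Lchi
  refine LSeries_congr (fun {n} hn => ?_) s
  rw [kron_one_left]; simp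

theorem A_sub_zeta (k M : ℕ) {z : Fin (k + 1) → ℂ} (hz : z ∈ tube (orth (k + 1))) :
    A k M z - ∏ j : Fin k, riemannZeta (z j.succ) = ∑' d : DD, cf k M d z := by
  have hf1 : FundDisc 1 := Or.inl ⟨rfl, squarefree_one⟩
  have h1 : A k M z = coef k M z ⟨1, hf1⟩ +
      ∑' d : {d : ℕ // FundDisc d}, if d = ⟨1, hf1⟩ then 0 else coef k M z d := by
    have := (summable_coef k M hz).tsum_eq_add_tsum_ite ⟨1, hf1⟩
    exact this
  have h2 : coef k M z ⟨1, hf1⟩ = ∏ j : Fin k, riemannZeta (z j.succ) := by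
    unfold coef
    rw [kron_one_left]
    simp only [Int.cast_one, Nat.cast_one, Complex.one_cpow, one_mul]
    exact Finset.prod_congr rfl fun j _ => Lchi_one (hz j.succ)
  rw [h1, h2, add_sub_cancel_left]
  -- both sums as sums over `ℕ`
  have h3 : ∑' d : {d : ℕ // FundDisc d}, (if d = ⟨1, hf1⟩ then 0 else coef k M z d) =
      ∑' d : ℕ, ({d : ℕ | FundDisc d}).indicator (fun d => if d = 1 then 0 else
        (kron d M : ℂ) * (d : ℂ) ^ (-(z 0)) * ∏ j : Fin k, Lchi d (z j.succ)) d := by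
    rw [← tsum_subtype]
    congr 1
    funext d
    have h4 : (d = ⟨1, hf1⟩) ↔ ((d : ℕ) = 1) := by
      rw [Subtype.ext_iff]
    by_cases h : (d : ℕ) = 1
    · rw [if_pos (h4.2 h)]
      show _ = if (d : ℕ) = 1 then (0 : ℂ) else _
      rw [if_pos h]
    · rw [if_neg (fun h5 => h (h4.1 h5))]
      show _ = if (d : ℕ) = 1 then (0 : ℂ) else _
      rw [if_neg h]
      rfl
  have h5 : ∑' d : DD, cf k M d z = ∑' d : ℕ, ({d : ℕ | FundDisc d ∧ 1 < d}).indicator (fun d =>
        (kron d M : ℂ) * (d : ℂ) ^ (-(z 0)) * ∏ j : Fin k, Lchi d (z j.succ)) d := by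
    rw [← tsum_subtype]
    congr 1
    funext d
    show cf k M d z = (kron d M : ℂ) * (d : ℂ) ^ (-(z 0)) * ∏ j : Fin k, Lchi d (z j.succ)
    unfold cf
    congr 1
    exact Finset.prod_congr rfl fun j _ => Lc_eq_Lchi d.2.1 d.2.2 (hz j.succ)
  rw [h3, h5]
  congr 1
  funext d
  by_cases hd : FundDisc d
  · rw [indicator_of_mem (show d ∈ {d : ℕ | FundDisc d} from hd)]
    by_cases h : d = 1
    · rw [if_pos h, indicator_of_notMem]
      rintro ⟨_, h6⟩; omega
    · rw [if_neg h, indicator_of_mem]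
      exact ⟨hd, by have := fund_pos hd; omega⟩
  · rw [indicator_of_notMem (show d ∉ {d : ℕ | FundDisc d} from hd), indicator_of_notMem]
    exact fun h6 => hd h6.1

theorem Bc_eq_F (k M : ℕ) : EqOn (Bc k M) (F k M) (tube (orth (k + 1))) := by
  intro z hz
  unfold Bc F
  rw [A_sub_zeta k M hz]

theorem differentiable_cf (k M : ℕ) (d : DD) : Differentiable ℂ (cf k M d) := by
  unfold cf
  have hd0 : ((d : ℕ) : ℂ) ≠ 0 := by
    have := d.2.2
    exact_mod_cast (by omega : (d : ℕ) ≠ 0)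
  refine Differentiable.mul (Differentiable.const_mul ?_ _) ?_
  · exact Differentiable.const_cpow (differentiable_apply 0).neg (Or.inl hd0)
  · have h1 : Differentiable ℂ (fun z : Fin (k + 1) → ℂ => ∏ j : Fin k, Lc d (z j.succ)) :=
      fun z => (HasFDerivAt.finsetProd (g := fun (j : Fin k) (z : Fin (k + 1) → ℂ) =>
        Lc d (z j.succ)) (fun j _ => (((differentiable_Lc d.2.1 d.2.2).comp
          (differentiable_apply j.succ)) z).hasFDerivAt)).differentiableAt
    exact h1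

/-- The continued function is tempered wherever its terms are dominated by `d^{-b}`, `b > 1`. -/
theorem tempered_Bc {k M : ℕ} {Ω : Set (Fin (k + 1) → ℝ)} (hΩ : IsOpen Ω)
    (hb : ∀ K ⊆ Ω, IsCompact K → ∃ (C b : ℝ) (N : ℕ), 0 ≤ C ∧ 1 < b ∧
      ∀ z : Fin (k + 1) → ℂ, (fun i => (z i).re) ∈ K → ∀ d : DD,
        ((d : ℕ) : ℝ) ^ (-(z 0).re) * ∏ j : Fin k, ‖Lc d (z j.succ)‖ ≤
          C * ((d : ℕ) : ℝ) ^ (-b) * (1 + ‖fun i => (z i).im‖) ^ N) :
    Tempered Ω (Bc k M) := by
  refine Tempered.mul ?_ tempered_polar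
  refine tempered_tsum hΩ (fun d z => cf k M d z)
    (fun d => (differentiable_cf k M d).differentiableOn) (fun K hK hc => ?_)
  obtain ⟨C, b, N, hC, hb1, hbd⟩ := hb K hK hc
  refine ⟨fun d : DD => C * ((d : ℕ) : ℝ) ^ (-b), N, ?_, fun d => by positivity, fun z hz d => ?_⟩
  · refine Summable.mul_left _ ?_
    exact (Real.summable_nat_rpow.2 (show -b < -1 by linarith)).comp_injective
      Subtype.val_injective
  · refine le_trans ?_ (hbd z hz d)
    unfold cf
    rw [norm_mul, norm_mul, norm_prod]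
    have h1 := norm_kron_le d M
    have hd : 1 ≤ (d : ℕ) := by have := d.2.2; omega
    have h2 : ‖((d : ℕ) : ℂ) ^ (-(z 0))‖ = ((d : ℕ) : ℝ) ^ (-(z 0).re) := by
      rw [Complex.norm_natCast_cpow_of_pos hd]; simp
    rw [h2]
    calc _ ≤ 1 * ((d : ℕ) : ℝ) ^ (-(z 0).re) * ∏ j : Fin k, ‖Lc d (z j.succ)‖ := by gcongr
      _ = _ := by rw [one_mul]

end Pool.Agent.Q48.MDS
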