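import Pool.Agent.Q48.MDS.ThmA

/-!
# Continuation above the central point and bounds on the critical line
-/

set_option autoImplicit false
set_option linter.unusedSectionVars false

open MeasureTheory Set Filter Topology Metric Complex
open scoped ComplexConjugate

namespace Pool.Agent.Q48.MDS

/-- The bound `L(1/2 + it, χ_d) ≪ d^{θ + ε} (1 + |t|)^N`, with some `N = N(ε)`, for all positive
fundamental discriminants `d > 1`; `χ` is the Dirichlet character modulo `d` given by the Kronecker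
symbol `(d/·)`, and `χ.LFunction` its (entire) L-function. -/
def CriticalBound (θ : ℝ) : Prop :=
  ∀ ε : ℝ, 0 < ε → ∃ (C : ℝ) (N : ℕ), ∀ d : ℕ, FundDisc d → 1 < d → ∀ [NeZero d]
    (χ : DirichletCharacter ℂ d), (∀ n : ℕ, 1 ≤ n → χ (n : ZMod d) = (kron d n : ℂ)) →
    ∀ t : ℝ, ‖DirichletCharacter.LFunction χ (1 / 2 + I * t)‖ ≤
      C * (d : ℝ) ^ (θ + ε) * (1 + |t|) ^ N

theorem criticalBound_iff (θ : ℝ) : CriticalBound θ ↔
    ∀ ε : ℝ, 0 < ε → ∃ (C : ℝ) (N : ℕ), ∀ (d : DD) (t : ℝ),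
      ‖Lc d (1 / 2 + I * t)‖ ≤ C * ((d : ℕ) : ℝ) ^ (θ + ε) * (1 + |t|) ^ N := by
  constructor
  · intro h ε hε
    obtain ⟨C, N, hC⟩ := h ε hε
    refine ⟨C, N, fun d t => ?_⟩
    obtain ⟨χ, hχ, hχ'⟩ := exists_isChi d.2.1 d.2.2
    have hd : NeZero (d : ℕ) := ⟨by have := d.2.2; omega⟩
    rw [Lc_eq hd hχ hχ']
    exact hC d d.2.1 d.2.2 χ hχ' t
  · intro h ε hε
    obtain ⟨C, N, hC⟩ := h ε hε
    refine ⟨C, N, fun d hf h1 hd χ hχ t => ?_⟩
    obtain ⟨χ', h3, h4⟩ := exists_isChi hf h1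
    have h5 : χ = χ' := isChi_unique hχ h4
    subst h5
    have := hC ⟨d, hf, h1⟩ t
    rwa [Lc_eq hd h3 h4] at this

theorem pt_sn (k : ℕ) (w : ℝ) : sn (pt k w) (1 / 2 : ℝ) = pt (k + 1) w := by
  funext i
  refine Fin.cases ?_ (fun j => ?_) i
  · rw [sn_zero]; simp [pt]
  · refine Fin.lastCases ?_ (fun l => ?_) j
    · rw [sn_succ_last]; simp [pt]
    · rw [sn_succ]; simp [pt]

theorem pt_drop {k : ℕ} {w : ℝ} (h : ContinuesTo (k + 1) 1 (pt (k + 1) w)) :
    ContinuesTo k 1 (pt k w) := by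
  rw [← pt_sn] at h
  exact continuesTo_drop (m := 1) le_rfl le_rfl h

theorem bound_of_infinitely_many {θ : ℝ} (hθ : 0 ≤ θ) (c : ℝ)
    (h : ∀ K : ℕ, ∃ k ≥ K, ContinuesTo k 1 (pt k (c + k * θ))) : CriticalBound θ := by
  rw [criticalBound_iff]
  intro ε hε
  set A : ℝ := |c| + θ + 2 with hA
  have hA0 : 0 < A := by rw [hA]; positivity
  obtain ⟨K, hK⟩ := exists_nat_gt (A / ε)
  obtain ⟨k, hk, hck⟩ := h (K + 3)
  -- an even number of variables
  obtain ⟨m, hm1, hm2, hm3⟩ : ∃ m : ℕ, m + m ≤ k ∧ k ≤ m + m + 1 ∧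
      ContinuesTo (m + m) 1 (pt (m + m) (c + k * θ)) := by
    rcases Nat.even_or_odd' k with ⟨m, hm | hm⟩
    · refine ⟨m, by omega, by omega, ?_⟩
      have e : k = m + m := by omega
      have h2 : ∀ (k' : ℕ), k = k' → ContinuesTo k' 1 (pt k' (c + k * θ)) := by
        rintro k' rfl; exact hck
      exact h2 _ e
    · refine ⟨m, by omega, by omega, ?_⟩
      have h2 : ∀ (k' : ℕ), k = k' → ContinuesTo k' 1 (pt k' (c + k * θ)) := by
        rintro k' rfl; exact hck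
      exact pt_drop (h2 (m + m + 1) (by omega))
  have hm : 1 ≤ m := by omega
  set w : ℝ := max (c + k * θ) 1 with hw
  have h4 : ContinuesTo (m + m) 1 (pt (m + m) w) := hm3.up (pt_mono _ (le_max_left _ _))
  obtain ⟨C, N, hC0, hC⟩ := bound_of_continuesTo hm (le_max_right _ _) h4 one_pos
  refine ⟨C, N, fun d t => (hC d t).trans ?_⟩
  have hd : (1 : ℝ) ≤ ((d : ℕ) : ℝ) := by
    have := d.2.2
    exact_mod_cast (by omega : 1 ≤ (d : ℕ))
  have hm0 : (0 : ℝ) < 2 * (m : ℝ) := by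
    have : (1 : ℝ) ≤ m := by exact_mod_cast hm
    linarith
  have hexp : (w + 1) / (2 * m) ≤ θ + ε := by
    rw [div_le_iff₀ hm0]
    have hkm : (k : ℝ) ≤ 2 * m + 1 := by
      have : (k : ℝ) ≤ ((m + m + 1 : ℕ) : ℝ) := by exact_mod_cast hm2
      push_cast at this
      linarith
    have h5 : w ≤ |c| + k * θ + 1 := by
      rw [hw]
      have e1 : c ≤ |c| := le_abs_self c
      have e2 : 0 ≤ |c| := abs_nonneg c
      have e3 : 0 ≤ (k : ℝ) * θ := by positivity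
      apply max_le <;> linarith
    have h6 : (k : ℝ) * θ ≤ (2 * m + 1) * θ := by gcongr
    have h7 : A ≤ ε * (2 * m) := by
      have h8 : A / ε < K := hK
      rw [div_lt_iff₀ hε] at h8
      have h9 : (K : ℝ) ≤ 2 * m := by
        have h10 : K ≤ m + m := by omega
        have : (K : ℝ) ≤ ((m + m : ℕ) : ℝ) := by exact_mod_cast h10
        push_cast at this
        linarith
      nlinarith
    rw [hA] at h7
    nlinarith
  have h8 : ((d : ℕ) : ℝ) ^ ((w + 1) / (2 * m)) ≤ ((d : ℕ) : ℝ) ^ (θ + ε) :=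
    Real.rpow_le_rpow_of_exponent_le hd hexp
  gcongr

theorem continuesTo_iff_bound {θ : ℝ} (hθ : 0 ≤ θ) :
    (CriticalBound θ ↔ ∀ k M : ℕ, 1 ≤ k → 1 ≤ M → ∀ w : ℝ, 1 + k * θ < w →
      ContinuesTo k M (pt k w)) ∧
    (CriticalBound θ ↔ ∃ c : ℝ, ∀ K : ℕ, ∃ k ≥ K, ContinuesTo k 1 (pt k (c + k * θ))) := by
  have h1 : CriticalBound θ → ∀ k M : ℕ, ∀ w : ℝ, 1 + k * θ < w → ContinuesTo k M (pt k w) := by
    intro h k M w hw
    exact continuesTo_of_bound hθ ((criticalBound_iff θ).1 h) k M hw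
  have h2 : (∃ c : ℝ, ∀ K : ℕ, ∃ k ≥ K, ContinuesTo k 1 (pt k (c + k * θ))) →
      CriticalBound θ := by
    rintro ⟨c, hc⟩
    exact bound_of_infinitely_many hθ c hc
  refine ⟨⟨fun h k M _ _ w hw => h1 h k M w hw, fun h => h2 ⟨2, fun K => ?_⟩⟩,
    ⟨fun h => ⟨2, fun K => ⟨K, le_rfl, h1 h K 1 _ (by linarith)⟩⟩, h2⟩⟩
  exact ⟨K + 1, by omega, h (K + 1) 1 (by omega) le_rfl _ (by push_cast; linarith)⟩

theorem center_eq_pt (k : ℕ) : center k = pt k 1 := rfl

/-- Q1, even only for `M = 1` and infinitely many `k`, implies the Lindelöf bound. -/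
theorem lindelof_of_center (h : ∀ K : ℕ, ∃ k ≥ K, ContinuesTo k 1 (center k)) :
    CriticalBound 0 := by
  refine bound_of_infinitely_many le_rfl 1 fun K => ?_
  obtain ⟨k, hk, hc⟩ := h K
  refine ⟨k, hk, ?_⟩
  rw [center_eq_pt] at hc
  simpa using hc

/-- a single even `k` -/
theorem bound_of_even {m : ℕ} (hm : 1 ≤ m) {w : ℝ}
    (h : ContinuesTo (2 * m) 1 (pt (2 * m) w)) : CriticalBound (max w 1 / (2 * m)) := by
  rw [criticalBound_iff]
  intro ε hε
  rw [two_mul] at h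
  have hm0 : (0 : ℝ) < 2 * (m : ℝ) := by
    have : (1 : ℝ) ≤ m := by exact_mod_cast hm
    linarith
  obtain ⟨C, N, hC0, hC⟩ := bound_of_continuesTo hm (le_max_right w 1)
    (h.up (pt_mono _ (le_max_left _ _))) (ε := ε * (2 * m)) (by positivity)
  refine ⟨C, N, fun d t => ?_⟩
  have h1 := hC d t
  have h2 : (max w 1 + ε * (2 * m)) / (2 * m) = max w 1 / (2 * m) + ε := by
    field_simp
  rwa [h2] at h1

end Pool.Agent.Q48.MDS
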