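import Pool.Agent.Q48.MDS.TubeFlat
import Pool.Agent.Q48.MDS.Lind

/-!
# Continuation at the central points and the one-variable series on the critical line
-/

set_option autoImplicit false
set_option linter.unusedSectionVars false

open MeasureTheory Set Filter Topology Metric Complex

namespace Pool.Agent.Q48.MDS

/-- The Dirichlet series `∑_{d > 1} χ_d(M) ∏_j L(1/2 + i t_j, χ_d) d^{-w}` over the fundamental
discriminants `d > 1`. -/
noncomputable def crit (k M : ℕ) (t : Fin k → ℝ) (w : ℂ) : ℂ :=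
  ∑' d : DD, (kron d M : ℂ) * (d : ℂ) ^ (-w) * ∏ j : Fin k, Lc d (1 / 2 + I * (t j : ℂ))

/-- The exponents `ρ_J(t) = 1 - i ∑_{j ∈ J} t_j`. -/
noncomputable def rho {k : ℕ} (t : Fin k → ℝ) (J : Finset (Fin k)) : ℂ :=
  1 - I * ∑ j ∈ J, (t j : ℂ)

/-- For all real `t` the function `∏_J (w - ρ_J(t)) ∑_{d > 1} χ_d(M) ∏_j L(1/2 + i t_j, χ_d) d^{-w}`
of the single variable `w` continues holomorphically to `Re w > c` for some `c < w₀`, with a
polynomial bound in `t` and `Im w` which is uniform in `c < Re w ≤ 2k + 3`.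
(The series converges absolutely for `Re w > 2k + 1`.) -/
def CritContinues (k M : ℕ) (w₀ : ℝ) : Prop :=
  ∃ (c C : ℝ) (N : ℕ) (g : (Fin k → ℝ) → ℂ → ℂ), c < w₀ ∧ ∀ t : Fin k → ℝ,
    DifferentiableOn ℂ (g t) {w | c < w.re} ∧
    (∀ w : ℂ, c < w.re → w.re ≤ 2 * k + 3 → ‖g t w‖ ≤ C * (1 + ‖t‖ + |w.im|) ^ N) ∧
    ∀ w : ℂ, c < w.re → 2 * (k : ℝ) + 1 < w.re →
      g t w = crit k M t w * ∏ J : Finset (Fin k), (w - rho t J)

/-- the centre -/
noncomputable abbrev hf (k : ℕ) : Fin k → ℝ := fun _ => 1 / 2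

theorem xx_hf (k : ℕ) (x : ℝ) : xx (hf k) x = pt k x := rfl

theorem Bc_zz (k M : ℕ) (t : Fin k → ℝ) (w : ℂ) :
    Bc k M (zz (hf k) t w) = crit k M t w * ∏ J : Finset (Fin k), (w - rho t J) := by
  unfold Bc crit cf
  have h1 : ∀ j : Fin k, zz (hf k) t w j.succ = 1 / 2 + I * (t j : ℂ) := by
    intro j; rw [zz_succ]; simp [hf]
  congr 1
  · refine tsum_congr fun d => ?_
    rw [zz_zero]
    simp only [h1]
  · refine Finset.prod_congr rfl fun J _ => ?_
    unfold sigma rho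
    simp only [h1, zz_zero]
    rw [Finset.sum_add_distrib, ← Finset.mul_sum]
    simp
    ring

theorem mem_Ocr_pt {k : ℕ} {x : ℝ} (hx : 2 * (k : ℝ) + 1 < x) : pt k x ∈ Ocr k := by
  refine ⟨hx, fun j => ?_⟩
  rw [pt_succ]; norm_num

theorem zz_mem_tube {k : ℕ} {P : Set (Fin (k + 1) → ℝ)} {t : Fin k → ℝ} {w : ℂ}
    (h : pt k w.re ∈ P) : zz (hf k) t w ∈ tube P := by
  show (fun i => (zz (hf k) t w i).re) ∈ P
  have : (fun i => (zz (hf k) t w i).re) = pt k w.re := by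
    funext i; rw [zz_re, xx_hf]
  rwa [this]

/-- glueing with the orthant -/
theorem continuesTo_of_tempered {k M : ℕ} {P : Set (Fin (k + 1) → ℝ)} (hPo : IsOpen P)
    (hPc : Convex ℝ P) (hs : Ocr k ⊆ P) {G : (Fin (k + 1) → ℂ) → ℂ} (hG : Tempered P G)
    (he : EqOn G (Bc k M) (tube (Ocr k))) {p : Fin (k + 1) → ℝ} (hp : p ∈ P) :
    ContinuesTo k M p := by
  have hmem : (fun _ => 2 * (k : ℝ) + 2 : Fin (k + 1) → ℝ) ∈ orth (k + 1) ∩ Ocr k := by
    have : (0 : ℝ) ≤ k := Nat.cast_nonneg k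
    refine ⟨fun i => ?_, ?_, fun j => ?_⟩
    · linarith
    · show 2 * (k : ℝ) + 1 < 2 * (k : ℝ) + 2
      linarith
    · show 1 / 4 < 2 * (k : ℝ) + 2
      linarith
  have hEq : EqOn G (Bc k M) (tube (P ∩ orth (k + 1))) := by
    refine eqOn_tube ((isOpen_orth (k + 1)).inter (isOpen_Ocr k)) ⟨_, hmem⟩
      (hPo.inter (isOpen_orth _)) (hPc.inter (convex_orth _)) (fun x hx => ⟨hs hx.2, hx.1⟩)
      (hG.1.mono fun z hz => hz.1) ((tempered_Bc_orth k M).1.mono fun z hz => hz.2)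
      (fun z hz => he hz.2)
  obtain ⟨G', hG', hG1, hG2⟩ := tempered_glue hPo (isOpen_orth (k + 1)) hG
    (tempered_Bc_orth k M) hEq
  refine ⟨P ∪ orth (k + 1), hPo.union (isOpen_orth _), ⟨⟨p, Or.inl hp⟩, ?_⟩,
    subset_union_right, Or.inl hp, G', hG', fun z hz => ?_⟩
  · exact IsPreconnected.union _ (hs hmem.2) hmem.1 hPc.isPreconnected (convex_orth _).isPreconnected
  · rw [hG2 hz, Bc_eq_F k M hz]

theorem continuesTo_of_crit {k M : ℕ} {w₀ : ℝ} (h : CritContinues k M w₀) :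
    ContinuesTo k M (pt k w₀) := by
  rcases lt_or_ge (2 * (k : ℝ) + 1) w₀ with hw | hw
  · exact continuesTo_of_tempered (isOpen_Ocr k) (convex_Ocr k) subset_rfl
      (tempered_Bc_crude k M) (fun z _ => rfl) (mem_Ocr_pt hw)
  · obtain ⟨c, C, N, g, hc, hg⟩ := h
    set a : ℝ := (c + w₀) / 2 with ha
    have hca : c < a := by rw [ha]; linarith
    have haw : a < w₀ := by rw [ha]; linarith
    obtain ⟨P, G, hPo, hPc, hs, hPx, hG, hGF⟩ := tube_flat (σ := hf k) (a := a)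
      (W := 2 * (k : ℝ) + 2) (isOpen_Ocr k)
      ⟨⟨pt k (2 * (k : ℝ) + 2), mem_Ocr_pt (by linarith)⟩, (convex_Ocr k).isPreconnected⟩
      (tempered_Bc_crude k M) (by linarith) (mem_Ocr_pt (by linarith)) (g := g) (C := C) (N := N)
      (fun t => (hg t).1.mono fun w hw => show c < w.re from hca.trans_le hw.1)
      (fun t w h1 h2 => (hg t).2.1 w (hca.trans_le h1) (by linarith))
      (fun t w hw => by
        rw [Bc_zz]
        exact (hg t).2.2 w (by rw [hw]; linarith) (by rw [hw]; linarith))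
    exact continuesTo_of_tempered hPo hPc hs hG hGF (hPx w₀ haw (by linarith))

theorem continuous_pt (k : ℕ) : Continuous (pt k) := by
  refine continuous_pi fun i => ?_
  refine Fin.cases ?_ (fun j => ?_) i
  · exact continuous_id
  · simp only [pt_succ]
    exact continuous_const

theorem crit_of_continuesTo {k M : ℕ} {w₀ : ℝ} (h : ContinuesTo k M (pt k w₀)) :
    CritContinues k M w₀ := by
  obtain ⟨Ω, hΩo, hΩc, hsub, hp, G₀, hG₀, hGeq⟩ := h
  obtain ⟨G, hG, hGG⟩ := bochner hΩo hΩc hG₀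
  set W := convexHull ℝ Ω with hW
  have hΩW : Ω ⊆ W := subset_convexHull ℝ Ω
  have hWo : IsOpen W := hΩo.convexHull
  have hWc : Convex ℝ W := convex_convexHull ℝ Ω
  have hWorth : orth (k + 1) ⊆ W := hsub.trans hΩW
  have hGF : EqOn G (F k M) (tube (orth (k + 1))) := fun z hz => by
    rw [hGG (hsub hz), hGeq hz]
  -- a point slightly to the left
  obtain ⟨c, hc, hcW⟩ : ∃ c : ℝ, c < w₀ ∧ pt k c ∈ W := by
    have h1 : ∀ᶠ x : ℝ in 𝓝 w₀, pt k x ∈ W :=
      (continuous_pt k).continuousAt.preimage_mem_nhds (hWo.mem_nhds (hΩW hp))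
    have h2 : ∀ᶠ x : ℝ in 𝓝[<] w₀, pt k x ∈ W := nhdsWithin_le_nhds h1
    have h3 : ∀ᶠ x : ℝ in 𝓝[<] w₀, x < w₀ := self_mem_nhdsWithin
    obtain ⟨x, hx1, hx2⟩ := (h2.and h3).exists
    exact ⟨x, hx2, hx1⟩
  have hup : ∀ x : ℝ, c ≤ x → pt k x ∈ W := fun x hx =>
    mem_of_ge hWo hWc hWorth hcW (pt_mono k hx)
  obtain ⟨C, N, hb⟩ := hG.2 (pt k '' Icc c (2 * k + 3))
    (by rintro _ ⟨x, hx, rfl⟩; exact hup x hx.1) (isCompact_Icc.image (continuous_pt k))
  refine ⟨c, |C|, N, fun t w => G (zz (hf k) t w), hc, fun t => ⟨?_, fun w h1 h2 => ?_,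
    fun w h0 hw => ?_⟩⟩
  · exact hG.1.comp (differentiable_zz _ t).differentiableOn
      (fun w hw => zz_mem_tube (hup w.re (le_of_lt hw)))
  · have h3 : (fun i => (zz (hf k) t w i).re) = pt k w.re := by
      funext i; rw [zz_re, xx_hf]
    have h4 : ‖fun i => (zz (hf k) t w i).im‖ ≤ ‖t‖ + |w.im| := by
      rw [pi_norm_le_iff_of_nonneg (by positivity)]
      intro i
      refine Fin.cases ?_ (fun j => ?_) i
      · show ‖w.im‖ ≤ _
        rw [Real.norm_eq_abs]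
        linarith [norm_nonneg t]
      · have h5 : (zz (hf k) t w j.succ).im = t j := by rw [zz_succ]; simp
        rw [h5]
        linarith [norm_le_pi_norm t j, abs_nonneg w.im]
    have h6 : 1 + ‖fun i => (zz (hf k) t w i).im‖ ≤ 1 + ‖t‖ + |w.im| := by linarith
    calc ‖G (zz (hf k) t w)‖ ≤ C * (1 + ‖fun i => (zz (hf k) t w i).im‖) ^ N := by
          refine hb _ ?_
          rw [h3]
          exact ⟨w.re, ⟨le_of_lt h1, h2⟩, rfl⟩
      _ ≤ |C| * (1 + ‖fun i => (zz (hf k) t w i).im‖) ^ N := by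
          gcongr
          exact le_abs_self C
      _ ≤ |C| * (1 + ‖t‖ + |w.im|) ^ N :=
          mul_le_mul_of_nonneg_left (pow_le_pow_left₀ (by positivity) h6 N) (abs_nonneg C)
  · rw [← Bc_zz]
    exact eqOn_Bc hWo hWc hWorth hG hGF
      (zz_mem_tube (P := W ∩ Ocr k) ⟨hup _ (le_of_lt h0), mem_Ocr_pt hw⟩)

theorem continuesTo_iff_crit {k M : ℕ} {w₀ : ℝ} :
    ContinuesTo k M (pt k w₀) ↔ CritContinues k M w₀ :=
  ⟨crit_of_continuesTo, continuesTo_of_crit⟩

end Pool.Agent.Q48.MDS
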