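import Pool.Agent.Q48.MDS.Chain

/-!
# Continuation on the critical line implies asymptotics of the Riesz means
-/

set_option autoImplicit false
set_option linter.unusedSectionVars false

open MeasureTheory Set Filter Topology Metric Complex

namespace Pool.Agent.Q48.MDS

theorem integrable_inv_sq : Integrable (fun y : ℝ => (1 : ℝ) / (1 + |y|) ^ 2) := by
  refine integrable_of_sq_bound (C := 1) ?_ (fun y => ?_)
  · refine continuous_const.div (by fun_prop) (fun y => ?_)
    have := abs_nonneg y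
    positivity
  · rw [Real.norm_of_nonneg (by positivity)]

theorem tendsto_inv_sq : Tendsto (fun y : ℝ => (1 : ℝ) / (1 + |y|) ^ 2) (cocompact ℝ) (𝓝 0) := by
  have h2 : Tendsto (fun y : ℝ => 1 + |y|) (cocompact ℝ) atTop :=
    tendsto_atTop_add_const_left _ _ (tendsto_norm_cocompact_atTop (E := ℝ))
  have h3 := tendsto_inv_atTop_zero.comp ((tendsto_pow_atTop (two_ne_zero)).comp h2)
  refine h3.congr fun y => ?_
  simp

theorem continuous_hh {φ : ℝ → ℂ} (hφ : Continuous φ) {D : ℝ} (hD : ∀ y, ‖φ y‖ ≤ D / (1 + |y|) ^ 3)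
    {b : ℝ} (hb : 2 ≤ b) {l : List ℂ} (hl : ∀ σ ∈ l, σ.re = 1) : Continuous (hh φ b l) := by
  have hD0 : 0 ≤ D := by
    have := hD 0
    simp only [abs_zero, add_zero, one_pow, div_one] at this
    exact (norm_nonneg _).trans this
  rw [continuous_iff_continuousAt]
  intro u₀
  refine continuousAt_of_dominated (bound := fun y => D * Real.exp (b * (u₀ + 1)) *
    (1 / (1 + |y|) ^ 2)) ?_ ?_ ?_ ?_
  · exact Eventually.of_forall fun u =>
      ((hφ.mul (continuous_XL hl hb)).mul (by fun_prop)).aestronglyMeasurable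
  · filter_upwards [Iio_mem_nhds (by linarith : u₀ < u₀ + 1)] with u hu
    refine Eventually.of_forall fun y => ?_
    rw [norm_mul, norm_mul, norm_exp_vert]
    have h1 : Real.exp (b * u) ≤ Real.exp (b * (u₀ + 1)) := by
      apply Real.exp_le_exp.2
      have : u < u₀ + 1 := hu
      nlinarith
    have h2 : (1 : ℝ) / (1 + |y|) ^ 3 ≤ 1 / (1 + |y|) ^ 2 :=
      one_div_le_one_div_of_le (by have := abs_nonneg y; positivity)
        (pow_le_pow_right₀ (by linarith [abs_nonneg y]) (by norm_num))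
    calc ‖φ y‖ * ‖XL l ((b : ℂ) + I * y)‖ * Real.exp (b * u) ≤
          (D / (1 + |y|) ^ 3) * 1 * Real.exp (b * (u₀ + 1)) := by
          gcongr
          · exact hD y
          · exact norm_XL_le hl (by simpa using hb)
      _ = D * Real.exp (b * (u₀ + 1)) * (1 / (1 + |y|) ^ 3) := by ring
      _ ≤ _ := by gcongr D * Real.exp (b * (u₀ + 1)) * ?_
  · exact integrable_inv_sq.const_mul _
  · refine Eventually.of_forall fun y => ?_
    fun_prop

open scoped Classical in
theorem El_toList_le {k : ℕ} (t : Fin k → ℝ) :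
    El ((Finset.univ : Finset (Finset (Fin k))).toList.map (rho t)) ≤ Eu t := by
  refine Submodule.span_mono ?_
  rintro f ⟨ρ, m, hm, rfl⟩
  have h1 : ρ ∈ (Finset.univ : Finset (Finset (Fin k))).toList.map (rho t) := by
    rw [← List.count_pos_iff]; omega
  rw [List.mem_map] at h1
  obtain ⟨J, -, rfl⟩ := h1
  refine ⟨J, m, ?_, rfl⟩
  refine lt_of_lt_of_le hm ?_
  have h2 : List.count (rho t J) ((Finset.univ : Finset (Finset (Fin k))).toList.map (rho t)) =
      Multiset.count (rho t J) ((Finset.univ : Finset (Finset (Fin k))).val.map (rho t)) := by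
    rw [← Multiset.coe_count]
    congr 1
    rw [← Multiset.map_coe, Finset.coe_toList]
  rw [h2, Multiset.count_map]
  unfold mult
  rw [← Finset.card_val, Finset.filter_val]
  apply le_of_eq
  congr 2
  funext J'
  exact propext ⟨fun h => h.symm, fun h => h.symm⟩

theorem prod_XL {k : ℕ} (t : Fin k → ℝ) {w : ℂ} (hw : 2 ≤ w.re) :
    (∏ J : Finset (Fin k), (w - rho t J)) *
      XL ((Finset.univ : Finset (Finset (Fin k))).toList.map (rho t)) w = 1 := by
  unfold XL
  rw [List.map_map]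
  have h1 : (List.map ((fun ρ => (w - ρ)⁻¹) ∘ rho t)
      (Finset.univ : Finset (Finset (Fin k))).toList).prod =
      ∏ J : Finset (Fin k), (w - rho t J)⁻¹ := by
    rw [Finset.prod_map_toList]
    rfl
  rw [h1, ← Finset.prod_mul_distrib]
  refine Finset.prod_eq_one fun J _ => ?_
  exact mul_inv_cancel₀ (sub_ne_of_re (rho_re t J) hw)

/-- inversion: the full chain is the summatory function -/
theorem hh_full (k M : ℕ) {r : ℕ} (hr : 1 ≤ r) (t : Fin k → ℝ) {b : ℝ} (hb : 2 ≤ b)
    (hbk : 2 * (k : ℝ) + 1 < b) (u : ℝ) :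
    ∫ y : ℝ, crit k M t ((b : ℂ) + I * y) * Kr r ((b : ℂ) + I * y) * cexp (((b : ℂ) + I * y) * u) =
      2 * Real.pi * Su k M r t u := by
  have hb0 : 0 < b := by linarith
  have hdpos : ∀ d : DD, (0 : ℝ) < ((d : ℕ) : ℝ) := fun d => by
    have := dd_two_le d
    exact_mod_cast (by omega : 0 < (d : ℕ))
  set G : DD → ℝ → ℂ := fun d y => aa k M t d *
    (Kr r ((b : ℂ) + I * y) * cexp (((b : ℂ) + I * y) * ((u - Real.log ((d : ℕ) : ℝ) : ℝ) : ℂ)))
    with hG
  have hterm : ∀ (d : DD) (y : ℝ), (kron d M : ℂ) * (d : ℂ) ^ (-((b : ℂ) + I * y)) *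
      (∏ j : Fin k, Lc d (1 / 2 + I * (t j : ℂ))) *
      (Kr r ((b : ℂ) + I * y) * cexp (((b : ℂ) + I * y) * u)) = G d y := by
    intro d y
    simp only [hG]
    unfold aa
    have h2 : ((d : ℕ) : ℂ) ^ (-((b : ℂ) + I * y)) =
        cexp (-(((b : ℂ) + I * y) * (Real.log ((d : ℕ) : ℝ) : ℂ))) := by
      rw [Complex.cpow_def_of_ne_zero (by exact_mod_cast (hdpos d).ne'), ← Complex.natCast_log]
      congr 1
      ring
    rw [h2]
    have h3 : cexp (((b : ℂ) + I * y) * ((u - Real.log ((d : ℕ) : ℝ) : ℝ) : ℂ)) =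
        cexp (-(((b : ℂ) + I * y) * (Real.log ((d : ℕ) : ℝ) : ℂ))) *
          cexp (((b : ℂ) + I * y) * u) := by
      rw [← Complex.exp_add]
      congr 1
      push_cast
      ring
    rw [h3]
    ring
  have h4 : ∀ y : ℝ, crit k M t ((b : ℂ) + I * y) * Kr r ((b : ℂ) + I * y) *
      cexp (((b : ℂ) + I * y) * u) = ∑' d : DD, G d y := by
    intro y
    unfold crit
    rw [mul_assoc, ← tsum_mul_right]
    exact tsum_congr fun d => hterm d y
  simp_rw [h4]
  have hcont : ∀ d, Continuous (G d) := by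
    intro d
    simp only [hG]
    exact continuous_const.mul ((continuous_Kr r hb0).mul (by fun_prop))
  have hK := (integrable_Kr hr hb0).norm
  have hGn : ∀ d y, ‖G d y‖ = ‖aa k M t d‖ * ((d : ℕ) : ℝ) ^ (-b) * Real.exp (b * u) *
      ‖Kr r ((b : ℂ) + I * y)‖ := by
    intro d y
    simp only [hG]
    rw [norm_mul, norm_mul, norm_exp_vert]
    have h5 : Real.exp (b * (u - Real.log ((d : ℕ) : ℝ))) =
        ((d : ℕ) : ℝ) ^ (-b) * Real.exp (b * u) := by
      rw [Real.rpow_def_of_pos (hdpos d), ← Real.exp_add]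
      congr 1
      ring
    rw [h5]
    ring
  have hint : ∀ d, Integrable (G d) := fun d => by
    refine (hK.const_mul (‖aa k M t d‖ * ((d : ℕ) : ℝ) ^ (-b) * Real.exp (b * u))).mono'
      (hcont d).aestronglyMeasurable (Eventually.of_forall fun y => ?_)
    rw [hGn]
  rw [← integral_tsum_of_summable_integral_norm hint (by
    simp_rw [hGn]
    simp_rw [integral_const_mul]
    exact ((summable_aa k M t hbk).mul_right _).mul_right _)]
  unfold Su
  rw [← tsum_mul_left]
  refine tsum_congr fun d => ?_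
  simp only [hG]
  rw [integral_const_mul, riesz_inversion hr hb0]
  ring

theorem moment_of_crit {k M : ℕ} {w₀ : ℝ} (h0 : 0 < w₀) (h1 : w₀ ≤ 1)
    (h : CritContinues k M w₀) : MomentU k M w₀ := by
  obtain ⟨c₀, C, N, g, hc₀, hg⟩ := h
  set c : ℝ := (max c₀ 0 + w₀) / 2 with hc
  have hm : max c₀ 0 < w₀ := max_lt hc₀ h0
  have hcc₀ : c₀ < c := by have := le_max_left c₀ 0; rw [hc]; linarith
  have hc0 : 0 < c := by have := le_max_right c₀ 0; rw [hc]; linarith
  have hcw : c < w₀ := by rw [hc]; linarith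
  have hc1 : c < 1 := by linarith
  have hk : (0 : ℝ) ≤ k := Nat.cast_nonneg k
  set b : ℝ := 2 * (k : ℝ) + 2 with hb
  have hb2 : 2 ≤ b := by rw [hb]; linarith
  have hb0 : 0 < b := by linarith
  have hcb : c ≤ b := by linarith
  set r : ℕ := N + 2 with hr
  have hr1 : 1 ≤ r := by omega
  set K : ℝ → ℝ := fun x => r.factorial / (min x 1 / 2) ^ (r + 1) with hK
  have hKc : 0 ≤ K c := by
    have : 0 < min c 1 := lt_min hc0 one_pos
    simp only [hK]; positivity
  set J : ℝ := ∫ y : ℝ, (1 : ℝ) / (1 + |y|) ^ 2 with hJ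
  have hJ0 : 0 ≤ J := integral_nonneg fun y => by positivity
  -- a bound on vertical lines
  have hgb : ∀ t (x : ℝ), x ∈ Icc c b → ∀ y : ℝ,
      ‖g t ((x : ℂ) + I * y) * Kr r ((x : ℂ) + I * y)‖ ≤
        |C| * (1 + ‖t‖) ^ N * K c / (1 + |y|) ^ 3 := by
    intro t x hx y
    have hx0 : 0 < x := hc0.trans_le hx.1
    have e1 : ‖g t ((x : ℂ) + I * y)‖ ≤ |C| * ((1 + ‖t‖) * (1 + |y|)) ^ N := by
      have h2 := (hg t).2.1 ((x : ℂ) + I * y) (by simpa using hcc₀.trans_le hx.1)
        (by simp; linarith [hx.2])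
      refine h2.trans ?_
      have h3 : ((x : ℂ) + I * y).im = y := by simp
      rw [h3]
      have h4 : 1 + ‖t‖ + |y| ≤ (1 + ‖t‖) * (1 + |y|) := by
        nlinarith [norm_nonneg t, abs_nonneg y]
      calc C * (1 + ‖t‖ + |y|) ^ N ≤ |C| * (1 + ‖t‖ + |y|) ^ N := by
            gcongr; exact le_abs_self C
        _ ≤ _ := by gcongr
    have e2 : ‖Kr r ((x : ℂ) + I * y)‖ ≤ K c / (1 + |y|) ^ (r + 1) := by
      refine (norm_Kr_le r hx0 y).trans ?_
      simp only [hK]
      have h5 : 0 < min c 1 := lt_min hc0 one_pos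
      have h6 : min c 1 ≤ min x 1 := min_le_min_right 1 hx.1
      gcongr
    rw [norm_mul]
    calc ‖g t ((x : ℂ) + I * y)‖ * ‖Kr r ((x : ℂ) + I * y)‖ ≤
          (|C| * ((1 + ‖t‖) * (1 + |y|)) ^ N) * (K c / (1 + |y|) ^ (r + 1)) := by gcongr
      _ = _ := by
          have h7 : (1 + |y|) ^ (r + 1) = (1 + |y|) ^ N * (1 + |y|) ^ 3 := by
            rw [← pow_add]
          rw [h7, mul_pow]
          have h8 : (1 + |y|) ≠ 0 := by have := abs_nonneg y; positivity
          field_simp
  have hgd : ∀ t, DifferentiableOn ℂ (fun w => g t w * Kr r w) {w | c ≤ w.re ∧ w.re ≤ b} := by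
    intro t
    refine ((hg t).1.mono fun w hw => hcc₀.trans_le hw.1).mul ?_
    unfold Kr
    refine (differentiableOn_const _).div (differentiable_pow _).differentiableOn fun w hw => ?_
    refine pow_ne_zero _ ?_
    rintro rfl
    have := hw.1
    simp at this
    linarith
  refine ⟨r, c, |C| * K c * J / (1 - c) ^ (Finset.univ : Finset (Finset (Fin k))).card / (2 * Real.pi),
    N, hr1, hcw, fun t => ?_⟩
  set φ : ℝ → ℂ := fun y => g t ((b : ℂ) + I * y) * Kr r ((b : ℂ) + I * y) with hφ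
  have hφc : Continuous φ := by
    refine (hgd t).continuousOn.comp_continuous (by fun_prop) (fun y => ?_)
    simpa using hcb
  have hφb : ∀ y, ‖φ y‖ ≤ |C| * (1 + ‖t‖) ^ N * K c / (1 + |y|) ^ 3 :=
    hgb t b ⟨hcb, le_rfl⟩
  have hcube : ∀ y : ℝ, (1 : ℝ) / (1 + |y|) ^ 3 ≤ 1 / (1 + |y|) ^ 2 := fun y =>
    one_div_le_one_div_of_le (by have := abs_nonneg y; positivity)
      (pow_le_pow_right₀ (by linarith [abs_nonneg y]) (by norm_num))
  -- the base case
  have hbase : ∀ u : ℝ, ‖hh φ b [] u‖ ≤ |C| * (1 + ‖t‖) ^ N * K c * J * Real.exp (c * u) := by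
    intro u
    have hlim : Tendsto (fun y : ℝ => |C| * (1 + ‖t‖) ^ N * K c * Real.exp (b * |u|) *
        (1 / (1 + |y|) ^ 2)) (cocompact ℝ) (𝓝 0) := by
      have h := tendsto_inv_sq.const_mul (|C| * (1 + ‖t‖) ^ N * K c * Real.exp (b * |u|))
      rwa [mul_zero] at h
    have h2 := vertical_shift (H := fun w => g t w * Kr r w * cexp (w * u)) hcb
      ((hgd t).mul ((differentiable_id.mul_const _).cexp.differentiableOn))
      (φ := fun y => |C| * (1 + ‖t‖) ^ N * K c * Real.exp (b * |u|) * (1 / (1 + |y|) ^ 2))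
      (integrable_inv_sq.const_mul _) hlim (fun x hx y => by
        rw [norm_mul, norm_exp_vert]
        have h3 : Real.exp (x * u) ≤ Real.exp (b * |u|) := by
          apply Real.exp_le_exp.2
          calc x * u ≤ |x * u| := le_abs_self _
            _ = |x| * |u| := abs_mul _ _
            _ ≤ b * |u| := by
                rw [abs_of_pos (hc0.trans_le hx.1)]
                gcongr
                exact hx.2
        calc _ ≤ (|C| * (1 + ‖t‖) ^ N * K c / (1 + |y|) ^ 3) * Real.exp (b * |u|) := by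
              gcongr
              exact hgb t x hx y
          _ = |C| * (1 + ‖t‖) ^ N * K c * Real.exp (b * |u|) * (1 / (1 + |y|) ^ 3) := by ring
          _ ≤ _ := by
              gcongr |C| * (1 + ‖t‖) ^ N * K c * Real.exp (b * |u|) * ?_
              exact hcube y)
    have h4 : hh φ b [] u = ∫ y : ℝ, g t ((b : ℂ) + I * y) * Kr r ((b : ℂ) + I * y) *
        cexp (((b : ℂ) + I * y) * u) := by
      unfold hh
      congr 1
      funext y
      simp [hφ, XL]
    rw [h4, ← h2]
    have h5 : ∀ y : ℝ, ‖g t ((c : ℂ) + I * y) * Kr r ((c : ℂ) + I * y) *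
        cexp (((c : ℂ) + I * y) * u)‖ ≤
        |C| * (1 + ‖t‖) ^ N * K c * Real.exp (c * u) * (1 / (1 + |y|) ^ 2) := by
      intro y
      rw [norm_mul, norm_exp_vert]
      calc _ ≤ (|C| * (1 + ‖t‖) ^ N * K c / (1 + |y|) ^ 3) * Real.exp (c * u) := by
            gcongr
            exact hgb t c ⟨le_rfl, hcb⟩ y
        _ = |C| * (1 + ‖t‖) ^ N * K c * Real.exp (c * u) * (1 / (1 + |y|) ^ 3) := by ring
        _ ≤ _ := by
            gcongr |C| * (1 + ‖t‖) ^ N * K c * Real.exp (c * u) * ?_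
            exact hcube y
    refine (norm_integral_le_of_norm_le (integrable_inv_sq.const_mul _)
      (Eventually.of_forall h5)).trans (le_of_eq ?_)
    rw [integral_const_mul]
    ring
  -- induction along the list
  have hind : ∀ l : List ℂ, (∀ σ ∈ l, σ.re = 1) → ∃ P ∈ El l, ∀ u : ℝ, 0 ≤ u →
      ‖hh φ b l u - P u‖ ≤ |C| * (1 + ‖t‖) ^ N * K c * J / (1 - c) ^ l.length *
        Real.exp (c * u) := by
    intro l
    induction l with
    | nil =>
      intro _
      refine ⟨0, Submodule.zero_mem _, fun u _ => ?_⟩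
      simpa using hbase u
    | cons ρ l ih =>
      intro hl
      have hl' : ∀ σ ∈ l, σ.re = 1 := fun σ hσ => hl σ (by simp [hσ])
      obtain ⟨P, hP, hPb⟩ := ih hl'
      obtain ⟨P', hP', hb'⟩ := solve_step (hl ρ (by simp)) hP (f := hh φ b (ρ :: l))
        (e := fun u => hh φ b l u - P u)
        ((continuous_hh hφc hφb hb2 hl').sub (continuous_El hP)) (fun u => by
          have := hh_hasDerivAt hφc hφb hb2 hl u
          convert! this using 1
          ring) hc1 hPb
      refine ⟨P', hP', fun u hu => (hb' u hu).trans (le_of_eq ?_)⟩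
      rw [List.length_cons, pow_succ, ← div_div]
  obtain ⟨P, hP, hPb⟩ := hind ((Finset.univ : Finset (Finset (Fin k))).toList.map (rho t))
    (fun σ hσ => by
      rw [List.mem_map] at hσ
      obtain ⟨J, -, rfl⟩ := hσ
      exact rho_re t J)
  have hfull : ∀ u, hh φ b ((Finset.univ : Finset (Finset (Fin k))).toList.map (rho t)) u =
      2 * Real.pi * Su k M r t u := by
    intro u
    rw [← hh_full k M hr1 t hb2 (by rw [hb]; linarith) u]
    unfold hh
    congr 1
    funext y
    simp only [hφ]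
    rw [(hg t).2.2 ((b : ℂ) + I * y) (by simpa using hcc₀.trans_le hcb) (by simp [hb])]
    have h3 := prod_XL t (w := (b : ℂ) + I * y) (by simpa using hb2)
    linear_combination (crit k M t ((b : ℂ) + I * y) * Kr r ((b : ℂ) + I * y) *
      cexp (((b : ℂ) + I * y) * u)) * h3
  refine ⟨((2 * Real.pi : ℂ))⁻¹ • P, Submodule.smul_mem _ _ (El_toList_le t hP), fun u hu => ?_⟩
  have hpi : ((2 * Real.pi : ℂ)) ≠ 0 := by
    have : (Real.pi : ℂ) ≠ 0 := by exact_mod_cast Real.pi_ne_zero
    exact mul_ne_zero two_ne_zero this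
  have h6 : Su k M r t u - (((2 * Real.pi : ℂ))⁻¹ • P) u =
      ((2 * Real.pi : ℂ))⁻¹ * (hh φ b ((Finset.univ : Finset (Finset (Fin k))).toList.map (rho t)) u -
        P u) := by
    rw [hfull u, Pi.smul_apply, smul_eq_mul]
    field_simp
  have h7 : ‖((2 * Real.pi : ℂ))⁻¹‖ = (2 * Real.pi)⁻¹ := by
    rw [norm_inv, norm_mul, Complex.norm_real, Real.norm_of_nonneg Real.pi_pos.le]
    simp
  rw [h6, norm_mul, h7]
  have h8 := hPb u hu
  rw [List.length_map, Finset.length_toList] at h8
  calc (2 * Real.pi)⁻¹ * ‖hh φ b ((Finset.univ : Finset (Finset (Fin k))).toList.map (rho t)) u - P u‖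
      ≤ (2 * Real.pi)⁻¹ * (|C| * (1 + ‖t‖) ^ N * K c * J /
        (1 - c) ^ (Finset.univ : Finset (Finset (Fin k))).card * Real.exp (c * u)) := by gcongr
    _ = _ := by
      have : (0 : ℝ) < 1 - c := by linarith
      field_simp

end Pool.Agent.Q48.MDS
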