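import Pool.Agent.Q48.MDS.Cont

/-!
# The region in which the crude bound gives convergence
-/

set_option autoImplicit false
set_option linter.unusedSectionVars false

open MeasureTheory Set Filter Topology Metric Complex

namespace Pool.Agent.Q48.MDS

theorem exists_lower {X : Type*} [TopologicalSpace X] {K : Set X} (hK : IsCompact K) {φ : X → ℝ}
    (hφ : Continuous φ) {c : ℝ} (h : ∀ x ∈ K, c < φ x) : ∃ m : ℝ, c < m ∧ ∀ x ∈ K, m ≤ φ x := by
  rcases K.eq_empty_or_nonempty with rfl | hne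
  · exact ⟨c + 1, by linarith, fun x hx => absurd hx (notMem_empty x)⟩
  · obtain ⟨x₀, hx₀, hmin⟩ := hK.exists_isMinOn hne hφ.continuousOn
    exact ⟨φ x₀, h x₀ hx₀, fun x hx => hmin hx⟩

theorem exists_upper {X : Type*} [TopologicalSpace X] {K : Set X} (hK : IsCompact K) {φ : X → ℝ}
    (hφ : Continuous φ) : ∃ m : ℝ, 1 ≤ m ∧ ∀ x ∈ K, φ x ≤ m := by
  obtain ⟨E, hE⟩ := (hK.image hφ).bddAbove
  exact ⟨max 1 E, le_max_left _ _, fun x hx => (hE ⟨x, hx, rfl⟩).trans (le_max_right _ _)⟩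

/-- the crude region -/
def Ocr (k : ℕ) : Set (Fin (k + 1) → ℝ) := {x | 2 * (k : ℝ) + 1 < x 0 ∧ ∀ j : Fin k, 1 / 4 < x j.succ}

theorem isOpen_Ocr (k : ℕ) : IsOpen (Ocr k) := by
  have : Ocr k = {x | 2 * (k : ℝ) + 1 < x 0} ∩ ⋂ j : Fin k, {x | 1 / 4 < x j.succ} := by
    ext x; simp [Ocr]
  rw [this]
  exact (isOpen_lt continuous_const (continuous_apply 0)).inter
    (isOpen_iInter_of_finite fun j => isOpen_lt continuous_const (continuous_apply _))

theorem convex_Ocr (k : ℕ) : Convex ℝ (Ocr k) := by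
  intro x hx y hy a b ha hb hab
  have key : ∀ c u v : ℝ, c < u → c < v → c < a * u + b * v := by
    intro c u v hu hv
    rcases eq_or_lt_of_le ha with h | h
    · subst h
      have hb1 : b = 1 := by linarith
      subst hb1; linarith
    · have h1 : c = a * c + b * c := by rw [← add_mul, hab, one_mul]
      have h2 := mul_lt_mul_of_pos_left hu h
      have h3 := mul_le_mul_of_nonneg_left hv.le hb
      linarith
  refine ⟨?_, fun j => ?_⟩
  · exact key _ _ _ hx.1 hy.1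
  · exact key _ _ _ (hx.2 j) (hy.2 j)

theorem norm_le_re_im {n : ℕ} (z : Fin n → ℂ) (i : Fin n) {X : ℝ} (hX : 1 ≤ X)
    (h : ‖fun i => (z i).re‖ ≤ X) : ‖z i‖ ≤ X * (1 + ‖fun i => (z i).im‖) := by
  have h1 := Complex.norm_le_abs_re_add_abs_im (z i)
  have h2 : |(z i).re| ≤ X := (norm_le_pi_norm (fun i => (z i).re) i).trans h
  have h3 : |(z i).im| ≤ ‖fun i => (z i).im‖ := norm_le_pi_norm (fun i => (z i).im) i
  have h4 := norm_nonneg (fun i => (z i).im)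
  nlinarith

theorem tempered_Bc_crude (k M : ℕ) : Tempered (Ocr k) (Bc k M) := by
  refine tempered_Bc (isOpen_Ocr k) fun K hK hc => ?_
  obtain ⟨m, hm, hm'⟩ := exists_lower hc (continuous_apply (0 : Fin (k + 1)))
    (c := 2 * (k : ℝ) + 1) (fun x hx => (hK hx).1)
  obtain ⟨X, hX, hX'⟩ := exists_upper hc (continuous_norm (E := Fin (k + 1) → ℝ))
  refine ⟨(Ka (1 / 4) * X) ^ k, m - 2 * k, k, by have := Ka_nonneg (1 / 4); positivity,
    by linarith, fun z hz d => ?_⟩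
  have hd : (1 : ℝ) ≤ ((d : ℕ) : ℝ) := by
    have := d.2.2
    exact_mod_cast (by omega : 1 ≤ (d : ℕ))
  have hd0 : (0 : ℝ) < ((d : ℕ) : ℝ) := by linarith
  have hKa := Ka_nonneg (1 / 4)
  have h1 : ∏ j : Fin k, ‖Lc d (z j.succ)‖ ≤
      (Ka (1 / 4) * ((d : ℕ) : ℝ) ^ 2 * (X * (1 + ‖fun i => (z i).im‖))) ^ k := by
    calc ∏ j : Fin k, ‖Lc d (z j.succ)‖ ≤
          ∏ _j : Fin k, Ka (1 / 4) * ((d : ℕ) : ℝ) ^ 2 * (X * (1 + ‖fun i => (z i).im‖)) := by
          refine Finset.prod_le_prod (fun j _ => norm_nonneg _) (fun j _ => ?_)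
          refine (Lc_crude d.2.1 d.2.2 (by norm_num : (0 : ℝ) < 1 / 4)
            (le_of_lt ((hK hz).2 j))).trans ?_
          have := norm_le_re_im z j.succ hX (hX' _ hz)
          gcongr
      _ = _ := by simp
  have h2 : ((d : ℕ) : ℝ) ^ (-(z 0).re) ≤ ((d : ℕ) : ℝ) ^ (-m) :=
    Real.rpow_le_rpow_of_exponent_le hd (by linarith [hm' _ hz])
  have h3 : ((d : ℕ) : ℝ) ^ (-m) * (((d : ℕ) : ℝ) ^ 2) ^ k = ((d : ℕ) : ℝ) ^ (-(m - 2 * k)) := by
    rw [← pow_mul, ← Real.rpow_natCast ((d : ℕ) : ℝ) (2 * k), ← Real.rpow_add hd0]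
    congr 1
    push_cast
    ring
  calc ((d : ℕ) : ℝ) ^ (-(z 0).re) * ∏ j : Fin k, ‖Lc d (z j.succ)‖
      ≤ ((d : ℕ) : ℝ) ^ (-m) *
        (Ka (1 / 4) * ((d : ℕ) : ℝ) ^ 2 * (X * (1 + ‖fun i => (z i).im‖))) ^ k := by gcongr
    _ = (Ka (1 / 4) * X) ^ k * (((d : ℕ) : ℝ) ^ (-m) * (((d : ℕ) : ℝ) ^ 2) ^ k) *
        (1 + ‖fun i => (z i).im‖) ^ k := by
        rw [mul_pow, mul_pow, mul_pow, mul_pow]; ring
    _ = _ := by rw [h3]

/-- On the intersection of a convex domain of continuation with the crude region, the continuation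
is given by the convergent series. -/
theorem eqOn_Bc {k M : ℕ} {W : Set (Fin (k + 1) → ℝ)} (hW : IsOpen W) (hc : Convex ℝ W)
    (ho : orth (k + 1) ⊆ W) {G : (Fin (k + 1) → ℂ) → ℂ} (hG : Tempered W G)
    (he : EqOn G (F k M) (tube (orth (k + 1)))) : EqOn G (Bc k M) (tube (W ∩ Ocr k)) := by
  have h1 : IsOpen (orth (k + 1) ∩ Ocr k) := (isOpen_orth _).inter (isOpen_Ocr k)
  have h2 : (orth (k + 1) ∩ Ocr k).Nonempty := by
    refine ⟨fun _ => 2 * (k : ℝ) + 2, fun i => ?_, ?_, fun j => ?_⟩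
    · have : (0 : ℝ) ≤ k := Nat.cast_nonneg k
      linarith
    · show 2 * (k : ℝ) + 1 < 2 * (k : ℝ) + 2
      linarith
    · show 1 / 4 < 2 * (k : ℝ) + 2
      have : (0 : ℝ) ≤ k := Nat.cast_nonneg k
      linarith
  refine eqOn_tube h1 h2 (hW.inter (isOpen_Ocr k)) (hc.inter (convex_Ocr k))
    (inter_subset_inter_left _ ho) (hG.1.mono fun z hz => hz.1)
    ((tempered_Bc_crude k M).1.mono fun z hz => hz.2) (fun z hz => ?_)
  rw [he hz.1, Bc_eq_F k M hz.1]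

end Pool.Agent.Q48.MDS
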