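import Pool.Agent.Q48.MDS.Tube

/-!
# The multiple Dirichlet series of quadratic L-functions: definitions

The variables are `z = (w, s_1, ..., s_k)`, a function on `Fin (k + 1)`: `w = z 0` and
`s_j = z j.succ` for `j : Fin k`.
-/

set_option autoImplicit false

open Set Complex

namespace Pool.Agent.Q48.MDS

/-- Positive fundamental discriminants (`1` included). -/
def FundDisc (d : ℕ) : Prop :=
  (d % 4 = 1 ∧ Squarefree d) ∨
    ∃ m : ℕ, d = 4 * m ∧ (m % 4 = 2 ∨ m % 4 = 3) ∧ Squarefree m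

/-- The Kronecker symbol `(d/2)`. -/
def kronTwo (d : ℕ) : ℤ :=
  if d % 8 = 1 ∨ d % 8 = 7 then 1 else if d % 8 = 3 ∨ d % 8 = 5 then -1 else 0

/-- The Kronecker symbol `(d/n)` for `n ≥ 1`: with `n = 2^v n'`, `n'` odd, it is `(d/2)^v (d/n')`,
the second factor being a Jacobi symbol. -/
def kron (d n : ℕ) : ℤ :=
  kronTwo d ^ padicValNat 2 n * jacobiSym d (n / 2 ^ padicValNat 2 n)

/-- The Dirichlet series `L(s, χ_d) = ∑ (d/n) n^{-s}`, for `Re s > 1`. -/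
noncomputable def Lchi (d : ℕ) (s : ℂ) : ℂ := LSeries (fun n => (kron d n : ℂ)) s

/-- The multiple Dirichlet series
`A_M(s_1, ..., s_k; w) = ∑_d χ_d(M) d^{-w} ∏_j L(s_j, χ_d)`. -/
noncomputable def A (k M : ℕ) (z : Fin (k + 1) → ℂ) : ℂ :=
  ∑' d : {d : ℕ // FundDisc d}, (kron d M : ℂ) * (d : ℂ) ^ (-(z 0)) * ∏ j : Fin k, Lchi d (z j.succ)

/-- `σ_J(w) = w - |J|/2 + ∑_{j ∈ J} s_j`. -/
noncomputable def sigma {k : ℕ} (J : Finset (Fin k)) (z : Fin (k + 1) → ℂ) : ℂ :=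
  z 0 - (J.card : ℂ) / 2 + ∑ j ∈ J, z j.succ

/-- `F_M = (A_M - ζ(s_1) ⋯ ζ(s_k)) ∏_J (σ_J(w) - 1)`. -/
noncomputable def F (k M : ℕ) (z : Fin (k + 1) → ℂ) : ℂ :=
  (A k M z - ∏ j : Fin k, riemannZeta (z j.succ)) * ∏ J : Finset (Fin k), (sigma J z - 1)

/-- All coordinates are greater than 1. -/
def orth (n : ℕ) : Set (Fin n → ℝ) := {x | ∀ i, 1 < x i}

/-- `F_M` extends holomorphically from the region where all the real parts are greater than `1` to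
a tube domain containing the point `p`, with polynomial bounds in vertical strips. -/
def ContinuesTo (k M : ℕ) (p : Fin (k + 1) → ℝ) : Prop :=
  ∃ Ω : Set (Fin (k + 1) → ℝ), IsOpen Ω ∧ IsConnected Ω ∧ orth (k + 1) ⊆ Ω ∧ p ∈ Ω ∧
    ∃ G : (Fin (k + 1) → ℂ) → ℂ, Tempered Ω G ∧ EqOn G (F k M) (tube (orth (k + 1)))

/-- The point `s_1 = ... = s_k = 1/2`, `w = 1`. -/
noncomputable def center (k : ℕ) : Fin (k + 1) → ℝ := Fin.cons 1 (fun _ => 1 / 2)

end Pool.Agent.Q48.MDS
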