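import Pool.Agent.Q48.MDS.Series

/-!
# Dropping a variable
-/

set_option autoImplicit false
set_option linter.unusedSectionVars false

open MeasureTheory Set Filter Topology Metric Complex

namespace Pool.Agent.Q48.MDS

/-- `J ∪ {last}` -/
def ins {k : ℕ} (J : Finset (Fin k)) : Finset (Fin (k + 1)) :=
  insert (Fin.last k) (J.map Fin.castSuccEmb)

theorem last_notMem {k : ℕ} (J : Finset (Fin k)) : Fin.last k ∉ J.map Fin.castSuccEmb := by
  intro h
  obtain ⟨j, _, hj⟩ := Finset.mem_map.1 h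
  exact (Fin.castSucc_lt_last j).ne hj

theorem prod_subsets_succ {k : ℕ} (f : Finset (Fin (k + 1)) → ℂ) :
    ∏ J : Finset (Fin (k + 1)), f J =
      (∏ J : Finset (Fin k), f (J.map Fin.castSuccEmb)) * ∏ J : Finset (Fin k), f (ins J) := by
  have hu : (Finset.univ : Finset (Fin (k + 1))) =
      insert (Fin.last k) ((Finset.univ : Finset (Fin k)).map Fin.castSuccEmb) := by
    rw [Fin.univ_castSuccEmb, Finset.cons_eq_insert]
  have hp : ∀ g : Finset (Fin (k + 1)) → ℂ,
      ∏ J ∈ ((Finset.univ : Finset (Fin k)).map Fin.castSuccEmb).powerset, g J =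
        ∏ J : Finset (Fin k), g (J.map Fin.castSuccEmb) := by
    intro g
    symm
    refine Finset.prod_bij (fun J _ => J.map Fin.castSuccEmb) ?_ ?_ ?_ ?_
    · intro J _
      rw [Finset.mem_powerset]
      exact Finset.map_subset_map.2 (Finset.subset_univ J)
    · intro J _ J' _ h
      exact Finset.map_injective _ h
    · intro J hJ
      rw [Finset.mem_powerset] at hJ
      obtain ⟨J', _, h'⟩ := Finset.subset_map_iff.1 hJ
      exact ⟨J', Finset.mem_univ _, h'.symm⟩
    · intro J _; rfl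
  rw [← Finset.powerset_univ, hu, Finset.prod_powerset_insert (last_notMem _), hp, hp]
  rfl

theorem sn_zero {k : ℕ} {α : Type*} (z : Fin (k + 1) → α) (s : α) : sn z s 0 = z 0 := by
  have := sn_castSucc z s 0
  rwa [Fin.castSucc_zero] at this

theorem sn_succ {k : ℕ} {α : Type*} (z : Fin (k + 1) → α) (s : α) (j : Fin k) :
    sn z s j.castSucc.succ = z j.succ := by
  rw [Fin.succ_castSucc]
  exact sn_castSucc z s j.succ

theorem sn_succ_last {k : ℕ} {α : Type*} (z : Fin (k + 1) → α) (s : α) :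
    sn z s (Fin.last k).succ = s := by
  rw [Fin.succ_last]; exact sn_last z s

theorem sigma_map {k : ℕ} (J : Finset (Fin k)) (z : Fin (k + 1) → ℂ) (s : ℂ) :
    sigma (J.map Fin.castSuccEmb) (sn z s) = sigma J z := by
  unfold sigma
  rw [Finset.card_map, Finset.sum_map, sn_zero]
  congr 1
  refine Finset.sum_congr rfl fun j _ => ?_
  exact sn_succ z s j

theorem sigma_ins {k : ℕ} (J : Finset (Fin k)) (z : Fin (k + 1) → ℂ) (s : ℂ) :
    sigma (ins J) (sn z s) = sigma J z + s - 1 / 2 := by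
  unfold ins sigma
  rw [Finset.card_insert_of_notMem (last_notMem J), Finset.card_map,
    Finset.sum_insert (last_notMem J), Finset.sum_map, sn_zero, sn_succ_last]
  have : ∑ j ∈ J, sn z s (Fin.castSuccEmb j).succ = ∑ j ∈ J, z j.succ :=
    Finset.sum_congr rfl fun j _ => sn_succ z s j
  rw [this]
  push_cast
  ring

/-- the real version of `sigma` -/
noncomputable def rsig {k : ℕ} (J : Finset (Fin k)) (x : Fin (k + 1) → ℝ) : ℝ :=
  x 0 - (J.card : ℝ) / 2 + ∑ j ∈ J, x j.succ

theorem sigma_re {k : ℕ} (J : Finset (Fin k)) (z : Fin (k + 1) → ℂ) :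
    (sigma J z).re = rsig J (fun i => (z i).re) := by
  unfold sigma rsig
  rw [Complex.add_re, Complex.sub_re, Complex.re_sum]
  congr 2
  have : ((J.card : ℂ) / 2) = (((J.card : ℝ) / 2 : ℝ) : ℂ) := by push_cast; rfl
  rw [this, Complex.ofReal_re]

theorem continuous_rsig {k : ℕ} (J : Finset (Fin k)) : Continuous (rsig J) := by
  unfold rsig
  refine Continuous.add (by fun_prop) ?_
  exact continuous_finsetSum _ fun j _ => continuous_apply _

theorem differentiable_sigma {k : ℕ} (J : Finset (Fin k)) : Differentiable ℂ (sigma J) := by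
  unfold sigma
  refine Differentiable.add ((differentiable_apply 0).sub_const _) ?_
  exact Differentiable.fun_sum fun j _ => differentiable_apply _

/-- the factors which contain the last variable -/
noncomputable def Dlast {k : ℕ} (z : Fin (k + 2) → ℂ) : ℂ :=
  ∏ J : Finset (Fin k), (sigma (ins J) z - 1)

/-- the set where the real parts of these factors are positive -/
def Hset (k : ℕ) : Set (Fin (k + 2) → ℝ) := {x | ∀ J : Finset (Fin k), 1 < rsig (ins J) x}

theorem isOpen_Hset (k : ℕ) : IsOpen (Hset k) := by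
  have : Hset k = ⋂ J : Finset (Fin k), {x | 1 < rsig (ins J) x} := by
    ext x; simp [Hset]
  rw [this]
  exact isOpen_iInter_of_finite fun J => isOpen_lt continuous_const (continuous_rsig _)

theorem convex_Hset (k : ℕ) : Convex ℝ (Hset k) := by
  intro x hx y hy a b ha hb hab J
  have h1 : rsig (ins J) (a • x + b • y) = a * rsig (ins J) x + b * rsig (ins J) y := by
    unfold rsig
    simp only [Pi.add_apply, Pi.smul_apply, smul_eq_mul, Finset.sum_add_distrib, ← Finset.mul_sum]
    linear_combination (((ins J).card : ℝ) / 2) * hab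
  rw [h1]
  have := hx J
  have := hy J
  rcases eq_or_lt_of_le ha with h | h
  · subst h
    have hb1 : b = 1 := by linarith
    subst hb1; linarith
  · nlinarith

theorem tempered_div {k : ℕ} {Ω : Set (Fin (k + 2) → ℝ)} {G : (Fin (k + 2) → ℂ) → ℂ}
    (hG : Tempered Ω G) : Tempered (Ω ∩ Hset k) (fun z => G z / Dlast z) := by
  have hle : ∀ z : Fin (k + 2) → ℂ, (fun i => (z i).re) ∈ Hset k → ∀ J : Finset (Fin k),
      rsig (ins J) (fun i => (z i).re) - 1 ≤ ‖sigma (ins J) z - 1‖ := by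
    intro z hz J
    have h1 : (sigma (ins J) z - 1).re = rsig (ins J) (fun i => (z i).re) - 1 := by
      rw [Complex.sub_re, sigma_re, Complex.one_re]
    rw [← h1]
    exact Complex.re_le_norm _
  have hne : ∀ z : Fin (k + 2) → ℂ, (fun i => (z i).re) ∈ Hset k → Dlast z ≠ 0 := by
    intro z hz
    unfold Dlast
    rw [Finset.prod_ne_zero_iff]
    intro J _ h0
    have h1 := hle z hz J
    rw [h0, norm_zero] at h1
    have := hz J
    linarith
  refine ⟨?_, ?_⟩
  · simp_rw [div_eq_mul_inv]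
    refine DifferentiableOn.mul (hG.1.mono fun z hz => hz.1)
      (DifferentiableOn.inv ?_ (fun z hz => hne z hz.2))
    have h1 : Differentiable ℂ (fun z : Fin (k + 2) → ℂ =>
        ∏ J : Finset (Fin k), (sigma (ins J) z - 1)) :=
      fun z => (HasFDerivAt.finsetProd (g := fun (J : Finset (Fin k)) (z : Fin (k + 2) → ℂ) =>
        sigma (ins J) z - 1) (fun J _ =>
          ((differentiable_sigma (ins J)).sub_const 1 z).hasFDerivAt)).differentiableAt
    exact h1.differentiableOn
  · intro K hK hc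
    obtain ⟨C, N, hC⟩ := hG.2 K (hK.trans inter_subset_left) hc
    have hcont : ContinuousOn (fun x => (∏ J : Finset (Fin k), (rsig (ins J) x - 1))⁻¹) K := by
      refine ContinuousOn.inv₀ ?_ ?_
      · refine Continuous.continuousOn ?_
        exact continuous_finsetProd _ fun J _ => (continuous_rsig _).sub continuous_const
      · intro x hx
        rw [Finset.prod_ne_zero_iff]
        intro J _
        have := (hK hx).2 J
        linarith
    obtain ⟨E, hE⟩ := (hc.image_of_continuousOn hcont).bddAbove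
    refine ⟨|C| * |E|, N, fun z hz => ?_⟩
    have h1 := hC z hz
    have h2 : ‖(Dlast z)⁻¹‖ ≤ |E| := by
      have h3 : (∏ J : Finset (Fin k), (rsig (ins J) (fun i => (z i).re) - 1))⁻¹ ≤ E :=
        hE ⟨_, hz, rfl⟩
      have h4 : 0 < ∏ J : Finset (Fin k), (rsig (ins J) (fun i => (z i).re) - 1) := by
        refine Finset.prod_pos fun J _ => ?_
        have := (hK hz).2 J
        linarith
      rw [norm_inv]
      refine le_trans ?_ (h3.trans (le_abs_self E))
      apply inv_anti₀ h4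
      unfold Dlast
      rw [norm_prod]
      refine Finset.prod_le_prod (fun J _ => ?_) (fun J _ => hle z (hK hz).2 J)
      have := (hK hz).2 J
      linarith
    show ‖G z / Dlast z‖ ≤ _
    rw [div_eq_mul_inv, norm_mul]
    calc ‖G z‖ * ‖(Dlast z)⁻¹‖ ≤ (|C| * (1 + ‖fun i => (z i).im‖) ^ N) * |E| := by
          gcongr
          refine h1.trans ?_
          gcongr
          exact le_abs_self C
      _ = _ := by ring

/-- coefficient of the outer series -/
noncomputable def coef (k M : ℕ) (z : Fin (k + 1) → ℂ) (d : {d : ℕ // FundDisc d}) : ℂ :=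
  (kron d M : ℂ) * (d : ℂ) ^ (-(z 0)) * ∏ j : Fin k, Lchi d (z j.succ)

theorem fund_pos {d : ℕ} (h : FundDisc d) : 1 ≤ d := by
  rcases h with ⟨h, _⟩ | ⟨m, h, h2, _⟩ <;> omega

theorem norm_coef_le (k M : ℕ) {z : Fin (k + 1) → ℂ} (hz : z ∈ tube (orth (k + 1)))
    (d : {d : ℕ // FundDisc d}) :
    ‖coef k M z d‖ ≤ ((d : ℕ) : ℝ) ^ (-(z 0).re) * ∏ j : Fin k, Zc (z j.succ).re := by
  unfold coef
  rw [norm_mul, norm_mul, norm_prod]
  have h1 := norm_kron_le d M
  have h2 : ‖((d : ℕ) : ℂ) ^ (-(z 0))‖ = ((d : ℕ) : ℝ) ^ (-(z 0).re) := by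
    rw [Complex.norm_natCast_cpow_of_pos (fund_pos d.2)]; simp
  rw [h2]
  have h3 : ∏ j : Fin k, ‖Lchi d (z j.succ)‖ ≤ ∏ j : Fin k, Zc (z j.succ).re :=
    Finset.prod_le_prod (fun j _ => norm_nonneg _)
      (fun j _ => norm_LSeries_le (norm_kron_le d) (hz j.succ))
  have h4 : 0 ≤ ((d : ℕ) : ℝ) ^ (-(z 0).re) := by positivity
  calc _ ≤ 1 * ((d : ℕ) : ℝ) ^ (-(z 0).re) * ∏ j : Fin k, Zc (z j.succ).re := by
        gcongr
    _ = _ := by rw [one_mul]

theorem summable_coef_bound (k : ℕ) {z : Fin (k + 1) → ℂ} (hz : z ∈ tube (orth (k + 1))) :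
    Summable (fun d : {d : ℕ // FundDisc d} =>
      ((d : ℕ) : ℝ) ^ (-(z 0).re) * ∏ j : Fin k, Zc (z j.succ).re) := by
  refine Summable.mul_right _ ?_
  have h := Real.summable_nat_rpow.2 (show -(z 0).re < -1 by linarith [hz 0])
  exact h.comp_injective Subtype.val_injective

/-- absolute convergence of the multiple Dirichlet series -/
theorem summable_coef (k M : ℕ) {z : Fin (k + 1) → ℂ} (hz : z ∈ tube (orth (k + 1))) :
    Summable (coef k M z) :=
  Summable.of_norm_bounded (summable_coef_bound k hz) (norm_coef_le k M hz)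

theorem A_sn (k M : ℕ) (z : Fin (k + 1) → ℂ) (s : ℂ) :
    A (k + 1) M (sn z s) = ∑' d : {d : ℕ // FundDisc d}, coef k M z d * Lchi d s := by
  unfold A coef
  congr 1
  funext d
  rw [Fin.prod_univ_castSucc, sn_zero, sn_succ_last]
  simp_rw [sn_succ]
  ring

theorem F_sn_div {k M : ℕ} {z : Fin (k + 1) → ℂ} {s : ℂ}
    (h : Dlast (sn z s) ≠ 0) :
    F (k + 1) M (sn z s) / Dlast (sn z s) =
      (A (k + 1) M (sn z s) - (∏ j : Fin k, riemannZeta (z j.succ)) * riemannZeta s) *
        ∏ J : Finset (Fin k), (sigma J z - 1) := by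
  unfold F
  rw [prod_subsets_succ, Fin.prod_univ_castSucc, sn_succ_last]
  simp_rw [sn_succ, sigma_map]
  have h2 : ∏ J : Finset (Fin k), (sigma (ins J) (sn z s) - 1) = Dlast (sn z s) := rfl
  rw [h2]
  field_simp

theorem norm_Lchi_le (d : ℕ) {c : ℝ} (hc : 1 < c) (t : ℝ) :
    ‖Lchi d ((c : ℂ) + I * t)‖ ≤ Zc c := by
  have := norm_LSeries_le (s := (c : ℂ) + I * t) (norm_kron_le d) (by simpa using hc)
  simpa [Lchi] using this

section

variable {Ψ : ℝ → ℂ} (hΨ : Continuous Ψ)
    (hΨd : ∀ N : ℕ, ∃ C : ℝ, 0 ≤ C ∧ ∀ t : ℝ, (1 + |t|) ^ N * ‖Ψ t‖ ≤ C)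

include hΨ hΨd in
theorem integrable_line {a : ℕ → ℂ} (ha : ∀ n, ‖a n‖ ≤ 1) {c : ℝ} (hc : 1 < c) {m : ℕ}
    (hm : 1 ≤ m) :
    Integrable (fun t : ℝ => LSeries a ((c : ℂ) + I * t) * ((m : ℂ) ^ ((c : ℂ) + I * t) * Ψ t)) := by
  have hm0 : (0 : ℝ) < m := by exact_mod_cast hm
  have hmne : (m : ℂ) ≠ 0 := by exact_mod_cast hm0.ne'
  have hΨi := integrable_kernel hΨ hΨd
  refine (hΨi.norm.const_mul (Zc c * (m : ℝ) ^ c)).mono' ?_ (Eventually.of_forall fun t => ?_)
  · exact ((continuous_LSeries_line ha hc).mul ((Continuous.const_cpow (by fun_prop)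
      (Or.inl hmne)).mul hΨ)).aestronglyMeasurable
  · rw [norm_mul, norm_mul, Complex.norm_natCast_cpow_of_pos hm]
    have h1 : ‖LSeries a ((c : ℂ) + I * t)‖ ≤ Zc c := by
      have := norm_LSeries_le (s := (c : ℂ) + I * t) ha (by simpa using hc)
      simpa using this
    have h2 : ((c : ℂ) + I * t).re = c := by simp
    rw [h2]
    calc _ ≤ Zc c * ((m : ℝ) ^ c * ‖Ψ t‖) := by gcongr
      _ = _ := by ring

include hΨ hΨd in
theorem norm_integral_line_le {a : ℕ → ℂ} (ha : ∀ n, ‖a n‖ ≤ 1) {c : ℝ} (hc : 1 < c) {m : ℕ}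
    (hm : 1 ≤ m) :
    ∫ t : ℝ, ‖LSeries a ((c : ℂ) + I * t) * ((m : ℂ) ^ ((c : ℂ) + I * t) * Ψ t)‖ ≤
      Zc c * (m : ℝ) ^ c * ∫ t, ‖Ψ t‖ := by
  have hΨi := integrable_kernel hΨ hΨd
  rw [← integral_const_mul]
  refine integral_mono (integrable_line hΨ hΨd ha hc hm).norm (hΨi.norm.const_mul _) fun t => ?_
  show ‖LSeries a ((c : ℂ) + I * t) * ((m : ℂ) ^ ((c : ℂ) + I * t) * Ψ t)‖ ≤
    Zc c * (m : ℝ) ^ c * ‖Ψ t‖
  rw [norm_mul, norm_mul, Complex.norm_natCast_cpow_of_pos hm]
  have h1 : ‖LSeries a ((c : ℂ) + I * t)‖ ≤ Zc c := by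
    have := norm_LSeries_le (s := (c : ℂ) + I * t) ha (by simpa using hc)
    simpa using this
  have h2 : ((c : ℂ) + I * t).re = c := by simp
  rw [h2]
  calc _ ≤ Zc c * ((m : ℝ) ^ c * ‖Ψ t‖) := by gcongr
    _ = _ := by ring

include hΨ hΨd in
/-- the extraction integral of the multiple Dirichlet series -/
theorem integral_A {k M : ℕ} (hM : 1 ≤ M) {z : Fin (k + 1) → ℂ} (hz : z ∈ tube (orth (k + 1)))
    {c : ℝ} (hc : 1 < c) {m : ℕ} (hm : 1 ≤ m)
    (hpick : ∀ n : ℕ, 1 ≤ n → ∫ t : ℝ, cexp (-(I * t * Real.log ((n : ℝ) / m))) * Ψ t =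
      if n = m then 1 else 0) :
    Integrable (fun t : ℝ => A (k + 1) M (sn z ((c : ℂ) + I * t)) *
      ((m : ℂ) ^ ((c : ℂ) + I * t) * Ψ t)) ∧
    ∫ t : ℝ, A (k + 1) M (sn z ((c : ℂ) + I * t)) * ((m : ℂ) ^ ((c : ℂ) + I * t) * Ψ t) =
      A k (M * m) z := by
  set g : {d : ℕ // FundDisc d} → ℝ → ℂ := fun d t => coef k M z d *
    (Lchi d ((c : ℂ) + I * t) * ((m : ℂ) ^ ((c : ℂ) + I * t) * Ψ t)) with hg
  have hgi : ∀ d, Integrable (g d) := fun d =>
    (integrable_line hΨ hΨd (norm_kron_le d) hc hm).const_mul _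
  have hgn : ∀ d, ∫ t, ‖g d t‖ ≤ ‖coef k M z d‖ * (Zc c * (m : ℝ) ^ c * ∫ t, ‖Ψ t‖) := by
    intro d
    simp only [hg, norm_mul (coef k M z d)]
    rw [integral_const_mul]
    gcongr
    exact norm_integral_line_le hΨ hΨd (norm_kron_le d) hc hm
  have hsum : Summable (fun d => ∫ t, ‖g d t‖) := by
    refine ((summable_coef k M hz).norm.mul_right _).of_nonneg_of_le
      (fun d => integral_nonneg fun t => norm_nonneg _) hgn
  have hgA : ∀ t : ℝ, ∑' d, g d t = A (k + 1) M (sn z ((c : ℂ) + I * t)) *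
      ((m : ℂ) ^ ((c : ℂ) + I * t) * Ψ t) := by
    intro t
    rw [A_sn, ← tsum_mul_right]
    congr 1
    funext d
    simp only [hg]; ring
  have h1 := integral_tsum_of_summable_integral_norm hgi hsum
  simp_rw [hgA] at h1
  refine ⟨?_, ?_⟩
  · have h2 : Integrable (fun t => ∑' d, g d t) := by
      have h3 := hasSum_integral_of_summable_integral_norm hgi hsum
      -- integrability of the sum
      have hΨi := integrable_kernel hΨ hΨd
      refine (hΨi.norm.const_mul ((∑' d, ‖coef k M z d‖) * (Zc c * (m : ℝ) ^ c))).mono' ?_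
        (Eventually.of_forall fun t => ?_)
      · have hm0 : (0 : ℝ) < m := by exact_mod_cast hm
        have hmne : (m : ℂ) ≠ 0 := by exact_mod_cast hm0.ne'
        have h4 : (fun t => ∑' d, g d t) = fun t : ℝ =>
            (∑' d, coef k M z d * Lchi d ((c : ℂ) + I * t)) *
              ((m : ℂ) ^ ((c : ℂ) + I * t) * Ψ t) := by
          funext t
          rw [← tsum_mul_right]
          congr 1
          funext d
          simp only [hg]; ring
        rw [h4]
        refine (Continuous.mul ?_ ((Continuous.const_cpow (by fun_prop)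
          (Or.inl hmne)).mul hΨ)).aestronglyMeasurable
        refine continuous_tsum (u := fun d => ‖coef k M z d‖ * Zc c)
          (fun d => continuous_const.mul (continuous_LSeries_line (norm_kron_le d) hc))
          ((summable_coef k M hz).norm.mul_right _) (fun d t => ?_)
        rw [norm_mul]
        gcongr
        exact norm_Lchi_le d hc t
      · have h5 : ∀ d, ‖g d t‖ ≤ ‖coef k M z d‖ * (Zc c * (m : ℝ) ^ c * ‖Ψ t‖) := by
          intro d
          simp only [hg]
          rw [norm_mul, norm_mul, norm_mul, Complex.norm_natCast_cpow_of_pos hm]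
          have h6 : ‖Lchi d ((c : ℂ) + I * t)‖ ≤ Zc c := norm_Lchi_le d hc t
          have h7 : ((c : ℂ) + I * t).re = c := by simp
          rw [h7]
          calc _ ≤ ‖coef k M z d‖ * (Zc c * ((m : ℝ) ^ c * ‖Ψ t‖)) := by gcongr
            _ = _ := by ring
        have h8 : Summable (fun d => ‖coef k M z d‖ * (Zc c * (m : ℝ) ^ c * ‖Ψ t‖)) :=
          (summable_coef k M hz).norm.mul_right _
        refine (tsum_of_norm_bounded h8.hasSum h5).trans ?_
        rw [tsum_mul_right]
        exact le_of_eq (by ring)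
    simpa only [hgA] using h2
  · rw [← h1]
    unfold A
    congr 1
    funext d
    simp only [hg]
    rw [integral_const_mul]
    have h2 := integral_LSeries hΨ hΨd (a := fun n => (kron d n : ℂ)) (norm_kron_le d) hc hm hpick
    unfold Lchi
    rw [h2]
    unfold coef
    rw [kron_mul hM hm]
    push_cast
    unfold Lchi
    ring

end

end Pool.Agent.Q48.MDS
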