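import Mathlib

/-!
# A rapidly decreasing kernel which picks one term of a Dirichlet series
-/

set_option autoImplicit false

open MeasureTheory Set Filter Topology Metric Complex

namespace Pool.Agent.Q48.MDS

open scoped FourierTransform RealInnerProductSpace SchwartzMap ContDiff

theorem log_ratio_ge {m n : ℕ} (hm : 1 ≤ m) (hn : 1 ≤ n) (h : n ≠ m) :
    Real.log (((m : ℝ) + 1) / m) ≤ |Real.log ((n : ℝ) / m)| := by
  have hm0 : (0 : ℝ) < m := by exact_mod_cast hm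
  have hn0 : (0 : ℝ) < n := by exact_mod_cast hn
  rcases lt_or_gt_of_ne h with h1 | h1
  · -- `n < m`
    have h2 : (n : ℝ) + 1 ≤ m := by exact_mod_cast h1
    have h3 : Real.log ((n : ℝ) / m) = - Real.log ((m : ℝ) / n) := by
      rw [← Real.log_inv, inv_div]
    rw [h3, abs_neg]
    refine le_trans ?_ (le_abs_self _)
    apply Real.log_le_log (by positivity)
    rw [div_le_div_iff₀ hm0 hn0]
    nlinarith
  · have h2 : (m : ℝ) + 1 ≤ n := by exact_mod_cast h1
    refine le_trans ?_ (le_abs_self _)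
    apply Real.log_le_log (by positivity)
    gcongr

/-- For every `m ≥ 1` there is a rapidly decreasing kernel which picks the `m`-th coefficient of a
Dirichlet series. -/
theorem exists_kernel (m : ℕ) (hm : 1 ≤ m) : ∃ Ψ : ℝ → ℂ, Continuous Ψ ∧
    (∀ N : ℕ, ∃ C : ℝ, 0 ≤ C ∧ ∀ t : ℝ, (1 + |t|) ^ N * ‖Ψ t‖ ≤ C) ∧
    ∀ n : ℕ, 1 ≤ n → ∫ t : ℝ, cexp (-(I * t * Real.log ((n : ℝ) / m))) * Ψ t =
      if n = m then 1 else 0 := by
  have hm0 : (0 : ℝ) < m := by exact_mod_cast hm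
  set δ : ℝ := Real.log (((m : ℝ) + 1) / m) / (2 * Real.pi) with hδ
  have hlog : 0 < Real.log (((m : ℝ) + 1) / m) := by
    apply Real.log_pos
    rw [lt_div_iff₀ hm0]; linarith
  have hδ0 : 0 < δ := by positivity
  let b : ContDiffBump (0 : ℝ) := ⟨δ / 2, δ, by positivity, by linarith⟩
  have hbs : HasCompactSupport (fun x : ℝ => ((b x : ℝ) : ℂ)) :=
    b.hasCompactSupport.comp_left (g := fun x : ℝ => (x : ℂ)) (by simp)
  have hbc : ContDiff ℝ ∞ (fun x : ℝ => ((b x : ℝ) : ℂ)) :=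
    Complex.ofRealCLM.contDiff.comp b.contDiff
  set ψ : 𝓢(ℝ, ℂ) := hbs.toSchwartzMap hbc with hψ
  set Φ : 𝓢(ℝ, ℂ) := 𝓕⁻ ψ with hΦ
  refine ⟨Φ, Φ.continuous, ?_, ?_⟩
  · intro N
    obtain ⟨C0, _, hC0⟩ := Φ.decay 0 0
    obtain ⟨C1, _, hC1⟩ := Φ.decay N 0
    have e0 : ∀ t : ℝ, ‖Φ t‖ ≤ C0 := by
      intro t
      have := hC0 t
      simpa [norm_iteratedFDeriv_zero] using this
    have e1 : ∀ t : ℝ, |t| ^ N * ‖Φ t‖ ≤ C1 := by
      intro t
      have := hC1 t
      simpa [norm_iteratedFDeriv_zero] using this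
    have hC0' : 0 ≤ C0 := (norm_nonneg _).trans (e0 0)
    have hC1' : 0 ≤ C1 := le_trans (by positivity) (e1 0)
    refine ⟨2 ^ N * (C0 + C1), by positivity, fun t => ?_⟩
    have h2 : (1 + |t|) ^ N ≤ 2 ^ N * (1 + |t| ^ N) := by
      rcases le_total |t| 1 with h | h
      · calc (1 + |t|) ^ N ≤ (2 : ℝ) ^ N := by gcongr; linarith
          _ ≤ 2 ^ N * (1 + |t| ^ N) := by
            have : (0 : ℝ) ≤ |t| ^ N := by positivity
            nlinarith [pow_pos (two_pos : (0 : ℝ) < 2) N]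
      · calc (1 + |t|) ^ N ≤ (2 * |t|) ^ N := by gcongr; linarith
          _ = 2 ^ N * |t| ^ N := mul_pow _ _ _
          _ ≤ 2 ^ N * (1 + |t| ^ N) := by gcongr; linarith
    calc (1 + |t|) ^ N * ‖Φ t‖ ≤ (2 ^ N * (1 + |t| ^ N)) * ‖Φ t‖ := by gcongr
      _ = 2 ^ N * (‖Φ t‖ + |t| ^ N * ‖Φ t‖) := by ring
      _ ≤ 2 ^ N * (C0 + C1) := by gcongr; exacts [e0 t, e1 t]
  · intro n hn
    have h1 : ∀ x : ℝ, 𝓕 (Φ : ℝ → ℂ) x = ψ x := by
      intro x
      rw [← SchwartzMap.fourier_coe, hΦ, FourierTransform.fourier_fourierInv_eq]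
    have h2 := h1 (Real.log ((n : ℝ) / m) / (2 * Real.pi))
    rw [Real.fourier_eq'] at h2
    have h3 : (∫ t : ℝ, cexp (-(I * t * Real.log ((n : ℝ) / m))) * Φ t) =
        ψ (Real.log ((n : ℝ) / m) / (2 * Real.pi)) := by
      rw [← h2]
      congr 1
      funext t
      rw [smul_eq_mul]
      congr 2
      have hpi : (Real.pi : ℂ) ≠ 0 := by exact_mod_cast Real.pi_ne_zero
      simp only [RCLike.inner_apply, conj_trivial]
      push_cast
      field_simp
    rw [h3]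
    show ((b (Real.log ((n : ℝ) / m) / (2 * Real.pi)) : ℝ) : ℂ) = _
    split_ifs with h
    · subst h
      rw [div_self hm0.ne', Real.log_one, zero_div]
      rw [b.one_of_mem_closedBall (by simp [b.rIn_pos.le])]
      simp
    · rw [b.zero_of_le_dist]
      · simp
      · show δ ≤ _
        rw [dist_zero_right, norm_div, Real.norm_eq_abs, Real.norm_of_nonneg (by positivity), hδ]
        gcongr
        exact log_ratio_ge hm hn h

end Pool.Agent.Q48.MDS
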