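import Pool.Agent.Q48.MDS.Bochner
import Pool.Agent.Q48.MDS.Pick

/-!
# Integration over the imaginary part of the last variable
-/

set_option autoImplicit false
set_option linter.unusedSectionVars false

open MeasureTheory Set Filter Topology Metric Complex

namespace Pool.Agent.Q48.MDS

/-- `(z, s)` -/
def sn {n : ℕ} {α : Type*} (z : Fin n → α) (s : α) : Fin (n + 1) → α := Fin.snoc z s

@[simp] theorem sn_castSucc {n : ℕ} {α : Type*} (z : Fin n → α) (s : α) (j : Fin n) :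
    sn z s j.castSucc = z j := by
  simp [sn]

@[simp] theorem sn_last {n : ℕ} {α : Type*} (z : Fin n → α) (s : α) :
    sn z s (Fin.last n) = s := by
  simp [sn]

theorem sn_re {n : ℕ} (z : Fin n → ℂ) (s : ℂ) :
    (fun i => (sn z s i).re) = sn (fun i => (z i).re) s.re := by
  funext i
  refine Fin.lastCases ?_ (fun j => ?_) i <;> simp

theorem sn_im {n : ℕ} (z : Fin n → ℂ) (s : ℂ) :
    (fun i => (sn z s i).im) = sn (fun i => (z i).im) s.im := by
  funext i
  refine Fin.lastCases ?_ (fun j => ?_) i <;> simp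

theorem norm_sn_le {n : ℕ} (y : Fin n → ℝ) (t : ℝ) : ‖sn y t‖ ≤ ‖y‖ + |t| := by
  rw [pi_norm_le_iff_of_nonneg (by positivity)]
  intro i
  refine Fin.lastCases ?_ (fun j => ?_) i
  · rw [sn_last, Real.norm_eq_abs]
    linarith [norm_nonneg y]
  · rw [sn_castSucc]
    linarith [norm_le_pi_norm y j, abs_nonneg t]

theorem continuous_sn_left {n : ℕ} {α : Type*} [TopologicalSpace α] (s : α) :
    Continuous (fun z : Fin n → α => sn z s) := by
  refine continuous_pi fun i => ?_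
  refine Fin.lastCases ?_ (fun j => ?_) i
  · simpa using continuous_const
  · simpa using continuous_apply j

theorem differentiable_sn_left {n : ℕ} (s : ℂ) :
    Differentiable ℂ (fun z : Fin n → ℂ => sn z s) := by
  refine differentiable_pi.2 fun i => ?_
  refine Fin.lastCases ?_ (fun j => ?_) i
  · simp
  · simpa using differentiable_apply j

theorem continuous_sn_right {n : ℕ} {α : Type*} [TopologicalSpace α] (z : Fin n → α) :
    Continuous (fun s : α => sn z s) := by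
  refine continuous_pi fun i => ?_
  refine Fin.lastCases ?_ (fun j => ?_) i
  · simpa using continuous_id'
  · simpa using continuous_const

/-- The slice of `Ω` at the value `c` of the last coordinate. -/
def slice {n : ℕ} (Ω : Set (Fin (n + 1) → ℝ)) (c : ℝ) : Set (Fin n → ℝ) := {x | sn x c ∈ Ω}

theorem isOpen_slice {n : ℕ} {Ω : Set (Fin (n + 1) → ℝ)} (h : IsOpen Ω) (c : ℝ) :
    IsOpen (slice Ω c) := h.preimage (continuous_sn_left c)

theorem sn_mem_tube {n : ℕ} {Ω : Set (Fin (n + 1) → ℝ)} {c : ℝ} {z : Fin n → ℂ}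
    (hz : z ∈ tube (slice Ω c)) (t : ℝ) : sn z ((c : ℂ) + I * t) ∈ tube Ω := by
  show (fun i => (sn z ((c : ℂ) + I * t) i).re) ∈ Ω
  rw [sn_re]
  have : ((c : ℂ) + I * t).re = c := by simp
  rw [this]
  exact hz

/-- The extraction integral. -/
noncomputable def extr {n : ℕ} (B : (Fin (n + 1) → ℂ) → ℂ) (c : ℝ) (m : ℕ) (Ψ : ℝ → ℂ)
    (z : Fin n → ℂ) : ℂ :=
  ∫ t : ℝ, B (sn z ((c : ℂ) + I * t)) * ((m : ℂ) ^ ((c : ℂ) + I * t) * Ψ t)

theorem tempered_extr {n : ℕ} {Ω : Set (Fin (n + 1) → ℝ)} (hΩ : IsOpen Ω)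
    {B : (Fin (n + 1) → ℂ) → ℂ} (hB : Tempered Ω B) (c : ℝ) {m : ℕ} (hm : 1 ≤ m) {Ψ : ℝ → ℂ}
    (hΨ : Continuous Ψ)
    (hΨd : ∀ N : ℕ, ∃ C : ℝ, 0 ≤ C ∧ ∀ t : ℝ, (1 + |t|) ^ N * ‖Ψ t‖ ≤ C) :
    Tempered (slice Ω c) (extr B c m Ψ) := by
  have hm0 : (0 : ℝ) < m := by exact_mod_cast hm
  have hmne : (m : ℂ) ≠ 0 := by exact_mod_cast hm0.ne'
  have hJi : Integrable (fun t : ℝ => (1 + |t|) ^ (-2 : ℝ)) := by
    have := integrable_one_add_norm (E := ℝ) (μ := volume) (r := 2) (by simp)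
    simpa [Real.norm_eq_abs] using this
  -- the key estimate
  have key : ∀ K ⊆ slice Ω c, IsCompact K → ∃ (C : ℝ) (N : ℕ), 0 ≤ C ∧ ∀ z : Fin n → ℂ,
      (fun i => (z i).re) ∈ K → ∀ t : ℝ,
      ‖B (sn z ((c : ℂ) + I * t)) * ((m : ℂ) ^ ((c : ℂ) + I * t) * Ψ t)‖ ≤
        C * (1 + ‖fun i => (z i).im‖) ^ N * (1 + |t|) ^ (-2 : ℝ) := by
    intro K hK hc
    obtain ⟨C, N, hC⟩ := hB.2 ((fun x => sn x c) '' K) (by rintro _ ⟨x, hx, rfl⟩; exact hK hx)
      (hc.image (continuous_sn_left c))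
    obtain ⟨D, hD0, hD⟩ := hΨd (N + 2)
    refine ⟨|C| * ((m : ℝ) ^ c) * D, N, by positivity, fun z hz t => ?_⟩
    have h1 := hC (sn z ((c : ℂ) + I * t)) (by
      refine ⟨_, hz, ?_⟩
      rw [sn_re]
      simp)
    rw [sn_im] at h1
    have h2 : ((c : ℂ) + I * t).im = t := by simp
    rw [h2] at h1
    have h3 : 1 + ‖sn (fun i => (z i).im) t‖ ≤ (1 + ‖fun i => (z i).im‖) * (1 + |t|) := by
      have := norm_sn_le (fun i => (z i).im) t
      nlinarith [norm_nonneg (fun i => (z i).im), abs_nonneg t]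
    have h4 : ‖B (sn z ((c : ℂ) + I * t))‖ ≤
        |C| * ((1 + ‖fun i => (z i).im‖) ^ N * (1 + |t|) ^ N) := by
      refine h1.trans ?_
      rw [← mul_pow]
      calc C * (1 + ‖sn (fun i => (z i).im) t‖) ^ N ≤ |C| * (1 + ‖sn (fun i => (z i).im) t‖) ^ N := by
            gcongr; exact le_abs_self C
        _ ≤ _ := by gcongr
    have h5 : ‖(m : ℂ) ^ ((c : ℂ) + I * t)‖ = (m : ℝ) ^ c := by
      have := Complex.norm_natCast_cpow_of_pos hm ((c : ℂ) + I * t)
      rw [this]; simp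
    rw [norm_mul, norm_mul, h5]
    have h6 : (1 + |t|) ^ N * ‖Ψ t‖ ≤ D * (1 + |t|) ^ (-2 : ℝ) := by
      have h7 : (1 + |t|) ^ (-2 : ℝ) = ((1 + |t|) ^ 2)⁻¹ := by
        rw [Real.rpow_neg (by positivity)]
        congr 1
        exact_mod_cast Real.rpow_natCast (1 + |t|) 2
      rw [h7, ← div_eq_mul_inv, le_div_iff₀ (by positivity)]
      calc (1 + |t|) ^ N * ‖Ψ t‖ * (1 + |t|) ^ 2 = (1 + |t|) ^ (N + 2) * ‖Ψ t‖ := by ring
        _ ≤ D := hD t
    calc ‖B (sn z ((c : ℂ) + I * t))‖ * ((m : ℝ) ^ c * ‖Ψ t‖)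
        ≤ (|C| * ((1 + ‖fun i => (z i).im‖) ^ N * (1 + |t|) ^ N)) * ((m : ℝ) ^ c * ‖Ψ t‖) := by
          gcongr
      _ = |C| * (m : ℝ) ^ c * (1 + ‖fun i => (z i).im‖) ^ N * ((1 + |t|) ^ N * ‖Ψ t‖) := by ring
      _ ≤ |C| * (m : ℝ) ^ c * (1 + ‖fun i => (z i).im‖) ^ N * (D * (1 + |t|) ^ (-2 : ℝ)) := by
          gcongr
      _ = _ := by ring
  refine ⟨?_, ?_⟩
  · refine differentiableOn_integral (isOpen_tube (isOpen_slice hΩ c))
      (fun z (t : ℝ) => B (sn z ((c : ℂ) + I * t)) * ((m : ℂ) ^ ((c : ℂ) + I * t) * Ψ t)) ?_ ?_ ?_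
    · intro t
      refine DifferentiableOn.mul_const ?_ _
      exact hB.1.comp (differentiable_sn_left _).differentiableOn (fun z hz => sn_mem_tube hz t)
    · intro z hz
      refine Continuous.aestronglyMeasurable ?_
      refine Continuous.mul ?_ (Continuous.mul ?_ hΨ)
      · refine hB.1.continuousOn.comp_continuous ?_ (fun t => sn_mem_tube hz t)
        exact (continuous_sn_right z).comp (by fun_prop)
      · refine Continuous.const_cpow (by fun_prop) (Or.inl hmne)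
    · intro z₀ hz₀
      obtain ⟨r, hr, hrs⟩ := Metric.isOpen_iff.1 (isOpen_slice hΩ c) _ hz₀
      set K := closedBall (fun i => (z₀ i).re) (r / 2) with hKdef
      have hK : K ⊆ slice Ω c := (closedBall_subset_ball (by linarith)).trans hrs
      obtain ⟨C, N, hC0, hC⟩ := key K hK (isCompact_closedBall _ _)
      set V : Set (Fin n → ℂ) := {z | (fun i => (z i).re) ∈ K ∧
        ‖fun i => (z i).im‖ ≤ ‖fun i => (z₀ i).im‖ + 1} with hV
      refine ⟨V, ?_, fun t => C * (1 + (‖fun i => (z₀ i).im‖ + 1)) ^ N * (1 + |t|) ^ (-2 : ℝ),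
        hJi.const_mul _, fun z hz t => (hC z hz.1 t).trans ?_⟩
      · refine inter_mem ?_ ?_
        · have hn : K ∈ 𝓝 (fun i => (z₀ i).re) := closedBall_mem_nhds _ (by positivity)
          exact (continuous_re' (ι := Fin n)).continuousAt.preimage_mem_nhds (x := z₀) hn
        · have hci : Continuous (fun z : Fin n → ℂ => ‖fun i => (z i).im‖) :=
            (continuous_pi fun i => Complex.continuous_im.comp (continuous_apply i)).norm
          have : Iic (‖fun i => (z₀ i).im‖ + 1) ∈ 𝓝 ‖fun i => (z₀ i).im‖ :=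
            Iic_mem_nhds (by linarith)
          exact hci.continuousAt.preimage_mem_nhds this
      · have := hz.2
        have h0 : 0 ≤ (1 + |t|) ^ (-2 : ℝ) := by positivity
        show C * (1 + ‖fun i => (z i).im‖) ^ N * (1 + |t|) ^ (-2 : ℝ) ≤
          C * (1 + (‖fun i => (z₀ i).im‖ + 1)) ^ N * (1 + |t|) ^ (-2 : ℝ)
        gcongr
  · intro K hK hc
    obtain ⟨C, N, hC0, hC⟩ := key K hK hc
    refine ⟨C * ∫ t : ℝ, (1 + |t|) ^ (-2 : ℝ), N, fun z hz => ?_⟩
    unfold extr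
    calc _ ≤ ∫ t : ℝ, ‖B (sn z ((c : ℂ) + I * t)) * ((m : ℂ) ^ ((c : ℂ) + I * t) * Ψ t)‖ :=
          norm_integral_le_integral_norm _
      _ ≤ ∫ t : ℝ, C * (1 + ‖fun i => (z i).im‖) ^ N * (1 + |t|) ^ (-2 : ℝ) := by
          refine integral_mono_of_nonneg (Eventually.of_forall fun _ => norm_nonneg _)
            (hJi.const_mul _) (Eventually.of_forall fun t => hC z hz t)
      _ = _ := by rw [integral_const_mul]; ring

end Pool.Agent.Q48.MDS
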