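import Pool.Agent.Q48.MDS.Split

/-!
# The transform at a point of a flat piece of the boundary
-/

set_option autoImplicit false
set_option linter.unusedSectionVars false

open MeasureTheory Set Filter Topology Metric Complex

namespace Pool.Agent.Q48.MDS

variable {k : ℕ}

/-- the point `(w; σ + i t)` -/
noncomputable def zz (σ t : Fin k → ℝ) (w : ℂ) : Fin (k + 1) → ℂ :=
  Fin.cons w (fun j => (σ j : ℂ) + I * (t j : ℂ))

/-- the real point `(x; σ)` -/
noncomputable def xx (σ : Fin k → ℝ) (x : ℝ) : Fin (k + 1) → ℝ := Fin.cons x σ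

theorem zz_zero (σ t : Fin k → ℝ) (w : ℂ) : zz σ t w 0 = w := rfl

theorem zz_succ (σ t : Fin k → ℝ) (w : ℂ) (j : Fin k) :
    zz σ t w j.succ = (σ j : ℂ) + I * (t j : ℂ) := by simp [zz]

theorem xx_zero (σ : Fin k → ℝ) (x : ℝ) : xx σ x 0 = x := rfl

theorem xx_succ (σ : Fin k → ℝ) (x : ℝ) (j : Fin k) : xx σ x j.succ = σ j := by simp [xx]

theorem zz_re (σ t : Fin k → ℝ) (w : ℂ) (i : Fin (k + 1)) : (zz σ t w i).re = xx σ w.re i := by
  refine Fin.cases ?_ (fun j => ?_) i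
  · rfl
  · rw [zz_succ, xx_succ]; simp

theorem imV_zz (σ t : Fin k → ℝ) (w : ℂ) : imV (zz σ t w) = asm w.im t := by
  ext i
  refine Fin.cases ?_ (fun j => ?_) i
  · rfl
  · show (zz σ t w j.succ).im = (Fin.cons w.im t : Fin (k + 1) → ℝ) j.succ
    rw [zz_succ]; simp

theorem cpt_asm (σ t : Fin k → ℝ) (x y : ℝ) :
    cpt (rl (xx σ x)) (asm y t) = zz σ t ((x : ℂ) + I * (y : ℂ)) := by
  funext i
  refine Fin.cases ?_ (fun j => ?_) i
  · rw [zz_zero]
    rfl
  · rw [zz_succ]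
    show (rl (xx σ x) j.succ : ℂ) + I * (((asm y t) j.succ : ℝ) : ℂ) = _
    have h1 : (asm y t) j.succ = t j := by simp [asm]
    rw [h1]
    simp [rl, xx_succ]

theorem differentiable_zz (σ t : Fin k → ℝ) : Differentiable ℂ (zz σ t) := by
  refine differentiable_pi.2 fun i => ?_
  refine Fin.cases ?_ (fun j => ?_) i
  · exact differentiable_id
  · simp only [zz_succ]
    exact differentiable_const _

theorem norm_asm_sq (y : ℝ) (t : Fin k → ℝ) : ‖asm y t‖ ^ 2 = y ^ 2 + ‖asm 0 t‖ ^ 2 := by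
  rw [EuclideanSpace.norm_sq_eq, EuclideanSpace.norm_sq_eq, Fin.sum_univ_succ, Fin.sum_univ_succ]
  simp [asm]

theorem norm_asm_le (y : ℝ) (t : Fin k → ℝ) : ‖asm y t‖ ≤ ‖asm 0 t‖ + |y| := by
  have h := norm_asm_sq y t
  have h1 : ‖asm y t‖ ^ 2 ≤ (‖asm 0 t‖ + |y|) ^ 2 := by
    rw [h, ← sq_abs y]
    nlinarith [norm_nonneg (asm 0 t), abs_nonneg y]
  exact abs_le_of_sq_le_sq' h1 (by positivity) |>.2

theorem abs_le_norm_asm (y : ℝ) (t : Fin k → ℝ) : |y| ≤ ‖asm y t‖ := by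
  have h := norm_asm_sq y t
  have h1 : |y| ^ 2 ≤ ‖asm y t‖ ^ 2 := by
    rw [h, sq_abs]
    nlinarith [sq_nonneg ‖asm 0 t‖]
  exact abs_le_of_sq_le_sq' h1 (norm_nonneg _) |>.2

theorem norm_le_norm_asm (y : ℝ) (t : Fin k → ℝ) : ‖t‖ ≤ ‖asm y t‖ := by
  rw [pi_norm_le_iff_of_nonneg (norm_nonneg _)]
  intro j
  have h1 : (asm y t) j.succ = t j := by simp [asm]
  rw [← h1]
  exact PiLp.norm_apply_le (p := 2) (asm y t) j.succ

theorem asm_sub_sq (y : ℝ) (t : Fin k → ℝ) (η : EuclideanSpace ℝ (Fin (k + 1))) :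
    (y - η 0) ^ 2 ≤ ‖asm y t - η‖ ^ 2 := by
  have h := PiLp.norm_apply_le (p := 2) (asm y t - η) 0
  have h1 : (asm y t - η) 0 = y - η 0 := by simp [asm]
  rw [h1, Real.norm_eq_abs] at h
  rw [← sq_abs (y - η 0)]
  gcongr

theorem tendsto_pow_gauss (N : ℕ) : Tendsto (fun y : ℝ => (1 + |y|) ^ N * Real.exp (-(1 / 2) * |y| ^ 2))
    (cocompact ℝ) (𝓝 0) := by
  obtain ⟨C, hC0, hC⟩ := pow_mul_gauss_le (N + 1) (c := 1 / 2) (by norm_num)
  have h1 : Tendsto (fun y : ℝ => C * (1 + |y|)⁻¹) (cocompact ℝ) (𝓝 0) := by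
    have h2 : Tendsto (fun y : ℝ => 1 + |y|) (cocompact ℝ) atTop :=
      tendsto_atTop_add_const_left _ _ (tendsto_norm_cocompact_atTop (E := ℝ))
    simpa using (tendsto_inv_atTop_zero.comp h2).const_mul C
  refine squeeze_zero (fun y => by positivity) (fun y => ?_) h1
  have h3 := hC |y| (abs_nonneg y)
  rw [← div_eq_mul_inv, le_div_iff₀ (by positivity)]
  calc _ = (1 + |y|) ^ (N + 1) * Real.exp (-(1 / 2) * |y| ^ 2) := by ring
    _ ≤ C := h3

/-- The transform is bounded as if the function were tempered at the flat point `(a; σ)`. -/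
theorem hat_flat {Ω : Set (Fin (k + 1) → ℝ)} {F : (Fin (k + 1) → ℂ) → ℂ} (hF : Tempered Ω F)
    {σ : Fin k → ℝ} {a W : ℝ} (haW : a ≤ W) (hW : xx σ W ∈ Ω) {g : (Fin k → ℝ) → ℂ → ℂ}
    (hd : ∀ t, DifferentiableOn ℂ (g t) {w | a ≤ w.re ∧ w.re ≤ W}) {C : ℝ} {N : ℕ}
    (hb : ∀ t w, a ≤ w.re → w.re ≤ W → ‖g t w‖ ≤ C * (1 + ‖t‖ + |w.im|) ^ N)
    (he : ∀ t w, w.re = W → g t w = F (zz σ t w)) :
    ∃ C' : ℝ, 0 ≤ C' ∧ ∀ η ξ : EuclideanSpace ℝ (Fin (k + 1)),
      ‖hat F η ξ (rl (xx σ W))‖ * Real.exp (2 * Real.pi * ∑ j, xx σ a j * ξ j) ≤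
        C' * (1 + ‖η‖) ^ N := by
  set E : ℝ := Real.exp (a ^ 2 + W ^ 2 + ∑ j, σ j ^ 2) with hE
  have hE0 : 0 < E := Real.exp_pos _
  -- bound of `g` in terms of the Euclidean norm
  have hg : ∀ t w, a ≤ w.re → w.re ≤ W → ‖g t w‖ ≤ |C| * 2 ^ N * (1 + ‖asm w.im t‖) ^ N := by
    intro t w h1 h2
    have h3 : 1 + ‖t‖ + |w.im| ≤ 2 * (1 + ‖asm w.im t‖) := by
      have := norm_le_norm_asm w.im t
      have := abs_le_norm_asm w.im t
      linarith
    calc ‖g t w‖ ≤ C * (1 + ‖t‖ + |w.im|) ^ N := hb t w h1 h2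
      _ ≤ |C| * (2 * (1 + ‖asm w.im t‖)) ^ N := by
          have := le_abs_self C
          gcongr
      _ = _ := by rw [mul_pow]; ring
  set J := ∫ y : EuclideanSpace ℝ (Fin (k + 1)), (1 + ‖y‖) ^ N * Real.exp (-1 * ‖y‖ ^ 2) with hJ
  have hJ0 : 0 ≤ J := integral_nonneg fun y => by positivity
  refine ⟨|C| * 2 ^ N * E * J, by positivity, fun η ξ => ?_⟩
  set X : ℝ := ∑ j, xx σ a j * ξ j with hX
  -- the integrand on the flat piece
  set H : (Fin k → ℝ) → ℂ → ℂ := fun t w =>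
    g t w * cexp (gau η (zz σ t w)) * cexp (((-2 * Real.pi : ℝ) : ℂ) * pair (zz σ t w) ξ) with hH
  have hHn : ∀ t w, ‖H t w‖ = ‖g t w‖ * (Real.exp (∑ j, (xx σ w.re j) ^ 2) *
      Real.exp (-‖asm w.im t - η‖ ^ 2)) * Real.exp (-2 * Real.pi * ∑ j, xx σ w.re j * ξ j) := by
    intro t w
    simp only [hH]
    rw [norm_mul, norm_mul, norm_exp_gau, norm_exp_pair, imV_zz]
    simp only [zz_re]
  have hsq : ∀ x ∈ Icc a W, Real.exp (∑ j, (xx σ x j) ^ 2) ≤ E := by
    intro x hx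
    rw [hE]
    apply Real.exp_le_exp.2
    rw [Fin.sum_univ_succ, xx_zero]
    simp only [xx_succ]
    have : x ^ 2 ≤ a ^ 2 + W ^ 2 := by
      rcases le_total 0 x with h | h
      · nlinarith [hx.1, hx.2, sq_nonneg a]
      · nlinarith [hx.1, hx.2, sq_nonneg W]
    linarith
  have hHd : ∀ t, DifferentiableOn ℂ (H t) {w | a ≤ w.re ∧ w.re ≤ W} := by
    intro t
    simp only [hH]
    refine ((hd t).mul ?_).mul ?_
    · exact ((differentiable_gau η).comp (differentiable_zz σ t)).cexp.differentiableOn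
    · exact (((differentiable_pair ξ).comp (differentiable_zz σ t)).const_mul _).cexp.differentiableOn
  -- equality with the integrand over `W`
  have hHW : ∀ t (y : ℝ), ker F η ξ (cpt (rl (xx σ W)) (asm y t)) = H t ((W : ℂ) + I * y) := by
    intro t y
    rw [cpt_asm]
    simp only [hH, ker]
    rw [he t ((W : ℂ) + I * y) (by simp)]
  -- shift
  have hshift : ∀ t, ∫ y : ℝ, H t ((a : ℂ) + I * y) = ∫ y : ℝ, H t ((W : ℂ) + I * y) := by
    intro t
    -- a bound of the exponential factor for `x ∈ [a, W]`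
    set D : ℝ := Real.exp (2 * Real.pi * ((|a| + |W|) * |ξ 0|) -
      2 * Real.pi * ∑ j, σ j * ξ j.succ) with hD
    set P : ℝ := |C| * 2 ^ N * (1 + ‖asm 0 t‖) ^ N * E * Real.exp ((η 0) ^ 2) * D with hP
    refine vertical_shift haW (hHd t)
      (φ := fun y => P * ((1 + |y|) ^ N * Real.exp (-(1 / 2) * |y| ^ 2))) ?_ ?_ ?_
    · exact (integrable_pow_gauss (V := ℝ) N (c := 1 / 2) (by norm_num)).const_mul P
    · simpa using (tendsto_pow_gauss N).const_mul P
    · intro x hx y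
      have hre : ((x : ℂ) + I * y).re = x := by simp
      have him : ((x : ℂ) + I * y).im = y := by simp
      rw [hHn, hre, him]
      have b1 : ‖g t ((x : ℂ) + I * y)‖ ≤ |C| * 2 ^ N * ((1 + ‖asm 0 t‖) * (1 + |y|)) ^ N := by
        have h1 := hg t ((x : ℂ) + I * y) (by rw [hre]; exact hx.1) (by rw [hre]; exact hx.2)
        rw [him] at h1
        refine h1.trans ?_
        have h2 := norm_asm_le y t
        gcongr
        nlinarith [norm_nonneg (asm 0 t), abs_nonneg y]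
      have b2 : Real.exp (-‖asm y t - η‖ ^ 2) ≤
          Real.exp ((η 0) ^ 2) * Real.exp (-(1 / 2) * |y| ^ 2) := by
        rw [← Real.exp_add]
        apply Real.exp_le_exp.2
        have h1 := asm_sub_sq y t η
        rw [sq_abs]
        nlinarith [sq_nonneg (y - 2 * η 0)]
      have b3 : Real.exp (-2 * Real.pi * ∑ j, xx σ x j * ξ j) ≤ D := by
        rw [hD]
        apply Real.exp_le_exp.2
        rw [Fin.sum_univ_succ, xx_zero]
        simp only [xx_succ]
        have h1 : -(x * ξ 0) ≤ (|a| + |W|) * |ξ 0| := by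
          have h2 : |x| ≤ |a| + |W| := by
            rw [abs_le]
            constructor
            · linarith [hx.1, neg_abs_le a, abs_nonneg W]
            · linarith [hx.2, le_abs_self W, abs_nonneg a]
          calc -(x * ξ 0) ≤ |x * ξ 0| := neg_le_abs _
            _ = |x| * |ξ 0| := abs_mul _ _
            _ ≤ _ := by gcongr
        have h3 := mul_le_mul_of_nonneg_left h1 (by positivity : (0 : ℝ) ≤ 2 * Real.pi)
        linarith
      have b4 := hsq x hx
      calc _ ≤ (|C| * 2 ^ N * ((1 + ‖asm 0 t‖) * (1 + |y|)) ^ N) *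
            (E * (Real.exp ((η 0) ^ 2) * Real.exp (-(1 / 2) * |y| ^ 2))) * D := by gcongr
        _ = _ := by rw [mul_pow, hP]; ring
  -- the majorant on the flat piece
  set b : EuclideanSpace ℝ (Fin (k + 1)) → ℝ := fun y =>
    |C| * 2 ^ N * E * (1 + ‖η‖) ^ N * Real.exp (-2 * Real.pi * X) *
      ((1 + ‖y - η‖) ^ N * Real.exp (-1 * ‖y - η‖ ^ 2)) with hbdef
  have hbi : Integrable b := by
    have hint : Integrable (fun y : EuclideanSpace ℝ (Fin (k + 1)) =>
        (1 + ‖y - η‖) ^ N * Real.exp (-1 * ‖y - η‖ ^ 2)) :=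
      (integrable_pow_gauss (V := EuclideanSpace ℝ (Fin (k + 1))) N (c := 1) one_pos).comp_sub_right η
    exact hint.const_mul _
  have hHb : ∀ t (y : ℝ), ‖H t ((a : ℂ) + I * y)‖ ≤ b (asm y t) := by
    intro t y
    have hre : ((a : ℂ) + I * y).re = a := by simp
    have him : ((a : ℂ) + I * y).im = y := by simp
    rw [hHn, hre, him]
    have b1 : ‖g t ((a : ℂ) + I * y)‖ ≤ |C| * 2 ^ N * ((1 + ‖η‖) * (1 + ‖asm y t - η‖)) ^ N := by
      have h1 := hg t ((a : ℂ) + I * y) (by rw [hre]) (by rw [hre]; exact haW)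
      rw [him] at h1
      refine h1.trans ?_
      have h2 := one_add_norm_add_le η (asm y t - η)
      rw [add_sub_cancel] at h2
      gcongr
    have b4 := hsq a ⟨le_rfl, haW⟩
    calc _ ≤ (|C| * 2 ^ N * ((1 + ‖η‖) * (1 + ‖asm y t - η‖)) ^ N) *
          (E * Real.exp (-‖asm y t - η‖ ^ 2)) * Real.exp (-2 * Real.pi * X) := by gcongr
      _ = _ := by
        simp only [hbdef]
        rw [mul_pow, neg_one_mul]
        ring
  have hker : Integrable (fun y => ker F η ξ (cpt (rl (xx σ W)) y)) :=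
    integrable_ker hF η ξ (rl_mem hW)
  have hI : ‖hat F η ξ (rl (xx σ W))‖ ≤ ∫ y, b y := by
    unfold hat
    rw [integral_split hker, integral_split hbi]
    refine (norm_integral_le_integral_norm _).trans ?_
    refine integral_mono_of_nonneg (Eventually.of_forall fun t => norm_nonneg _)
      (integrable_split hbi) ?_
    have hae : ∀ᵐ t : Fin k → ℝ, Integrable (fun y₀ : ℝ => b (asm y₀ t)) := by
      have h1 := asm_mp (k := k)
      have h2 : Integrable (fun p : ℝ × (Fin k → ℝ) => b (asm p.1 p.2)) :=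
        (h1.1.integrable_comp_emb h1.2).2 hbi
      exact h2.prod_left_ae
    filter_upwards [hae] with t ht
    simp_rw [hHW]
    rw [← hshift t]
    refine (norm_integral_le_integral_norm _).trans ?_
    exact integral_mono_of_nonneg (Eventually.of_forall fun _ => norm_nonneg _) ht
      (Eventually.of_forall fun y => hHb t y)
  have hJb : ∫ y, b y = |C| * 2 ^ N * E * (1 + ‖η‖) ^ N * Real.exp (-2 * Real.pi * X) * J := by
    simp only [hbdef]
    rw [integral_const_mul]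
    congr 1
    exact integral_sub_right_eq_self (fun y : EuclideanSpace ℝ (Fin (k + 1)) =>
      (1 + ‖y‖) ^ N * Real.exp (-1 * ‖y‖ ^ 2)) η
  calc ‖hat F η ξ (rl (xx σ W))‖ * Real.exp (2 * Real.pi * X)
      ≤ (|C| * 2 ^ N * E * (1 + ‖η‖) ^ N * Real.exp (-2 * Real.pi * X) * J) *
        Real.exp (2 * Real.pi * X) := by
        rw [← hJb]; gcongr
    _ = |C| * 2 ^ N * E * J * (1 + ‖η‖) ^ N *
        (Real.exp (-2 * Real.pi * X) * Real.exp (2 * Real.pi * X)) := by ring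
    _ = _ := by
        rw [← Real.exp_add]
        simp

end Pool.Agent.Q48.MDS
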