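import Pool.Agent.Q48.MDS.Main

/-!
# The set of the points to which the function continues is convex and closed upwards
-/

set_option autoImplicit false
set_option linter.unusedSectionVars false

open MeasureTheory Set Filter Topology Metric Complex

namespace Pool.Agent.Q48.MDS

theorem isOpen_orth (n : ℕ) : IsOpen (orth n) := by
  have : orth n = ⋂ i, {x : Fin n → ℝ | 1 < x i} := by ext x; simp [orth]
  rw [this]
  exact isOpen_iInter_of_finite fun i => isOpen_lt continuous_const (continuous_apply i)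

theorem orth_nonempty (n : ℕ) : (orth n).Nonempty := ⟨fun _ => 2, fun _ => by norm_num⟩

/-- A convex open set containing the orthant is closed upwards. -/
theorem mem_of_ge {n : ℕ} {W : Set (Fin n → ℝ)} (hW : IsOpen W) (hc : Convex ℝ W)
    (ho : orth n ⊆ W) {p q : Fin n → ℝ} (hp : p ∈ W) (hpq : ∀ i, p i ≤ q i) : q ∈ W := by
  set a : Fin n → ℝ := fun _ => 2 with ha
  have hcont : ContinuousAt (fun l : ℝ => (1 - l)⁻¹ • (p - l • a)) 0 := by
    have h1 : ContinuousAt (fun l : ℝ => (1 - l)⁻¹) 0 :=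
      ContinuousAt.inv₀ (by fun_prop) (by norm_num)
    have h2 : ContinuousAt (fun l : ℝ => p - l • a) 0 := by fun_prop
    exact h1.smul h2
  have h0 : (fun l : ℝ => (1 - l)⁻¹ • (p - l • a)) 0 = p := by simp
  have hev : ∀ᶠ l : ℝ in 𝓝 0, (1 - l)⁻¹ • (p - l • a) ∈ W := by
    have h1 : W ∈ 𝓝 ((fun l : ℝ => (1 - l)⁻¹ • (p - l • a)) 0) := by
      rw [h0]; exact hW.mem_nhds hp
    exact hcont h1
  have hev2 : ∀ᶠ l : ℝ in 𝓝[>] 0, (1 - l)⁻¹ • (p - l • a) ∈ W ∧ 0 < l ∧ l < 1 := by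
    have h2 : ∀ᶠ l : ℝ in 𝓝[>] 0, l < 1 := nhdsWithin_le_nhds (Iio_mem_nhds one_pos)
    have h3 : ∀ᶠ l : ℝ in 𝓝[>] 0, (0 : ℝ) < l := self_mem_nhdsWithin
    filter_upwards [nhdsWithin_le_nhds hev, h2, h3] with l h4 h5 h6 using ⟨h4, h6, h5⟩
  obtain ⟨l, hl, hl0, hl1⟩ := hev2.exists
  have hb : a + l⁻¹ • (q - p) ∈ orth n := by
    intro i
    have h1 : 0 ≤ l⁻¹ * (q i - p i) := mul_nonneg (by positivity) (by linarith [hpq i])
    simp only [ha, Pi.add_apply, Pi.smul_apply, Pi.sub_apply, smul_eq_mul]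
    linarith
  have h5 := hc hl (ho hb) (by linarith : (0 : ℝ) ≤ 1 - l) hl0.le (by ring)
  have h6 : (1 - l) • ((1 - l)⁻¹ • (p - l • a)) + l • (a + l⁻¹ • (q - p)) = q := by
    rw [smul_smul, mul_inv_cancel₀ (by linarith), one_smul, smul_add, smul_smul,
      mul_inv_cancel₀ hl0.ne', one_smul]
    abel
  rwa [h6] at h5

theorem ContinuesTo.up {k M : ℕ} {p q : Fin (k + 1) → ℝ} (h : ContinuesTo k M p)
    (hpq : ∀ i, p i ≤ q i) : ContinuesTo k M q := by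
  obtain ⟨Ω, hΩo, hΩc, hsub, hp, G₀, hG₀, hGeq⟩ := h
  obtain ⟨G, hG, hGG⟩ := bochner hΩo hΩc hG₀
  have hΩW : Ω ⊆ convexHull ℝ Ω := subset_convexHull ℝ Ω
  refine ⟨convexHull ℝ Ω, hΩo.convexHull, ⟨⟨p, hΩW hp⟩, (convex_convexHull ℝ Ω).isPreconnected⟩,
    hsub.trans hΩW, ?_, G, hG, fun z hz => ?_⟩
  · exact mem_of_ge hΩo.convexHull (convex_convexHull ℝ Ω) (hsub.trans hΩW) (hΩW hp) hpq
  · rw [hGG (hsub hz), hGeq hz]

/-- gluing of tempered functions -/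
theorem tempered_glue {n : ℕ} {W₁ W₂ : Set (Fin n → ℝ)} (h₁ : IsOpen W₁) (h₂ : IsOpen W₂)
    {G₁ G₂ : (Fin n → ℂ) → ℂ} (hG₁ : Tempered W₁ G₁) (hG₂ : Tempered W₂ G₂)
    (he : EqOn G₁ G₂ (tube (W₁ ∩ W₂))) :
    ∃ G : (Fin n → ℂ) → ℂ, Tempered (W₁ ∪ W₂) G ∧ EqOn G G₁ (tube W₁) ∧ EqOn G G₂ (tube W₂) := by
  classical
  set G : (Fin n → ℂ) → ℂ := fun z => if z ∈ tube W₁ then G₁ z else G₂ z with hG
  have e₁ : EqOn G G₁ (tube W₁) := by
    intro z hz; simp only [hG]; rw [if_pos hz]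
  have e₂ : EqOn G G₂ (tube W₂) := by
    intro z hz
    simp only [hG]
    by_cases h : z ∈ tube W₁
    · rw [if_pos h]; exact he ⟨h, hz⟩
    · rw [if_neg h]
  refine ⟨G, ⟨?_, ?_⟩, e₁, e₂⟩
  · intro z hz
    apply DifferentiableAt.differentiableWithinAt
    rcases hz with hz | hz
    · have h3 : DifferentiableAt ℂ G₁ z := hG₁.1.differentiableAt ((isOpen_tube h₁).mem_nhds hz)
      refine h3.congr_of_eventuallyEq ?_
      filter_upwards [(isOpen_tube h₁).mem_nhds hz] with w hw using e₁ hw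
    · have h3 : DifferentiableAt ℂ G₂ z := hG₂.1.differentiableAt ((isOpen_tube h₂).mem_nhds hz)
      refine h3.congr_of_eventuallyEq ?_
      filter_upwards [(isOpen_tube h₂).mem_nhds hz] with w hw using e₂ hw
  · intro K hK hc
    obtain ⟨K₁, K₂, hK₁, hK₂, hs₁, hs₂, hKK⟩ := hc.binary_compact_cover h₁ h₂ hK
    obtain ⟨C, N, hb⟩ := hG₁.2 K₁ hs₁ hK₁
    obtain ⟨C', N', hb'⟩ := hG₂.2 K₂ hs₂ hK₂
    refine ⟨|C| + |C'|, max N N', fun z hz => ?_⟩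
    have e0 : 1 ≤ 1 + ‖fun i => (z i).im‖ := by linarith [norm_nonneg (fun i => (z i).im)]
    have m1 : (1 + ‖fun i => (z i).im‖) ^ N ≤ (1 + ‖fun i => (z i).im‖) ^ max N N' :=
      pow_le_pow_right₀ e0 (le_max_left _ _)
    have m2 : (1 + ‖fun i => (z i).im‖) ^ N' ≤ (1 + ‖fun i => (z i).im‖) ^ max N N' :=
      pow_le_pow_right₀ e0 (le_max_right _ _)
    rw [hKK] at hz
    rcases hz with hz | hz
    · rw [e₁ (hs₁ hz)]
      calc ‖G₁ z‖ ≤ C * (1 + ‖fun i => (z i).im‖) ^ N := hb z hz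
        _ ≤ |C| * (1 + ‖fun i => (z i).im‖) ^ max N N' := by
            gcongr
            exact le_abs_self C
        _ ≤ (|C| + |C'|) * (1 + ‖fun i => (z i).im‖) ^ max N N' := by
            gcongr
            linarith [abs_nonneg C']
    · rw [e₂ (hs₂ hz)]
      calc ‖G₂ z‖ ≤ C' * (1 + ‖fun i => (z i).im‖) ^ N' := hb' z hz
        _ ≤ |C'| * (1 + ‖fun i => (z i).im‖) ^ max N N' := by
            gcongr
            exact le_abs_self C'
        _ ≤ (|C| + |C'|) * (1 + ‖fun i => (z i).im‖) ^ max N N' := by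
            gcongr
            linarith [abs_nonneg C]

theorem convex_continuesTo (k M : ℕ) : Convex ℝ {p : Fin (k + 1) → ℝ | ContinuesTo k M p} := by
  intro p hp q hq a b ha hb hab
  obtain ⟨Ω, hΩo, hΩc, hsub, hpΩ, G₀, hG₀, hGeq⟩ := hp
  obtain ⟨G, hG, hGG⟩ := bochner hΩo hΩc hG₀
  obtain ⟨Ω', hΩo', hΩc', hsub', hpΩ', G₀', hG₀', hGeq'⟩ := hq
  obtain ⟨G', hG', hGG'⟩ := bochner hΩo' hΩc' hG₀'
  have hW : Ω ⊆ convexHull ℝ Ω := subset_convexHull ℝ Ω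
  have hW' : Ω' ⊆ convexHull ℝ Ω' := subset_convexHull ℝ Ω'
  set W₁ := convexHull ℝ Ω with hW₁
  set W₂ := convexHull ℝ Ω' with hW₂
  have ho₁ : IsOpen W₁ := hΩo.convexHull
  have ho₂ : IsOpen W₂ := hΩo'.convexHull
  have hs₁ : orth (k + 1) ⊆ W₁ := hsub.trans hW
  have hs₂ : orth (k + 1) ⊆ W₂ := hsub'.trans hW'
  have he : EqOn G G' (tube (W₁ ∩ W₂)) := by
    refine eqOn_tube (isOpen_orth _) (orth_nonempty _) (ho₁.inter ho₂)
      ((convex_convexHull ℝ Ω).inter (convex_convexHull ℝ Ω')) (subset_inter hs₁ hs₂)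
      (hG.1.mono fun z hz => hz.1) (hG'.1.mono fun z hz => hz.2) (fun z hz => ?_)
    rw [hGG (hsub hz), hGeq hz, hGG' (hsub' hz), hGeq' hz]
  obtain ⟨g, hg, hg₁, hg₂⟩ := tempered_glue ho₁ ho₂ hG hG' he
  have hconn : IsConnected (W₁ ∪ W₂) := by
    refine ⟨⟨p, Or.inl (hW hpΩ)⟩, ?_⟩
    obtain ⟨x, hx⟩ := orth_nonempty (k + 1)
    exact IsPreconnected.union x (hs₁ hx) (hs₂ hx) (convex_convexHull ℝ Ω).isPreconnected
      (convex_convexHull ℝ Ω').isPreconnected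
  obtain ⟨g', hg', hgg'⟩ := bochner (ho₁.union ho₂) hconn hg
  have hWW : W₁ ∪ W₂ ⊆ convexHull ℝ (W₁ ∪ W₂) := subset_convexHull ℝ _
  refine ⟨convexHull ℝ (W₁ ∪ W₂), (ho₁.union ho₂).convexHull,
    ⟨⟨p, hWW (Or.inl (hW hpΩ))⟩, (convex_convexHull ℝ _).isPreconnected⟩,
    (hs₁.trans subset_union_left).trans hWW, ?_, g', hg', fun z hz => ?_⟩
  · exact (convex_convexHull ℝ (W₁ ∪ W₂)) (hWW (Or.inl (hW hpΩ))) (hWW (Or.inr (hW' hpΩ'))) ha hb hab
  · rw [hgg' (show z ∈ tube (W₁ ∪ W₂) from Or.inl (hs₁ hz)), hg₁ (hs₁ hz), hGG (hsub hz), hGeq hz]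

end Pool.Agent.Q48.MDS
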