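import Pool.Agent.Q48.MDS.Kernel

/-!
# The Fourier-Laplace transform does not depend on the base point; its decay; inversion
-/

set_option autoImplicit false
set_option linter.unusedSectionVars false

open MeasureTheory Set Filter Topology Metric Complex

namespace Pool.Agent.Q48.MDS

variable {ι : Type*} [Fintype ι] [DecidableEq ι]

/-- the inclusion of the real points -/
noncomputable def rl (x : ι → ℝ) : ι → ℂ := fun j => (x j : ℂ)

theorem rl_mem {Ω : Set (ι → ℝ)} {x : ι → ℝ} (hx : x ∈ Ω) : rl x ∈ tube Ω := by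
  show (fun i => (rl x i).re) ∈ Ω
  simpa [rl] using hx

theorem cpt_re_imV (u : ι → ℂ) : cpt (rl fun j => (u j).re) (imV u) = u := by
  funext j
  simp only [cpt, rl, imV]
  rw [mul_comm]
  exact Complex.re_add_im (u j)

theorem hat_eq_re (F : (ι → ℂ) → ℂ) (η ξ : EuclideanSpace ℝ ι) (u : ι → ℂ) :
    hat F η ξ u = hat F η ξ (rl fun j => (u j).re) := by
  unfold hat
  have h : ∀ y, ker F η ξ (cpt u y) =
      (fun y' => ker F η ξ (cpt (rl fun j => (u j).re) y')) (imV u + y) := by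
    intro y
    show _ = ker F η ξ (cpt (rl fun j => (u j).re) (imV u + y))
    rw [← cpt_cpt, cpt_re_imV]
  simp_rw [h]
  exact integral_add_left_eq_self (fun y' => ker F η ξ (cpt (rl fun j => (u j).re) y')) (imV u)

theorem hat_add_I (F : (ι → ℂ) → ℂ) (η ξ : EuclideanSpace ℝ ι) (u v : ι → ℂ)
    (hv : ∀ j, (v j).re = 0) : hat F η ξ (u + v) = hat F η ξ u := by
  rw [hat_eq_re, hat_eq_re F η ξ u]
  congr 2
  funext j
  simp [hv j]

theorem hat_const {Ω : Set (ι → ℝ)} (hΩ : IsOpen Ω) (hp : IsPreconnected Ω) {F : (ι → ℂ) → ℂ}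
    (hF : Tempered Ω F) (η ξ : EuclideanSpace ℝ ι) {u u' : ι → ℂ} (hu : u ∈ tube Ω)
    (hu' : u' ∈ tube Ω) : hat F η ξ u = hat F η ξ u' := by
  rw [hat_eq_re, hat_eq_re F η ξ u']
  have hd := differentiableOn_hat hΩ hF η ξ
  have hrl : ∀ x : ι → ℝ, HasFDerivAt (rl : (ι → ℝ) → (ι → ℂ))
      (ContinuousLinearMap.pi fun j => Complex.ofRealCLM.comp
        (ContinuousLinearMap.proj j : (ι → ℝ) →L[ℝ] ℝ)) x := by
    intro x
    exact (ContinuousLinearMap.pi fun j => Complex.ofRealCLM.comp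
        (ContinuousLinearMap.proj j : (ι → ℝ) →L[ℝ] ℝ)).hasFDerivAt
  -- the derivative vanishes
  have hzero : ∀ x ∈ Ω, HasFDerivAt (fun x : ι → ℝ => hat F η ξ (rl x)) (0 : (ι → ℝ) →L[ℝ] ℂ) x := by
    intro x hx
    have hx' := rl_mem hx
    have h1 : HasFDerivAt (hat F η ξ) (fderiv ℂ (hat F η ξ) (rl x)) (rl x) :=
      (hd.differentiableAt ((isOpen_tube hΩ).mem_nhds hx')).hasFDerivAt
    have h2 : ∀ v : ι → ℝ, fderiv ℂ (hat F η ξ) (rl x) (rl v) = 0 := by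
      intro v
      have h3 : HasDerivAt (fun τ : ℂ => hat F η ξ (rl x + τ • (I • rl v)))
          (fderiv ℂ (hat F η ξ) (rl x) (I • rl v)) 0 := by
        have h4 : HasDerivAt (fun τ : ℂ => rl x + τ • (I • rl v)) (I • rl v) 0 := by
          simpa using ((hasDerivAt_id (0 : ℂ)).smul_const (I • rl v)).const_add (rl x)
        have h5 : HasFDerivAt (hat F η ξ) (fderiv ℂ (hat F η ξ) (rl x))
            (rl x + (0 : ℂ) • (I • rl v)) := by simpa using h1
        exact h5.comp_hasDerivAt (0 : ℂ) h4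
      have h6 := h3.comp_ofReal (z := 0)
      have h7 : (fun t : ℝ => hat F η ξ (rl x + (t : ℂ) • (I • rl v))) =
          fun _ => hat F η ξ (rl x) := by
        funext t
        apply hat_add_I
        intro j
        simp [rl]
      rw [h7] at h6
      have h8 := h6.unique (hasDerivAt_const (0 : ℝ) (hat F η ξ (rl x)))
      rw [map_smul, smul_eq_mul] at h8
      exact (mul_eq_zero.1 h8).resolve_left I_ne_zero
    have h9 := (h1.restrictScalars ℝ).comp x (hrl x)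
    refine h9.congr_fderiv ?_
    ext v
    simp only [ContinuousLinearMap.comp_apply, ContinuousLinearMap.coe_restrictScalars']
    exact h2 v
  have h := hΩ.is_const_of_fderiv_eq_zero (𝕜 := ℝ) hp (f := fun x : ι → ℝ => hat F η ξ (rl x))
    (fun x hx => (hzero x hx).differentiableAt.differentiableWithinAt)
    (fun x hx => by simpa using (hzero x hx).fderiv) hu hu'
  exact h

/-- bound of the transform on compact sets of base points, uniform in the centre -/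
theorem hat_bound {Ω : Set (ι → ℝ)} {F : (ι → ℂ) → ℂ}
    (hF : Tempered Ω F) {K : Set (ι → ℝ)} (hK : K ⊆ Ω) (hc : IsCompact K) :
    ∃ (C : ℝ) (N : ℕ), 0 ≤ C ∧ ∀ x ∈ K, ∀ η ξ : EuclideanSpace ℝ ι,
      ‖hat F η ξ (rl x)‖ ≤ C * (1 + ‖η‖) ^ N * Real.exp (-2 * Real.pi * ∑ j, x j * ξ j) := by
  obtain ⟨C, N, hC0, hC⟩ := hF.bound hK hc
  have hcont : Continuous (fun x : ι → ℝ => Real.exp (∑ j, x j ^ 2)) := by fun_prop
  obtain ⟨E, hE⟩ := (hc.image hcont).bddAbove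
  have hE' : ∀ x ∈ K, Real.exp (∑ j, x j ^ 2) ≤ E := fun x hx => hE ⟨x, hx, rfl⟩
  set J := ∫ y : EuclideanSpace ℝ ι, (1 + ‖y‖) ^ N * Real.exp (-1 * ‖y‖ ^ 2) with hJ
  have hJ0 : 0 ≤ J := integral_nonneg fun y => by positivity
  refine ⟨C * |E| * J, N, by positivity, fun x hx η ξ => ?_⟩
  unfold hat
  have hint : Integrable (fun y : EuclideanSpace ℝ ι =>
      (1 + ‖y - η‖) ^ N * Real.exp (-1 * ‖y - η‖ ^ 2)) :=
    (integrable_pow_gauss (V := EuclideanSpace ℝ ι) N (c := 1) one_pos).comp_sub_right η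
  have hb : ∀ y : EuclideanSpace ℝ ι, ‖ker F η ξ (cpt (rl x) y)‖ ≤
      C * |E| * (1 + ‖η‖) ^ N * Real.exp (-2 * Real.pi * ∑ j, x j * ξ j) *
        ((1 + ‖y - η‖) ^ N * Real.exp (-1 * ‖y - η‖ ^ 2)) := by
    intro y
    rw [norm_ker]
    have hre : (fun i => (cpt (rl x) y i).re) = x := by
      funext i; rw [cpt_re]; simp [rl]
    have him : imV (cpt (rl x) y) = y := by
      rw [imV_cpt]; ext j; simp [imV, rl]
    have hre' : ∀ i, (cpt (rl x) y i).re = x i := fun i => congrFun hre i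
    simp only [hre', him]
    have h1 : ‖F (cpt (rl x) y)‖ ≤ C * ((1 + ‖η‖) * (1 + ‖y - η‖)) ^ N := by
      refine (hC _ (by rw [hre]; exact hx)).trans ?_
      rw [him]
      have := one_add_norm_add_le η (y - η)
      rw [add_sub_cancel] at this
      gcongr
    have h2 : Real.exp (∑ j, x j ^ 2) ≤ |E| := (hE' x hx).trans (le_abs_self E)
    calc ‖F (cpt (rl x) y)‖ * (Real.exp (∑ j, x j ^ 2) * Real.exp (-‖y - η‖ ^ 2)) *
          Real.exp (-2 * Real.pi * ∑ j, x j * ξ j)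
        ≤ (C * ((1 + ‖η‖) * (1 + ‖y - η‖)) ^ N) * (|E| * Real.exp (-‖y - η‖ ^ 2)) *
          Real.exp (-2 * Real.pi * ∑ j, x j * ξ j) := by gcongr
      _ = _ := by rw [mul_pow, neg_one_mul]; ring
  calc ‖∫ y, ker F η ξ (cpt (rl x) y)‖ ≤ ∫ y, ‖ker F η ξ (cpt (rl x) y)‖ :=
        norm_integral_le_integral_norm _
    _ ≤ ∫ y : EuclideanSpace ℝ ι, C * |E| * (1 + ‖η‖) ^ N *
          Real.exp (-2 * Real.pi * ∑ j, x j * ξ j) *
          ((1 + ‖y - η‖) ^ N * Real.exp (-1 * ‖y - η‖ ^ 2)) := by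
        refine integral_mono_of_nonneg (Eventually.of_forall fun y => norm_nonneg _)
          (hint.const_mul _) (Eventually.of_forall hb)
    _ = C * |E| * (1 + ‖η‖) ^ N * Real.exp (-2 * Real.pi * ∑ j, x j * ξ j) * J := by
        rw [integral_const_mul]
        congr 1
        exact integral_sub_right_eq_self (fun y : EuclideanSpace ℝ ι =>
          (1 + ‖y‖) ^ N * Real.exp (-1 * ‖y‖ ^ 2)) η
    _ = _ := by ring

/-- exponential decay of the transform, relative to the points of `Ω` -/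
theorem hat_decay {Ω : Set (ι → ℝ)} (hΩ : IsOpen Ω) (hp : IsPreconnected Ω) {F : (ι → ℂ) → ℂ}
    (hF : Tempered Ω F) {u : ι → ℂ} (hu : u ∈ tube Ω) {x : ι → ℝ} (hx : x ∈ Ω) :
    ∃ (r C : ℝ) (N : ℕ), 0 < r ∧ 0 ≤ C ∧ ∀ η ξ : EuclideanSpace ℝ ι,
      ‖hat F η ξ u‖ * Real.exp (2 * Real.pi * ∑ j, x j * ξ j) ≤
        C * (1 + ‖η‖) ^ N * Real.exp (-r * ‖ξ‖) := by
  obtain ⟨R, hR, hRs⟩ := Metric.isOpen_iff.1 hΩ x hx
  set ρ := R / 2 with hρ
  have hρ0 : 0 < ρ := by positivity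
  have hK : closedBall x ρ ⊆ Ω := (closedBall_subset_ball (by rw [hρ]; linarith)).trans hRs
  obtain ⟨C, N, hC0, hC⟩ := hat_bound hF hK (isCompact_closedBall _ _)
  refine ⟨2 * Real.pi * ρ, C, N, by positivity, hC0, fun η ξ => ?_⟩
  set x' : ι → ℝ := fun j => x j + ρ / ‖ξ‖ * ξ j with hx'
  have hx'K : x' ∈ closedBall x ρ := by
    rw [mem_closedBall, dist_eq_norm, pi_norm_le_iff_of_nonneg hρ0.le]
    intro j
    simp only [hx', Pi.sub_apply, add_sub_cancel_left]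
    rw [norm_mul, Real.norm_of_nonneg (by positivity : (0:ℝ) ≤ ρ / ‖ξ‖)]
    have h1 : ‖ξ j‖ ≤ ‖ξ‖ := PiLp.norm_apply_le (p := 2) ξ j
    rcases (norm_nonneg ξ).eq_or_lt with h | h
    · rw [← h]; simpa using hρ0.le
    · calc ρ / ‖ξ‖ * ‖ξ j‖ ≤ ρ / ‖ξ‖ * ‖ξ‖ := by gcongr
        _ = ρ := by field_simp
  have hsum : ∑ j, x' j * ξ j = ∑ j, x j * ξ j + ρ * ‖ξ‖ := by
    simp only [hx', add_mul, Finset.sum_add_distrib]
    congr 1
    have h2 : ∑ j, ρ / ‖ξ‖ * ξ j * ξ j = ρ / ‖ξ‖ * ∑ j, ‖ξ j‖ ^ 2 := by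
      rw [Finset.mul_sum]
      refine Finset.sum_congr rfl fun j _ => ?_
      rw [Real.norm_eq_abs, sq_abs]; ring
    rw [h2, ← EuclideanSpace.norm_sq_eq]
    rcases (norm_nonneg ξ).eq_or_lt with h | h
    · rw [← h]; simp
    · field_simp
  have h3 := hC x' hx'K η ξ
  rw [hat_const hΩ hp hF η ξ hu (rl_mem (hK hx'K))]
  rw [hsum] at h3
  calc ‖hat F η ξ (rl x')‖ * Real.exp (2 * Real.pi * ∑ j, x j * ξ j)
      ≤ (C * (1 + ‖η‖) ^ N * Real.exp (-2 * Real.pi * (∑ j, x j * ξ j + ρ * ‖ξ‖))) *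
        Real.exp (2 * Real.pi * ∑ j, x j * ξ j) := by gcongr
    _ = C * (1 + ‖η‖) ^ N * Real.exp (-(2 * Real.pi * ρ) * ‖ξ‖) := by
        rw [mul_assoc (C * (1 + ‖η‖) ^ N), ← Real.exp_add]
        congr 2
        ring

open scoped FourierTransform RealInnerProductSpace in
/-- The Fourier transform of the slice. -/
theorem fourier_slice (F : (ι → ℂ) → ℂ) (η ξ : EuclideanSpace ℝ ι) (x : ι → ℝ) :
    𝓕 (fun y : EuclideanSpace ℝ ι => F (cpt (rl x) y) * cexp (gau η (cpt (rl x) y))) ξ =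
      ((Real.exp (2 * Real.pi * ∑ j, x j * ξ j) : ℝ) : ℂ) * hat F η ξ (rl x) := by
  rw [Real.fourier_eq']
  unfold hat
  rw [← integral_const_mul]
  congr 1
  funext y
  unfold ker
  have h1 : pair (cpt (rl x) y) ξ = ((∑ j, x j * ξ j : ℝ) : ℂ) + I * ((⟪y, ξ⟫ : ℝ) : ℂ) := by
    unfold pair cpt rl
    rw [PiLp.inner_apply]
    push_cast
    rw [Finset.mul_sum, ← Finset.sum_add_distrib]
    refine Finset.sum_congr rfl fun j _ => ?_
    simp only [RCLike.inner_apply, conj_trivial]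
    push_cast
    ring
  rw [h1, Complex.ofReal_exp, smul_eq_mul]
  have h2 : cexp (((-2 * Real.pi : ℝ) : ℂ) * (((∑ j, x j * ξ j : ℝ) : ℂ) + I * ((⟪y, ξ⟫ : ℝ) : ℂ))) =
      cexp (-((2 * Real.pi * ∑ j, x j * ξ j : ℝ) : ℂ)) *
        cexp ((((-2 * Real.pi * ⟪y, ξ⟫ : ℝ)) : ℂ) * I) := by
    rw [← Complex.exp_add]
    congr 1
    push_cast
    ring
  rw [h2]
  have h3 : cexp ((2 * Real.pi * ∑ j, x j * ξ j : ℝ) : ℂ) *
      cexp (-((2 * Real.pi * ∑ j, x j * ξ j : ℝ) : ℂ)) = 1 := by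
    rw [← Complex.exp_add]; simp
  calc _ = F (cpt (rl x) y) * cexp (gau η (cpt (rl x) y)) *
        cexp ((((-2 * Real.pi * ⟪y, ξ⟫ : ℝ)) : ℂ) * I) *
        (cexp ((2 * Real.pi * ∑ j, x j * ξ j : ℝ) : ℂ) *
          cexp (-((2 * Real.pi * ∑ j, x j * ξ j : ℝ) : ℂ))) := by rw [h3]; ring
    _ = _ := by ring

end Pool.Agent.Q48.MDS
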