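import Mathlib

/-!
# Integrals of holomorphic functions of several variables depending on a parameter
-/

set_option autoImplicit false

open MeasureTheory Set Filter Topology Metric

namespace Pool.Agent.Q48.MDS

variable {ι : Type*} [Fintype ι] [DecidableEq ι]

theorem clm_eq_sum (L : (ι → ℂ) →L[ℂ] ℂ) :
    L = ∑ i, (L (Pi.single i 1)) • (ContinuousLinearMap.proj i : (ι → ℂ) →L[ℂ] ℂ) := by
  ext z
  simp only [ContinuousLinearMap.sum_apply, ContinuousLinearMap.smul_apply,
    ContinuousLinearMap.proj_apply, smul_eq_mul]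
  conv_lhs => rw [← Finset.univ_sum_single z]
  rw [map_sum]
  refine Finset.sum_congr rfl fun i _ => ?_
  have : (Pi.single i (z i) : ι → ℂ) = z i • (Pi.single i (1 : ℂ) : ι → ℂ) := by
    rw [← Pi.single_smul]; simp
  rw [this, map_smul, smul_eq_mul, mul_comm]

/-- Differentiation of a parameter integral of holomorphic functions of several variables. -/
theorem differentiableOn_integral {α : Type*} [MeasurableSpace α] {μ : Measure α}
    {U : Set (ι → ℂ)} (hU : IsOpen U) (f : (ι → ℂ) → α → ℂ)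
    (hd : ∀ a, DifferentiableOn ℂ (fun z => f z a) U)
    (hm : ∀ z ∈ U, AEStronglyMeasurable (f z) μ)
    (hb : ∀ z₀ ∈ U, ∃ V ∈ 𝓝 z₀, ∃ b : α → ℝ, Integrable b μ ∧ ∀ z ∈ V, ∀ a, ‖f z a‖ ≤ b a) :
    DifferentiableOn ℂ (fun z => ∫ a, f z a ∂μ) U := by
  intro z₀ hz₀
  apply DifferentiableAt.differentiableWithinAt
  obtain ⟨V, hV, b, hbi, hbV⟩ := hb z₀ hz₀
  obtain ⟨R, hR, hRs⟩ := Metric.mem_nhds_iff.1 (inter_mem hV (hU.mem_nhds hz₀))
  set r := R / 2 with hr
  have hr0 : 0 < r := by positivity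
  have hsub : ∀ z ∈ ball z₀ r, ball z r ⊆ ball z₀ R := by
    intro z hz w hw
    rw [mem_ball] at *
    calc dist w z₀ ≤ dist w z + dist z z₀ := dist_triangle _ _ _
      _ < r + r := add_lt_add hw hz
      _ = R := by rw [hr]; ring
  have hmeasv : ∀ v : ι → ℂ, AEStronglyMeasurable (fun a => fderiv ℂ (fun z => f z a) z₀ v) μ := by
    intro v
    -- limit of difference quotients
    have hlim : ∀ a, Tendsto (fun n : ℕ => ((n : ℂ) + 1) *
        (f (z₀ + (((n : ℂ) + 1)⁻¹) • v) a - f z₀ a)) atTop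
        (𝓝 (fderiv ℂ (fun z => f z a) z₀ v)) := by
      intro a
      have h1 : HasFDerivAt (fun z => f z a) (fderiv ℂ (fun z => f z a) z₀) z₀ :=
        ((hd a).differentiableAt (hU.mem_nhds hz₀)).hasFDerivAt
      have h2 : HasDerivAt (fun τ : ℂ => f (z₀ + τ • v) a) (fderiv ℂ (fun z => f z a) z₀ v) 0 := by
        have h3 : HasDerivAt (fun τ : ℂ => z₀ + τ • v) v 0 := by
          simpa using ((hasDerivAt_id (0 : ℂ)).smul_const v).const_add z₀
        have h4 : HasFDerivAt (fun z => f z a) (fderiv ℂ (fun z => f z a) z₀) (z₀ + (0 : ℂ) • v) := by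
          simpa using h1
        exact h4.comp_hasDerivAt (0 : ℂ) h3
      have h5 := h2.tendsto_slope_zero
      have h6 : Tendsto (fun n : ℕ => (((n : ℂ) + 1)⁻¹)) atTop (𝓝[≠] 0) := by
        rw [tendsto_nhdsWithin_iff]
        constructor
        · have := tendsto_one_div_add_atTop_nhds_zero_nat (𝕜 := ℂ)
          simpa [one_div] using this
        · refine Eventually.of_forall fun n => ?_
          have : ((n : ℂ) + 1) ≠ 0 := by exact_mod_cast Nat.succ_ne_zero n
          simpa using this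
      have h7 := h5.comp h6
      refine h7.congr fun n => ?_
      simp
    have hmem : ∀ᶠ n : ℕ in atTop, z₀ + (((n : ℂ) + 1)⁻¹) • v ∈ U := by
      have h6 : Tendsto (fun n : ℕ => z₀ + (((n : ℂ) + 1)⁻¹) • v) atTop (𝓝 (z₀ + (0 : ℂ) • v)) := by
        refine tendsto_const_nhds.add (Tendsto.smul_const ?_ v)
        have := tendsto_one_div_add_atTop_nhds_zero_nat (𝕜 := ℂ)
        simpa [one_div] using this
      apply h6
      simpa using hU.mem_nhds hz₀
    obtain ⟨N, hN⟩ := eventually_atTop.1 hmem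
    refine aestronglyMeasurable_of_tendsto_ae (u := atTop)
      (f := fun (n : ℕ) a => (((n + N : ℕ) : ℂ) + 1) *
        (f (z₀ + ((((n + N : ℕ) : ℂ) + 1)⁻¹) • v) a - f z₀ a)) ?_ ?_
    · intro n
      exact ((hm _ (hN (n + N) (by omega))).sub (hm _ hz₀)).const_mul _
    · refine Eventually.of_forall fun a => ?_
      exact (hlim a).comp (tendsto_add_atTop_nat N)
  have hmeas : AEStronglyMeasurable (fun a => fderiv ℂ (fun z => f z a) z₀) μ := by
    have : (fun a => fderiv ℂ (fun z => f z a) z₀) = fun a =>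
        ∑ i, (fderiv ℂ (fun z => f z a) z₀ (Pi.single i 1)) •
          (ContinuousLinearMap.proj i : (ι → ℂ) →L[ℂ] ℂ) := by
      funext a
      exact clm_eq_sum _
    rw [this]
    refine Finset.aestronglyMeasurable_fun_sum _ fun i _ => ?_
    exact (hmeasv _).smul_const _
  have key := hasFDerivAt_integral_of_dominated_of_fderiv_le (𝕜 := ℂ) (μ := μ) (F := f)
    (x₀ := z₀) (s := ball z₀ r) (bound := fun a => 2 * b a / r)
    (F' := fun z a => fderiv ℂ (fun z => f z a) z) (ball_mem_nhds z₀ hr0) ?_ ?_ hmeas ?_ ?_ ?_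
  · exact key.differentiableAt
  · filter_upwards [hU.mem_nhds hz₀] with z hz using hm z hz
  · refine hbi.mono' (hm _ hz₀) (Eventually.of_forall fun a => ?_)
    exact hbV z₀ (mem_of_mem_nhds hV) a
  · refine Eventually.of_forall fun a z hz => ?_
    have h1 : DifferentiableOn ℂ (fun z => f z a) (ball z r) :=
      (hd a).mono fun w hw => (hRs (hsub z hz hw)).2
    refine Complex.norm_fderiv_le_div_of_mapsTo_ball h1 ?_ hr0
    intro w hw
    rw [mem_closedBall, dist_eq_norm]
    have h2 := hbV w (hRs (hsub z hz hw)).1 a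
    have h3 := hbV z (hRs (hsub z hz (mem_ball_self hr0))).1 a
    calc ‖f w a - f z a‖ ≤ ‖f w a‖ + ‖f z a‖ := norm_sub_le _ _
      _ ≤ 2 * b a := by linarith
  · exact (hbi.const_mul 2).div_const r
  · refine Eventually.of_forall fun a z hz => ?_
    have hz' : z ∈ U := (hRs (hsub z hz (mem_ball_self hr0))).2
    exact ((hd a).differentiableAt (hU.mem_nhds hz')).hasFDerivAt

end Pool.Agent.Q48.MDS
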