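import Pool.Agent.Q48.MDS.Tube

/-!
# Gaussian regularisation and the Fourier-Laplace transform of a tempered function
-/

set_option autoImplicit false
set_option linter.unusedSectionVars false

open MeasureTheory Set Filter Topology Metric Complex

namespace Pool.Agent.Q48.MDS

variable {ι : Type*} [Fintype ι] [DecidableEq ι]

/-- The point `u + i y`. -/
noncomputable def cpt (u : ι → ℂ) (y : EuclideanSpace ℝ ι) : ι → ℂ := fun j => u j + I * (y j : ℂ)

/-- The bilinear pairing. -/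
noncomputable def pair (z : ι → ℂ) (ξ : EuclideanSpace ℝ ι) : ℂ := ∑ j, z j * (ξ j : ℂ)

/-- The quadratic exponent centred at `i η`. -/
noncomputable def gau (η : EuclideanSpace ℝ ι) (z : ι → ℂ) : ℂ := ∑ j, (z j - I * (η j : ℂ)) ^ 2

/-- The imaginary part as a vector of the Euclidean space. -/
noncomputable def imV (z : ι → ℂ) : EuclideanSpace ℝ ι := WithLp.toLp 2 (fun j => (z j).im)

/-- The real part as a vector of the Euclidean space. -/
noncomputable def reV (z : ι → ℂ) : EuclideanSpace ℝ ι := WithLp.toLp 2 (fun j => (z j).re)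

omit [DecidableEq ι] in
theorem cpt_re (u : ι → ℂ) (y : EuclideanSpace ℝ ι) (j : ι) : (cpt u y j).re = (u j).re := by
  simp [cpt]

omit [DecidableEq ι] in
theorem cpt_im (u : ι → ℂ) (y : EuclideanSpace ℝ ι) (j : ι) : (cpt u y j).im = (u j).im + y j := by
  simp [cpt]

omit [DecidableEq ι] in
theorem cpt_mem_tube {Ω : Set (ι → ℝ)} {u : ι → ℂ} (hu : u ∈ tube Ω) (y : EuclideanSpace ℝ ι) :
    cpt u y ∈ tube Ω := by
  have : (fun i => (cpt u y i).re) = fun i => (u i).re := by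
    funext i; exact cpt_re u y i
  show (fun i => (cpt u y i).re) ∈ Ω
  rw [this]; exact hu

omit [DecidableEq ι] in
theorem cpt_cpt (u : ι → ℂ) (y y' : EuclideanSpace ℝ ι) : cpt (cpt u y) y' = cpt u (y + y') := by
  funext j; simp [cpt]; ring

omit [DecidableEq ι] in
theorem continuous_cpt (u : ι → ℂ) : Continuous (cpt u) := by
  unfold cpt
  fun_prop

omit [DecidableEq ι] in
theorem norm_exp_gau (η : EuclideanSpace ℝ ι) (z : ι → ℂ) :
    ‖cexp (gau η z)‖ = Real.exp (∑ j, (z j).re ^ 2) * Real.exp (-‖imV z - η‖ ^ 2) := by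
  rw [Complex.norm_exp, ← Real.exp_add]
  congr 1
  unfold gau imV
  rw [EuclideanSpace.norm_sq_eq, Complex.re_sum, ← sub_eq_add_neg, ← Finset.sum_sub_distrib]
  refine Finset.sum_congr rfl fun j _ => ?_
  rw [Real.norm_eq_abs, sq_abs]
  simp [sq]

omit [DecidableEq ι] in
theorem norm_exp_pair (z : ι → ℂ) (ξ : EuclideanSpace ℝ ι) (c : ℝ) :
    ‖cexp ((c : ℂ) * pair z ξ)‖ = Real.exp (c * ∑ j, (z j).re * ξ j) := by
  rw [Complex.norm_exp]
  congr 1
  rw [Complex.re_ofReal_mul]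
  congr 1
  unfold pair
  rw [Complex.re_sum]
  refine Finset.sum_congr rfl fun j _ => ?_
  simp

omit [DecidableEq ι] in
theorem continuous_gau (η : EuclideanSpace ℝ ι) : Continuous (gau η) := by
  unfold gau; fun_prop

omit [DecidableEq ι] in
theorem differentiable_gau (η : EuclideanSpace ℝ ι) : Differentiable ℂ (gau η) := by
  unfold gau; fun_prop

omit [DecidableEq ι] in
theorem differentiable_pair (ξ : EuclideanSpace ℝ ι) : Differentiable ℂ (fun z : ι → ℂ => pair z ξ) := by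
  unfold pair; fun_prop

omit [DecidableEq ι] in
theorem continuous_pair_right (z : ι → ℂ) : Continuous (fun ξ : EuclideanSpace ℝ ι => pair z ξ) := by
  unfold pair; fun_prop

omit [DecidableEq ι] in
theorem differentiable_cpt (y : EuclideanSpace ℝ ι) : Differentiable ℂ (fun u : ι → ℂ => cpt u y) := by
  unfold cpt; fun_prop

omit [DecidableEq ι] in
theorem norm_im_le (z : ι → ℂ) : ‖fun i => (z i).im‖ ≤ ‖imV z‖ := by
  rw [pi_norm_le_iff_of_nonneg (norm_nonneg _)]
  intro i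
  exact PiLp.norm_apply_le (p := 2) (imV z) i

omit [DecidableEq ι] in
theorem imV_cpt (u : ι → ℂ) (y : EuclideanSpace ℝ ι) : imV (cpt u y) = imV u + y := by
  ext j
  simp [imV, cpt]

/-- The integrand. -/
noncomputable def ker (F : (ι → ℂ) → ℂ) (η ξ : EuclideanSpace ℝ ι) (z : ι → ℂ) : ℂ :=
  F z * cexp (gau η z) * cexp (((-2 * Real.pi : ℝ) : ℂ) * pair z ξ)

/-- The Fourier-Laplace transform. -/
noncomputable def hat (F : (ι → ℂ) → ℂ) (η ξ : EuclideanSpace ℝ ι) (u : ι → ℂ) : ℂ :=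
  ∫ y : EuclideanSpace ℝ ι, ker F η ξ (cpt u y)

omit [DecidableEq ι] in
theorem norm_ker (F : (ι → ℂ) → ℂ) (η ξ : EuclideanSpace ℝ ι) (z : ι → ℂ) :
    ‖ker F η ξ z‖ = ‖F z‖ * (Real.exp (∑ j, (z j).re ^ 2) * Real.exp (-‖imV z - η‖ ^ 2)) *
      Real.exp (-2 * Real.pi * ∑ j, (z j).re * ξ j) := by
  unfold ker
  rw [norm_mul, norm_mul, norm_exp_gau, norm_exp_pair]

omit [DecidableEq ι] in
/-- Bound of a tempered function in terms of the Euclidean norm of the imaginary part. -/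
theorem Tempered.bound {Ω : Set (ι → ℝ)} {F : (ι → ℂ) → ℂ} (hF : Tempered Ω F) {K : Set (ι → ℝ)}
    (hK : K ⊆ Ω) (hc : IsCompact K) : ∃ (C : ℝ) (N : ℕ), 0 ≤ C ∧ ∀ z : ι → ℂ,
      (fun i => (z i).re) ∈ K → ‖F z‖ ≤ C * (1 + ‖imV z‖) ^ N := by
  obtain ⟨C, N, h⟩ := hF.2 K hK hc
  refine ⟨|C|, N, abs_nonneg C, fun z hz => (h z hz).trans ?_⟩
  have h1 := norm_im_le z
  calc C * (1 + ‖fun i => (z i).im‖) ^ N ≤ |C| * (1 + ‖fun i => (z i).im‖) ^ N := by
        gcongr; exact le_abs_self C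
    _ ≤ |C| * (1 + ‖imV z‖) ^ N := by gcongr

omit [DecidableEq ι] in
theorem continuous_ker {Ω : Set (ι → ℝ)} {F : (ι → ℂ) → ℂ} (hF : Tempered Ω F)
    (η ξ : EuclideanSpace ℝ ι) {u : ι → ℂ} (hu : u ∈ tube Ω) :
    Continuous (fun y => ker F η ξ (cpt u y)) := by
  unfold ker
  refine Continuous.mul (Continuous.mul ?_ ?_) ?_
  · exact hF.1.continuousOn.comp_continuous (continuous_cpt u) (fun y => cpt_mem_tube hu y)
  · exact Complex.continuous_exp.comp ((continuous_gau η).comp (continuous_cpt u))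
  · refine Complex.continuous_exp.comp (continuous_const.mul ?_)
    exact (differentiable_pair ξ).continuous.comp (continuous_cpt u)

omit [DecidableEq ι] in
/-- elementary: `(1 + ‖a + y‖) ≤ (1 + ‖a‖)(1 + ‖y‖)` -/
theorem one_add_norm_add_le {V : Type*} [SeminormedAddCommGroup V] (a y : V) :
    1 + ‖a + y‖ ≤ (1 + ‖a‖) * (1 + ‖y‖) := by
  have := norm_add_le a y
  nlinarith [norm_nonneg a, norm_nonneg y]

omit [DecidableEq ι] in
/-- elementary: `-‖a + y‖² ≤ -‖y‖²/2 + ‖a‖²` -/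
theorem neg_sq_norm_add_le {V : Type*} [SeminormedAddCommGroup V] (a y : V) :
    -‖a + y‖ ^ 2 ≤ -(1 / 2) * ‖y‖ ^ 2 + ‖a‖ ^ 2 := by
  have h : ‖y‖ ≤ ‖a + y‖ + ‖a‖ := by
    have := norm_sub_le (a + y) a
    simpa using this
  have h1 : ‖y‖ ^ 2 ≤ (‖a + y‖ + ‖a‖) ^ 2 := by gcongr
  nlinarith [sq_nonneg (‖a + y‖ - ‖a‖)]

/-- local domination of the kernel, with a bound depending on compact sets of real parts and
bounds of the imaginary parts -/
theorem ker_dominated {Ω : Set (ι → ℝ)} {F : (ι → ℂ) → ℂ} (hF : Tempered Ω F)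
    {K : Set (ι → ℝ)} (hK : K ⊆ Ω) (hc : IsCompact K) (η ξ : EuclideanSpace ℝ ι) (B : ℝ) :
    ∃ (D : ℝ) (N : ℕ), ∀ u : ι → ℂ, (fun i => (u i).re) ∈ K → ‖imV u‖ ≤ B → ∀ y,
      ‖ker F η ξ (cpt u y)‖ ≤ D * ((1 + ‖y‖) ^ N * Real.exp (-(1 / 2) * ‖y‖ ^ 2)) := by
  obtain ⟨C, N, hC0, hC⟩ := hF.bound hK hc
  have hcont : Continuous (fun x : ι → ℝ => Real.exp (∑ j, x j ^ 2) *
      Real.exp (-2 * Real.pi * ∑ j, x j * ξ j)) := by fun_prop
  obtain ⟨E, hE⟩ := (hc.image hcont).bddAbove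
  have hE' : ∀ x ∈ K, Real.exp (∑ j, x j ^ 2) * Real.exp (-2 * Real.pi * ∑ j, x j * ξ j) ≤ E :=
    fun x hx => hE ⟨x, hx, rfl⟩
  refine ⟨C * (1 + B) ^ N * |E| * Real.exp ((B + ‖η‖) ^ 2), N, fun u hu hB y => ?_⟩
  have hB0 : 0 ≤ B := (norm_nonneg _).trans hB
  rw [norm_ker]
  have hre : (fun i => (cpt u y i).re) = fun i => (u i).re := by funext i; exact cpt_re u y i
  have h1 : ‖F (cpt u y)‖ ≤ C * ((1 + B) * (1 + ‖y‖)) ^ N := by
    refine (hC _ (by rw [hre]; exact hu)).trans ?_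
    rw [imV_cpt]
    have := one_add_norm_add_le (imV u) y
    gcongr
    exact this.trans (by gcongr)
  have h2 : Real.exp (-‖imV (cpt u y) - η‖ ^ 2) ≤
      Real.exp (-(1 / 2) * ‖y‖ ^ 2) * Real.exp ((B + ‖η‖) ^ 2) := by
    rw [← Real.exp_add, imV_cpt]
    apply Real.exp_le_exp.2
    have h3 := neg_sq_norm_add_le (imV u - η) y
    have h4 : imV u + y - η = imV u - η + y := by abel
    rw [h4]
    have h5 : ‖imV u - η‖ ≤ B + ‖η‖ := (norm_sub_le _ _).trans (by gcongr)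
    have h6 : ‖imV u - η‖ ^ 2 ≤ (B + ‖η‖) ^ 2 := by gcongr
    linarith
  have h3 : Real.exp (∑ j, (cpt u y j).re ^ 2) * Real.exp (-2 * Real.pi * ∑ j, (cpt u y j).re * ξ j)
      ≤ |E| := by
    simp only [cpt_re]
    exact (hE' _ hu).trans (le_abs_self E)
  calc ‖F (cpt u y)‖ * (Real.exp (∑ j, (cpt u y j).re ^ 2) * Real.exp (-‖imV (cpt u y) - η‖ ^ 2)) *
        Real.exp (-2 * Real.pi * ∑ j, (cpt u y j).re * ξ j)
      = ‖F (cpt u y)‖ * Real.exp (-‖imV (cpt u y) - η‖ ^ 2) *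
        (Real.exp (∑ j, (cpt u y j).re ^ 2) *
          Real.exp (-2 * Real.pi * ∑ j, (cpt u y j).re * ξ j)) := by ring
    _ ≤ (C * ((1 + B) * (1 + ‖y‖)) ^ N) *
        (Real.exp (-(1 / 2) * ‖y‖ ^ 2) * Real.exp ((B + ‖η‖) ^ 2)) * |E| := by
        gcongr
    _ = _ := by rw [mul_pow]; ring

theorem integrable_ker {Ω : Set (ι → ℝ)} {F : (ι → ℂ) → ℂ} (hF : Tempered Ω F)
    (η ξ : EuclideanSpace ℝ ι) {u : ι → ℂ} (hu : u ∈ tube Ω) :
    Integrable (fun y => ker F η ξ (cpt u y)) := by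
  obtain ⟨D, N, h⟩ := ker_dominated hF (K := {fun i => (u i).re})
    (singleton_subset_iff.2 hu)
    isCompact_singleton η ξ ‖imV u‖
  refine ((integrable_pow_gauss N (c := 1 / 2) (by norm_num)).const_mul D).mono'
    (continuous_ker hF η ξ hu).aestronglyMeasurable (Eventually.of_forall fun y => ?_)
  exact h u rfl le_rfl y

/-- the Fourier-Laplace transform is holomorphic in the base point -/
theorem differentiableOn_hat {Ω : Set (ι → ℝ)} (hΩ : IsOpen Ω) {F : (ι → ℂ) → ℂ}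
    (hF : Tempered Ω F) (η ξ : EuclideanSpace ℝ ι) :
    DifferentiableOn ℂ (hat F η ξ) (tube Ω) := by
  refine differentiableOn_integral (isOpen_tube hΩ) (fun u y => ker F η ξ (cpt u y)) ?_ ?_ ?_
  · intro y
    have hmaps : MapsTo (fun u : ι → ℂ => cpt u y) (tube Ω) (tube Ω) := fun u hu => cpt_mem_tube hu y
    have h1 : DifferentiableOn ℂ (ker F η ξ) (tube Ω) := by
      unfold ker
      refine DifferentiableOn.mul (DifferentiableOn.mul hF.1 ?_) ?_
      · exact (differentiable_gau η).cexp.differentiableOn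
      · exact ((differentiable_pair ξ).const_mul _).cexp.differentiableOn
    exact h1.comp (differentiable_cpt y).differentiableOn hmaps
  · intro z hz
    exact (continuous_ker hF η ξ hz).aestronglyMeasurable
  · intro z₀ hz₀
    obtain ⟨r, hr, hrs⟩ := Metric.isOpen_iff.1 hΩ _ hz₀
    set K := closedBall (fun i => (z₀ i).re) (r / 2) with hKdef
    have hK : K ⊆ Ω := (closedBall_subset_ball (by linarith)).trans hrs
    obtain ⟨D, N, h⟩ := ker_dominated hF hK (isCompact_closedBall _ _) η ξ (‖imV z₀‖ + 1)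
    have hcimV : Continuous (fun z : ι → ℂ => ‖imV z‖) := by
      have : Continuous (fun z : ι → ℂ => (imV z : EuclideanSpace ℝ ι)) := by
        unfold imV
        exact (PiLp.continuous_toLp 2 _).comp
          (continuous_pi fun i => Complex.continuous_im.comp (continuous_apply i))
      exact this.norm
    refine ⟨{z | (fun i => (z i).re) ∈ K ∧ ‖imV z‖ ≤ ‖imV z₀‖ + 1}, ?_, _,
      (integrable_pow_gauss N (c := 1 / 2) (by norm_num)).const_mul D, fun z hz y => h z hz.1 hz.2 y⟩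
    refine inter_mem ?_ ?_
    · have hn : K ∈ 𝓝 (fun i => (z₀ i).re) := closedBall_mem_nhds _ (by positivity)
      exact (continuous_re' (ι := ι)).continuousAt.preimage_mem_nhds (x := z₀) hn
    · have : Iic (‖imV z₀‖ + 1) ∈ 𝓝 ‖imV z₀‖ := Iic_mem_nhds (by linarith)
      exact hcimV.continuousAt.preimage_mem_nhds this

end Pool.Agent.Q48.MDS
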