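import Mathlib

/-!
# Landau's argument for a single coefficient
-/

set_option autoImplicit false

open Filter Topology Metric Complex Set

namespace Pool.Agent.Q48.MDS


theorem logMul_iterate (a : ℕ → ℂ) (n m : ℕ) :
    (LSeries.logMul^[n] a) m = (Complex.log m) ^ n * a m := by
  induction n with
  | zero => simp
  | succ n ih =>
    rw [Function.iterate_succ_apply', LSeries.logMul, ih]
    ring

/-- the real part of the terms -/
theorem term_logMul (r : ℕ → ℝ) (n m : ℕ) (x : ℝ) :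
    LSeries.term (LSeries.logMul^[n] (fun m => (r m : ℂ))) (x : ℂ) m =
      (((if m = 0 then 0 else (Real.log m) ^ n * r m * (m : ℝ) ^ (-x) : ℝ)) : ℂ) := by
  rw [LSeries.term_def]
  split_ifs with h
  · simp
  · rw [logMul_iterate]
    have hm : (0 : ℝ) ≤ m := Nat.cast_nonneg m
    rw [← Complex.natCast_log, Real.rpow_neg hm]
    push_cast
    rw [Complex.ofReal_cpow hm]
    simp [div_eq_mul_inv]

/-- **Landau's argument.** A nonnegative coefficient of a Dirichlet series is bounded by the value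
of the continuation. -/
theorem landau_term {r : ℕ → ℝ} (hr : ∀ n, 0 ≤ r n) {x₀ x₁ : ℝ}
    (hab : LSeries.abscissaOfAbsConv (fun n => (r n : ℂ)) < x₁) {h : ℂ → ℂ}
    (hd : DifferentiableOn ℂ h {w | x₀ < w.re})
    (he : h =ᶠ[𝓝 (x₁ : ℂ)] LSeries (fun n => (r n : ℂ))) {x : ℝ} (hx0 : x₀ < x) (hx1 : x < x₁)
    {d : ℕ} (hd1 : 1 ≤ d) : r d * (d : ℝ) ^ (-x) ≤ ‖h x‖ := by
  have hball : ball (x₁ : ℂ) (x₁ - x₀) ⊆ {w | x₀ < w.re} := by
    intro w hw
    rw [mem_ball, dist_eq_norm] at hw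
    have h1 := (Complex.abs_re_le_norm (w - x₁)).trans_lt hw
    rw [Complex.sub_re, Complex.ofReal_re, abs_lt] at h1
    show x₀ < w.re
    linarith [h1.1]
  have hxb : (x : ℂ) ∈ ball (x₁ : ℂ) (x₁ - x₀) := by
    rw [mem_ball, dist_eq_norm, ← Complex.ofReal_sub, Complex.norm_real, Real.norm_eq_abs,
      abs_lt]
    constructor <;> linarith
  have hT := Complex.hasSum_taylorSeries_on_ball (hd.mono hball) hxb
  have hder : ∀ n : ℕ, iteratedDeriv n h (x₁ : ℂ) =
      (-1) ^ n * LSeries (LSeries.logMul^[n] (fun m => (r m : ℂ))) (x₁ : ℂ) := by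
    intro n
    rw [he.iteratedDeriv_eq n]
    exact LSeries_iteratedDeriv n (by simpa using hab)
  have hsum : ∀ n : ℕ, LSeriesSummable (LSeries.logMul^[n] (fun m => (r m : ℂ))) (x₁ : ℂ) := by
    intro n
    apply LSeriesSummable_of_abscissaOfAbsConv_lt_re
    rw [LSeries.absicssaOfAbsConv_logPowMul]
    simpa using hab
  -- the value of the derivative of the series
  set g : ℕ → ℕ → ℝ := fun n m => if m = 0 then 0 else (Real.log m) ^ n * r m * (m : ℝ) ^ (-x₁)
    with hg
  have hg0 : ∀ n m, 0 ≤ g n m := by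
    intro n m
    simp only [hg]
    split_ifs with h0
    · exact le_rfl
    · have h1 : 0 ≤ Real.log m := Real.log_natCast_nonneg m
      have h2 := hr m
      positivity
  have hgs : ∀ n, Summable (g n) := by
    intro n
    have h1 := hsum n
    unfold LSeriesSummable at h1
    have h2 : LSeries.term (LSeries.logMul^[n] (fun m => (r m : ℂ))) (x₁ : ℂ) =
        fun m => ((g n m : ℝ) : ℂ) := funext fun m => term_logMul r n m x₁
    rw [h2] at h1
    exact Complex.summable_ofReal.1 h1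
  have hval : ∀ n, LSeries (LSeries.logMul^[n] (fun m => (r m : ℂ))) (x₁ : ℂ) =
      ((∑' m, g n m : ℝ) : ℂ) := by
    intro n
    unfold LSeries
    rw [Complex.ofReal_tsum]
    exact tsum_congr fun m => term_logMul r n m x₁
  have hterm : ∀ n : ℕ, ((n.factorial : ℂ)⁻¹ • ((x : ℂ) - x₁) ^ n • iteratedDeriv n h (x₁ : ℂ)) =
      (((n.factorial : ℝ)⁻¹ * (x₁ - x) ^ n * ∑' m, g n m : ℝ) : ℂ) := by
    intro n
    rw [hder, hval, smul_eq_mul, smul_eq_mul]
    have : ((x : ℂ) - x₁) ^ n = (-1) ^ n * ((x₁ : ℂ) - x) ^ n := by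
      rw [← mul_pow]; congr 1; ring
    rw [this]
    have h2 : ((-1 : ℂ) ^ n) * (-1) ^ n = 1 := by
      rw [← mul_pow]; simp
    push_cast
    linear_combination ((n.factorial : ℂ)⁻¹ * ((x₁ : ℂ) - x) ^ n * ∑' m, ((g n m : ℝ) : ℂ)) * h2
  simp_rw [hterm] at hT
  have hTre : HasSum (fun n : ℕ => (n.factorial : ℝ)⁻¹ * (x₁ - x) ^ n * ∑' m, g n m) (h x).re := by
    have := Complex.hasSum_re hT
    simpa only [Complex.ofReal_re] using this
  have hdpos : (0 : ℝ) < d := by exact_mod_cast hd1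
  have hE : HasSum (fun n : ℕ => (n.factorial : ℝ)⁻¹ * (x₁ - x) ^ n * g n d)
      (r d * (d : ℝ) ^ (-x)) := by
    have h1 : HasSum (fun n : ℕ => ((x₁ - x) * Real.log d) ^ n / n.factorial)
        (Real.exp ((x₁ - x) * Real.log d)) := by
      rw [Real.exp_eq_exp_ℝ]
      exact NormedSpace.expSeries_div_hasSum_exp ((x₁ - x) * Real.log d)
    have h2 := h1.mul_left (r d * (d : ℝ) ^ (-x₁))
    have h3 : r d * (d : ℝ) ^ (-x₁) * Real.exp ((x₁ - x) * Real.log d) = r d * (d : ℝ) ^ (-x) := by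
      rw [mul_assoc]
      congr 1
      rw [Real.rpow_def_of_pos hdpos, Real.rpow_def_of_pos hdpos, ← Real.exp_add]
      congr 1; ring
    rw [h3] at h2
    have h4 : (fun n : ℕ => (n.factorial : ℝ)⁻¹ * (x₁ - x) ^ n * g n d) = fun n : ℕ =>
        r d * (d : ℝ) ^ (-x₁) * (((x₁ - x) * Real.log d) ^ n / n.factorial) := by
      funext n
      simp only [hg]
      rw [if_neg (by omega), mul_pow]
      ring
    rw [h4]
    exact h2
  have hle : ∀ n : ℕ, (n.factorial : ℝ)⁻¹ * (x₁ - x) ^ n * g n d ≤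
      (n.factorial : ℝ)⁻¹ * (x₁ - x) ^ n * ∑' m, g n m := by
    intro n
    have h1 : g n d ≤ ∑' m, g n m := (hgs n).le_tsum d (fun m _ => hg0 n m)
    have h2 : 0 ≤ x₁ - x := by linarith
    gcongr
  calc r d * (d : ℝ) ^ (-x) ≤ (h x).re := hasSum_le hle hE hTre
    _ ≤ ‖h x‖ := Complex.re_le_norm _

end Pool.Agent.Q48.MDS
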