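import Pool.Agent.Q48.MDS.Main

/-!
# Local conditions at finitely many primes
-/

set_option autoImplicit false
set_option linter.unusedSectionVars false

open MeasureTheory Set Filter Topology Metric Complex

namespace Pool.Agent.Q48.MDS

/-- The fundamental discriminants with prescribed values `χ_d(p) = ε(p)` for `p ∈ S`. -/
def LocFam (S : Finset ℕ) (ε : ℕ → ℤ) (d : ℕ) : Prop := FundDisc d ∧ ∀ p ∈ S, kron d p = ε p

/-- The multiple Dirichlet series over the subfamily. -/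
noncomputable def Aloc (k : ℕ) (S : Finset ℕ) (ε : ℕ → ℤ) (z : Fin (k + 1) → ℂ) : ℂ :=
  ∑' d : {d : ℕ // LocFam S ε d}, (d : ℂ) ^ (-(z 0)) * ∏ j : Fin k, Lchi d (z j.succ)

open scoped Classical in
/-- The subfamily version of `F`; the term of `d = 1`, if present, is removed. -/
noncomputable def Floc (k : ℕ) (S : Finset ℕ) (ε : ℕ → ℤ) (z : Fin (k + 1) → ℂ) : ℂ :=
  (Aloc k S ε z - if LocFam S ε 1 then ∏ j : Fin k, riemannZeta (z j.succ) else 0) *
    ∏ J : Finset (Fin k), (sigma J z - 1)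

/-- weights -/
noncomputable def Fw (k : ℕ) (a : ℕ → ℂ) (z : Fin (k + 1) → ℂ) : ℂ :=
  (∑' d : {d : ℕ // FundDisc d}, a d * coef k 1 z d -
    a 1 * ∏ j : Fin k, riemannZeta (z j.succ)) * ∏ J : Finset (Fin k), (sigma J z - 1)

/-- the span of the functions `d ↦ χ_d(m)` -/
noncomputable def KS : Submodule ℂ (ℕ → ℂ) :=
  Submodule.span ℂ {a | ∃ m : ℕ, 1 ≤ m ∧ a = fun d => (kron d m : ℂ)}

theorem kron_one_right (d : ℕ) : kron d 1 = 1 := by
  unfold kron; simp

theorem KS_bdd {a : ℕ → ℂ} (ha : a ∈ KS) : ∃ C : ℝ, ∀ d, ‖a d‖ ≤ C := by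
  induction ha using Submodule.span_induction with
  | mem a ha =>
    obtain ⟨m, _, rfl⟩ := ha
    exact ⟨1, fun d => norm_kron_le d m⟩
  | zero => exact ⟨0, fun d => by simp⟩
  | add a b _ _ h1 h2 =>
    obtain ⟨C, hC⟩ := h1
    obtain ⟨D, hD⟩ := h2
    exact ⟨C + D, fun d => (norm_add_le _ _).trans (add_le_add (hC d) (hD d))⟩
  | smul c a _ h1 =>
    obtain ⟨C, hC⟩ := h1
    refine ⟨‖c‖ * C, fun d => ?_⟩
    rw [Pi.smul_apply, smul_eq_mul, norm_mul]
    exact mul_le_mul_of_nonneg_left (hC d) (norm_nonneg _)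

theorem KS_summable {a : ℕ → ℂ} (ha : a ∈ KS) (k : ℕ) {z : Fin (k + 1) → ℂ}
    (hz : z ∈ tube (orth (k + 1))) :
    Summable (fun d : {d : ℕ // FundDisc d} => a d * coef k 1 z d) := by
  obtain ⟨C, hC⟩ := KS_bdd ha
  refine Summable.of_norm_bounded ((summable_coef k 1 hz).norm.mul_left C) fun d => ?_
  rw [norm_mul]
  exact mul_le_mul_of_nonneg_right (hC d) (norm_nonneg _)

theorem KS_mul_kron {a : ℕ → ℂ} (ha : a ∈ KS) {p : ℕ} (hp : 1 ≤ p) :
    (fun d => a d * (kron d p : ℂ)) ∈ KS := by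
  induction ha using Submodule.span_induction with
  | mem a ha =>
    obtain ⟨m, hm, rfl⟩ := ha
    refine Submodule.subset_span ⟨m * p, Nat.mul_pos hm hp, ?_⟩
    funext d
    rw [kron_mul hm hp]
    push_cast
    rfl
  | zero =>
    have : (fun d : ℕ => (0 : ℕ → ℂ) d * (kron d p : ℂ)) = 0 := by funext d; simp
    rw [this]; exact Submodule.zero_mem _
  | add a b _ _ h1 h2 =>
    have : (fun d : ℕ => (a + b) d * (kron d p : ℂ)) =
        (fun d => a d * (kron d p : ℂ)) + fun d => b d * (kron d p : ℂ) := by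
      funext d; simp [add_mul]
    rw [this]; exact Submodule.add_mem _ h1 h2
  | smul c a _ h1 =>
    have : (fun d : ℕ => (c • a) d * (kron d p : ℂ)) = c • fun d => a d * (kron d p : ℂ) := by
      funext d; simp [mul_assoc]
    rw [this]; exact Submodule.smul_mem _ _ h1

theorem kron_values (d n : ℕ) : kron d n = 0 ∨ kron d n = 1 ∨ kron d n = -1 := by
  have := abs_kron_le d n
  rw [abs_le] at this
  omega

open scoped Classical in
/-- indicator functions of local conditions are in the span -/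
theorem ind_mem (S : Finset ℕ) (hS : ∀ p ∈ S, 1 ≤ p) (ε : ℕ → ℤ) :
    (fun d : ℕ => if ∀ p ∈ S, kron d p = ε p then (1 : ℂ) else 0) ∈ KS := by
  induction S using Finset.induction_on with
  | empty =>
    refine Submodule.subset_span ⟨1, le_rfl, ?_⟩
    funext d
    simp [kron_one_right]
  | insert p S hpS ih =>
    have ih' := ih fun q hq => hS q (Finset.mem_insert_of_mem hq)
    have hp : 1 ≤ p := hS p (Finset.mem_insert_self p S)
    set b : ℕ → ℂ := fun d : ℕ => if ∀ p ∈ S, kron d p = ε p then (1 : ℂ) else 0 with hb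
    have h1 : (fun d => b d * (kron d p : ℂ)) ∈ KS := KS_mul_kron ih' hp
    have h2 : (fun d => b d * (kron d p : ℂ) * (kron d p : ℂ)) ∈ KS := KS_mul_kron h1 hp
    have hsplit : ∀ d : ℕ, (if ∀ q ∈ insert p S, kron d q = ε q then (1 : ℂ) else 0) =
        b d * (if kron d p = ε p then 1 else 0) := by
      intro d
      simp only [hb, Finset.forall_mem_insert]
      by_cases h : kron d p = ε p <;> simp [h]
    rcases (by omega : (ε p = 0 ∨ ε p = 1 ∨ ε p = -1) ∨ (ε p ≠ 0 ∧ ε p ≠ 1 ∧ ε p ≠ -1)) with h | h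
    · -- a polynomial in `kron d p`
      obtain ⟨α, β, γ, habc⟩ : ∃ α β γ : ℂ, ∀ x : ℤ, x = 0 ∨ x = 1 ∨ x = -1 →
          (if x = ε p then (1 : ℂ) else 0) = α + β * x + γ * x * x := by
        rcases h with h | h | h
        · refine ⟨1, 0, -1, ?_⟩
          rintro x (rfl | rfl | rfl) <;> simp [h]
        · refine ⟨0, 1 / 2, 1 / 2, ?_⟩
          rintro x (rfl | rfl | rfl) <;> simp [h] <;> norm_num
        · refine ⟨0, -1 / 2, 1 / 2, ?_⟩
          rintro x (rfl | rfl | rfl) <;> simp [h] <;> norm_num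
      have : (fun d : ℕ => if ∀ q ∈ insert p S, kron d q = ε q then (1 : ℂ) else 0) =
          α • b + β • (fun d => b d * (kron d p : ℂ)) +
            γ • fun d => b d * (kron d p : ℂ) * (kron d p : ℂ) := by
        funext d
        rw [hsplit, habc (kron d p) (kron_values d p)]
        simp only [Pi.add_apply, Pi.smul_apply, smul_eq_mul]
        ring
      rw [this]
      exact Submodule.add_mem _ (Submodule.add_mem _ (Submodule.smul_mem _ _ ih')
        (Submodule.smul_mem _ _ h1)) (Submodule.smul_mem _ _ h2)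
    · have : (fun d : ℕ => if ∀ q ∈ insert p S, kron d q = ε q then (1 : ℂ) else 0) = 0 := by
        funext d
        rw [hsplit, if_neg, mul_zero]
        · rfl
        · intro h3
          rcases kron_values d p with h4 | h4 | h4 <;> rw [h4] at h3
          · exact h.1 h3.symm
          · exact h.2.1 h3.symm
          · exact h.2.2 h3.symm
      rw [this]; exact Submodule.zero_mem _

/-- weighted versions continue -/
theorem Fw_continues {k : ℕ} {Ω : Set (Fin (k + 1) → ℝ)}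
    (h : ∀ m : ℕ, 1 ≤ m → ∃ G : (Fin (k + 1) → ℂ) → ℂ, Tempered Ω G ∧
        EqOn G (F k m) (tube (orth (k + 1)))) {a : ℕ → ℂ} (ha : a ∈ KS) :
    ∃ G : (Fin (k + 1) → ℂ) → ℂ, Tempered Ω G ∧ EqOn G (Fw k a) (tube (orth (k + 1))) := by
  have hT0 : Tempered Ω (fun _ => (0 : ℂ)) :=
    ⟨differentiableOn_const _, fun K _ _ => ⟨0, 0, fun z _ => by simp⟩⟩
  have hTadd : ∀ G G' : (Fin (k + 1) → ℂ) → ℂ, Tempered Ω G → Tempered Ω G' →
      Tempered Ω (fun z => G z + G' z) := by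
    intro G G' hG hG'
    refine ⟨hG.1.add hG'.1, fun K hK hc => ?_⟩
    obtain ⟨C, N, h1⟩ := hG.2 K hK hc
    obtain ⟨C', N', h2⟩ := hG'.2 K hK hc
    refine ⟨|C| + |C'|, max N N', fun z hz => ?_⟩
    have e0 : 1 ≤ 1 + ‖fun i => (z i).im‖ := by linarith [norm_nonneg (fun i => (z i).im)]
    have e1 : (1 + ‖fun i => (z i).im‖) ^ N ≤ (1 + ‖fun i => (z i).im‖) ^ max N N' :=
      pow_le_pow_right₀ e0 (le_max_left _ _)
    have e2 : (1 + ‖fun i => (z i).im‖) ^ N' ≤ (1 + ‖fun i => (z i).im‖) ^ max N N' :=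
      pow_le_pow_right₀ e0 (le_max_right _ _)
    calc ‖G z + G' z‖ ≤ ‖G z‖ + ‖G' z‖ := norm_add_le _ _
      _ ≤ C * (1 + ‖fun i => (z i).im‖) ^ N + C' * (1 + ‖fun i => (z i).im‖) ^ N' :=
          add_le_add (h1 z hz) (h2 z hz)
      _ ≤ |C| * (1 + ‖fun i => (z i).im‖) ^ max N N' +
          |C'| * (1 + ‖fun i => (z i).im‖) ^ max N N' := by
          gcongr
          · exact le_abs_self C
          · exact le_abs_self C'
      _ = _ := by ring
  have hTs : ∀ (c : ℂ) (G : (Fin (k + 1) → ℂ) → ℂ), Tempered Ω G →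
      Tempered Ω (fun z => c * G z) := by
    intro c G hG
    refine ⟨hG.1.const_mul c, fun K hK hc => ?_⟩
    obtain ⟨C, N, h1⟩ := hG.2 K hK hc
    refine ⟨‖c‖ * C, N, fun z hz => ?_⟩
    rw [norm_mul, mul_assoc]
    exact mul_le_mul_of_nonneg_left (h1 z hz) (norm_nonneg _)
  induction ha using Submodule.span_induction with
  | mem a ha =>
    obtain ⟨m, hm, rfl⟩ := ha
    obtain ⟨G, hG, hGe⟩ := h m hm
    refine ⟨G, hG, fun z hz => (hGe hz).trans ?_⟩
    unfold F Fw A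
    have h1 : ∀ d : {d : ℕ // FundDisc d}, (kron d m : ℂ) * coef k 1 z d =
        (kron d m : ℂ) * (d : ℂ) ^ (-(z 0)) * ∏ j : Fin k, Lchi d (z j.succ) := by
      intro d
      unfold coef
      rw [kron_one_right]
      push_cast
      ring
    simp_rw [h1, kron_one_left]
    push_cast
    ring
  | zero =>
    refine ⟨fun _ => 0, hT0, fun z hz => ?_⟩
    unfold Fw
    simp
  | add a b ha hb h1 h2 =>
    obtain ⟨G, hG, hGe⟩ := h1
    obtain ⟨G', hG', hGe'⟩ := h2
    refine ⟨fun z => G z + G' z, hTadd G G' hG hG', fun z hz => ?_⟩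
    show G z + G' z = _
    rw [hGe hz, hGe' hz]
    unfold Fw
    have h3 := (KS_summable ha k hz).tsum_add (KS_summable hb k hz)
    have h4 : ∑' d : {d : ℕ // FundDisc d}, (a + b) d * coef k 1 z d =
        ∑' d : {d : ℕ // FundDisc d}, (a d * coef k 1 z d + b d * coef k 1 z d) := by
      congr 1; funext d; simp [add_mul]
    rw [h4, h3]
    simp only [Pi.add_apply]
    ring
  | smul c a ha h1 =>
    obtain ⟨G, hG, hGe⟩ := h1
    refine ⟨fun z => c * G z, hTs c G hG, fun z hz => ?_⟩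
    show c * G z = _
    rw [hGe hz]
    unfold Fw
    have h4 : ∑' d : {d : ℕ // FundDisc d}, (c • a) d * coef k 1 z d =
        c * ∑' d : {d : ℕ // FundDisc d}, a d * coef k 1 z d := by
      rw [← tsum_mul_left]
      congr 1; funext d; simp [mul_assoc]
    rw [h4]
    simp only [Pi.smul_apply, smul_eq_mul]
    ring

open scoped Classical in
theorem Fw_ind (k : ℕ) (S : Finset ℕ) (ε : ℕ → ℤ) (z : Fin (k + 1) → ℂ) :
    Fw k (fun d : ℕ => if ∀ p ∈ S, kron d p = ε p then (1 : ℂ) else 0) z = Floc k S ε z := by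
  unfold Fw Floc
  congr 1
  have hf1 : FundDisc 1 := Or.inl ⟨rfl, squarefree_one⟩
  have h1 : (if ∀ p ∈ S, kron 1 p = ε p then (1 : ℂ) else 0) *
      ∏ j : Fin k, riemannZeta (z j.succ) =
      if LocFam S ε 1 then ∏ j : Fin k, riemannZeta (z j.succ) else 0 := by
    unfold LocFam
    by_cases h : ∀ p ∈ S, kron 1 p = ε p
    · rw [if_pos h, if_pos ⟨hf1, h⟩, one_mul]
    · rw [if_neg h, if_neg (fun h2 => h h2.2), zero_mul]
  rw [h1]
  congr 1
  unfold Aloc
  -- both sums as sums over ℕ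
  have h2 : ∑' d : {d : ℕ // FundDisc d}, (if ∀ p ∈ S, kron d p = ε p then (1 : ℂ) else 0) *
      coef k 1 z d = ∑' d : ℕ, ({d : ℕ | FundDisc d}).indicator
        (fun d => (if ∀ p ∈ S, kron d p = ε p then (1 : ℂ) else 0) *
          ((d : ℂ) ^ (-(z 0)) * ∏ j : Fin k, Lchi d (z j.succ))) d := by
    rw [← tsum_subtype]
    congr 1
    funext d
    unfold coef
    rw [kron_one_right]
    push_cast
    rw [one_mul]
  have h3 : ∑' d : {d : ℕ // LocFam S ε d}, (d : ℂ) ^ (-(z 0)) * ∏ j : Fin k, Lchi d (z j.succ) =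
      ∑' d : ℕ, ({d : ℕ | LocFam S ε d}).indicator
        (fun d => (d : ℂ) ^ (-(z 0)) * ∏ j : Fin k, Lchi d (z j.succ)) d := by
    rw [← tsum_subtype]
    rfl
  rw [h2, h3]
  congr 1
  funext d
  by_cases hd : FundDisc d
  · by_cases h : ∀ p ∈ S, kron d p = ε p
    · rw [indicator_of_mem (show d ∈ {d : ℕ | FundDisc d} from hd),
        indicator_of_mem (show d ∈ {d : ℕ | LocFam S ε d} from ⟨hd, h⟩), if_pos h, one_mul]
    · rw [indicator_of_mem (show d ∈ {d : ℕ | FundDisc d} from hd),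
        indicator_of_notMem (show d ∉ {d : ℕ | LocFam S ε d} from fun h2 => h h2.2), if_neg h,
        zero_mul]
  · rw [indicator_of_notMem (show d ∉ {d : ℕ | FundDisc d} from hd),
      indicator_of_notMem (show d ∉ {d : ℕ | LocFam S ε d} from fun h2 => hd h2.1)]

/-- `Floc` continues to a tube domain containing `p`. -/
def ContinuesToLoc (k : ℕ) (S : Finset ℕ) (ε : ℕ → ℤ) (p : Fin (k + 1) → ℝ) : Prop :=
  ∃ Ω : Set (Fin (k + 1) → ℝ), IsOpen Ω ∧ IsConnected Ω ∧ orth (k + 1) ⊆ Ω ∧ p ∈ Ω ∧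
    ∃ G : (Fin (k + 1) → ℂ) → ℂ, Tempered Ω G ∧ EqOn G (Floc k S ε) (tube (orth (k + 1)))

theorem continuesToLoc_drop {k : ℕ} {p : Fin (k + 1) → ℝ} {y : ℝ}
    (h : ContinuesTo (k + 1) 1 (sn p y)) (S : Finset ℕ) (hS : ∀ p ∈ S, 1 ≤ p) (ε : ℕ → ℤ) :
    ContinuesToLoc k S ε p := by
  classical
  obtain ⟨Ω, h1, h2, h3, h4, h5⟩ := continues_drop_uniform le_rfl h
  simp_rw [one_mul] at h5
  obtain ⟨G, hG, hGe⟩ := Fw_continues h5 (ind_mem S hS ε)
  exact ⟨Ω, h1, h2, h3, h4, G, hG, fun z hz => (hGe hz).trans (Fw_ind k S ε z)⟩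

theorem loc_of_infinitely_many (h : ∀ K : ℕ, ∃ k ≥ K, ContinuesTo k 1 (center k)) (k : ℕ)
    (S : Finset ℕ) (hS : ∀ p ∈ S, 1 ≤ p) (ε : ℕ → ℤ) : ContinuesToLoc k S ε (center k) := by
  obtain ⟨K, hK, hc⟩ := h (k + 2)
  have h1 := continuesTo_lower (j := k + 1) (by omega) hc le_rfl
  rw [← center_sn] at h1
  exact continuesToLoc_drop h1 S hS ε

end Pool.Agent.Q48.MDS
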