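import Pool.Agent.Q48.MDS.Drop

/-!
# The reduction theorem
-/

set_option autoImplicit false
set_option linter.unusedSectionVars false

open MeasureTheory Set Filter Topology Metric Complex

namespace Pool.Agent.Q48.MDS

theorem sn_comb {n : ℕ} {a b : ℝ} (x x' : Fin n → ℝ) (r r' : ℝ) :
    sn (a • x + b • x') (a * r + b * r') = a • sn x r + b • sn x' r' := by
  funext i
  refine Fin.lastCases ?_ (fun j => ?_) i <;> simp

theorem rsig_orth {k : ℕ} (J : Finset (Fin k)) {x : Fin (k + 1) → ℝ} (hx : x ∈ orth (k + 1)) :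
    1 < rsig J x := by
  have h1 : rsig J x = x 0 + ∑ j ∈ J, (x j.succ - 1 / 2) := by
    unfold rsig
    rw [Finset.sum_sub_distrib, Finset.sum_const, nsmul_eq_mul]
    ring
  rw [h1]
  have h2 : 0 ≤ ∑ j ∈ J, (x j.succ - 1 / 2) :=
    Finset.sum_nonneg fun j _ => by linarith [hx j.succ]
  linarith [hx 0]

theorem rsig_ins_sn {k : ℕ} (J : Finset (Fin k)) (x : Fin (k + 1) → ℝ) (r : ℝ) :
    rsig (ins J) (sn x r) = rsig J x + r - 1 / 2 := by
  unfold ins rsig
  rw [Finset.card_insert_of_notMem (last_notMem J), Finset.card_map,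
    Finset.sum_insert (last_notMem J), Finset.sum_map, sn_zero, sn_succ_last]
  have : ∑ j ∈ J, sn x r (Fin.castSuccEmb j).succ = ∑ j ∈ J, x j.succ :=
    Finset.sum_congr rfl fun j _ => sn_succ x r j
  rw [this]
  push_cast
  ring

theorem sn_orth {n : ℕ} {x : Fin n → ℝ} (hx : x ∈ orth n) {r : ℝ} (hr : 1 < r) :
    sn x r ∈ orth (n + 1) := by
  intro i
  refine Fin.lastCases ?_ (fun j => ?_) i
  · rw [sn_last]; exact hr
  · rw [sn_castSucc]; exact hx j

theorem sn_tube_orth {n : ℕ} {z : Fin n → ℂ} (hz : z ∈ tube (orth n)) {c : ℝ} (hc : 1 < c) (t : ℝ) :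
    sn z ((c : ℂ) + I * t) ∈ tube (orth (n + 1)) := by
  show (fun i => (sn z ((c : ℂ) + I * t) i).re) ∈ orth (n + 1)
  rw [sn_re]
  exact sn_orth hz (by simpa using hc)

/-- A convex open set containing the orthant, and a point of it: all large values of the last
coordinate are allowed. -/
theorem eventually_mem {n : ℕ} {W : Set (Fin (n + 1) → ℝ)} (hW : IsOpen W) (hc : Convex ℝ W)
    (ho : orth (n + 1) ⊆ W) {p : Fin n → ℝ} {y : ℝ} (hp : sn p y ∈ W) :
    ∀ᶠ r : ℝ in atTop, sn p r ∈ W := by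
  set a : Fin n → ℝ := fun _ => 2 with ha
  have hao : a ∈ orth n := fun i => by norm_num [ha]
  have hcont : ContinuousAt (fun l : ℝ => sn ((1 - l)⁻¹ • (p - l • a)) y) 0 := by
    have h1 : ContinuousAt (fun l : ℝ => (1 - l)⁻¹) 0 :=
      ContinuousAt.inv₀ (by fun_prop) (by norm_num)
    have h2 : ContinuousAt (fun l : ℝ => p - l • a) 0 := by fun_prop
    exact (continuous_sn_left y).continuousAt.comp (h1.smul h2)
  have h0 : (fun l : ℝ => sn ((1 - l)⁻¹ • (p - l • a)) y) 0 = sn p y := by simp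
  have hev : ∀ᶠ l : ℝ in 𝓝 0, sn ((1 - l)⁻¹ • (p - l • a)) y ∈ W := by
    have h1 : W ∈ 𝓝 ((fun l : ℝ => sn ((1 - l)⁻¹ • (p - l • a)) y) 0) := by
      rw [h0]; exact hW.mem_nhds hp
    exact hcont h1
  have hev2 : ∀ᶠ l : ℝ in 𝓝[>] 0, sn ((1 - l)⁻¹ • (p - l • a)) y ∈ W ∧ 0 < l ∧ l < 1 := by
    have h2 : ∀ᶠ l : ℝ in 𝓝[>] 0, l < 1 := nhdsWithin_le_nhds (Iio_mem_nhds one_pos)
    have h3 : ∀ᶠ l : ℝ in 𝓝[>] 0, (0 : ℝ) < l := self_mem_nhdsWithin
    filter_upwards [nhdsWithin_le_nhds hev, h2, h3] with l h4 h5 h6 using ⟨h4, h6, h5⟩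
  obtain ⟨l, hl, hl0, hl1⟩ := hev2.exists
  filter_upwards [eventually_gt_atTop ((1 - l) * y + l)] with r hr
  have hr' : 1 < (r - (1 - l) * y) / l := by
    rw [lt_div_iff₀ hl0]; linarith
  have h5 := hc hl (ho (sn_orth hao hr')) (by linarith : (0 : ℝ) ≤ 1 - l) hl0.le (by ring)
  rw [← sn_comb] at h5
  have h6 : (1 - l) • ((1 - l)⁻¹ • (p - l • a)) + l • a = p := by
    rw [smul_smul, mul_inv_cancel₀ (by linarith), one_smul]
    abel
  have h7 : (1 - l) * y + l * ((r - (1 - l) * y) / l) = r := by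
    field_simp
    ring
  rwa [h6, h7] at h5

/-- **Dropping a variable, uniformly in the twist.** If `F_M^{(k+1)}` continues to a tube domain
containing the point `(p, y)` then all the `F_{Mm}^{(k)}`, `m ≥ 1`, continue to one tube domain
containing `p`. -/
theorem continues_drop_uniform {k M : ℕ} (hM : 1 ≤ M) {p : Fin (k + 1) → ℝ} {y : ℝ}
    (h : ContinuesTo (k + 1) M (sn p y)) :
    ∃ Ω : Set (Fin (k + 1) → ℝ), IsOpen Ω ∧ IsConnected Ω ∧ orth (k + 1) ⊆ Ω ∧ p ∈ Ω ∧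
      ∀ m : ℕ, 1 ≤ m → ∃ G : (Fin (k + 1) → ℂ) → ℂ, Tempered Ω G ∧
        EqOn G (F k (M * m)) (tube (orth (k + 1))) := by
  obtain ⟨Ω, hΩo, hΩc, hsub, hp, G₀, hG₀, hGeq⟩ := h
  obtain ⟨G, hG, hGG⟩ := bochner hΩo hΩc hG₀
  set W := convexHull ℝ Ω ∩ Hset k with hWdef
  have hΩW : Ω ⊆ convexHull ℝ Ω := subset_convexHull ℝ Ω
  have hWo : IsOpen W := hΩo.convexHull.inter (isOpen_Hset k)
  have hWc : Convex ℝ W := (convex_convexHull ℝ Ω).inter (convex_Hset k)
  have hB : Tempered W (fun z => G z / Dlast z) := tempered_div hG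
  -- the value of the last coordinate
  have hev1 : ∀ᶠ r : ℝ in atTop, sn p r ∈ convexHull ℝ Ω :=
    eventually_mem hΩo.convexHull (convex_convexHull ℝ Ω) (hsub.trans hΩW) (hΩW hp)
  have hev2 : ∀ᶠ r : ℝ in atTop, ∀ J : Finset (Fin k), 1 < rsig (ins J) (sn p r) := by
    rw [eventually_all]
    intro J
    filter_upwards [eventually_gt_atTop (3 / 2 - rsig J p)] with r hr
    rw [rsig_ins_sn]; linarith
  obtain ⟨R, ⟨hR1, hR2⟩, hR3⟩ := ((hev1.and hev2).and (eventually_gt_atTop (1 : ℝ))).exists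
  have horth : orth (k + 1) ⊆ slice W R := by
    intro x hx
    refine ⟨hΩW (hsub (sn_orth hx hR3)), fun J => ?_⟩
    exact rsig_orth _ (sn_orth hx hR3)
  refine ⟨slice W R, isOpen_slice hWo R, ⟨⟨p, ?_⟩, ?_⟩, horth, ?_, ?_⟩
  · exact ⟨hR1, hR2⟩
  · refine Convex.isPreconnected ?_
    intro x hx x' hx' a b ha hb hab
    show sn (a • x + b • x') R ∈ W
    have : R = a * R + b * R := by rw [← add_mul, hab, one_mul]
    rw [this, sn_comb]
    exact hWc hx hx' ha hb hab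
  · exact ⟨hR1, hR2⟩
  intro m hm
  obtain ⟨Ψ, hΨ, hΨd, hpick⟩ := exists_kernel m hm
  refine ⟨extr (fun z => G z / Dlast z) R m Ψ, tempered_extr hWo hB R hm hΨ hΨd, ?_⟩
  intro z hz
  have hval : ∀ t : ℝ, G (sn z ((R : ℂ) + I * t)) / Dlast (sn z ((R : ℂ) + I * t)) =
      (A (k + 1) M (sn z ((R : ℂ) + I * t)) - (∏ j : Fin k, riemannZeta (z j.succ)) *
        riemannZeta ((R : ℂ) + I * t)) * ∏ J : Finset (Fin k), (sigma J z - 1) := by
    intro t
    have h1 : sn z ((R : ℂ) + I * t) ∈ tube (orth (k + 2)) := sn_tube_orth hz hR3 t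
    have h2 : sn z ((R : ℂ) + I * t) ∈ tube Ω := hsub h1
    rw [hGG h2, hGeq h1]
    apply F_sn_div
    unfold Dlast
    rw [Finset.prod_ne_zero_iff]
    intro J _ h0
    have h3 := rsig_orth (ins J) h1
    rw [← sigma_re] at h3
    have h4 : sigma (ins J) (sn z ((R : ℂ) + I * t)) = 1 := by linear_combination h0
    rw [h4, Complex.one_re] at h3
    exact lt_irrefl _ h3
  have hζ : ∀ t : ℝ, riemannZeta ((R : ℂ) + I * t) =
      LSeries (fun _ => 1) ((R : ℂ) + I * t) := by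
    intro t
    have := LSeries_one_eq_riemannZeta (s := (R : ℂ) + I * t) (by simpa using hR3)
    rw [← this]
    rfl
  obtain ⟨hi1, hv1⟩ := integral_A hΨ hΨd hM hz hR3 hm hpick
  have hi2 := integrable_line hΨ hΨd (a := fun _ => 1) (by simp) hR3 hm
  have hv2 := integral_LSeries hΨ hΨd (a := fun _ => 1) (by simp) hR3 hm hpick
  show extr (fun z => G z / Dlast z) R m Ψ z = F k (M * m) z
  unfold extr
  have h5 : ∀ t : ℝ, G (sn z ((R : ℂ) + I * t)) / Dlast (sn z ((R : ℂ) + I * t)) *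
      ((m : ℂ) ^ ((R : ℂ) + I * t) * Ψ t) =
      (∏ J : Finset (Fin k), (sigma J z - 1)) *
        (A (k + 1) M (sn z ((R : ℂ) + I * t)) * ((m : ℂ) ^ ((R : ℂ) + I * t) * Ψ t) -
          (∏ j : Fin k, riemannZeta (z j.succ)) *
            (LSeries (fun _ => 1) ((R : ℂ) + I * t) * ((m : ℂ) ^ ((R : ℂ) + I * t) * Ψ t))) := by
    intro t
    rw [hval t, hζ t]
    ring
  simp_rw [h5]
  rw [integral_const_mul, integral_sub hi1 (hi2.const_mul _), integral_const_mul, hv1, hv2]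
  unfold F
  ring

/-- **Dropping a variable.** If `F_M^{(k+1)}` continues to a tube domain containing the point
`(p, y)` then `F_{Mm}^{(k)}` continues to a tube domain containing `p`, for every `m ≥ 1`. -/
theorem continuesTo_drop {k M m : ℕ} (hM : 1 ≤ M) (hm : 1 ≤ m) {p : Fin (k + 1) → ℝ} {y : ℝ}
    (h : ContinuesTo (k + 1) M (sn p y)) : ContinuesTo k (M * m) p := by
  obtain ⟨Ω, h1, h2, h3, h4, h5⟩ := continues_drop_uniform hM h
  exact ⟨Ω, h1, h2, h3, h4, h5 m hm⟩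

theorem center_sn (k : ℕ) : sn (center k) (1 / 2 : ℝ) = center (k + 1) := by
  funext i
  refine Fin.cases ?_ (fun j => ?_) i
  · rw [sn_zero]; simp [center]
  · refine Fin.lastCases ?_ (fun l => ?_) j
    · rw [sn_succ_last]; simp [center]
    · rw [sn_succ]; simp [center]

/-- from `k` variables and `M = 1` to fewer variables and all `M` -/
theorem continuesTo_lower {j k : ℕ} (hjk : j < k) (h : ContinuesTo k 1 (center k)) {M : ℕ}
    (hM : 1 ≤ M) : ContinuesTo j M (center j) := by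
  obtain ⟨n, rfl⟩ : ∃ n, k = j + 1 + n := ⟨k - (j + 1), by omega⟩
  clear hjk
  induction n with
  | zero =>
    rw [add_zero, ← center_sn] at h
    have := continuesTo_drop le_rfl hM h
    rwa [one_mul] at this
  | succ n ih =>
    apply ih
    have e : j + 1 + (n + 1) = j + 1 + n + 1 := by ring
    rw [e, ← center_sn] at h
    exact continuesTo_drop (m := 1) le_rfl le_rfl h

/-- The statement of Q1. -/
def Q1 : Prop := ∀ k M : ℕ, 1 ≤ k → 1 ≤ M → ContinuesTo k M (center k)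

theorem q1_iff : Q1 ↔ ∀ K : ℕ, ∃ k ≥ K, ContinuesTo k 1 (center k) := by
  constructor
  · intro h K
    exact ⟨max K 1, le_max_left _ _, h _ _ (le_max_right _ _) le_rfl⟩
  · intro h k M _ hM
    obtain ⟨K, hK, hc⟩ := h (k + 1)
    exact continuesTo_lower (by omega) hc hM

end Pool.Agent.Q48.MDS
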