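import Pool.Agent.Q48.MDS.MomToCrit

/-!
# Asymptotics of the Riesz means imply continuation on the critical line
-/

set_option autoImplicit false
set_option linter.unusedSectionVars false

open MeasureTheory Set Filter Topology Metric Complex

namespace Pool.Agent.Q48.MDS

section polyb

variable {T : Type*} {ω : T → ℝ}

/-- `f` is bounded by a polynomial in the weight `ω`. -/
def PolyB (ω : T → ℝ) (f : T → ℂ) : Prop := ∃ (C : ℝ) (N : ℕ), 0 ≤ C ∧ ∀ x, ‖f x‖ ≤ C * ω x ^ N

theorem PolyB.add (hω : ∀ x, 1 ≤ ω x) {f g : T → ℂ} (hf : PolyB ω f) (hg : PolyB ω g) :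
    PolyB ω (fun x => f x + g x) := by
  obtain ⟨C, N, hC, h1⟩ := hf
  obtain ⟨C', N', hC', h2⟩ := hg
  refine ⟨C + C', max N N', by positivity, fun x => ?_⟩
  have e1 : ω x ^ N ≤ ω x ^ max N N' := pow_le_pow_right₀ (hω x) (le_max_left _ _)
  have e2 : ω x ^ N' ≤ ω x ^ max N N' := pow_le_pow_right₀ (hω x) (le_max_right _ _)
  calc ‖f x + g x‖ ≤ ‖f x‖ + ‖g x‖ := norm_add_le _ _
    _ ≤ C * ω x ^ N + C' * ω x ^ N' := add_le_add (h1 x) (h2 x)
    _ ≤ C * ω x ^ max N N' + C' * ω x ^ max N N' := by gcongr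
    _ = _ := by ring

theorem PolyB.mul {f g : T → ℂ} (hf : PolyB ω f) (hg : PolyB ω g) :
    PolyB ω (fun x => f x * g x) := by
  obtain ⟨C, N, hC, h1⟩ := hf
  obtain ⟨C', N', hC', h2⟩ := hg
  refine ⟨C * C', N + N', by positivity, fun x => ?_⟩
  calc ‖f x * g x‖ = ‖f x‖ * ‖g x‖ := norm_mul _ _
    _ ≤ (C * ω x ^ N) * (C' * ω x ^ N') := mul_le_mul (h1 x) (h2 x) (norm_nonneg _)
        ((norm_nonneg _).trans (h1 x))
    _ = _ := by rw [pow_add]; ring

theorem polyB_const (c : ℂ) : PolyB ω (fun _ => c) := ⟨‖c‖, 0, norm_nonneg _, fun _ => by simp⟩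

theorem PolyB.pow {f : T → ℂ} (hf : PolyB ω f) (n : ℕ) : PolyB ω (fun x => f x ^ n) := by
  induction n with
  | zero => simpa using polyB_const 1
  | succ n ih => simpa [pow_succ] using ih.mul hf

theorem PolyB.prod {ι : Type*} (s : Finset ι) {f : ι → T → ℂ} (hf : ∀ i ∈ s, PolyB ω (f i)) :
    PolyB ω (fun x => ∏ i ∈ s, f i x) := by
  classical
  induction s using Finset.induction_on with
  | empty => simpa using polyB_const 1
  | insert a s ha ih =>
    simp only [Finset.prod_insert ha]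
    exact (hf a (Finset.mem_insert_self _ _)).mul (ih fun i hi => hf i (Finset.mem_insert_of_mem hi))

theorem PolyB.of_le {f g : T → ℂ} (hg : PolyB ω g) (h : ∀ x, ‖f x‖ ≤ ‖g x‖) : PolyB ω f := by
  obtain ⟨C, N, hC, h1⟩ := hg
  exact ⟨C, N, hC, fun x => (h x).trans (h1 x)⟩

theorem PolyB.sum_norm (hω : ∀ x, 1 ≤ ω x) {ι : Type*} (s : Finset ι) {f : ι → T → ℂ}
    (hf : ∀ i ∈ s, PolyB ω (f i)) :
    PolyB ω (fun x => ((∑ i ∈ s, ‖f i x‖ : ℝ) : ℂ)) := by
  classical
  induction s using Finset.induction_on with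
  | empty => simpa using polyB_const 0
  | insert a s ha ih =>
    simp only [Finset.sum_insert ha]
    have h1 := ih fun i hi => hf i (Finset.mem_insert_of_mem hi)
    have h2 : PolyB ω (fun x => ((‖f a x‖ : ℝ) : ℂ)) :=
      (hf a (Finset.mem_insert_self _ _)).of_le (fun x => by simp)
    refine (h2.add hω h1).of_le fun x => ?_
    push_cast
    exact le_rfl

end polyb

/-- Asymptotics with a power saving for the Riesz means, in the variable `u = log X`. -/
def MomentU (k M : ℕ) (w₀ : ℝ) : Prop :=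
  ∃ (r : ℕ) (c C : ℝ) (N : ℕ), 1 ≤ r ∧ c < w₀ ∧ ∀ t : Fin k → ℝ, ∃ Q ∈ Eu t, ∀ u : ℝ, 0 ≤ u →
    ‖Su k M r t u - Q u‖ ≤ C * (1 + ‖t‖) ^ N * Real.exp (c * u)

theorem crit_of_moment {k M : ℕ} {w₀ : ℝ} (h : MomentU k M w₀) : CritContinues k M w₀ := by
  obtain ⟨r, c, C, N, hr, hc, hm⟩ := h
  choose Q hQ hb using hm
  choose p hp hp' using fun t => laplace_Eu (hQ t)
  set n := Fintype.card (Finset (Fin k)) with hn
  have hk : (0 : ℝ) ≤ k := Nat.cast_nonneg k
  have hE : ∀ t, Continuous (fun u => Su k M r t u - Q t u) := fun t =>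
    (continuous_Su k M hr t).sub (continuous_Eu (hQ t))
  set L : (Fin k → ℝ) → ℂ → ℂ := fun t w =>
    ∫ u : ℝ in Ioi 0, (Su k M r t u - Q t u) * cexp (-(w * u)) with hL
  set c' : ℝ := (c + w₀) / 2 with hc'
  have hcc : c < c' := by rw [hc']; linarith
  set g : (Fin k → ℝ) → ℂ → ℂ := fun t w =>
    w ^ (r + 1) / (r.factorial : ℂ) * ((∏ J : Finset (Fin k), (w - rho t J)) * L t w + (p t).eval w)
    with hg
  have hC0 : 0 ≤ C := by
    have := hb 0 0 le_rfl
    simp only [norm_zero, add_zero, one_pow, mul_one, mul_zero, Real.exp_zero] at this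
    exact (norm_nonneg _).trans this
  -- splitting of the Laplace transform
  have hsplit : ∀ t w, c < w.re → 2 * (k : ℝ) + 1 < w.re →
      (∏ J : Finset (Fin k), (w - rho t J)) * L t w + (p t).eval w =
        (∏ J : Finset (Fin k), (w - rho t J)) * (Kr r w * crit k M t w) := by
    intro t w h1 h2
    have h3 : 1 < w.re := by linarith
    obtain ⟨h4, h5⟩ := hp' t w h3
    have h6 := (laplace_bound (hE t) (hb t) h1).1
    have h7 : (∫ u : ℝ in Ioi 0, Su k M r t u * cexp (-(w * u))) =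
        L t w + ∫ u : ℝ in Ioi 0, Q t u * cexp (-(w * u)) := by
      simp only [hL]
      rw [← integral_add h6 h4]
      congr 1
      funext u
      ring
    rw [integral_Su k M hr t h2] at h7
    rw [h7, ← h5]
    ring
  refine ⟨c', ?_⟩
  -- the polynomial bound
  have hbound : PolyB (T := (Fin k → ℝ) × {w : ℂ // c' < w.re ∧ w.re ≤ 2 * k + 3})
      (fun x => 1 + ‖x.1‖ + |(x.2 : ℂ).im|) (fun x => g x.1 x.2) := by
    have hω : ∀ x : (Fin k → ℝ) × {w : ℂ // c' < w.re ∧ w.re ≤ 2 * k + 3},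
        1 ≤ 1 + ‖x.1‖ + |(x.2 : ℂ).im| := fun x => by
      have := norm_nonneg x.1
      have := abs_nonneg (x.2 : ℂ).im
      linarith
    have b1 : PolyB (T := (Fin k → ℝ) × {w : ℂ // c' < w.re ∧ w.re ≤ 2 * k + 3})
        (fun x => 1 + ‖x.1‖ + |(x.2 : ℂ).im|) (fun x => ((‖(x.2 : ℂ)‖ : ℝ) : ℂ)) := by
      refine ⟨|c'| + 2 * k + 3 + 1, 1, by positivity, fun x => ?_⟩
      rw [Complex.norm_real, norm_norm, pow_one]
      have h1 := Complex.norm_le_abs_re_add_abs_im (x.2 : ℂ)
      have h2 : |(x.2 : ℂ).re| ≤ |c'| + 2 * k + 3 := by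
        rw [abs_le]
        constructor
        · linarith [x.2.2.1, neg_abs_le c']
        · linarith [x.2.2.2, abs_nonneg c']
      have h3 := norm_nonneg x.1
      have h4 := abs_nonneg (x.2 : ℂ).im
      have h5 : 0 ≤ |c'| := abs_nonneg c'
      nlinarith
    have b1' : PolyB (T := (Fin k → ℝ) × {w : ℂ // c' < w.re ∧ w.re ≤ 2 * k + 3})
        (fun x => 1 + ‖x.1‖ + |(x.2 : ℂ).im|) (fun x => (x.2 : ℂ)) :=
      b1.of_le fun x => by simp
    have b2 : ∀ J : Finset (Fin k), PolyB (T := (Fin k → ℝ) × {w : ℂ // c' < w.re ∧ w.re ≤ 2 * k + 3})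
        (fun x => 1 + ‖x.1‖ + |(x.2 : ℂ).im|) (fun x => (x.2 : ℂ) - rho x.1 J) := by
      intro J
      have h1 : PolyB (T := (Fin k → ℝ) × {w : ℂ // c' < w.re ∧ w.re ≤ 2 * k + 3})
          (fun x => 1 + ‖x.1‖ + |(x.2 : ℂ).im|) (fun x => -rho x.1 J) := by
        refine ⟨1 + k, 1, by positivity, fun x => ?_⟩
        rw [norm_neg, pow_one]
        refine (norm_rho_le _ _).trans ?_
        have h3 := norm_nonneg x.1
        have h4 := abs_nonneg (x.2 : ℂ).im
        nlinarith
      simpa [sub_eq_add_neg] using b1'.add hω h1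
    have b3 : PolyB (T := (Fin k → ℝ) × {w : ℂ // c' < w.re ∧ w.re ≤ 2 * k + 3})
        (fun x => 1 + ‖x.1‖ + |(x.2 : ℂ).im|) (fun x => L x.1 x.2) := by
      refine ⟨C / (c' - c), N, div_nonneg hC0 (by linarith), fun x => ?_⟩
      have h1 : c < (x.2 : ℂ).re := hcc.trans x.2.2.1
      refine (laplace_bound (hE x.1) (hb x.1) h1).2.trans ?_
      rw [div_mul_eq_mul_div]
      have h3 := norm_nonneg x.1
      have h4 := abs_nonneg (x.2 : ℂ).im
      have h5 : (1 + ‖x.1‖) ^ N ≤ (1 + ‖x.1‖ + |(x.2 : ℂ).im|) ^ N :=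
        pow_le_pow_left₀ (by linarith) (by linarith) N
      have h6 : 0 < c' - c := by linarith
      have h7 : c' - c ≤ (x.2 : ℂ).re - c := by linarith [x.2.2.1]
      gcongr
    -- values at the nodes
    set b : ℝ := 2 * (k : ℝ) + 2 + |c| with hbdef
    have hb0 : 0 ≤ b := by positivity
    have b4 : ∀ i ∈ Finset.range n, PolyB (fun t : Fin k → ℝ => 1 + ‖t‖)
        (fun t => (p t).eval ((b + i : ℝ) : ℂ)) := by
      intro i _
      have hω1 : ∀ t : Fin k → ℝ, 1 ≤ 1 + ‖t‖ := fun t => by linarith [norm_nonneg t]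
      set x : ℝ := b + i with hx
      have hi : (0 : ℝ) ≤ i := Nat.cast_nonneg i
      have hx1 : 2 * (k : ℝ) + 1 < x := by rw [hx, hbdef]; linarith [abs_nonneg c]
      have hxc : c < x := by rw [hx, hbdef]; linarith [le_abs_self c]
      have e1 : ∀ t, (p t).eval (x : ℂ) = (∏ J : Finset (Fin k), ((x : ℂ) - rho t J)) *
          (Kr r (x : ℂ) * crit k M t (x : ℂ) + (-1) * L t (x : ℂ)) := by
        intro t
        have := hsplit t (x : ℂ) (by simpa using hxc) (by simpa using hx1)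
        linear_combination this
      simp_rw [e1]
      refine PolyB.mul (PolyB.prod _ fun J _ => ?_) (PolyB.add hω1 ((polyB_const _).mul ?_)
        ((polyB_const _).mul ?_))
      · refine ⟨x + 1 + k, 1, by linarith, fun t => ?_⟩
        rw [pow_one]
        refine (norm_sub_le _ _).trans ?_
        have h1 := norm_rho_le t J
        rw [Complex.norm_real, Real.norm_of_nonneg (by linarith)]
        have h3 := norm_nonneg t
        nlinarith
      · refine ⟨Ka (1 / 2) ^ k * |Zd (x - 2 * k)|, k, by have := Ka_nonneg (1 / 2); positivity,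
          fun t => ?_⟩
        refine (norm_crit_le k M t (w := (x : ℂ)) (by simpa using hx1)).trans ?_
        rw [Complex.ofReal_re]
        have := Ka_nonneg (1 / 2)
        calc _ ≤ Ka (1 / 2) ^ k * (1 + ‖t‖) ^ k * |Zd (x - 2 * k)| := by
              gcongr; exact le_abs_self _
          _ = _ := by ring
      · refine ⟨C / (x - c), N, div_nonneg hC0 (by linarith), fun t => ?_⟩
        have h1 := (laplace_bound (hE t) (hb t) (w := (x : ℂ)) (by simpa using hxc)).2
        refine h1.trans (le_of_eq ?_)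
        rw [Complex.ofReal_re]
        ring
    have b5 : PolyB (T := (Fin k → ℝ) × {w : ℂ // c' < w.re ∧ w.re ≤ 2 * k + 3})
        (fun x => 1 + ‖x.1‖ + |(x.2 : ℂ).im|)
        (fun x => ((∑ i ∈ Finset.range n, ‖(p x.1).eval ((b + i : ℝ) : ℂ)‖ : ℝ) : ℂ)) := by
      refine PolyB.sum_norm hω _ fun i hi => ?_
      obtain ⟨C₁, N₁, hC₁, h1⟩ := b4 i hi
      refine ⟨C₁, N₁, hC₁, fun x => (h1 x.1).trans ?_⟩
      have h3 := norm_nonneg x.1
      have h4 := abs_nonneg (x.2 : ℂ).im
      gcongr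
      linarith
    have b6 : PolyB (T := (Fin k → ℝ) × {w : ℂ // c' < w.re ∧ w.re ≤ 2 * k + 3})
        (fun x => 1 + ‖x.1‖ + |(x.2 : ℂ).im|) (fun x => (p x.1).eval (x.2 : ℂ)) := by
      have h1 := b5.mul ((((polyB_const 1).add hω b1).add hω
        (polyB_const ((b + n : ℝ) : ℂ))).pow n)
      refine h1.of_le fun x => ?_
      refine (poly_bound (hp x.1) hb0 (x.2 : ℂ)).trans (le_of_eq ?_)
      rw [norm_mul, norm_pow]
      congr 1
      · rw [Complex.norm_real, Real.norm_of_nonneg (Finset.sum_nonneg fun i _ => norm_nonneg _)]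
      · congr 1
        have h2 : (1 + ((‖(x.2 : ℂ)‖ : ℝ) : ℂ) + ((b + n : ℝ) : ℂ)) =
            ((1 + ‖(x.2 : ℂ)‖ + b + n : ℝ) : ℂ) := by push_cast; ring
        rw [h2, Complex.norm_real, Real.norm_of_nonneg (by positivity)]
    have h1 := ((b1'.pow (r + 1)).mul (polyB_const ((r.factorial : ℂ)⁻¹))).mul
      (((PolyB.prod Finset.univ fun J _ => b2 J).mul b3).add hω b6)
    refine h1.of_le fun x => le_of_eq ?_
    simp only [hg]
    rw [div_eq_mul_inv]
  obtain ⟨C', N', hC', hb'⟩ := hbound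
  refine ⟨C', N', g, by rw [hc']; linarith, fun t => ⟨?_, fun w h1 h2 => ?_, fun w h1 h2 => ?_⟩⟩
  · simp only [hg]
    refine DifferentiableOn.mul ?_ (DifferentiableOn.add (DifferentiableOn.mul ?_ ?_) ?_)
    · exact ((differentiable_pow (r + 1)).div_const _).differentiableOn
    · have h1 : Differentiable ℂ (fun w : ℂ => ∏ J : Finset (Fin k), (w - rho t J)) :=
        fun z => (HasFDerivAt.finsetProd (g := fun (J : Finset (Fin k)) (w : ℂ) => w - rho t J)
          (fun J _ => ((differentiable_id.sub_const _) z).hasFDerivAt)).differentiableAt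
      exact h1.differentiableOn
    · exact (differentiableOn_laplace (hE t) (hb t)).mono fun w hw => hcc.trans hw
    · exact (p t).differentiable.differentiableOn
  · exact hb' (t, ⟨w, h1, h2⟩)
  · simp only [hg]
    rw [hsplit t w (hcc.trans h1) h2]
    have hw0 : w ≠ 0 := by
      rintro rfl
      simp at h2
      linarith
    unfold Kr
    have h3 : (r.factorial : ℂ) ≠ 0 := by exact_mod_cast r.factorial_ne_zero
    field_simp

end Pool.Agent.Q48.MDS
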