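import Pool.Agent.Q48.MDS.Moments

/-!
# From asymptotics of the Riesz means to continuation on the critical line
-/

set_option autoImplicit false
set_option linter.unusedSectionVars false

open MeasureTheory Set Filter Topology Metric Complex

namespace Pool.Agent.Q48.MDS

/-- the number of the subsets `J'` with `ρ_{J'}(t) = ρ_J(t)` -/
noncomputable def mult {k : ℕ} (t : Fin k → ℝ) (J : Finset (Fin k)) : ℕ :=
  open scoped Classical in
  (Finset.univ.filter (fun J' : Finset (Fin k) => rho t J' = rho t J)).card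

/-- the main terms, in the variable `u = log X` -/
noncomputable def Eu {k : ℕ} (t : Fin k → ℝ) : Submodule ℂ (ℝ → ℂ) :=
  Submodule.span ℂ {f | ∃ (J : Finset (Fin k)) (m : ℕ), m < mult t J ∧
    f = fun u : ℝ => cexp (rho t J * u) * (u : ℂ) ^ m}

theorem rho_re {k : ℕ} (t : Fin k → ℝ) (J : Finset (Fin k)) : (rho t J).re = 1 := by
  unfold rho
  have h : (∑ j ∈ J, (t j : ℂ)) = ((∑ j ∈ J, t j : ℝ) : ℂ) := by push_cast; rfl
  rw [h]; simp

theorem norm_rho_le {k : ℕ} (t : Fin k → ℝ) (J : Finset (Fin k)) :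
    ‖rho t J‖ ≤ 1 + k * ‖t‖ := by
  unfold rho
  refine (norm_sub_le _ _).trans ?_
  rw [norm_one, norm_mul, norm_I, one_mul]
  have h1 : ‖∑ j ∈ J, (t j : ℂ)‖ ≤ k * ‖t‖ := by
    calc ‖∑ j ∈ J, (t j : ℂ)‖ ≤ ∑ j ∈ J, ‖(t j : ℂ)‖ := norm_sum_le _ _
      _ ≤ ∑ _j ∈ J, ‖t‖ := Finset.sum_le_sum fun j _ => by
          rw [Complex.norm_real]; exact norm_le_pi_norm t j
      _ = J.card * ‖t‖ := by simp
      _ ≤ k * ‖t‖ := by
          gcongr
          simpa using Finset.card_le_univ J
  linarith

theorem continuous_Eu {k : ℕ} {t : Fin k → ℝ} {Q : ℝ → ℂ} (hQ : Q ∈ Eu t) : Continuous Q := by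
  refine Submodule.span_induction ?_ ?_ ?_ ?_ hQ
  · rintro f ⟨J, m, -, rfl⟩
    fun_prop
  · exact continuous_const
  · intro f g _ _ hf hg
    exact hf.add hg
  · intro a f _ hf
    exact continuous_const.mul hf

/-- the Laplace transform of a main term -/
theorem laplace_Eu {k : ℕ} {t : Fin k → ℝ} {Q : ℝ → ℂ} (hQ : Q ∈ Eu t) :
    ∃ p : Polynomial ℂ, p.degree < ((Fintype.card (Finset (Fin k)) : ℕ) : WithBot ℕ) ∧
      ∀ w : ℂ, 1 < w.re → IntegrableOn (fun u : ℝ => Q u * cexp (-(w * u))) (Ioi 0) ∧
        (∫ u : ℝ in Ioi 0, Q u * cexp (-(w * u))) * ∏ J : Finset (Fin k), (w - rho t J) =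
          p.eval w := by
  classical
  refine Submodule.span_induction ?_ ?_ ?_ ?_ hQ
  · rintro f ⟨J, m, hm, rfl⟩
    obtain ⟨s, hs, hsc⟩ := Finset.exists_subset_card_eq (Nat.succ_le_of_lt hm)
    have hs' : ∀ J' ∈ s, rho t J' = rho t J := fun J' hJ' => by
      have := hs hJ'
      rw [Finset.mem_filter] at this
      exact this.2
    refine ⟨Polynomial.C (m.factorial : ℂ) *
      ∏ J' ∈ Finset.univ \ s, (Polynomial.X - Polynomial.C (rho t J')), ?_, fun w hw => ?_⟩
    · have h1 : (Polynomial.C (m.factorial : ℂ)).degree = 0 :=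
        Polynomial.degree_C (by exact_mod_cast m.factorial_ne_zero)
      rw [Polynomial.degree_mul, h1, zero_add,
        Polynomial.degree_prod_of_monic _ _ (fun i _ => Polynomial.monic_X_sub_C _)]
      simp only [Polynomial.degree_X_sub_C, Finset.sum_const, nsmul_eq_mul, mul_one]
      have h2 : (Finset.univ \ s).card < Fintype.card (Finset (Fin k)) := by
        rw [Finset.card_sdiff_of_subset (Finset.subset_univ s), hsc, Finset.card_univ]
        have : 0 < Fintype.card (Finset (Fin k)) := Fintype.card_pos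
        omega
      exact_mod_cast h2
    · have hwr : 0 < (w - rho t J).re := by
        rw [Complex.sub_re, rho_re]; linarith
      have e1 : ∀ u : ℝ, cexp (rho t J * u) * (u : ℂ) ^ m * cexp (-(w * u)) =
          (u : ℂ) ^ m * cexp (-((w - rho t J) * u)) := by
        intro u
        rw [mul_comm (cexp (rho t J * u)), mul_assoc, ← Complex.exp_add]
        congr 2
        ring
      refine ⟨?_, ?_⟩
      · simp_rw [e1]
        exact integrableOn_pow_cexp m hwr
      · simp_rw [e1]
        rw [integral_pow_cexp m hwr]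
        have h3 : ∏ J' : Finset (Fin k), (w - rho t J') =
            (∏ J' ∈ Finset.univ \ s, (w - rho t J')) * (w - rho t J) ^ (m + 1) := by
          rw [← Finset.prod_sdiff (Finset.subset_univ s)]
          congr 1
          rw [Finset.prod_congr rfl (fun J' hJ' => by rw [hs' J' hJ']), Finset.prod_const, hsc]
        rw [h3, Polynomial.eval_mul, Polynomial.eval_C, Polynomial.eval_prod]
        simp only [Polynomial.eval_sub, Polynomial.eval_X, Polynomial.eval_C]
        have h4 : (w - rho t J) ≠ 0 := by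
          intro h; rw [h] at hwr; simp at hwr
        field_simp
  · refine ⟨0, by rw [Polynomial.degree_zero]; exact WithBot.bot_lt_coe _, fun w _ => ⟨?_, by simp⟩⟩
    simp
  · rintro f g _ _ ⟨p, hp, hp'⟩ ⟨q, hq, hq'⟩
    refine ⟨p + q, (Polynomial.degree_add_le p q).trans_lt (max_lt hp hq), fun w hw => ?_⟩
    obtain ⟨h1, h2⟩ := hp' w hw
    obtain ⟨h3, h4⟩ := hq' w hw
    have e1 : (fun u : ℝ => (f + g) u * cexp (-(w * u))) =
        fun u : ℝ => f u * cexp (-(w * u)) + g u * cexp (-(w * u)) := by
      funext u; simp [add_mul]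
    rw [e1]
    refine ⟨h1.add h3, ?_⟩
    rw [integral_add h1 h3, add_mul, h2, h4, Polynomial.eval_add]
  · rintro a f _ ⟨p, hp, hp'⟩
    refine ⟨Polynomial.C a * p, ?_, fun w hw => ?_⟩
    · refine lt_of_le_of_lt ?_ hp
      rw [Polynomial.C_mul']
      exact Polynomial.degree_smul_le a p
    · obtain ⟨h1, h2⟩ := hp' w hw
      have e1 : (fun u : ℝ => (a • f) u * cexp (-(w * u))) =
          fun u : ℝ => a * (f u * cexp (-(w * u))) := by
        funext u; simp [mul_assoc]
      rw [e1]
      refine ⟨h1.const_mul a, ?_⟩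
      rw [integral_const_mul, mul_assoc, h2, Polynomial.eval_mul, Polynomial.eval_C]

/-- a polynomial of small degree is controlled by its values at integer translates of a point -/
theorem poly_bound {n : ℕ} {p : Polynomial ℂ} (hp : p.degree < (n : WithBot ℕ)) {b : ℝ} (hb : 0 ≤ b)
    (w : ℂ) : ‖p.eval w‖ ≤ (∑ i ∈ Finset.range n, ‖p.eval ((b + i : ℝ) : ℂ)‖) *
      (1 + ‖w‖ + b + n) ^ n := by
  set v : ℕ → ℂ := fun i => ((b + i : ℝ) : ℂ) with hv
  have hinj : Set.InjOn v (Finset.range n : Finset ℕ) := by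
    intro i _ j _ h
    simp only [hv] at h
    have h1 : (b + i : ℝ) = b + j := Complex.ofReal_injective h
    have h2 : (i : ℝ) = j := by linarith
    exact_mod_cast h2
  have h1 : p = Lagrange.interpolate (Finset.range n) v (fun i => p.eval (v i)) :=
    Lagrange.eq_interpolate hinj (by rwa [Finset.card_range])
  have hw1 : 1 ≤ 1 + ‖w‖ + b + n := by
    have := norm_nonneg w
    have : (0 : ℝ) ≤ n := Nat.cast_nonneg n
    linarith
  rw [Finset.sum_mul]
  conv_lhs => rw [h1]
  rw [Lagrange.interpolate_apply, Polynomial.eval_finsetSum]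
  refine (norm_sum_le _ _).trans (Finset.sum_le_sum fun i hi => ?_)
  rw [Polynomial.eval_mul, Polynomial.eval_C, norm_mul]
  refine mul_le_mul_of_nonneg_left ?_ (norm_nonneg _)
  unfold Lagrange.basis
  rw [Polynomial.eval_prod, norm_prod]
  calc ∏ j ∈ (Finset.range n).erase i, ‖(Lagrange.basisDivisor (v i) (v j)).eval w‖
      ≤ ∏ _j ∈ (Finset.range n).erase i, (1 + ‖w‖ + b + n) := by
        refine Finset.prod_le_prod (fun j _ => norm_nonneg _) (fun j hj => ?_)
        rw [Finset.mem_erase, Finset.mem_range] at hj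
        unfold Lagrange.basisDivisor
        rw [Polynomial.eval_mul, Polynomial.eval_C, Polynomial.eval_sub, Polynomial.eval_X,
          Polynomial.eval_C, norm_mul, norm_inv]
        have h2 : 1 ≤ ‖v i - v j‖ := by
          have h3 : v i - v j = (((i : ℝ) - (j : ℝ) : ℝ) : ℂ) := by
            simp only [hv]; push_cast; ring
          rw [h3, Complex.norm_real, Real.norm_eq_abs]
          have h4 : ((i : ℤ) - (j : ℤ)) ≠ 0 := by
            intro h; apply hj.1; omega
          have h5 : (1 : ℤ) ≤ |(i : ℤ) - (j : ℤ)| := Int.one_le_abs h4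
          have h6 : ((1 : ℤ) : ℝ) ≤ ((|(i : ℤ) - (j : ℤ)| : ℤ) : ℝ) := by exact_mod_cast h5
          push_cast at h6
          exact h6
        have h7 : ‖w - v j‖ ≤ 1 + ‖w‖ + b + n := by
          refine (norm_sub_le _ _).trans ?_
          have h8 : ‖v j‖ ≤ b + n := by
            simp only [hv]
            rw [Complex.norm_real, Real.norm_of_nonneg (by positivity)]
            have : (j : ℝ) ≤ n := by exact_mod_cast hj.2.le
            linarith
          linarith
        calc ‖v i - v j‖⁻¹ * ‖w - v j‖ ≤ 1 * (1 + ‖w‖ + b + n) := by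
              gcongr
              exact inv_le_one_of_one_le₀ h2
          _ = _ := one_mul _
    _ = (1 + ‖w‖ + b + n) ^ ((Finset.range n).erase i).card := by rw [Finset.prod_const]
    _ ≤ (1 + ‖w‖ + b + n) ^ n := by
        refine pow_le_pow_right₀ hw1 ?_
        exact (Finset.card_le_card (Finset.erase_subset _ _)).trans (by rw [Finset.card_range])

/-- integrability and holomorphy of a Laplace transform -/
theorem laplace_bound {E : ℝ → ℂ} (hE : Continuous E) {c B : ℝ}
    (hb : ∀ u : ℝ, 0 ≤ u → ‖E u‖ ≤ B * Real.exp (c * u)) {w : ℂ} (hw : c < w.re) :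
    IntegrableOn (fun u : ℝ => E u * cexp (-(w * u))) (Ioi 0) ∧
      ‖∫ u : ℝ in Ioi 0, E u * cexp (-(w * u))‖ ≤ B / (w.re - c) := by
  have h0 : 0 < w.re - c := by linarith
  have h1 : IntegrableOn (fun u : ℝ => B * Real.exp (-(w.re - c) * u)) (Ioi 0) :=
    ((exp_neg_integrableOn_Ioi 0 h0)).const_mul B
  have h2 : ∀ u ∈ Ioi (0 : ℝ), ‖E u * cexp (-(w * u))‖ ≤ B * Real.exp (-(w.re - c) * u) := by
    intro u hu
    rw [norm_mul, Complex.norm_exp]
    have h3 : (-(w * (u : ℂ))).re = -(w.re * u) := by simp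
    rw [h3]
    calc ‖E u‖ * Real.exp (-(w.re * u)) ≤ (B * Real.exp (c * u)) * Real.exp (-(w.re * u)) := by
          gcongr; exact hb u (le_of_lt hu)
      _ = B * Real.exp (-(w.re - c) * u) := by
          rw [mul_assoc, ← Real.exp_add]; congr 2; ring
  have h2' : ∀ᵐ u ∂(volume.restrict (Ioi (0 : ℝ))), ‖E u * cexp (-(w * u))‖ ≤
      B * Real.exp (-(w.re - c) * u) :=
    (ae_restrict_iff' measurableSet_Ioi).2 (Eventually.of_forall h2)
  refine ⟨h1.mono' ?_ h2', ?_⟩
  · exact (by fun_prop : Continuous (fun u : ℝ => E u * cexp (-(w * u)))).aestronglyMeasurable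
  · refine (norm_integral_le_of_norm_le h1 h2').trans (le_of_eq ?_)
    rw [integral_const_mul, integral_exp_mul_Ioi (by linarith : -(w.re - c) < 0)]
    rw [mul_zero, Real.exp_zero]
    have : w.re - c ≠ 0 := h0.ne'
    rw [div_eq_mul_inv]
    congr 1
    rw [inv_neg]; ring

theorem differentiableOn_laplace {E : ℝ → ℂ} (hE : Continuous E) {c B : ℝ}
    (hb : ∀ u : ℝ, 0 ≤ u → ‖E u‖ ≤ B * Real.exp (c * u)) :
    DifferentiableOn ℂ (fun w : ℂ => ∫ u : ℝ in Ioi 0, E u * cexp (-(w * u))) {w | c < w.re} := by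
  have hB : 0 ≤ B := by
    have := hb 0 le_rfl
    simp only [mul_zero, Real.exp_zero, mul_one] at this
    exact (norm_nonneg _).trans this
  set f : (Unit → ℂ) → ℝ → ℂ := fun z u => (Ioi (0 : ℝ)).indicator (fun u => E u * cexp (-(z () * u))) u
    with hf
  have hU : IsOpen {z : Unit → ℂ | c < (z ()).re} :=
    isOpen_lt continuous_const (Complex.continuous_re.comp (continuous_apply ()))
  have hd := differentiableOn_integral (μ := volume) hU f ?_ ?_ ?_
  · have h1 : (fun w : ℂ => ∫ u : ℝ in Ioi 0, E u * cexp (-(w * u))) =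
        (fun z : Unit → ℂ => ∫ u, f z u) ∘ (fun w : ℂ => fun _ : Unit => w) := by
      funext w
      simp only [Function.comp_apply, hf]
      rw [integral_indicator measurableSet_Ioi]
    rw [h1]
    refine hd.comp ?_ (fun w hw => hw)
    exact (differentiable_pi.2 fun _ => differentiable_id).differentiableOn
  · intro u
    by_cases hu : u ∈ Ioi (0 : ℝ)
    · have : (fun z : Unit → ℂ => f z u) = fun z => E u * cexp (-(z () * u)) := by
        funext z; simp only [hf]; rw [indicator_of_mem hu]
      rw [this]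
      exact ((((differentiable_apply ()).mul_const _).neg).cexp.const_mul _).differentiableOn
    · have : (fun z : Unit → ℂ => f z u) = fun _ => 0 := by
        funext z; simp only [hf]; rw [indicator_of_notMem hu]
      rw [this]
      exact differentiableOn_const _
  · intro z _
    simp only [hf]
    exact (by fun_prop : Continuous (fun u : ℝ => E u * cexp (-(z () * u)))).aestronglyMeasurable.indicator
      measurableSet_Ioi
  · intro z₀ hz₀
    set x₁ : ℝ := (c + (z₀ ()).re) / 2 with hx₁
    have hz₀' : c < (z₀ ()).re := hz₀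
    have hc1 : c < x₁ := by rw [hx₁]; linarith
    refine ⟨{z | x₁ < (z ()).re}, ?_, fun u => (Ioi (0 : ℝ)).indicator
      (fun u => B * Real.exp (-(x₁ - c) * u)) u, ?_, fun z hz u => ?_⟩
    · refine (isOpen_lt continuous_const
        (Complex.continuous_re.comp (continuous_apply ()))).mem_nhds ?_
      show x₁ < (z₀ ()).re
      rw [hx₁]; linarith
    · rw [integrable_indicator_iff measurableSet_Ioi]
      exact ((exp_neg_integrableOn_Ioi 0 (by linarith : 0 < x₁ - c))).const_mul B
    · simp only [hf]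
      by_cases hu : u ∈ Ioi (0 : ℝ)
      · rw [indicator_of_mem hu, indicator_of_mem hu, norm_mul, Complex.norm_exp]
        have hu0 : 0 < u := hu
        have h3 : (-(z () * (u : ℂ))).re = -((z ()).re * u) := by simp
        rw [h3]
        calc ‖E u‖ * Real.exp (-((z ()).re * u)) ≤
              (B * Real.exp (c * u)) * Real.exp (-((z ()).re * u)) := by
              gcongr; exact hb u hu0.le
          _ = B * Real.exp (-((z ()).re - c) * u) := by
              rw [mul_assoc, ← Real.exp_add]; congr 2; ring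
          _ ≤ B * Real.exp (-(x₁ - c) * u) := by
              have : x₁ < (z ()).re := hz
              gcongr
      · rw [indicator_of_notMem hu, indicator_of_notMem hu, norm_zero]

end Pool.Agent.Q48.MDS
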