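import Pool.Agent.Q48.MDS.Riesz

/-!
# Riesz means of the products of L-values on the critical line
-/

set_option autoImplicit false
set_option linter.unusedSectionVars false

open MeasureTheory Set Filter Topology Metric Complex

namespace Pool.Agent.Q48.MDS

/-- the coefficients `χ_d(M) ∏_j L(1/2 + i t_j, χ_d)` -/
noncomputable def aa (k M : ℕ) (t : Fin k → ℝ) (d : DD) : ℂ :=
  (kron d M : ℂ) * ∏ j : Fin k, Lc d (1 / 2 + I * (t j : ℂ))

theorem dd_two_le (d : DD) : 2 ≤ (d : ℕ) := d.2.2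

theorem dd_log_pos (d : DD) : 0 < Real.log ((d : ℕ) : ℝ) := by
  apply Real.log_pos
  have := dd_two_le d
  exact_mod_cast (by omega : 1 < (d : ℕ))

theorem norm_aa_le (k M : ℕ) (t : Fin k → ℝ) (d : DD) :
    ‖aa k M t d‖ ≤ Ka (1 / 2) ^ k * (1 + ‖t‖) ^ k * ((d : ℕ) : ℝ) ^ (2 * (k : ℝ)) := by
  unfold aa
  rw [norm_mul, norm_prod]
  have h1 := norm_kron_le d M
  have hKa := Ka_nonneg (1 / 2)
  have h2 : ∏ j : Fin k, ‖Lc d (1 / 2 + I * (t j : ℂ))‖ ≤
      ∏ _j : Fin k, Ka (1 / 2) * ((d : ℕ) : ℝ) ^ 2 * (1 + ‖t‖) := by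
    refine Finset.prod_le_prod (fun j _ => norm_nonneg _) (fun j _ => ?_)
    refine (Lc_crude d.2.1 d.2.2 (by norm_num : (0 : ℝ) < 1 / 2) (by simp)).trans ?_
    have h3 : ‖(1 / 2 + I * (t j : ℂ) : ℂ)‖ ≤ 1 + ‖t‖ := by
      refine (norm_add_le _ _).trans ?_
      have h4 := norm_le_pi_norm t j
      have h5 : ‖(I * (t j : ℂ))‖ = ‖t j‖ := by simp
      rw [h5]
      have h6 : ‖(1 / 2 : ℂ)‖ = 1 / 2 := by simp
      rw [h6]; linarith
    gcongr
  have h7 : ∏ _j : Fin k, Ka (1 / 2) * ((d : ℕ) : ℝ) ^ 2 * (1 + ‖t‖) =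
      Ka (1 / 2) ^ k * (1 + ‖t‖) ^ k * ((d : ℕ) : ℝ) ^ (2 * (k : ℝ)) := by
    rw [Finset.prod_const, Finset.card_univ, Fintype.card_fin, mul_pow, mul_pow, ← pow_mul,
      ← Real.rpow_natCast ((d : ℕ) : ℝ) (2 * k)]
    push_cast
    ring
  calc _ ≤ 1 * ∏ _j : Fin k, Ka (1 / 2) * ((d : ℕ) : ℝ) ^ 2 * (1 + ‖t‖) := by
        gcongr
    _ = _ := by rw [one_mul, h7]

theorem summable_dd {b : ℝ} (hb : 1 < b) : Summable (fun d : DD => ((d : ℕ) : ℝ) ^ (-b)) :=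
  (Real.summable_nat_rpow.2 (show -b < -1 by linarith)).comp_injective Subtype.val_injective

/-- the constant `∑_d d^{-b}` -/
noncomputable def Zd (b : ℝ) : ℝ := ∑' d : DD, ((d : ℕ) : ℝ) ^ (-b)

theorem aa_term_le (k M : ℕ) (t : Fin k → ℝ) (d : DD) (x : ℝ) :
    ‖aa k M t d‖ * ((d : ℕ) : ℝ) ^ (-x) ≤
      Ka (1 / 2) ^ k * (1 + ‖t‖) ^ k * ((d : ℕ) : ℝ) ^ (-(x - 2 * k)) := by
  have hd : (0 : ℝ) < ((d : ℕ) : ℝ) := by
    have := dd_two_le d
    exact_mod_cast (by omega : 0 < (d : ℕ))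
  calc _ ≤ (Ka (1 / 2) ^ k * (1 + ‖t‖) ^ k * ((d : ℕ) : ℝ) ^ (2 * (k : ℝ))) *
        ((d : ℕ) : ℝ) ^ (-x) := by
        gcongr
        exact norm_aa_le k M t d
    _ = Ka (1 / 2) ^ k * (1 + ‖t‖) ^ k * (((d : ℕ) : ℝ) ^ (2 * (k : ℝ)) * ((d : ℕ) : ℝ) ^ (-x)) := by
        ring
    _ = _ := by rw [← Real.rpow_add hd]; congr 2; ring

theorem summable_aa (k M : ℕ) (t : Fin k → ℝ) {x : ℝ} (hx : 2 * (k : ℝ) + 1 < x) :
    Summable (fun d : DD => ‖aa k M t d‖ * ((d : ℕ) : ℝ) ^ (-x)) :=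
  Summable.of_nonneg_of_le (fun d => by positivity) (fun d => aa_term_le k M t d x)
    ((summable_dd (by linarith)).mul_left _)

/-- the summatory function in the variable `u = log X` -/
noncomputable def Su (k M r : ℕ) (t : Fin k → ℝ) (u : ℝ) : ℂ :=
  ∑' d : DD, ((max (u - Real.log ((d : ℕ) : ℝ)) 0 : ℝ) : ℂ) ^ r * aa k M t d

theorem finite_dd (U : ℝ) : {d : DD | Real.log ((d : ℕ) : ℝ) < U}.Finite := by
  have h1 : {d : DD | Real.log ((d : ℕ) : ℝ) < U} ⊆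
      (fun d : DD => (d : ℕ)) ⁻¹' (Iio (⌈Real.exp U⌉₊ + 1)) := by
    intro d hd
    have hd0 : (0 : ℝ) < ((d : ℕ) : ℝ) := by
      have := dd_two_le d
      exact_mod_cast (by omega : 0 < (d : ℕ))
    have h2 : ((d : ℕ) : ℝ) < Real.exp U := (Real.log_lt_iff_lt_exp hd0).1 hd
    have h3 : ((d : ℕ) : ℝ) < (⌈Real.exp U⌉₊ : ℝ) := h2.trans_le (Nat.le_ceil _)
    show (d : ℕ) < _
    have : (d : ℕ) < ⌈Real.exp U⌉₊ := by exact_mod_cast h3
    omega
  exact ((Set.finite_Iio _).preimage Subtype.val_injective.injOn).subset h1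

theorem continuous_Su (k M : ℕ) {r : ℕ} (hr : 1 ≤ r) (t : Fin k → ℝ) : Continuous (Su k M r t) := by
  rw [continuous_iff_continuousAt]
  intro u₀
  set s := (finite_dd (u₀ + 1)).toFinset with hs
  have h1 : ∀ u < u₀ + 1, Su k M r t u =
      ∑ d ∈ s, ((max (u - Real.log ((d : ℕ) : ℝ)) 0 : ℝ) : ℂ) ^ r * aa k M t d := by
    intro u hu
    unfold Su
    refine tsum_eq_sum fun d hd => ?_
    have h2 : u₀ + 1 ≤ Real.log ((d : ℕ) : ℝ) := by
      by_contra h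
      exact hd (by rw [hs, Set.Finite.mem_toFinset]; exact not_le.1 h)
    rw [max_eq_right (by linarith)]
    simp [show r ≠ 0 by omega]
  have h3 : Continuous (fun u : ℝ =>
      ∑ d ∈ s, ((max (u - Real.log ((d : ℕ) : ℝ)) 0 : ℝ) : ℂ) ^ r * aa k M t d) := by
    fun_prop
  refine h3.continuousAt.congr ?_
  filter_upwards [Iio_mem_nhds (by linarith : u₀ < u₀ + 1)] with u hu using (h1 u hu).symm

theorem Su_of_nonpos (k M : ℕ) {r : ℕ} (hr : 1 ≤ r) (t : Fin k → ℝ) {u : ℝ} (hu : u ≤ 0) :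
    Su k M r t u = 0 := by
  unfold Su
  have : ∀ d : DD, ((max (u - Real.log ((d : ℕ) : ℝ)) 0 : ℝ) : ℂ) ^ r * aa k M t d = 0 := by
    intro d
    have := dd_log_pos d
    rw [max_eq_right (by linarith)]
    simp [show r ≠ 0 by omega]
  simp [this]

/-- the kernel `(v_+)^r e^{-wv}` -/
noncomputable def fw (r : ℕ) (w : ℂ) (v : ℝ) : ℂ := ((max v 0 : ℝ) : ℂ) ^ r * cexp (-(w * v))

theorem fw_zero {r : ℕ} (hr : 1 ≤ r) (w : ℂ) {v : ℝ} (hv : v ∉ Ioi (0 : ℝ)) : fw r w v = 0 := by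
  unfold fw
  rw [max_eq_right (not_lt.1 hv)]
  simp [show r ≠ 0 by omega]

theorem fw_pos {r : ℕ} (w : ℂ) {v : ℝ} (hv : v ∈ Ioi (0 : ℝ)) :
    fw r w v = (v : ℂ) ^ r * cexp (-(w * v)) := by
  unfold fw
  rw [max_eq_left (le_of_lt hv)]

theorem integrable_fw {r : ℕ} (hr : 1 ≤ r) {w : ℂ} (hw : 0 < w.re) : Integrable (fw r w) := by
  have h1 : IntegrableOn (fw r w) (Ioi 0) :=
    (integrableOn_pow_cexp r hw).congr_fun (fun v hv => (fw_pos w hv).symm) measurableSet_Ioi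
  exact (integrableOn_iff_integrable_of_support_subset (fun v hv => by
    by_contra h; exact hv (fw_zero hr w h))).1 h1

theorem integral_fw {r : ℕ} (hr : 1 ≤ r) {w : ℂ} (hw : 0 < w.re) : ∫ v, fw r w v = Kr r w := by
  have h1 : (∫ v, fw r w v) = ∫ v in Ioi (0 : ℝ), fw r w v :=
    (setIntegral_eq_integral_of_forall_compl_eq_zero fun v hv => fw_zero hr w hv).symm
  rw [h1, setIntegral_congr_fun measurableSet_Ioi (fun v hv => fw_pos w hv), integral_pow_cexp r hw]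
  rfl

theorem norm_fw (r : ℕ) (w : ℂ) (v : ℝ) : ‖fw r w v‖ = (fw r (w.re : ℂ) v).re := by
  unfold fw
  rw [norm_mul, norm_pow, Complex.norm_real, Real.norm_of_nonneg (le_max_right _ _),
    Complex.norm_exp]
  have h1 : ((max v 0 : ℝ) : ℂ) ^ r * cexp (-((w.re : ℂ) * v)) =
      (((max v 0) ^ r * Real.exp (-(w.re * v)) : ℝ) : ℂ) := by push_cast; rfl
  rw [h1, Complex.ofReal_re]
  congr 2
  simp

theorem integral_norm_fw {r : ℕ} (hr : 1 ≤ r) {w : ℂ} (hw : 0 < w.re) :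
    ∫ v, ‖fw r w v‖ = r.factorial / w.re ^ (r + 1) := by
  have h1 : (∫ v, ‖fw r w v‖) = (∫ v, fw r (w.re : ℂ) v).re := by
    simp_rw [norm_fw]
    have := integral_re (𝕜 := ℂ) (integrable_fw hr (w := (w.re : ℂ)) (by simpa using hw))
    simpa using this
  rw [h1, integral_fw hr (by simpa using hw)]
  unfold Kr
  have h2 : ((r.factorial : ℂ) / (w.re : ℂ) ^ (r + 1)) =
      ((r.factorial / w.re ^ (r + 1) : ℝ) : ℂ) := by push_cast; rfl
  rw [h2, Complex.ofReal_re]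

/-- The Laplace transform of the summatory function. -/
theorem integral_Su (k M : ℕ) {r : ℕ} (hr : 1 ≤ r) (t : Fin k → ℝ) {w : ℂ}
    (hw : 2 * (k : ℝ) + 1 < w.re) :
    ∫ u : ℝ in Ioi 0, Su k M r t u * cexp (-(w * u)) = Kr r w * crit k M t w := by
  have hw0 : 0 < w.re := by have : (0 : ℝ) ≤ k := Nat.cast_nonneg k; linarith
  have h1 : (∫ u : ℝ in Ioi 0, Su k M r t u * cexp (-(w * u))) =
      ∫ u : ℝ, Su k M r t u * cexp (-(w * u)) :=
    setIntegral_eq_integral_of_forall_compl_eq_zero fun u hu => by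
      rw [Su_of_nonpos k M hr t (not_lt.1 hu), zero_mul]
  rw [h1]
  have hdpos : ∀ d : DD, (0 : ℝ) < ((d : ℕ) : ℝ) := fun d => by
    have := dd_two_le d
    exact_mod_cast (by omega : 0 < (d : ℕ))
  have hterm : ∀ (d : DD) (u : ℝ), ((max (u - Real.log ((d : ℕ) : ℝ)) 0 : ℝ) : ℂ) ^ r * aa k M t d *
      cexp (-(w * u)) = (aa k M t d * ((d : ℕ) : ℂ) ^ (-w)) * fw r w (u - Real.log ((d : ℕ) : ℝ)) := by
    intro d u
    unfold fw
    have h2 : ((d : ℕ) : ℂ) ^ (-w) = cexp (-(w * (Real.log ((d : ℕ) : ℝ) : ℂ))) := by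
      rw [Complex.cpow_def_of_ne_zero (by exact_mod_cast (hdpos d).ne'), ← Complex.natCast_log]
      congr 1
      ring
    rw [h2]
    have h3 : cexp (-(w * u)) = cexp (-(w * (Real.log ((d : ℕ) : ℝ) : ℂ))) *
        cexp (-(w * ((u - Real.log ((d : ℕ) : ℝ) : ℝ) : ℂ))) := by
      rw [← Complex.exp_add]
      congr 1
      push_cast
      ring
    rw [h3]
    ring
  have h4 : ∀ u : ℝ, Su k M r t u * cexp (-(w * u)) =
      ∑' d : DD, (aa k M t d * ((d : ℕ) : ℂ) ^ (-w)) * fw r w (u - Real.log ((d : ℕ) : ℝ)) := by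
    intro u
    unfold Su
    rw [← tsum_mul_right]
    exact tsum_congr fun d => hterm d u
  simp_rw [h4]
  have hint : ∀ d : DD, Integrable (fun u : ℝ =>
      (aa k M t d * ((d : ℕ) : ℂ) ^ (-w)) * fw r w (u - Real.log ((d : ℕ) : ℝ))) := fun d =>
    ((integrable_fw hr hw0).comp_sub_right _).const_mul _
  have hnorm : ∀ d : DD, (∫ u : ℝ, ‖(aa k M t d * ((d : ℕ) : ℂ) ^ (-w)) *
      fw r w (u - Real.log ((d : ℕ) : ℝ))‖) =
      ‖aa k M t d‖ * ((d : ℕ) : ℝ) ^ (-w.re) * (r.factorial / w.re ^ (r + 1)) := by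
    intro d
    simp_rw [norm_mul]
    rw [integral_const_mul]
    congr 1
    · congr 1
      rw [Complex.norm_natCast_cpow_of_pos (by have := dd_two_le d; omega)]
      simp
    · rw [← integral_norm_fw hr hw0]
      exact integral_sub_right_eq_self (fun v => ‖fw r w v‖) _
  rw [← integral_tsum_of_summable_integral_norm hint (by
    simp_rw [hnorm]
    exact (summable_aa k M t hw).mul_right _)]
  unfold crit
  rw [← tsum_mul_left]
  refine tsum_congr fun d => ?_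
  rw [integral_const_mul]
  have h5 : (∫ u : ℝ, fw r w (u - Real.log ((d : ℕ) : ℝ))) = Kr r w := by
    rw [← integral_fw hr hw0]
    exact integral_sub_right_eq_self (fun v => fw r w v) _
  rw [h5]
  unfold aa
  ring

theorem norm_crit_le (k M : ℕ) (t : Fin k → ℝ) {w : ℂ} (hw : 2 * (k : ℝ) + 1 < w.re) :
    ‖crit k M t w‖ ≤ Ka (1 / 2) ^ k * (1 + ‖t‖) ^ k * Zd (w.re - 2 * k) := by
  unfold crit Zd
  rw [← tsum_mul_left]
  refine tsum_of_norm_bounded ((summable_dd (by linarith)).mul_left _).hasSum (fun d => ?_)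
  refine le_trans (le_of_eq ?_) (aa_term_le k M t d w.re)
  unfold aa
  rw [norm_mul, norm_mul, norm_mul,
    Complex.norm_natCast_cpow_of_pos (by have := dd_two_le d; omega)]
  simp only [neg_re]
  ring

end Pool.Agent.Q48.MDS
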