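import Pool.Agent.Q48.MDS.CritMom

/-!
# The equivalence in terms of `X`
-/

set_option autoImplicit false
set_option linter.unusedSectionVars false

open MeasureTheory Set Filter Topology Metric Complex

namespace Pool.Agent.Q48.MDS

/-- The Riesz mean `∑_{1 < d ≤ X} (log (X/d))^r χ_d(M) ∏_j L(1/2 + i t_j, χ_d)` over the
fundamental discriminants. -/
noncomputable def RieszMean (k M r : ℕ) (t : Fin k → ℝ) (X : ℝ) : ℂ :=
  ∑' d : DD, if ((d : ℕ) : ℝ) ≤ X then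
    ((Real.log (X / d) : ℝ) : ℂ) ^ r *
      ((kron d M : ℂ) * ∏ j : Fin k, Lc d (1 / 2 + I * (t j : ℂ))) else 0

/-- The space of the main terms: the linear combinations of the functions `X^{ρ_J(t)} (log X)^m`,
`ρ_J(t) = 1 - i ∑_{j ∈ J} t_j`, where `m` is less than the number of the subsets `J'` with
`ρ_{J'}(t) = ρ_J(t)` (so `m = 0` if the exponents are distinct). -/
noncomputable def MainTerms {k : ℕ} (t : Fin k → ℝ) : Submodule ℂ (ℝ → ℂ) :=
  Submodule.span ℂ {f | ∃ (J : Finset (Fin k)) (m : ℕ), m < mult t J ∧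
    f = fun X : ℝ => (X : ℂ) ^ (rho t J) * ((Real.log X : ℝ) : ℂ) ^ m}

/-- Asymptotics with error exponent `c < w₀` for the moments on the critical line: for some
`r ≥ 1`, uniformly in real shifts `t`, the Riesz mean is a main term plus
`O((1 + ‖t‖)^N X^c)`. -/
def MomentAsymptotics (k M : ℕ) (w₀ : ℝ) : Prop :=
  ∃ (r : ℕ) (c C : ℝ) (N : ℕ), 1 ≤ r ∧ c < w₀ ∧ ∀ t : Fin k → ℝ, ∃ P ∈ MainTerms t,
    ∀ X : ℝ, 1 ≤ X → ‖RieszMean k M r t X - P X‖ ≤ C * (1 + ‖t‖) ^ N * X ^ c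

theorem RieszMean_exp (k M : ℕ) {r : ℕ} (hr : 1 ≤ r) (t : Fin k → ℝ) (u : ℝ) :
    RieszMean k M r t (Real.exp u) = Su k M r t u := by
  unfold RieszMean Su
  refine tsum_congr fun d => ?_
  have hd0 : (0 : ℝ) < ((d : ℕ) : ℝ) := by
    have := dd_two_le d
    exact_mod_cast (by omega : 0 < (d : ℕ))
  have hlog : Real.log (Real.exp u / ((d : ℕ) : ℝ)) = u - Real.log ((d : ℕ) : ℝ) := by
    rw [Real.log_div (Real.exp_pos u).ne' hd0.ne', Real.log_exp]
  by_cases h : ((d : ℕ) : ℝ) ≤ Real.exp u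
  · rw [if_pos h, hlog]
    have h1 : Real.log ((d : ℕ) : ℝ) ≤ u := (Real.log_le_iff_le_exp hd0).2 h
    rw [max_eq_left (by linarith)]
    rfl
  · rw [if_neg h]
    have h1 : u < Real.log ((d : ℕ) : ℝ) := (Real.lt_log_iff_exp_lt hd0).2 (not_le.1 h)
    rw [max_eq_right (by linarith)]
    simp [show r ≠ 0 by omega]

theorem cpow_exp (ρ : ℂ) (u : ℝ) : ((Real.exp u : ℝ) : ℂ) ^ ρ = cexp (ρ * u) := by
  rw [Complex.cpow_def_of_ne_zero (by exact_mod_cast (Real.exp_pos u).ne'), ← Complex.ofReal_log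
    (Real.exp_pos u).le, Real.log_exp, mul_comm]

theorem MainTerms_comp {k : ℕ} {t : Fin k → ℝ} {P : ℝ → ℂ} (hP : P ∈ MainTerms t) :
    (fun u => P (Real.exp u)) ∈ Eu t := by
  refine Submodule.span_induction (p := fun P _ => (fun u => P (Real.exp u)) ∈ Eu t)
    ?_ ?_ ?_ ?_ hP
  · rintro f ⟨J, m, hm, rfl⟩
    refine Submodule.subset_span ⟨J, m, hm, ?_⟩
    funext u
    simp only
    rw [cpow_exp, Real.log_exp]
  · exact Submodule.zero_mem _
  · intro f g _ _ hf hg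
    exact Submodule.add_mem _ hf hg
  · intro a f _ hf
    exact Submodule.smul_mem _ a hf

theorem exists_MainTerms {k : ℕ} {t : Fin k → ℝ} {Q : ℝ → ℂ} (hQ : Q ∈ Eu t) :
    ∃ P ∈ MainTerms t, ∀ u : ℝ, P (Real.exp u) = Q u := by
  refine Submodule.span_induction
    (p := fun Q _ => ∃ P ∈ MainTerms t, ∀ u : ℝ, P (Real.exp u) = Q u) ?_ ?_ ?_ ?_ hQ
  · rintro f ⟨J, m, hm, rfl⟩
    refine ⟨_, Submodule.subset_span ⟨J, m, hm, rfl⟩, fun u => ?_⟩
    simp only
    rw [cpow_exp, Real.log_exp]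
  · exact ⟨0, Submodule.zero_mem _, fun u => rfl⟩
  · rintro f g _ _ ⟨p, hp, hp'⟩ ⟨q, hq, hq'⟩
    exact ⟨p + q, Submodule.add_mem _ hp hq, fun u => by simp [hp' u, hq' u]⟩
  · rintro a f _ ⟨p, hp, hp'⟩
    exact ⟨a • p, Submodule.smul_mem _ a hp, fun u => by simp [hp' u]⟩

theorem momentAsymptotics_iff (k M : ℕ) (w₀ : ℝ) : MomentAsymptotics k M w₀ ↔ MomentU k M w₀ := by
  constructor
  · rintro ⟨r, c, C, N, hr, hc, h⟩
    refine ⟨r, c, C, N, hr, hc, fun t => ?_⟩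
    obtain ⟨P, hP, hb⟩ := h t
    refine ⟨_, MainTerms_comp hP, fun u hu => ?_⟩
    have h1 := hb (Real.exp u) (Real.one_le_exp hu)
    rw [RieszMean_exp k M hr, ← Real.exp_mul, mul_comm u c] at h1
    exact h1
  · rintro ⟨r, c, C, N, hr, hc, h⟩
    refine ⟨r, c, C, N, hr, hc, fun t => ?_⟩
    obtain ⟨Q, hQ, hb⟩ := h t
    obtain ⟨P, hP, hPQ⟩ := exists_MainTerms hQ
    refine ⟨P, hP, fun X hX => ?_⟩
    have hX0 : 0 < X := by linarith
    have h1 := hb (Real.log X) (Real.log_nonneg hX)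
    have h2 : Real.exp (Real.log X) = X := Real.exp_log hX0
    rw [← RieszMean_exp k M hr, ← hPQ, h2, mul_comm c, Real.exp_mul, h2] at h1
    exact h1

/-- Continuation at `(w₀; 1/2, ..., 1/2)` is equivalent to asymptotics of the moments on the critical
line with error exponent less than `w₀`. -/
theorem continuesTo_iff_moments {k M : ℕ} {w₀ : ℝ} (h0 : 0 < w₀) (h1 : w₀ ≤ 1) :
    ContinuesTo k M (pt k w₀) ↔ MomentAsymptotics k M w₀ := by
  rw [momentAsymptotics_iff]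
  exact ⟨fun h => moment_of_crit h0 h1 (crit_of_continuesTo h),
    fun h => continuesTo_of_crit (crit_of_moment h)⟩

theorem q1_iff_moments : Q1 ↔ ∀ K : ℕ, ∃ k ≥ K, MomentAsymptotics k 1 1 := by
  rw [q1_iff]
  constructor
  · intro h K
    obtain ⟨k, hk, hc⟩ := h K
    exact ⟨k, hk, (continuesTo_iff_moments one_pos le_rfl).1 hc⟩
  · intro h K
    obtain ⟨k, hk, hc⟩ := h K
    exact ⟨k, hk, (continuesTo_iff_moments one_pos le_rfl).2 hc⟩

theorem summable_crit (k M : ℕ) (t : Fin k → ℝ) {w : ℂ} (hw : 2 * (k : ℝ) + 1 < w.re) :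
    Summable (fun d : DD => (kron d M : ℂ) * (d : ℂ) ^ (-w) *
      ∏ j : Fin k, Lc d (1 / 2 + I * (t j : ℂ))) := by
  refine Summable.of_norm_bounded (summable_aa k M t hw) (fun d => le_of_eq ?_)
  unfold aa
  rw [norm_mul, norm_mul, norm_mul,
    Complex.norm_natCast_cpow_of_pos (by have := dd_two_le d; omega)]
  simp only [neg_re]
  ring

/-- Untwisted moments of order `k + 1` give all twisted moments of order `k`. -/
theorem moments_drop {k M m : ℕ} (hM : 1 ≤ M) (hm : 1 ≤ m) {w₀ : ℝ} (h0 : 0 < w₀) (h1 : w₀ ≤ 1)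
    (h : MomentAsymptotics (k + 1) M w₀) : MomentAsymptotics k (M * m) w₀ := by
  rw [← continuesTo_iff_moments h0 h1] at h ⊢
  rw [← pt_sn] at h
  exact continuesTo_drop hM hm h

end Pool.Agent.Q48.MDS
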