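import Pool.Agent.Q48.MDS.CritLine

/-!
# Laplace transforms of powers; the inversion formula for the Riesz kernel
-/

set_option autoImplicit false
set_option linter.unusedSectionVars false

open MeasureTheory Set Filter Topology Metric Complex

namespace Pool.Agent.Q48.MDS

theorem integrableOn_pow_exp (m : ℕ) {x : ℝ} (hx : 0 < x) :
    IntegrableOn (fun v : ℝ => v ^ m * Real.exp (-x * v)) (Ioi 0) := by
  have h := integrableOn_rpow_mul_exp_neg_mul_rpow (s := m) (p := 1) (b := x)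
    (by have : (0 : ℝ) ≤ m := Nat.cast_nonneg m; linarith) one_pos hx
  refine h.congr_fun (fun v hv => ?_) measurableSet_Ioi
  simp only [Real.rpow_natCast, Real.rpow_one]

theorem integrableOn_pow_cexp (m : ℕ) {w : ℂ} (hw : 0 < w.re) :
    IntegrableOn (fun v : ℝ => (v : ℂ) ^ m * cexp (-(w * v))) (Ioi 0) := by
  refine (integrableOn_pow_exp m hw).mono' ?_ ?_
  · exact (by fun_prop : Continuous fun v : ℝ => (v : ℂ) ^ m * cexp (-(w * v))).aestronglyMeasurable
  · refine (ae_restrict_iff' measurableSet_Ioi).2 (Eventually.of_forall fun v hv => ?_)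
    have hv0 : (0 : ℝ) < v := hv
    rw [norm_mul, norm_pow, Complex.norm_real, Real.norm_of_nonneg hv0.le, Complex.norm_exp]
    simp

theorem tendsto_pow_mul_exp (m : ℕ) {w : ℂ} (hw : 0 < w.re) :
    Tendsto (fun v : ℝ => (v : ℂ) ^ m * cexp (-(w * v))) atTop (𝓝 0) := by
  rw [tendsto_zero_iff_norm_tendsto_zero]
  have h1 : Tendsto (fun v : ℝ => v ^ m * Real.exp (-w.re * v)) atTop (𝓝 0) := by
    have := tendsto_rpow_mul_exp_neg_mul_atTop_nhds_zero m w.re hw
    simpa [Real.rpow_natCast] using this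
  refine h1.congr' ?_
  filter_upwards [eventually_ge_atTop 0] with v hv
  rw [norm_mul, norm_pow, Complex.norm_real, Real.norm_of_nonneg hv, Complex.norm_exp]
  simp

theorem integral_pow_cexp (m : ℕ) {w : ℂ} (hw : 0 < w.re) :
    ∫ v : ℝ in Ioi 0, (v : ℂ) ^ m * cexp (-(w * v)) = (m.factorial : ℂ) / w ^ (m + 1) := by
  have hw0 : w ≠ 0 := by rintro rfl; simp at hw
  induction m with
  | zero =>
    have h := integral_exp_mul_complex_Ioi (a := -w) (by simpa using hw) 0
    simp only [neg_mul] at h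
    simp only [pow_zero, one_mul, zero_add, pow_one, Nat.factorial_zero, Nat.cast_one]
    rw [h]
    simp
  | succ m ih =>
    have h1 : ∀ v ∈ Ici (0 : ℝ), HasDerivAt (fun v : ℝ => (v : ℂ) ^ (m + 1) * cexp (-(w * v)))
        ((((m + 1 : ℕ) : ℂ) * (v : ℂ) ^ m * cexp (-(w * v))) -
          w * ((v : ℂ) ^ (m + 1) * cexp (-(w * v)))) v := by
      intro v _
      have e1 : HasDerivAt (fun v : ℝ => (v : ℂ)) 1 v := Complex.ofRealCLM.hasDerivAt
      have e2 := e1.pow (m + 1)
      have e3 : HasDerivAt (fun v : ℝ => cexp (-(w * v))) (cexp (-(w * v)) * (-(w * 1))) v :=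
        ((e1.const_mul w).neg).cexp
      convert! e2.mul e3 using 1
      simp
      ring
    have hi1 : IntegrableOn (fun v : ℝ => ((m + 1 : ℕ) : ℂ) * (v : ℂ) ^ m * cexp (-(w * v)))
        (Ioi 0) := by
      simp only [mul_assoc]
      exact (integrableOn_pow_cexp m hw).const_mul _
    have hi2 : IntegrableOn (fun v : ℝ => w * ((v : ℂ) ^ (m + 1) * cexp (-(w * v)))) (Ioi 0) :=
      (integrableOn_pow_cexp (m + 1) hw).const_mul _
    have h2 := integral_Ioi_of_hasDerivAt_of_tendsto' h1 (hi1.sub hi2) (tendsto_pow_mul_exp (m + 1) hw)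
    have h3 : (∫ v : ℝ in Ioi 0, ((((m + 1 : ℕ) : ℂ) * (v : ℂ) ^ m * cexp (-(w * v))) -
          w * ((v : ℂ) ^ (m + 1) * cexp (-(w * v))))) =
        ((m + 1 : ℕ) : ℂ) * ((m.factorial : ℂ) / w ^ (m + 1)) -
          w * ∫ v : ℝ in Ioi 0, (v : ℂ) ^ (m + 1) * cexp (-(w * v)) := by
      rw [integral_sub hi1 hi2, integral_const_mul]
      congr 1
      simp only [mul_assoc]
      rw [integral_const_mul, ih]
    rw [h3] at h2
    simp only [Complex.ofReal_zero, ne_eq, Nat.add_eq_zero_iff, one_ne_zero, and_false,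
      not_false_eq_true, zero_pow, zero_mul, sub_zero] at h2
    have h4 : w * ∫ v : ℝ in Ioi 0, (v : ℂ) ^ (m + 1) * cexp (-(w * v)) =
        ((m + 1 : ℕ) : ℂ) * ((m.factorial : ℂ) / w ^ (m + 1)) := by
      linear_combination -h2
    rw [eq_div_iff (pow_ne_zero _ hw0), Nat.factorial_succ]
    push_cast
    calc _ = (w * ∫ v : ℝ in Ioi 0, (v : ℂ) ^ (m + 1) * cexp (-(w * v))) * w ^ (m + 1) := by ring
      _ = _ := by
        rw [h4]
        push_cast
        field_simp

theorem norm_vert_ge {x : ℝ} (hx : 0 < x) (y : ℝ) :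
    min x 1 / 2 * (1 + |y|) ≤ ‖(x : ℂ) + I * y‖ := by
  have h1 : x ≤ ‖(x : ℂ) + I * y‖ := by
    have := Complex.abs_re_le_norm ((x : ℂ) + I * y)
    simp only [Complex.add_re, Complex.ofReal_re, Complex.mul_re, I_re, I_im, Complex.ofReal_im,
      zero_mul, mul_zero, sub_self, add_zero] at this
    exact (le_abs_self x).trans this
  have h2 : |y| ≤ ‖(x : ℂ) + I * y‖ := by
    have := Complex.abs_im_le_norm ((x : ℂ) + I * y)
    simpa using this
  have h3 : min x 1 ≤ x := min_le_left _ _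
  have h4 : min x 1 ≤ 1 := min_le_right _ _
  have h5 : 0 < min x 1 := lt_min hx one_pos
  nlinarith [abs_nonneg y]

/-- the Riesz kernel -/
noncomputable def Kr (r : ℕ) (w : ℂ) : ℂ := (r.factorial : ℂ) / w ^ (r + 1)

theorem norm_Kr_le (r : ℕ) {x : ℝ} (hx : 0 < x) (y : ℝ) :
    ‖Kr r ((x : ℂ) + I * y)‖ ≤ r.factorial / (min x 1 / 2) ^ (r + 1) / (1 + |y|) ^ (r + 1) := by
  unfold Kr
  have h := norm_vert_ge hx y
  have h5 : 0 < min x 1 := lt_min hx one_pos
  rw [norm_div, norm_pow, Complex.norm_natCast, div_div, ← mul_pow]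
  gcongr

theorem continuous_Kr (r : ℕ) {x : ℝ} (hx : 0 < x) : Continuous (fun y : ℝ => Kr r ((x : ℂ) + I * y)) := by
  unfold Kr
  refine continuous_const.div (by fun_prop) (fun y => pow_ne_zero _ ?_)
  intro h
  have := congrArg Complex.re h
  simp at this
  linarith

/-- a continuous function on the line dominated by `(1+|y|)^{-2}` is integrable -/
theorem integrable_of_sq_bound {E : Type*} [NormedAddCommGroup E] {f : ℝ → E} (hf : Continuous f)
    {C : ℝ} (hb : ∀ y, ‖f y‖ ≤ C / (1 + |y|) ^ 2) : Integrable f := by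
  have h1 : Integrable (fun y => ‖f y‖) := by
    refine integrable_of_pow_bound hf.norm (fun y => norm_nonneg _) ⟨C, fun y => ?_⟩
    have h2 := hb y
    rw [le_div_iff₀ (by positivity)] at h2
    rw [Module.finrank_self, Real.norm_eq_abs, mul_comm]
    exact h2
  exact (integrable_norm_iff hf.aestronglyMeasurable).1 h1

theorem integrable_Kr {r : ℕ} (hr : 1 ≤ r) {x : ℝ} (hx : 0 < x) :
    Integrable (fun y : ℝ => Kr r ((x : ℂ) + I * y)) := by
  refine integrable_of_sq_bound (C := r.factorial / (min x 1 / 2) ^ (r + 1)) (continuous_Kr r hx)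
    (fun y => (norm_Kr_le r hx y).trans ?_)
  have h5 : 0 < min x 1 := lt_min hx one_pos
  have h6 : (1 + |y|) ^ 2 ≤ (1 + |y|) ^ (r + 1) :=
    pow_le_pow_right₀ (by linarith [abs_nonneg y]) (by omega)
  gcongr

open scoped FourierTransform in
/-- The inversion formula. -/
theorem riesz_inversion {r : ℕ} (hr : 1 ≤ r) {b : ℝ} (hb : 0 < b) (v : ℝ) :
    ∫ y : ℝ, Kr r ((b : ℂ) + I * y) * cexp (((b : ℂ) + I * y) * v) =
      2 * Real.pi * ((max v 0 : ℝ) : ℂ) ^ r := by
  set f : ℝ → ℂ := fun v => ((max v 0 : ℝ) : ℂ) ^ r * cexp (-((b : ℂ) * v)) with hf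
  have hfc : Continuous f := by
    simp only [hf]
    fun_prop
  have hf0 : ∀ v ∉ Ioi (0 : ℝ), f v = 0 := by
    intro v hv
    have h1 : max v 0 = 0 := max_eq_right (not_lt.1 hv)
    simp only [hf, h1]
    simp [show r ≠ 0 by omega]
  have hfp : ∀ v ∈ Ioi (0 : ℝ), f v = (v : ℂ) ^ r * cexp (-((b : ℂ) * v)) := by
    intro v hv
    have h1 : max v 0 = v := max_eq_left (le_of_lt hv)
    simp only [hf, h1]
  have hfi : Integrable f := by
    have h1 : IntegrableOn f (Ioi 0) :=
      (integrableOn_pow_cexp r (w := b) (by simpa using hb)).congr_fun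
        (fun v hv => (hfp v hv).symm) measurableSet_Ioi
    exact (integrableOn_iff_integrable_of_support_subset (fun v hv => by
      by_contra h; exact hv (hf0 v h))).1 h1
  have hF : ∀ ξ : ℝ, 𝓕 f ξ = Kr r ((b : ℂ) + I * ((2 * Real.pi * ξ : ℝ) : ℂ)) := by
    intro ξ
    rw [Real.fourier_eq']
    have h1 : (∫ v : ℝ, cexp ((-2 * Real.pi * (inner ℝ v ξ) : ℝ) * I) • f v) =
        ∫ v : ℝ in Ioi 0, cexp ((-2 * Real.pi * (inner ℝ v ξ) : ℝ) * I) • f v := by
      refine (setIntegral_eq_integral_of_forall_compl_eq_zero fun v hv => ?_).symm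
      rw [hf0 v hv, smul_zero]
    rw [h1]
    have h2 : (∫ v : ℝ in Ioi 0, cexp ((-2 * Real.pi * (inner ℝ v ξ) : ℝ) * I) • f v) =
        ∫ v : ℝ in Ioi 0, (v : ℂ) ^ r * cexp (-(((b : ℂ) + I * ((2 * Real.pi * ξ : ℝ) : ℂ)) * v)) := by
      refine setIntegral_congr_fun measurableSet_Ioi (fun v hv => ?_)
      simp only [hfp v hv, smul_eq_mul]
      rw [mul_left_comm, ← Complex.exp_add]
      congr 2
      simp only [RCLike.inner_apply, conj_trivial]
      push_cast
      ring
    rw [h2, integral_pow_cexp r (by simpa using hb)]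
    rfl
  have hFi : Integrable (𝓕 f) := by
    have h1 : (𝓕 f) = fun ξ : ℝ => (fun y : ℝ => Kr r ((b : ℂ) + I * y)) (2 * Real.pi * ξ) := by
      funext ξ
      rw [hF ξ]
    rw [h1]
    exact (integrable_Kr hr hb).comp_mul_left' (by positivity)
  have hinv := congrFun (hfc.fourierInv_fourier_eq hfi hFi) v
  rw [Real.fourierInv_eq'] at hinv
  have h3 : (∫ ξ : ℝ, cexp ((2 * Real.pi * (inner ℝ ξ v) : ℝ) * I) • 𝓕 f ξ) =
      ∫ ξ : ℝ, (fun y : ℝ => Kr r ((b : ℂ) + I * y) * cexp (I * y * v)) (2 * Real.pi * ξ) := by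
    congr 1
    funext ξ
    rw [hF ξ, smul_eq_mul, mul_comm]
    congr 2
    simp only [RCLike.inner_apply, conj_trivial]
    push_cast
    ring
  rw [h3, Measure.integral_comp_mul_left (fun y : ℝ => Kr r ((b : ℂ) + I * y) * cexp (I * y * v))
    (2 * Real.pi)] at hinv
  have h4 : (∫ y : ℝ, Kr r ((b : ℂ) + I * y) * cexp (((b : ℂ) + I * y) * v)) =
      cexp ((b : ℂ) * v) * ∫ y : ℝ, Kr r ((b : ℂ) + I * y) * cexp (I * y * v) := by
    rw [← integral_const_mul]
    congr 1
    funext y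
    rw [add_mul, Complex.exp_add]
    ring
  rw [h4]
  have hpi : (0 : ℝ) < 2 * Real.pi := by positivity
  rw [abs_of_pos (by positivity), real_smul] at hinv
  have h5 : (∫ y : ℝ, Kr r ((b : ℂ) + I * y) * cexp (I * y * v)) = 2 * Real.pi * f v := by
    rw [← hinv]
    generalize (∫ y : ℝ, Kr r ((b : ℂ) + I * y) * cexp (I * y * v)) = Z
    push_cast
    have : (Real.pi : ℂ) ≠ 0 := by exact_mod_cast Real.pi_ne_zero
    field_simp
  rw [h5]
  simp only [hf]
  have h6 : cexp ((b : ℂ) * v) * cexp (-((b : ℂ) * v)) = 1 := by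
    rw [← Complex.exp_add]; simp
  calc _ = 2 * Real.pi * ((max v 0 : ℝ) : ℂ) ^ r * (cexp ((b : ℂ) * v) * cexp (-((b : ℂ) * v))) := by
        ring
    _ = _ := by rw [h6, mul_one]

end Pool.Agent.Q48.MDS
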