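import Pool.Agent.Q48.MDS.Defs
import Pool.Agent.Q48.MDS.Extract

/-!
# The Kronecker symbol and the extraction of a term
-/

set_option autoImplicit false
set_option linter.unusedSectionVars false

open MeasureTheory Set Filter Topology Metric Complex

namespace Pool.Agent.Q48.MDS

theorem norm_kronTwo (d : ℕ) : |kronTwo d| ≤ 1 := by
  unfold kronTwo; split_ifs <;> simp

theorem abs_kron_le (d n : ℕ) : |kron d n| ≤ 1 := by
  unfold kron
  rw [abs_mul, abs_pow]
  have h1 : |kronTwo d| ^ padicValNat 2 n ≤ 1 := pow_le_one₀ (abs_nonneg _) (norm_kronTwo d)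
  have h2 : |jacobiSym d (n / 2 ^ padicValNat 2 n)| ≤ 1 := by
    rcases jacobiSym.trichotomy (d : ℤ) (n / 2 ^ padicValNat 2 n) with h | h | h <;> simp [h]
  calc _ ≤ (1 : ℤ) * 1 := mul_le_mul h1 h2 (abs_nonneg _) (by norm_num)
    _ = 1 := by norm_num

theorem norm_kron_le (d n : ℕ) : ‖((kron d n : ℤ) : ℂ)‖ ≤ 1 := by
  rw [Complex.norm_intCast]
  exact_mod_cast abs_kron_le d n

theorem kron_one_left (n : ℕ) : kron 1 n = 1 := by
  unfold kron kronTwo
  have h : jacobiSym ((1 : ℕ) : ℤ) (n / 2 ^ padicValNat 2 n) = 1 := by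
    rw [Nat.cast_one]; exact jacobiSym.one_left _
  rw [h]
  simp

theorem kron_mul {d m n : ℕ} (hm : 1 ≤ m) (hn : 1 ≤ n) : kron d (m * n) = kron d m * kron d n := by
  unfold kron
  have : Fact (Nat.Prime 2) := ⟨Nat.prime_two⟩
  rw [padicValNat.mul (by omega) (by omega), pow_add, pow_add]
  have h1 : m * n / (2 ^ padicValNat 2 m * 2 ^ padicValNat 2 n) =
      m / 2 ^ padicValNat 2 m * (n / 2 ^ padicValNat 2 n) := by
    rw [Nat.mul_div_mul_comm pow_padicValNat_dvd pow_padicValNat_dvd]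
  rw [h1]
  have e1 : m / 2 ^ padicValNat 2 m ≠ 0 := by
    have := Nat.div_pos (Nat.le_of_dvd (by omega) (pow_padicValNat_dvd (p := 2) (n := m)))
      (by positivity)
    omega
  have e2 : n / 2 ^ padicValNat 2 n ≠ 0 := by
    have := Nat.div_pos (Nat.le_of_dvd (by omega) (pow_padicValNat_dvd (p := 2) (n := n)))
      (by positivity)
    omega
  rw [jacobiSym.mul_right' _ e1 e2]
  ring

section

variable {Ψ : ℝ → ℂ} (hΨ : Continuous Ψ)
    (hΨd : ∀ N : ℕ, ∃ C : ℝ, 0 ≤ C ∧ ∀ t : ℝ, (1 + |t|) ^ N * ‖Ψ t‖ ≤ C)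

include hΨ hΨd in
theorem integrable_kernel : Integrable Ψ := by
  obtain ⟨C, _, hC⟩ := hΨd 2
  have hJi : Integrable (fun t : ℝ => (1 + |t|) ^ (-2 : ℝ)) := by
    have := integrable_one_add_norm (E := ℝ) (μ := volume) (r := 2) (by simp)
    simpa [Real.norm_eq_abs] using this
  refine (hJi.const_mul C).mono' hΨ.aestronglyMeasurable (Eventually.of_forall fun t => ?_)
  have h7 : (1 + |t|) ^ (-2 : ℝ) = ((1 + |t|) ^ 2)⁻¹ := by
    rw [Real.rpow_neg (by positivity)]
    congr 1
    exact_mod_cast Real.rpow_natCast (1 + |t|) 2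
  rw [h7, ← div_eq_mul_inv, le_div_iff₀ (by positivity)]
  linarith [hC t]

theorem norm_term_le {a : ℕ → ℂ} (ha : ∀ n, ‖a n‖ ≤ 1) {c : ℝ} (s : ℂ) (hs : s.re = c) (n : ℕ) :
    ‖LSeries.term a s n‖ ≤ if n = 0 then 0 else (n : ℝ) ^ (-c) := by
  rw [LSeries.norm_term_eq]
  split_ifs with h
  · exact le_rfl
  · have hn : (0 : ℝ) < n := by exact_mod_cast Nat.pos_of_ne_zero h
    rw [hs, Real.rpow_neg hn.le, div_eq_mul_inv]
    have := ha n
    have h2 : 0 < ((n : ℝ) ^ c)⁻¹ := by positivity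
    nlinarith

theorem summable_bound {c : ℝ} (hc : 1 < c) :
    Summable (fun n : ℕ => if n = 0 then 0 else (n : ℝ) ^ (-c)) := by
  have h := Real.summable_nat_rpow.2 (show -c < -1 by linarith)
  refine h.of_nonneg_of_le (fun n => ?_) (fun n => ?_)
  · split_ifs
    · exact le_rfl
    · positivity
  · split_ifs
    · positivity
    · exact le_rfl

/-- The constant `∑ n^{-c}`. -/
noncomputable def Zc (c : ℝ) : ℝ := ∑' n : ℕ, if n = 0 then 0 else (n : ℝ) ^ (-c)

theorem Zc_nonneg (c : ℝ) : 0 ≤ Zc c := by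
  refine tsum_nonneg fun n => ?_
  split_ifs
  · exact le_rfl
  · positivity

theorem summable_term {a : ℕ → ℂ} (ha : ∀ n, ‖a n‖ ≤ 1) {s : ℂ} (hs : 1 < s.re) :
    Summable (fun n => LSeries.term a s n) :=
  Summable.of_norm_bounded (summable_bound hs) (norm_term_le ha s rfl)

theorem norm_LSeries_le {a : ℕ → ℂ} (ha : ∀ n, ‖a n‖ ≤ 1) {s : ℂ} (hs : 1 < s.re) :
    ‖LSeries a s‖ ≤ Zc s.re := by
  unfold LSeries Zc
  exact tsum_of_norm_bounded (summable_bound hs).hasSum (norm_term_le ha s rfl)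

theorem continuous_line (c : ℝ) : Continuous (fun t : ℝ => (c : ℂ) + I * t) := by fun_prop

theorem continuous_LSeries_line {a : ℕ → ℂ} (ha : ∀ n, ‖a n‖ ≤ 1) {c : ℝ} (hc : 1 < c) :
    Continuous (fun t : ℝ => LSeries a ((c : ℂ) + I * t)) := by
  unfold LSeries
  refine continuous_tsum (fun n => ?_) (summable_bound hc)
    (fun n t => norm_term_le ha _ (by simp) n)
  unfold LSeries.term
  by_cases h : n = 0
  · simp only [h, if_true]
    exact continuous_const
  · simp only [h, if_false]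
    have hn : (n : ℂ) ≠ 0 := by exact_mod_cast h
    refine Continuous.div continuous_const (Continuous.const_cpow (by fun_prop) (Or.inl hn)) ?_
    intro t
    simp [Complex.cpow_eq_zero_iff, hn]

include hΨ hΨd in
theorem integral_LSeries {a : ℕ → ℂ} (ha : ∀ n, ‖a n‖ ≤ 1) {c : ℝ} (hc : 1 < c) {m : ℕ}
    (hm : 1 ≤ m)
    (hpick : ∀ n : ℕ, 1 ≤ n → ∫ t : ℝ, cexp (-(I * t * Real.log ((n : ℝ) / m))) * Ψ t =
      if n = m then 1 else 0) :
    ∫ t : ℝ, LSeries a ((c : ℂ) + I * t) * ((m : ℂ) ^ ((c : ℂ) + I * t) * Ψ t) = a m := by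
  have hm0 : (0 : ℝ) < m := by exact_mod_cast hm
  have hmne : (m : ℂ) ≠ 0 := by exact_mod_cast hm0.ne'
  have hΨi := integrable_kernel hΨ hΨd
  have hmn : ∀ t : ℝ, ‖(m : ℂ) ^ ((c : ℂ) + I * t)‖ = (m : ℝ) ^ c := by
    intro t
    rw [Complex.norm_natCast_cpow_of_pos hm]; simp
  set f : ℕ → ℝ → ℂ := fun n t => LSeries.term a ((c : ℂ) + I * t) n *
    ((m : ℂ) ^ ((c : ℂ) + I * t) * Ψ t) with hf
  have hfb : ∀ n t, ‖f n t‖ ≤ ((if n = 0 then 0 else (n : ℝ) ^ (-c)) * (m : ℝ) ^ c) * ‖Ψ t‖ := by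
    intro n t
    simp only [hf]
    rw [norm_mul, norm_mul, hmn, ← mul_assoc]
    have := norm_term_le (c := c) ha ((c : ℂ) + I * t) (by simp) n
    gcongr
  have hfc : ∀ n, Continuous (f n) := by
    intro n
    simp only [hf]
    refine Continuous.mul ?_ (Continuous.mul
      (Continuous.const_cpow (by fun_prop) (Or.inl hmne)) hΨ)
    unfold LSeries.term
    by_cases h : n = 0
    · simp only [h, if_true]
      exact continuous_const
    · simp only [h, if_false]
      have hn : (n : ℂ) ≠ 0 := by exact_mod_cast h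
      refine Continuous.div continuous_const (Continuous.const_cpow (by fun_prop) (Or.inl hn)) ?_
      intro t
      simp [Complex.cpow_eq_zero_iff, hn]
  have hfi : ∀ n, Integrable (f n) := fun n =>
    (hΨi.norm.const_mul _).mono' (hfc n).aestronglyMeasurable (Eventually.of_forall (hfb n))
  have hsum : Summable (fun n => ∫ t, ‖f n t‖) := by
    have h1 : Summable (fun n : ℕ => ((if n = 0 then 0 else (n : ℝ) ^ (-c)) * (m : ℝ) ^ c) *
        ∫ t, ‖Ψ t‖) := ((summable_bound hc).mul_right _).mul_right _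
    refine h1.of_nonneg_of_le (fun n => integral_nonneg fun t => norm_nonneg _) (fun n => ?_)
    rw [← integral_const_mul]
    exact integral_mono (hfi n).norm (hΨi.norm.const_mul _) (hfb n)
  have hval : ∀ n, ∫ t, f n t = if n = m then a m else 0 := by
    intro n
    rcases Nat.eq_zero_or_pos n with h0 | hpos
    · subst h0
      simp only [hf, LSeries.term_zero, zero_mul, integral_zero]
      rw [if_neg (by omega)]
    · have hn0 : (0 : ℝ) < n := by exact_mod_cast hpos
      have hnne : (n : ℂ) ≠ 0 := by exact_mod_cast hn0.ne'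
      have h1 : ∀ t : ℝ, f n t = (a n * (((m : ℝ) / n) ^ c : ℝ)) *
          (cexp (-(I * t * Real.log ((n : ℝ) / m))) * Ψ t) := by
        intro t
        simp only [hf]
        rw [LSeries.term_of_ne_zero hpos.ne']
        have h2 : (m : ℂ) ^ ((c : ℂ) + I * t) / (n : ℂ) ^ ((c : ℂ) + I * t) =
            ((((m : ℝ) / n) ^ c : ℝ) : ℂ) * cexp (-(I * t * Real.log ((n : ℝ) / m))) := by
          rw [Complex.cpow_def_of_ne_zero hmne, Complex.cpow_def_of_ne_zero hnne,
            ← Complex.exp_sub, Real.rpow_def_of_pos (by positivity), Complex.ofReal_exp,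
            ← Complex.exp_add]
          congr 1
          have e1 : Complex.log (m : ℂ) = ((Real.log m : ℝ) : ℂ) := by
            rw [Complex.natCast_log]
          have e2 : Complex.log (n : ℂ) = ((Real.log n : ℝ) : ℂ) := by
            rw [Complex.natCast_log]
          rw [e1, e2, Real.log_div hm0.ne' hn0.ne', Real.log_div hn0.ne' hm0.ne']
          push_cast
          ring
        calc a n / (n : ℂ) ^ ((c : ℂ) + I * t) * ((m : ℂ) ^ ((c : ℂ) + I * t) * Ψ t)
            = a n * ((m : ℂ) ^ ((c : ℂ) + I * t) / (n : ℂ) ^ ((c : ℂ) + I * t)) * Ψ t := by ring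
          _ = _ := by rw [h2]; ring
      simp_rw [h1]
      rw [integral_const_mul, hpick n hpos]
      split_ifs with h
      · subst h
        rw [div_self hn0.ne']
        simp
      · simp
  have h2 := integral_tsum_of_summable_integral_norm hfi hsum
  have h3 : ∀ t : ℝ, ∑' n, f n t = LSeries a ((c : ℂ) + I * t) *
      ((m : ℂ) ^ ((c : ℂ) + I * t) * Ψ t) := by
    intro t
    simp only [hf]
    rw [tsum_mul_right]
    rfl
  simp_rw [h3] at h2
  rw [← h2]
  simp_rw [hval]
  rw [tsum_ite_eq]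

end

end Pool.Agent.Q48.MDS
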