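import Pool.Agent.Q48.MDS.ThmB

/-!
# Moving a vertical line of integration
-/

set_option autoImplicit false
set_option linter.unusedSectionVars false

open MeasureTheory Set Filter Topology Metric Complex

namespace Pool.Agent.Q48.MDS

/-- Moving a vertical line of integration under an integrable majorant which tends to zero. -/
theorem vertical_shift {H : ℂ → ℂ} {a b : ℝ} (hab : a ≤ b)
    (hd : DifferentiableOn ℂ H {w | a ≤ w.re ∧ w.re ≤ b}) {φ : ℝ → ℝ} (hφ : Integrable φ)
    (hφ0 : Tendsto φ (cocompact ℝ) (𝓝 0))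
    (hb : ∀ x ∈ Icc a b, ∀ y : ℝ, ‖H (x + I * y)‖ ≤ φ y) :
    ∫ y : ℝ, H (a + I * y) = ∫ y : ℝ, H (b + I * y) := by
  have hcont : ∀ x ∈ Icc a b, Continuous (fun y : ℝ => H (x + I * y)) := by
    intro x hx
    refine hd.continuousOn.comp_continuous (by fun_prop) (fun y => ?_)
    simpa using hx
  have hint : ∀ x ∈ Icc a b, Integrable (fun y : ℝ => H (x + I * y)) := fun x hx =>
    hφ.mono' (hcont x hx).aestronglyMeasurable (Eventually.of_forall fun y => hb x hx y)
  have hT : Tendsto (fun T : ℝ => T) atTop atTop := tendsto_id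
  have hTn : Tendsto (fun T : ℝ => -T) atTop atBot := tendsto_neg_atTop_atBot
  have ha : a ∈ Icc a b := ⟨le_rfl, hab⟩
  have hb' : b ∈ Icc a b := ⟨hab, le_rfl⟩
  have l1 := intervalIntegral_tendsto_integral (hint a ha) hTn hT
  have l2 := intervalIntegral_tendsto_integral (hint b hb') hTn hT
  have hφt : Tendsto (fun T : ℝ => φ T) atTop (𝓝 0) := hφ0.mono_left atTop_le_cocompact
  have hφn : Tendsto (fun T : ℝ => φ (-T)) atTop (𝓝 0) :=
    (hφ0.mono_left atBot_le_cocompact).comp hTn
  -- horizontal pieces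
  have hor : ∀ T : ℝ, ‖∫ x in a..b, H (x + (T : ℂ) * I)‖ ≤ φ T * (b - a) := by
    intro T
    have := intervalIntegral.norm_integral_le_of_norm_le_const (a := a) (b := b)
      (f := fun x : ℝ => H (x + (T : ℂ) * I)) (C := φ T) (fun x hx => by
        rw [uIoc_of_le hab] at hx
        have h1 := hb x ⟨hx.1.le, hx.2⟩ T
        rwa [mul_comm I (T : ℂ)] at h1)
    rwa [abs_of_nonneg (by linarith : 0 ≤ b - a)] at this
  have h1 : Tendsto (fun T : ℝ => ∫ x in a..b, H (x + (T : ℂ) * I)) atTop (𝓝 0) := by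
    apply squeeze_zero_norm hor
    simpa using hφt.mul_const (b - a)
  have h2 : Tendsto (fun T : ℝ => ∫ x in a..b, H (x + ((-T : ℝ) : ℂ) * I)) atTop (𝓝 0) := by
    apply squeeze_zero_norm (fun T => hor (-T))
    simpa using hφn.mul_const (b - a)
  have key : ∀ T : ℝ, I * (∫ y in (-T)..T, H (b + I * y)) - I * (∫ y in (-T)..T, H (a + I * y)) =
      (∫ x in a..b, H (x + (T : ℂ) * I)) - ∫ x in a..b, H (x + ((-T : ℝ) : ℂ) * I) := by
    intro T
    have h3 := Complex.integral_boundary_rect_eq_zero_of_differentiableOn H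
      ((a : ℂ) + ((-T : ℝ) : ℂ) * I) ((b : ℂ) + (T : ℂ) * I) (by
        refine hd.mono fun w hw => ?_
        rw [mem_reProdIm] at hw
        have := hw.1
        simp only [Complex.add_re, Complex.ofReal_re, Complex.mul_re, Complex.ofReal_im, I_re,
          I_im, mul_zero, zero_mul, sub_self, add_zero] at this
        rw [uIcc_of_le hab] at this
        exact this)
    simp only [Complex.add_re, Complex.ofReal_re, Complex.mul_re, Complex.ofReal_im, I_re,
      I_im, mul_zero, zero_mul, sub_self, add_zero, Complex.add_im, Complex.mul_im, mul_one,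
      zero_add, smul_eq_mul] at h3
    have e1 : ∀ c : ℝ, (∫ y in (-T)..T, H (c + I * y)) = ∫ y in (-T)..T, H (c + (y : ℂ) * I) := by
      intro c
      congr 1
      funext y
      rw [mul_comm I]
    rw [e1, e1]
    linear_combination h3
  have h4 : Tendsto (fun T : ℝ => I * (∫ y in (-T)..T, H (b + I * y)) -
      I * (∫ y in (-T)..T, H (a + I * y))) atTop
      (𝓝 (I * (∫ y : ℝ, H (b + I * y)) - I * (∫ y : ℝ, H (a + I * y)))) :=
    (l2.const_mul I).sub (l1.const_mul I)
  have h5 : Tendsto (fun T : ℝ => I * (∫ y in (-T)..T, H (b + I * y)) -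
      I * (∫ y in (-T)..T, H (a + I * y))) atTop (𝓝 (0 - 0)) := by
    simp_rw [key]
    exact h1.sub h2
  have h6 := tendsto_nhds_unique h4 h5
  rw [sub_zero, ← mul_sub] at h6
  have h7 := (mul_eq_zero.1 h6).resolve_left I_ne_zero
  exact (sub_eq_zero.1 h7).symm

end Pool.Agent.Q48.MDS
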