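import Pool.Agent.Q48.MDS.MomCrit

/-!
# Solving the first order equations; exponential polynomials
-/

set_option autoImplicit false
set_option linter.unusedSectionVars false

open MeasureTheory Set Filter Topology Metric Complex

namespace Pool.Agent.Q48.MDS

open scoped Classical in
/-- exponential polynomials with exponents in a list, with multiplicities -/
noncomputable def El (l : List ℂ) : Submodule ℂ (ℝ → ℂ) :=
  Submodule.span ℂ {f | ∃ (ρ : ℂ) (m : ℕ), m < l.count ρ ∧ f = fun u : ℝ => cexp (ρ * u) * (u : ℂ) ^ m}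

theorem continuous_El {l : List ℂ} {Q : ℝ → ℂ} (hQ : Q ∈ El l) : Continuous Q := by
  refine Submodule.span_induction ?_ ?_ ?_ ?_ hQ
  · rintro f ⟨J, m, -, rfl⟩
    fun_prop
  · exact continuous_const
  · intro f g _ _ hf hg
    exact hf.add hg
  · intro a f _ hf
    exact continuous_const.mul hf

theorem hasDerivAt_exppow (σ : ℂ) (m : ℕ) (u : ℝ) :
    HasDerivAt (fun u : ℝ => cexp (σ * u) * (u : ℂ) ^ m)
      (σ * (cexp (σ * u) * (u : ℂ) ^ m) + (m : ℂ) * (cexp (σ * u) * (u : ℂ) ^ (m - 1))) u := by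
  have e1 : HasDerivAt (fun v : ℝ => (v : ℂ)) 1 u := Complex.ofRealCLM.hasDerivAt
  have e2 := e1.pow m
  have e3 : HasDerivAt (fun v : ℝ => cexp (σ * v)) (cexp (σ * u) * (σ * 1)) u :=
    (e1.const_mul σ).cexp
  convert! e3.mul e2 using 1
  simp
  ring

open scoped Classical in
theorem exists_solution_gen (l : List ℂ) (ρ σ : ℂ) (hσ : σ ≠ ρ) (m : ℕ) (hm : m < l.count σ) :
    ∃ p ∈ El (ρ :: l), ∀ u : ℝ, HasDerivAt p (ρ * p u + cexp (σ * u) * (u : ℂ) ^ m) u := by
  have hκ : σ - ρ ≠ 0 := sub_ne_zero.2 hσ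
  have hmem : ∀ m, m < l.count σ → (fun u : ℝ => cexp (σ * u) * (u : ℂ) ^ m) ∈ El (ρ :: l) := by
    intro m hm
    refine Submodule.subset_span ⟨σ, m, ?_, rfl⟩
    rw [List.count_cons]
    omega
  induction m with
  | zero =>
    refine ⟨(σ - ρ)⁻¹ • (fun u : ℝ => cexp (σ * u) * (u : ℂ) ^ 0),
      Submodule.smul_mem _ _ (hmem 0 hm), fun u => ?_⟩
    have h1 := (hasDerivAt_exppow σ 0 u).const_smul (σ - ρ)⁻¹
    convert! h1 using 1
    simp only [Pi.smul_apply, smul_eq_mul, Nat.cast_zero, zero_mul, add_zero, pow_zero, mul_one]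
    field_simp
    ring
  | succ m ih =>
    obtain ⟨p, hp, hpd⟩ := ih (by omega)
    refine ⟨(σ - ρ)⁻¹ • (fun u : ℝ => cexp (σ * u) * (u : ℂ) ^ (m + 1)) -
      (((m + 1 : ℕ) : ℂ) * (σ - ρ)⁻¹) • p,
      Submodule.sub_mem _ (Submodule.smul_mem _ _ (hmem (m + 1) hm)) (Submodule.smul_mem _ _ hp),
      fun u => ?_⟩
    have h1 := (hasDerivAt_exppow σ (m + 1) u).const_smul (σ - ρ)⁻¹
    have h2 := (hpd u).const_smul (((m + 1 : ℕ) : ℂ) * (σ - ρ)⁻¹)
    convert! h1.sub h2 using 1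
    simp only [Pi.sub_apply, Pi.smul_apply, smul_eq_mul, Nat.add_sub_cancel]
    field_simp
    ring

open scoped Classical in
theorem exists_solution {l : List ℂ} (ρ : ℂ) {P : ℝ → ℂ} (hP : P ∈ El l) :
    ∃ p ∈ El (ρ :: l), ∀ u : ℝ, HasDerivAt p (ρ * p u + P u) u := by
  refine Submodule.span_induction ?_ ?_ ?_ ?_ hP
  · rintro f ⟨σ, m, hm, rfl⟩
    by_cases hσ : σ = ρ
    · subst hσ
      refine ⟨((m + 1 : ℕ) : ℂ)⁻¹ • (fun u : ℝ => cexp (σ * u) * (u : ℂ) ^ (m + 1)),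
        Submodule.smul_mem _ _ (Submodule.subset_span ⟨σ, m + 1, ?_, rfl⟩), fun u => ?_⟩
      · rw [List.count_cons_self]; omega
      · have h1 := (hasDerivAt_exppow σ (m + 1) u).const_smul ((m + 1 : ℕ) : ℂ)⁻¹
        have h2 : ((m + 1 : ℕ) : ℂ) ≠ 0 := by exact_mod_cast (Nat.succ_ne_zero m)
        convert! h1 using 1
        simp only [Pi.smul_apply, smul_eq_mul, Nat.add_sub_cancel]
        field_simp
    · exact exists_solution_gen l ρ σ hσ m hm
  · refine ⟨0, Submodule.zero_mem _, fun u => ?_⟩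
    simp
  · rintro f g _ _ ⟨p, hp, hp'⟩ ⟨q, hq, hq'⟩
    refine ⟨p + q, Submodule.add_mem _ hp hq, fun u => ?_⟩
    convert! (hp' u).add (hq' u) using 1
    simp only [Pi.add_apply]
    ring
  · rintro a f _ ⟨p, hp, hp'⟩
    refine ⟨a • p, Submodule.smul_mem _ _ hp, fun u => ?_⟩
    convert! (hp' u).const_smul a using 1
    simp only [Pi.smul_apply, smul_eq_mul]
    ring

open scoped Classical in
/-- one step: a small right hand side gives a small error -/
theorem solve_step {l : List ℂ} {ρ : ℂ} (hρ : ρ.re = 1) {P : ℝ → ℂ} (hP : P ∈ El l)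
    {f e : ℝ → ℂ} (he : Continuous e) (hf : ∀ u : ℝ, HasDerivAt f (ρ * f u + (P u + e u)) u)
    {c B : ℝ} (hc : c < 1) (hb : ∀ u : ℝ, 0 ≤ u → ‖e u‖ ≤ B * Real.exp (c * u)) :
    ∃ P' ∈ El (ρ :: l), ∀ u : ℝ, 0 ≤ u → ‖f u - P' u‖ ≤ B / (1 - c) * Real.exp (c * u) := by
  obtain ⟨p, hp, hpd⟩ := exists_solution ρ hP
  have h1c : 0 < 1 - c := by linarith
  set q : ℝ → ℂ := fun u => f u - p u with hq
  have hqd : ∀ u, HasDerivAt q (ρ * q u + e u) u := by
    intro u
    convert! (hf u).sub (hpd u) using 1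
    simp only [hq]
    ring
  set φ : ℝ → ℂ := fun v => e v * cexp (-(ρ * v)) with hφ
  have hφc : Continuous φ := by simp only [hφ]; fun_prop
  have hGd : ∀ u, HasDerivAt (fun u : ℝ => q u * cexp (-(ρ * u))) (φ u) u := by
    intro u
    have e1 : HasDerivAt (fun v : ℝ => (v : ℂ)) 1 u := Complex.ofRealCLM.hasDerivAt
    have e3 : HasDerivAt (fun v : ℝ => cexp (-(ρ * v))) (cexp (-(ρ * u)) * (-(ρ * 1))) u :=
      ((e1.const_mul ρ).neg).cexp
    convert! (hqd u).mul e3 using 1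
    simp only [hφ]
    ring
  have hint : IntegrableOn φ (Ioi 0) := (laplace_bound he hb (w := ρ) (by rw [hρ]; exact hc)).1
  have hintu : ∀ u : ℝ, 0 ≤ u → IntegrableOn φ (Ioi u) := fun u hu =>
    hint.mono_set (Ioi_subset_Ioi hu)
  have htail : ∀ u : ℝ, 0 ≤ u → ‖∫ v in Ioi u, φ v‖ ≤ B / (1 - c) * Real.exp (-(1 - c) * u) := by
    intro u hu
    have h1 : IntegrableOn (fun v : ℝ => B * Real.exp (-(1 - c) * v)) (Ioi u) :=
      ((exp_neg_integrableOn_Ioi u h1c)).const_mul B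
    have h2' : ∀ᵐ v ∂(volume.restrict (Ioi u)), ‖φ v‖ ≤ B * Real.exp (-(1 - c) * v) := by
      refine (ae_restrict_iff' measurableSet_Ioi).2 (Eventually.of_forall fun v hv => ?_)
      have hv0 : 0 ≤ v := hu.trans (le_of_lt hv)
      simp only [hφ]
      rw [norm_mul, Complex.norm_exp]
      have h3 : (-(ρ * (v : ℂ))).re = -v := by simp [hρ]
      rw [h3]
      calc ‖e v‖ * Real.exp (-v) ≤ (B * Real.exp (c * v)) * Real.exp (-v) := by
            gcongr; exact hb v hv0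
        _ = _ := by rw [mul_assoc, ← Real.exp_add]; congr 2; ring
    refine (norm_integral_le_of_norm_le h1 h2').trans (le_of_eq ?_)
    rw [integral_const_mul, integral_exp_mul_Ioi (by linarith : -(1 - c) < 0)]
    have : (1 - c) ≠ 0 := h1c.ne'
    have h2 : -(1 - c) ≠ 0 := neg_ne_zero.2 this
    field_simp
  set κ : ℂ := q 0 + ∫ v in Ioi (0 : ℝ), φ v with hκ
  have hmain : ∀ u : ℝ, 0 ≤ u → q u = κ * cexp (ρ * u) - cexp (ρ * u) * ∫ v in Ioi u, φ v := by
    intro u hu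
    have h1 := intervalIntegral.integral_eq_sub_of_hasDerivAt (a := 0) (b := u)
      (f := fun u : ℝ => q u * cexp (-(ρ * u))) (f' := φ) (fun v _ => hGd v)
      (hφc.intervalIntegrable _ _)
    have h2 : (∫ v in (0 : ℝ)..u, φ v) = (∫ v in Ioi (0 : ℝ), φ v) - ∫ v in Ioi u, φ v := by
      have := intervalIntegral.integral_Ioi_sub_Ioi (μ := volume) hint hu
      rw [this]
    rw [h2] at h1
    simp only [Complex.ofReal_zero, mul_zero, neg_zero, Complex.exp_zero, mul_one] at h1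
    have h3 : cexp (-(ρ * u)) * cexp (ρ * u) = 1 := by rw [← Complex.exp_add]; simp
    have h4 : q u = (q u * cexp (-(ρ * u))) * cexp (ρ * u) := by rw [mul_assoc, h3, mul_one]
    rw [h4, hκ]
    linear_combination (-cexp (ρ * u)) * h1
  refine ⟨p + κ • (fun u : ℝ => cexp (ρ * u) * (u : ℂ) ^ 0), Submodule.add_mem _ hp
    (Submodule.smul_mem _ _ (Submodule.subset_span ⟨ρ, 0, ?_, rfl⟩)), fun u hu => ?_⟩
  · rw [List.count_cons_self]; omega
  · have h5 : f u - (p + κ • (fun u : ℝ => cexp (ρ * u) * (u : ℂ) ^ 0)) u =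
        -(cexp (ρ * u) * ∫ v in Ioi u, φ v) := by
      have h6 := hmain u hu
      simp only [hq] at h6
      simp only [Pi.add_apply, Pi.smul_apply, smul_eq_mul, pow_zero, mul_one]
      linear_combination h6
    rw [h5, norm_neg, norm_mul, Complex.norm_exp]
    have h7 : (ρ * (u : ℂ)).re = u := by simp [hρ]
    rw [h7]
    calc Real.exp u * ‖∫ v in Ioi u, φ v‖ ≤
          Real.exp u * (B / (1 - c) * Real.exp (-(1 - c) * u)) := by
          gcongr; exact htail u hu
      _ = B / (1 - c) * (Real.exp u * Real.exp (-(1 - c) * u)) := by ring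
      _ = _ := by rw [← Real.exp_add]; congr 2; ring

end Pool.Agent.Q48.MDS
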