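import Pool.Agent.Q48.MDS.Shift

/-!
# Integration over the first coordinate and then over the others
-/

set_option autoImplicit false
set_option linter.unusedSectionVars false

open MeasureTheory Set Filter Topology Metric Complex

namespace Pool.Agent.Q48.MDS

variable {k : ℕ}

/-- assembling a vector from its first coordinate and the others -/
noncomputable def asm (y₀ : ℝ) (t : Fin k → ℝ) : EuclideanSpace ℝ (Fin (k + 1)) :=
  WithLp.toLp 2 (Fin.cons y₀ t : Fin (k + 1) → ℝ)

theorem asm_mp : MeasurePreserving (fun p : ℝ × (Fin k → ℝ) => asm p.1 p.2) ∧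
    MeasurableEmbedding (fun p : ℝ × (Fin k → ℝ) => asm p.1 p.2) := by
  have h1 : MeasurePreserving (MeasurableEquiv.piFinSuccAbove (fun _ : Fin (k + 1) => ℝ) 0).symm :=
    (volume_preserving_piFinSuccAbove (fun _ : Fin (k + 1) => ℝ) 0).symm _
  have h2 := PiLp.volume_preserving_toLp (Fin (k + 1))
  have e : (fun p : ℝ × (Fin k → ℝ) => asm p.1 p.2) =
      (WithLp.toLp 2 : (Fin (k + 1) → ℝ) → EuclideanSpace ℝ (Fin (k + 1))) ∘
        (MeasurableEquiv.piFinSuccAbove (fun _ : Fin (k + 1) => ℝ) 0).symm := by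
    funext p
    unfold asm
    simp only [Function.comp_apply]
    congr 1
    show (Fin.cons p.1 p.2 : Fin (k + 1) → ℝ) =
      Fin.insertNth (α := fun _ : Fin (k + 1) => ℝ) 0 p.1 p.2
    rw [Fin.insertNth_zero']
  rw [e]
  exact ⟨h2.comp h1, (MeasurableEquiv.toLp 2 (Fin (k + 1) → ℝ)).measurableEmbedding.comp
    (MeasurableEquiv.measurableEmbedding _)⟩

theorem integral_split {E : Type*} [NormedAddCommGroup E] [NormedSpace ℝ E]
    {f : EuclideanSpace ℝ (Fin (k + 1)) → E} (hf : Integrable f) :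
    ∫ y, f y = ∫ t : Fin k → ℝ, ∫ y₀ : ℝ, f (asm y₀ t) := by
  have h1 := asm_mp (k := k)
  rw [← h1.1.integral_comp h1.2 f]
  have h2 : Integrable (fun p : ℝ × (Fin k → ℝ) => f (asm p.1 p.2)) :=
    (h1.1.integrable_comp_emb h1.2).2 hf
  exact integral_prod_symm _ h2

theorem integrable_split {E : Type*} [NormedAddCommGroup E] [NormedSpace ℝ E]
    {f : EuclideanSpace ℝ (Fin (k + 1)) → E} (hf : Integrable f) :
    Integrable (fun t : Fin k → ℝ => ∫ y₀ : ℝ, f (asm y₀ t)) := by
  have h1 := asm_mp (k := k)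
  have h2 : Integrable (fun p : ℝ × (Fin k → ℝ) => f (asm p.1 p.2)) :=
    (h1.1.integrable_comp_emb h1.2).2 hf
  exact h2.integral_prod_right

theorem imV_asm (y₀ : ℝ) (t : Fin k → ℝ) (x : Fin (k + 1) → ℝ) :
    imV (cpt (rl x) (asm y₀ t)) = asm y₀ t := by
  rw [imV_cpt]
  ext j
  simp [imV, rl]

end Pool.Agent.Q48.MDS
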