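import Mathlib

/-!
# Interpolation in a strip (Phragmén-Lindelöf)
-/

set_option autoImplicit false

open Filter Topology Metric Complex Set Asymptotics

namespace Pool.Agent.Q48.MDS

theorem one_add_abs_le (s : ℂ) (hs : 0 ≤ s.re) : 1 + |s.im| ≤ 2 * ‖s + 2‖ := by
  have h1 : |(s + 2).im| ≤ ‖s + 2‖ := Complex.abs_im_le_norm _
  have h2 : |(s + 2).re| ≤ ‖s + 2‖ := Complex.abs_re_le_norm _
  have h3 : (s + 2).im = s.im := by simp
  have h4 : (s + 2).re = s.re + 2 := by simp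
  rw [h3] at h1
  rw [h4, abs_of_nonneg (by linarith)] at h2
  linarith

theorem norm_add_two_le (s : ℂ) {b : ℝ} (hs : 0 ≤ s.re) (hb : s.re ≤ b) :
    ‖s + 2‖ ≤ (b + 2) * (1 + |s.im|) := by
  have h := Complex.norm_le_abs_re_add_abs_im (s + 2)
  have h3 : (s + 2).im = s.im := by simp
  have h4 : (s + 2).re = s.re + 2 := by simp
  rw [h3, h4, abs_of_nonneg (by linarith)] at h
  nlinarith [abs_nonneg s.im]

/-- Interpolation between the bounds on the two edges of a strip. -/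
theorem strip_interp {a b : ℝ} (ha : 0 ≤ a) (hab : a < b) (hba : b - a < Real.pi) {f : ℂ → ℂ}
    (hf : Differentiable ℂ f) {A B D : ℝ} (hA : 0 < A) (hB : 0 < B) (N M : ℕ)
    (hg : ∀ s : ℂ, a ≤ s.re → s.re ≤ b → ‖f s‖ ≤ D * (1 + |s.im|) ^ M)
    (h1 : ∀ s : ℂ, s.re = a → ‖f s‖ ≤ A * (1 + |s.im|) ^ N)
    (h2 : ∀ s : ℂ, s.re = b → ‖f s‖ ≤ B * (1 + |s.im|) ^ N) {s : ℂ} (hs1 : a ≤ s.re)
    (hs2 : s.re ≤ b) :
    ‖f s‖ ≤ (2 * (b + 2)) ^ N * (A ^ ((b - s.re) / (b - a)) * B ^ ((s.re - a) / (b - a))) *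
      (1 + |s.im|) ^ N := by
  have hba0 : 0 < b - a := by linarith
  set l : ℝ := (Real.log B - Real.log A) / (b - a) with hl
  set κ : ℝ := Real.log A - l * a with hκ
  have eA : Real.exp (l * a + κ) = A := by
    rw [hκ]; ring_nf; exact Real.exp_log hA
  have eB : Real.exp (l * b + κ) = B := by
    have : l * b + κ = Real.log B := by
      rw [hκ, hl]; field_simp; ring
    rw [this, Real.exp_log hB]
  set g : ℂ → ℂ := fun s => f s * cexp (-((l : ℂ) * s + κ)) / (s + 2) ^ N with hgdef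
  have hexp : ∀ s : ℂ, ‖cexp (-((l : ℂ) * s + κ))‖ = Real.exp (-(l * s.re + κ)) := by
    intro s
    rw [Complex.norm_exp]
    congr 1
    simp
  have hne : ∀ s : ℂ, 0 ≤ s.re → s + 2 ≠ 0 := by
    intro s hs h0
    have : (s + 2).re = 0 := by rw [h0]; simp
    have h4 : (s + 2).re = s.re + 2 := by simp
    linarith
  have hgn : ∀ s : ℂ, ‖g s‖ = ‖f s‖ * Real.exp (-(l * s.re + κ)) / ‖s + 2‖ ^ N := by
    intro s
    simp only [hgdef]
    rw [norm_div, norm_mul, hexp, norm_pow]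
  have hedge : ∀ (c E : ℝ), 0 ≤ c → Real.exp (l * c + κ) = E → 0 < E →
      (∀ s : ℂ, s.re = c → ‖f s‖ ≤ E * (1 + |s.im|) ^ N) → ∀ s : ℂ, s.re = c → ‖g s‖ ≤ 2 ^ N := by
    intro c E hc hE hE0 h s hs
    rw [hgn, hs, Real.exp_neg, hE]
    have h3 := h s hs
    have h5 := one_add_abs_le s (by rw [hs]; exact hc)
    have h6 : 0 < ‖s + 2‖ := norm_pos_iff.2 (hne s (by rw [hs]; exact hc))
    rw [div_le_iff₀ (by positivity)]
    calc ‖f s‖ * E⁻¹ ≤ (E * (1 + |s.im|) ^ N) * E⁻¹ := by gcongr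
      _ = (1 + |s.im|) ^ N := by field_simp
      _ ≤ (2 * ‖s + 2‖) ^ N := by gcongr
      _ = 2 ^ N * ‖s + 2‖ ^ N := mul_pow _ _ _
  have hdiff : ∀ s : ℂ, 0 ≤ s.re → DifferentiableAt ℂ g s := by
    intro s hs
    simp only [hgdef]
    refine DifferentiableAt.div ?_ ?_ (pow_ne_zero _ (hne s hs))
    · refine (hf s).mul ?_
      exact ((differentiableAt_id.const_mul (l : ℂ)).add_const (κ : ℂ)).neg.cexp
    · exact (differentiableAt_id.add_const 2).pow N
  have hdc : DiffContOnCl ℂ g (re ⁻¹' Ioo a b) := by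
    refine DifferentiableOn.diffContOnCl fun s hs => ?_
    have hcl : closure (re ⁻¹' Ioo a b) ⊆ re ⁻¹' Icc a b := by
      refine closure_minimal (preimage_mono Ioo_subset_Icc_self) ?_
      exact isClosed_Icc.preimage continuous_re
    exact (hdiff s (ha.trans (hcl hs).1)).differentiableWithinAt
  -- growth
  obtain ⟨Q, hQ⟩ : ∃ Q : ℝ, ∀ x ∈ Icc a b, Real.exp (-(l * x + κ)) ≤ Q := by
    have hc : ContinuousOn (fun x : ℝ => Real.exp (-(l * x + κ))) (Icc a b) := by fun_prop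
    obtain ⟨Q, hQ⟩ := (isCompact_Icc.image_of_continuousOn hc).bddAbove
    exact ⟨Q, fun x hx => hQ ⟨x, hx, rfl⟩⟩
  have hgrow : ∃ c < Real.pi / (b - a), ∃ B', g =O[comap (_root_.abs ∘ im) atTop ⊓
      𝓟 (re ⁻¹' Ioo a b)] fun z ↦ Real.exp (B' * Real.exp (c * |z.im|)) := by
    refine ⟨1, ?_, M, ?_⟩
    · rw [lt_div_iff₀ hba0]; linarith
    · refine IsBigO.of_bound (|D| * |Q|) ?_
      rw [eventually_inf_principal]
      refine Eventually.of_forall fun z hz => ?_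
      have hz1 : a ≤ z.re := hz.1.le
      have hz2 : z.re ≤ b := hz.2.le
      rw [hgn, Real.norm_of_nonneg (Real.exp_pos _).le]
      have h3 : ‖f z‖ ≤ |D| * (1 + |z.im|) ^ M := (hg z hz1 hz2).trans (by
        gcongr; exact le_abs_self D)
      have h4 : Real.exp (-(l * z.re + κ)) ≤ |Q| := (hQ z.re ⟨hz1, hz2⟩).trans (le_abs_self Q)
      have h5 : 1 ≤ ‖z + 2‖ ^ N := by
        apply one_le_pow₀
        have h6 : |(z + 2).re| ≤ ‖z + 2‖ := Complex.abs_re_le_norm _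
        have h7 : (z + 2).re = z.re + 2 := by simp
        rw [h7, abs_of_nonneg (by linarith)] at h6
        linarith
      have h8 : (1 + |z.im|) ^ M ≤ Real.exp (M * Real.exp (1 * |z.im|)) := by
        rw [one_mul, mul_comm, Real.exp_mul, Real.rpow_natCast]
        have h9 : 1 + |z.im| ≤ Real.exp (Real.exp |z.im|) := by
          have e1 := Real.add_one_le_exp |z.im|
          have e2 := Real.add_one_le_exp (Real.exp |z.im|)
          linarith
        gcongr
      calc ‖f z‖ * Real.exp (-(l * z.re + κ)) / ‖z + 2‖ ^ N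
          ≤ ‖f z‖ * Real.exp (-(l * z.re + κ)) := div_le_self (by positivity) h5
        _ ≤ (|D| * (1 + |z.im|) ^ M) * |Q| := by gcongr
        _ ≤ (|D| * Real.exp (M * Real.exp (1 * |z.im|))) * |Q| := by gcongr
        _ = _ := by ring
  have hPL := PhragmenLindelof.vertical_strip hdc hgrow (hedge a A ha eA hA h1)
    (hedge b B (ha.trans hab.le) eB hB h2) hs1 hs2
  rw [hgn, div_le_iff₀ (pow_pos (norm_pos_iff.2 (hne s (ha.trans hs1))) N)] at hPL
  have h7 := norm_add_two_le s (ha.trans hs1) hs2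
  have h8 : Real.exp (l * s.re + κ) =
      A ^ ((b - s.re) / (b - a)) * B ^ ((s.re - a) / (b - a)) := by
    rw [Real.rpow_def_of_pos hA, Real.rpow_def_of_pos hB, ← Real.exp_add]
    congr 1
    rw [hκ, hl]; field_simp; ring
  have h9 : ‖f s‖ = ‖f s‖ * Real.exp (-(l * s.re + κ)) * Real.exp (l * s.re + κ) := by
    rw [mul_assoc, ← Real.exp_add]; simp
  rw [h9, ← h8]
  calc ‖f s‖ * Real.exp (-(l * s.re + κ)) * Real.exp (l * s.re + κ)
      ≤ (2 ^ N * ‖s + 2‖ ^ N) * Real.exp (l * s.re + κ) := by gcongr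
    _ ≤ (2 ^ N * ((b + 2) * (1 + |s.im|)) ^ N) * Real.exp (l * s.re + κ) := by gcongr
    _ = _ := by rw [mul_pow, mul_pow]; ring

end Pool.Agent.Q48.MDS
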