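import Pool.Agent.Q48.MDS.ThmB
import Pool.Agent.Q48.MDS.Strip

/-!
# From bounds for the L-functions to continuation
-/

set_option autoImplicit false
set_option linter.unusedSectionVars false

open MeasureTheory Set Filter Topology Metric Complex
open scoped ComplexConjugate

namespace Pool.Agent.Q48.MDS

theorem Zc_anti {c c' : ℝ} (h1 : 1 < c) (h : c ≤ c') : Zc c' ≤ Zc c := by
  unfold Zc
  refine Summable.tsum_le_tsum (fun n => ?_) (summable_bound (h1.trans_le h)) (summable_bound h1)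
  split_ifs with hn
  · exact le_rfl
  · have : (1 : ℝ) ≤ n := by exact_mod_cast Nat.one_le_iff_ne_zero.2 hn
    exact Real.rpow_le_rpow_of_exponent_le this (by linarith)

theorem one_le_Zc {c : ℝ} (h1 : 1 < c) : 1 ≤ Zc c := by
  unfold Zc
  have := (summable_bound h1).le_tsum 1 (fun n _ => by split_ifs <;> positivity)
  simpa using this

/-- Bounds to the right of the line `Re s = 1/4` from a bound on the critical line. -/
theorem bound_extend {α : ℝ} (hα : 0 ≤ α) {C : ℝ} {N : ℕ}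
    (h : ∀ (d : DD) (t : ℝ), ‖Lc d (1 / 2 + I * t)‖ ≤ C * ((d : ℕ) : ℝ) ^ α * (1 + |t|) ^ N) :
    ∃ (E : ℝ), 1 ≤ E ∧ ∀ (d : DD) (s : ℂ) (δ : ℝ), 0 ≤ δ → δ ≤ 1 / 4 → 1 / 2 - δ ≤ s.re →
      ‖Lc d s‖ ≤ E * ((d : ℕ) : ℝ) ^ (α + 8 * δ) * (1 + |s.im|) ^ (N + 1) := by
  set C₁ : ℝ := max 1 (max C (max (Ka (1 / 4)) (Zc 2))) with hC₁
  have c1 : 1 ≤ C₁ := le_max_left _ _
  have c2 : C ≤ C₁ := (le_max_left _ _).trans (le_max_right _ _)
  have c3 : Ka (1 / 4) ≤ C₁ := (le_max_left _ _).trans ((le_max_right _ _).trans (le_max_right _ _))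
  have c4 : Zc 2 ≤ C₁ := (le_max_right _ _).trans ((le_max_right _ _).trans (le_max_right _ _))
  refine ⟨2 * (2 * (2 + 2)) ^ (N + 1) * C₁, ?_, ?_⟩
  · have : (1 : ℝ) ≤ (2 * (2 + 2)) ^ (N + 1) := one_le_pow₀ (by norm_num)
    nlinarith
  intro d s δ hδ0 hδ1 hs
  have hd1 : (1 : ℝ) ≤ ((d : ℕ) : ℝ) := by
    have := d.2.2
    exact_mod_cast (by omega : 1 ≤ (d : ℕ))
  have hd0 : (0 : ℝ) < ((d : ℕ) : ℝ) := by linarith
  have hdiff := differentiable_Lc d.2.1 d.2.2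
  -- crude bound in strips
  have hcrude : ∀ b : ℝ, 0 ≤ b → ∀ s : ℂ, 1 / 4 ≤ s.re → s.re ≤ b →
      ‖Lc d s‖ ≤ (Ka (1 / 4) * ((d : ℕ) : ℝ) ^ 2 * (b + 1)) * (1 + |s.im|) ^ 1 := by
    intro b hb s h1 h2
    have h3 := Lc_crude d.2.1 d.2.2 (by norm_num : (0 : ℝ) < 1 / 4) h1
    have h4 := Complex.norm_le_abs_re_add_abs_im s
    rw [abs_of_nonneg (by linarith)] at h4
    have h5 : ‖s‖ ≤ (b + 1) * (1 + |s.im|) := by nlinarith [abs_nonneg s.im]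
    have hK := Ka_nonneg (1 / 4)
    calc ‖Lc d s‖ ≤ Ka (1 / 4) * ((d : ℕ) : ℝ) ^ 2 * ‖s‖ := h3
      _ ≤ Ka (1 / 4) * ((d : ℕ) : ℝ) ^ 2 * ((b + 1) * (1 + |s.im|)) := by gcongr
      _ = _ := by ring
  have hline : ∀ s : ℂ, s.re = 1 / 2 → ‖Lc d s‖ ≤ (C₁ * ((d : ℕ) : ℝ) ^ α) * (1 + |s.im|) ^ (N + 1) := by
    intro s hs
    have h1 : s = 1 / 2 + I * (s.im : ℝ) := by
      apply Complex.ext <;> simp [hs]
    have h2 := h d s.im
    rw [← h1] at h2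
    have e1 : 1 ≤ 1 + |s.im| := by linarith [abs_nonneg s.im]
    calc ‖Lc d s‖ ≤ C * ((d : ℕ) : ℝ) ^ α * (1 + |s.im|) ^ N := h2
      _ ≤ (C₁ * ((d : ℕ) : ℝ) ^ α) * (1 + |s.im|) ^ N := by gcongr
      _ ≤ _ := by gcongr; exact Nat.le_succ N
  have hpi : (3 : ℝ) < Real.pi := Real.pi_gt_three
  have hmono : ((d : ℕ) : ℝ) ^ α ≤ ((d : ℕ) : ℝ) ^ (α + 8 * δ) :=
    Real.rpow_le_rpow_of_exponent_le hd1 (by linarith)
  rcases le_or_gt 2 s.re with h2 | h2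
  · -- to the right of 2
    have h3 : ‖Lc d s‖ ≤ Zc 2 := (Lc_norm_right d.2.1 d.2.2 (by linarith)).trans
      (Zc_anti (by norm_num) h2)
    have e1 : 1 ≤ ((d : ℕ) : ℝ) ^ (α + 8 * δ) := Real.one_le_rpow hd1 (by linarith)
    have e2 : 1 ≤ (1 + |s.im|) ^ (N + 1) := one_le_pow₀ (by linarith [abs_nonneg s.im])
    have e3 : (1 : ℝ) ≤ (2 * (2 + 2)) ^ (N + 1) := one_le_pow₀ (by norm_num)
    calc ‖Lc d s‖ ≤ C₁ := h3.trans c4
      _ = 1 * 1 * C₁ * 1 * 1 := by ring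
      _ ≤ 2 * (2 * (2 + 2)) ^ (N + 1) * C₁ * ((d : ℕ) : ℝ) ^ (α + 8 * δ) * (1 + |s.im|) ^ (N + 1) := by
          gcongr
          norm_num
  rcases le_or_gt (1 / 2) s.re with h3 | h3
  · -- the strip `[1/2, 2]`
    have hA : 0 < C₁ * ((d : ℕ) : ℝ) ^ α := by positivity
    have hright : ∀ s : ℂ, s.re = 2 → ‖Lc d s‖ ≤ (C₁ * ((d : ℕ) : ℝ) ^ α) * (1 + |s.im|) ^ (N + 1) := by
      intro s hs
      have e1 : 1 ≤ ((d : ℕ) : ℝ) ^ α := Real.one_le_rpow hd1 hα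
      have e2 : 1 ≤ (1 + |s.im|) ^ (N + 1) := one_le_pow₀ (by linarith [abs_nonneg s.im])
      have e3 : ‖Lc d s‖ ≤ Zc 2 := by
        have := Lc_norm_right d.2.1 d.2.2 (s := s) (by rw [hs]; norm_num)
        rwa [hs] at this
      calc ‖Lc d s‖ ≤ C₁ := e3.trans c4
        _ = C₁ * 1 * 1 := by ring
        _ ≤ _ := by gcongr
    have h4 := strip_interp (a := 1 / 2) (b := 2) (by norm_num) (by norm_num) (by linarith) hdiff
      hA hA (N + 1) 1 (fun s h5 h6 => hcrude 2 (by norm_num) s (by linarith) h6) hline hright h3 h2.le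
    have h5 : (C₁ * ((d : ℕ) : ℝ) ^ α) ^ ((2 - s.re) / (2 - 1 / 2)) *
        (C₁ * ((d : ℕ) : ℝ) ^ α) ^ ((s.re - 1 / 2) / (2 - 1 / 2)) = C₁ * ((d : ℕ) : ℝ) ^ α := by
      rw [← Real.rpow_add hA]
      have : (2 - s.re) / (2 - 1 / 2) + (s.re - 1 / 2) / (2 - 1 / 2) = 1 := by ring
      rw [this, Real.rpow_one]
    rw [h5] at h4
    calc ‖Lc d s‖ ≤ (2 * (2 + 2)) ^ (N + 1) * (C₁ * ((d : ℕ) : ℝ) ^ α) * (1 + |s.im|) ^ (N + 1) := h4
      _ ≤ (2 * (2 * (2 + 2)) ^ (N + 1)) * (C₁ * ((d : ℕ) : ℝ) ^ (α + 8 * δ)) *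
          (1 + |s.im|) ^ (N + 1) := by
          gcongr
          have : (0 : ℝ) ≤ (2 * (2 + 2)) ^ (N + 1) := by positivity
          linarith
      _ = _ := by ring
  · -- the strip `[1/4, 1/2]`
    have hA : 0 < C₁ * ((d : ℕ) : ℝ) ^ (α + 2) := by positivity
    have hB : 0 < C₁ * ((d : ℕ) : ℝ) ^ α := by positivity
    have hleft : ∀ s : ℂ, s.re = 1 / 4 →
        ‖Lc d s‖ ≤ ((2 * C₁) * ((d : ℕ) : ℝ) ^ (α + 2)) * (1 + |s.im|) ^ (N + 1) := by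
      intro s hs
      have e1 := hcrude 1 (by norm_num) s (by rw [hs]) (by rw [hs]; norm_num)
      have e2 : ((d : ℕ) : ℝ) ^ 2 ≤ ((d : ℕ) : ℝ) ^ (α + 2) := by
        rw [← Real.rpow_natCast]
        exact Real.rpow_le_rpow_of_exponent_le hd1 (by push_cast; linarith)
      have e3 : (1 + |s.im|) ^ 1 ≤ (1 + |s.im|) ^ (N + 1) :=
        pow_le_pow_right₀ (by linarith [abs_nonneg s.im]) (by omega)
      have hK := Ka_nonneg (1 / 4)
      calc ‖Lc d s‖ ≤ (Ka (1 / 4) * ((d : ℕ) : ℝ) ^ 2 * (1 + 1)) * (1 + |s.im|) ^ 1 := e1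
        _ ≤ (C₁ * ((d : ℕ) : ℝ) ^ (α + 2) * (1 + 1)) * (1 + |s.im|) ^ (N + 1) := by gcongr
        _ = _ := by ring
    have hline' : ∀ s : ℂ, s.re = 1 / 2 →
        ‖Lc d s‖ ≤ ((2 * C₁) * ((d : ℕ) : ℝ) ^ α) * (1 + |s.im|) ^ (N + 1) := by
      intro s hs
      refine (hline s hs).trans ?_
      gcongr
      linarith
    have hA' : 0 < (2 * C₁) * ((d : ℕ) : ℝ) ^ (α + 2) := by positivity
    have hB' : 0 < (2 * C₁) * ((d : ℕ) : ℝ) ^ α := by positivity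
    have h4 := strip_interp (a := 1 / 4) (b := 1 / 2) (by norm_num) (by norm_num) (by linarith) hdiff
      hA' hB' (N + 1) 1 (fun s h5 h6 => hcrude (1 / 2) (by norm_num) s h5 h6) hleft hline'
      (by linarith) h3.le
    set θ : ℝ := (1 / 2 - s.re) / (1 / 2 - 1 / 4) with hθ
    have hθ' : (s.re - 1 / 4) / (1 / 2 - 1 / 4) = 1 - θ := by rw [hθ]; ring
    have hθ1 : θ ≤ 4 * δ := by rw [hθ, div_le_iff₀ (by norm_num)]; linarith
    have hC2 : (0 : ℝ) < 2 * C₁ := by positivity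
    have h5 : ((2 * C₁) * ((d : ℕ) : ℝ) ^ (α + 2)) ^ θ * ((2 * C₁) * ((d : ℕ) : ℝ) ^ α) ^ (1 - θ) =
        (2 * C₁) * ((d : ℕ) : ℝ) ^ (α + 2 * θ) := by
      rw [Real.mul_rpow hC2.le (by positivity), Real.mul_rpow hC2.le (by positivity),
        ← Real.rpow_mul hd0.le, ← Real.rpow_mul hd0.le]
      calc (2 * C₁) ^ θ * ((d : ℕ) : ℝ) ^ ((α + 2) * θ) *
            ((2 * C₁) ^ (1 - θ) * ((d : ℕ) : ℝ) ^ (α * (1 - θ)))
          = ((2 * C₁) ^ θ * (2 * C₁) ^ (1 - θ)) *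
            (((d : ℕ) : ℝ) ^ ((α + 2) * θ) * ((d : ℕ) : ℝ) ^ (α * (1 - θ))) := by ring
        _ = _ := by
            rw [← Real.rpow_add hC2, ← Real.rpow_add hd0]
            congr 1
            · rw [show θ + (1 - θ) = 1 by ring, Real.rpow_one]
            · congr 1; ring
    rw [hθ', h5] at h4
    have h6 : ((d : ℕ) : ℝ) ^ (α + 2 * θ) ≤ ((d : ℕ) : ℝ) ^ (α + 8 * δ) :=
      Real.rpow_le_rpow_of_exponent_le hd1 (by linarith)
    have e0 : (0 : ℝ) ≤ (1 + |s.im|) ^ (N + 1) := by positivity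
    calc ‖Lc d s‖ ≤ (2 * (1 / 2 + 2)) ^ (N + 1) * ((2 * C₁) * ((d : ℕ) : ℝ) ^ (α + 2 * θ)) *
          (1 + |s.im|) ^ (N + 1) := h4
      _ ≤ (2 * (1 / 2 + 2)) ^ (N + 1) * ((2 * C₁) * ((d : ℕ) : ℝ) ^ (α + 8 * δ)) *
          (1 + |s.im|) ^ (N + 1) := by gcongr
      _ = ((2 * (1 / 2 + 2)) ^ (N + 1) * 2) * C₁ * ((d : ℕ) : ℝ) ^ (α + 8 * δ) *
          (1 + |s.im|) ^ (N + 1) := by ring
      _ ≤ 2 * (2 * (2 + 2)) ^ (N + 1) * C₁ * ((d : ℕ) : ℝ) ^ (α + 8 * δ) *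
          (1 + |s.im|) ^ (N + 1) := by
          have h7 : (2 * (1 / 2 + 2) : ℝ) ^ (N + 1) * 2 ≤ 2 * (2 * (2 + 2)) ^ (N + 1) := by
            have h8 : (2 * (1 / 2 + 2) : ℝ) ^ (N + 1) ≤ (2 * (2 + 2)) ^ (N + 1) := by
              gcongr; norm_num
            linarith
          gcongr

/-- the region for the exponent `β` and the width `δ` -/
def OA (k : ℕ) (β δ : ℝ) : Set (Fin (k + 1) → ℝ) :=
  {x | 1 + k * β < x 0 ∧ ∀ j : Fin k, 1 / 2 - δ < x j.succ}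

theorem isOpen_OA (k : ℕ) (β δ : ℝ) : IsOpen (OA k β δ) := by
  have : OA k β δ = {x | 1 + k * β < x 0} ∩ ⋂ j : Fin k, {x | 1 / 2 - δ < x j.succ} := by
    ext x; simp [OA]
  rw [this]
  exact (isOpen_lt continuous_const (continuous_apply 0)).inter
    (isOpen_iInter_of_finite fun j => isOpen_lt continuous_const (continuous_apply _))

theorem comb_lt {c u v a b : ℝ} (ha : 0 ≤ a) (hb : 0 ≤ b) (hab : a + b = 1) (hu : c < u)
    (hv : c < v) : c < a * u + b * v := by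
  rcases eq_or_lt_of_le ha with h | h
  · subst h
    have hb1 : b = 1 := by linarith
    subst hb1; linarith
  · have h1 : c = a * c + b * c := by rw [← add_mul, hab, one_mul]
    have h2 := mul_lt_mul_of_pos_left hu h
    have h3 := mul_le_mul_of_nonneg_left hv.le hb
    linarith

theorem convex_OA (k : ℕ) (β δ : ℝ) : Convex ℝ (OA k β δ) := by
  intro x hx y hy a b ha hb hab
  exact ⟨comb_lt ha hb hab hx.1 hy.1, fun j => comb_lt ha hb hab (hx.2 j) (hy.2 j)⟩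

theorem convex_orth (n : ℕ) : Convex ℝ (orth n) := by
  intro x hx y hy a b ha hb hab i
  exact comb_lt ha hb hab (hx i) (hy i)

theorem im_le_norm {n : ℕ} (z : Fin n → ℂ) (i : Fin n) : |(z i).im| ≤ ‖fun i => (z i).im‖ :=
  norm_le_pi_norm (fun i => (z i).im) i

theorem tempered_Bc_orth (k M : ℕ) : Tempered (orth (k + 1)) (Bc k M) := by
  refine tempered_Bc (isOpen_orth _) fun K hK hc => ?_
  obtain ⟨m, hm, hm'⟩ : ∃ m : ℝ, 1 < m ∧ ∀ x ∈ K, ∀ i, m ≤ x i := by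
    choose m hm hm' using fun i : Fin (k + 1) =>
      exists_lower hc (continuous_apply i) (c := 1) (fun x hx => hK hx i)
    obtain ⟨i₀, -, hi₀⟩ := Finset.exists_min_image (Finset.univ : Finset (Fin (k + 1))) m
      ⟨0, Finset.mem_univ _⟩
    exact ⟨m i₀, hm i₀, fun x hx i => (hi₀ i (Finset.mem_univ _)).trans (hm' i x hx)⟩
  refine ⟨Zc m ^ k, m, 0, by have := Zc_nonneg m; positivity, hm, fun z hz d => ?_⟩
  have hd : (1 : ℝ) ≤ ((d : ℕ) : ℝ) := by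
    have := d.2.2
    exact_mod_cast (by omega : 1 ≤ (d : ℕ))
  have h1 : ∏ j : Fin k, ‖Lc d (z j.succ)‖ ≤ Zc m ^ k := by
    calc ∏ j : Fin k, ‖Lc d (z j.succ)‖ ≤ ∏ _j : Fin k, Zc m := by
          refine Finset.prod_le_prod (fun j _ => norm_nonneg _) (fun j _ => ?_)
          have h2 : m ≤ (z j.succ).re := hm' _ hz j.succ
          exact (Lc_norm_right d.2.1 d.2.2 (hm.trans_le h2)).trans (Zc_anti hm h2)
      _ = _ := by simp
  have h2 : ((d : ℕ) : ℝ) ^ (-(z 0).re) ≤ ((d : ℕ) : ℝ) ^ (-m) :=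
    Real.rpow_le_rpow_of_exponent_le hd (by linarith [hm' _ hz 0])
  rw [pow_zero, mul_one]
  calc _ ≤ ((d : ℕ) : ℝ) ^ (-m) * Zc m ^ k := by gcongr
    _ = _ := by ring

/-- the continued series in the region given by a bound on the critical line -/
theorem tempered_Bc_OA {α : ℝ} (hα : 0 ≤ α) {C : ℝ} {N : ℕ}
    (h : ∀ (d : DD) (t : ℝ), ‖Lc d (1 / 2 + I * t)‖ ≤ C * ((d : ℕ) : ℝ) ^ α * (1 + |t|) ^ N)
    {δ : ℝ} (hδ0 : 0 ≤ δ) (hδ1 : δ ≤ 1 / 4) (k M : ℕ) :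
    Tempered (OA k (α + 8 * δ) δ) (Bc k M) := by
  obtain ⟨E, hE1, hE⟩ := bound_extend hα h
  refine tempered_Bc (isOpen_OA _ _ _) fun K hK hc => ?_
  obtain ⟨m, hm, hm'⟩ := exists_lower hc (continuous_apply (0 : Fin (k + 1)))
    (c := 1 + k * (α + 8 * δ)) (fun x hx => (hK hx).1)
  refine ⟨E ^ k, m - k * (α + 8 * δ), (N + 1) * k, by positivity, by linarith, fun z hz d => ?_⟩
  have hd : (1 : ℝ) ≤ ((d : ℕ) : ℝ) := by
    have := d.2.2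
    exact_mod_cast (by omega : 1 ≤ (d : ℕ))
  have hd0 : (0 : ℝ) < ((d : ℕ) : ℝ) := by linarith
  have h1 : ∏ j : Fin k, ‖Lc d (z j.succ)‖ ≤
      (E * ((d : ℕ) : ℝ) ^ (α + 8 * δ) * (1 + ‖fun i => (z i).im‖) ^ (N + 1)) ^ k := by
    calc ∏ j : Fin k, ‖Lc d (z j.succ)‖ ≤
          ∏ _j : Fin k, E * ((d : ℕ) : ℝ) ^ (α + 8 * δ) * (1 + ‖fun i => (z i).im‖) ^ (N + 1) := by
          refine Finset.prod_le_prod (fun j _ => norm_nonneg _) (fun j _ => ?_)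
          refine (hE d (z j.succ) δ hδ0 hδ1 (le_of_lt ((hK hz).2 j))).trans ?_
          have := im_le_norm z j.succ
          gcongr
      _ = _ := by simp
  have h2 : ((d : ℕ) : ℝ) ^ (-(z 0).re) ≤ ((d : ℕ) : ℝ) ^ (-m) :=
    Real.rpow_le_rpow_of_exponent_le hd (by linarith [hm' _ hz])
  have h3 : ((d : ℕ) : ℝ) ^ (-m) * (((d : ℕ) : ℝ) ^ (α + 8 * δ)) ^ k =
      ((d : ℕ) : ℝ) ^ (-(m - k * (α + 8 * δ))) := by
    rw [← Real.rpow_natCast, ← Real.rpow_mul hd0.le, ← Real.rpow_add hd0]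
    congr 1
    ring
  calc ((d : ℕ) : ℝ) ^ (-(z 0).re) * ∏ j : Fin k, ‖Lc d (z j.succ)‖
      ≤ ((d : ℕ) : ℝ) ^ (-m) *
        (E * ((d : ℕ) : ℝ) ^ (α + 8 * δ) * (1 + ‖fun i => (z i).im‖) ^ (N + 1)) ^ k := by gcongr
    _ = E ^ k * (((d : ℕ) : ℝ) ^ (-m) * (((d : ℕ) : ℝ) ^ (α + 8 * δ)) ^ k) *
        (1 + ‖fun i => (z i).im‖) ^ ((N + 1) * k) := by
        rw [mul_pow, mul_pow, pow_mul]; ring
    _ = _ := by rw [h3]

/-- **Theorem A.** -/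
theorem continuesTo_of_bound {θ : ℝ} (hθ : 0 ≤ θ)
    (h : ∀ ε : ℝ, 0 < ε → ∃ (C : ℝ) (N : ℕ), ∀ (d : DD) (t : ℝ),
      ‖Lc d (1 / 2 + I * t)‖ ≤ C * ((d : ℕ) : ℝ) ^ (θ + ε) * (1 + |t|) ^ N)
    (k M : ℕ) {w : ℝ} (hw : 1 + k * θ < w) : ContinuesTo k M (pt k w) := by
  set η : ℝ := (w - 1 - k * θ) / (k + 1) with hη
  have hk : (0 : ℝ) < (k : ℝ) + 1 := by positivity
  have hη0 : 0 < η := by rw [hη]; apply div_pos _ hk; linarith
  have hη1 : (k : ℝ) * η < w - 1 - k * θ := by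
    have : η * (k + 1) = w - 1 - k * θ := by rw [hη]; field_simp
    nlinarith
  set δ : ℝ := min (1 / 4) (η / 32) with hδ
  have hδ0 : 0 < δ := lt_min (by norm_num) (by positivity)
  have hδ1 : δ ≤ 1 / 4 := min_le_left _ _
  have hδ2 : δ ≤ η / 32 := min_le_right _ _
  obtain ⟨C, N, hC⟩ := h (η / 4) (by positivity)
  have hT := tempered_Bc_OA (α := θ + η / 4) (by positivity) hC hδ0.le hδ1 k M
  set W := OA k (θ + η / 4 + 8 * δ) δ with hW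
  have hpt : pt k w ∈ W := by
    refine ⟨?_, fun j => ?_⟩
    · rw [pt_zero]
      have h1 : (k : ℝ) * (θ + η / 4 + 8 * δ) ≤ k * (θ + η / 2) := by
        exact mul_le_mul_of_nonneg_left (by linarith) (Nat.cast_nonneg k)
      have h2 : (k : ℝ) * (θ + η / 2) = k * θ + k * η / 2 := by ring
      have h3 : (0 : ℝ) ≤ k * η := by positivity
      linarith
    · rw [pt_succ]; linarith
  obtain ⟨G, hG, hG1, hG2⟩ := tempered_glue (isOpen_OA k (θ + η / 4 + 8 * δ) δ)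
    (isOpen_orth (k + 1)) hT (tempered_Bc_orth k M) (fun z _ => rfl)
  refine ⟨W ∪ orth (k + 1), (isOpen_OA _ _ _).union (isOpen_orth _), ⟨⟨pt k w, Or.inl hpt⟩, ?_⟩,
    subset_union_right, Or.inl hpt, G, hG, fun z hz => ?_⟩
  · have hβ : 0 ≤ (k : ℝ) * (θ + η / 4 + 8 * δ) := by positivity
    refine IsPreconnected.union (fun _ => 2 + k * (θ + η / 4 + 8 * δ)) ⟨?_, fun j => ?_⟩
      (fun i => ?_) (convex_OA _ _ _).isPreconnected (convex_orth _).isPreconnected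
    · show 1 + k * (θ + η / 4 + 8 * δ) < 2 + k * (θ + η / 4 + 8 * δ)
      linarith
    · show 1 / 2 - δ < 2 + k * (θ + η / 4 + 8 * δ)
      linarith
    · show 1 < 2 + k * (θ + η / 4 + 8 * δ)
      linarith
  · rw [hG2 hz, Bc_eq_F k M hz]

end Pool.Agent.Q48.MDS
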