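import Pool.Agent.Q48.MDS.Crude
import Pool.Agent.Q48.MDS.Landau

/-!
# From continuation to bounds for the L-functions
-/

set_option autoImplicit false
set_option linter.unusedSectionVars false

open MeasureTheory Set Filter Topology Metric Complex
open scoped ComplexConjugate

namespace Pool.Agent.Q48.MDS

theorem Lc_conj (d : DD) (s : ℂ) : Lc d (conj s) = conj (Lc d s) := by
  have hdiff := differentiable_Lc d.2.1 d.2.2
  have h1 : AnalyticOnNhd ℂ (fun z => conj (Lc d (conj z))) univ := by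
    refine DifferentiableOn.analyticOnNhd (fun z _ => ?_) isOpen_univ
    exact (differentiableAt_conj_conj_iff.mpr (hdiff _)).differentiableWithinAt
  have h2 : AnalyticOnNhd ℂ (Lc d) univ := hdiff.differentiableOn.analyticOnNhd isOpen_univ
  have h3 : ∀ z : ℂ, 1 < z.re → conj (Lc d (conj z)) = Lc d z := by
    intro z hz
    rw [Lc_eq_Lchi d.2.1 d.2.2 (by rwa [conj_re]), Lc_eq_Lchi d.2.1 d.2.2 hz]
    unfold Lchi
    rw [LSeries, LSeries, conj_tsum]
    refine tsum_congr fun n => ?_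
    rcases eq_or_ne n 0 with rfl | hn
    · simp
    · rw [LSeries.term_of_ne_zero hn, LSeries.term_of_ne_zero hn, map_div₀,
        ← conj_cpow _ _ (by rw [natCast_arg]; positivity), conj_natCast]
      simp
  have h4 : (fun z => conj (Lc d (conj z))) =ᶠ[𝓝 (2 : ℂ)] Lc d := by
    have : {w : ℂ | 1 < w.re} ∈ 𝓝 (2 : ℂ) :=
      (isOpen_lt continuous_const continuous_re).mem_nhds (by simp)
    filter_upwards [this] with w hw using h3 w hw
  have h5 := h1.eqOn_of_preconnected_of_eventuallyEq h2 isPreconnected_univ (mem_univ _) h4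
    (mem_univ (conj s))
  simpa using h5.symm

/-- the vector `(1/2 + it, ..., 1/2 + it, 1/2 - it, ..., 1/2 - it)` -/
noncomputable def sv (m : ℕ) (t : ℝ) : Fin (m + m) → ℂ :=
  Fin.append (fun _ => 1 / 2 + I * t) (fun _ => 1 / 2 - I * t)

theorem sv_cases (m : ℕ) (t : ℝ) (j : Fin (m + m)) :
    sv m t j = 1 / 2 + I * t ∨ sv m t j = 1 / 2 - I * t := by
  refine Fin.addCases (fun i => ?_) (fun i => ?_) j
  · left; exact Fin.append_left _ _ i
  · right; exact Fin.append_right _ _ i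

theorem sv_re (m : ℕ) (t : ℝ) (j : Fin (m + m)) : (sv m t j).re = 1 / 2 := by
  rcases sv_cases m t j with h | h <;> rw [h] <;> simp

theorem sv_im (m : ℕ) (t : ℝ) (j : Fin (m + m)) : |(sv m t j).im| = |t| := by
  rcases sv_cases m t j with h | h <;> rw [h] <;> simp

theorem prod_sv (d : DD) (m : ℕ) (t : ℝ) :
    ∏ j : Fin (m + m), Lc d (sv m t j) = ((‖Lc d (1 / 2 + I * t)‖ ^ (2 * m) : ℝ) : ℂ) := by
  rw [Fin.prod_univ_add]
  simp only [sv, Fin.append_left, Fin.append_right, Finset.prod_const, Finset.card_univ,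
    Fintype.card_fin]
  have h1 : (1 / 2 - I * t : ℂ) = conj (1 / 2 + I * t) := by
    simp only [map_add, map_mul, Complex.conj_I, Complex.conj_ofReal, map_div₀, map_one]
    rw [Complex.conj_ofNat]
    ring
  rw [h1, Lc_conj, ← mul_pow, Complex.mul_conj, Complex.normSq_eq_norm_sq]
  push_cast
  rw [← pow_mul]

/-- the point `(w; 1/2, ..., 1/2)` -/
noncomputable def pt (k : ℕ) (w : ℝ) : Fin (k + 1) → ℝ := Fin.cons w (fun _ => 1 / 2)

theorem pt_zero (k : ℕ) (w : ℝ) : pt k w 0 = w := rfl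

theorem pt_succ (k : ℕ) (w : ℝ) (j : Fin k) : pt k w j.succ = 1 / 2 := by simp [pt]

theorem pt_mono (k : ℕ) {w w' : ℝ} (h : w ≤ w') (i : Fin (k + 1)) : pt k w i ≤ pt k w' i := by
  refine Fin.cases ?_ (fun j => ?_) i
  · exact h
  · rw [pt_succ, pt_succ]

theorem rsig_pt (k : ℕ) (w : ℝ) (J : Finset (Fin k)) : rsig J (pt k w) = w := by
  unfold rsig
  have : ∑ j ∈ J, pt k w j.succ = (J.card : ℝ) / 2 := by
    rw [Finset.sum_congr rfl (fun j _ => pt_succ k w j)]
    simp; ring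
  rw [this, pt_zero]; ring

/-- the complex point -/
noncomputable def zpt (m : ℕ) (t : ℝ) (w : ℂ) : Fin (m + m + 1) → ℂ := Fin.cons w (sv m t)

theorem zpt_re (m : ℕ) (t : ℝ) (w : ℂ) :
    (fun i => (zpt m t w i).re) = pt (m + m) w.re := by
  funext i
  refine Fin.cases ?_ (fun j => ?_) i
  · rfl
  · rw [pt_succ]
    show (sv m t j).re = 1 / 2
    exact sv_re m t j

theorem zpt_im (m : ℕ) (t : ℝ) (x : ℝ) :
    ‖fun i => (zpt m t (x : ℂ) i).im‖ ≤ |t| := by
  rw [pi_norm_le_iff_of_nonneg (abs_nonneg t)]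
  intro i
  refine Fin.cases ?_ (fun j => ?_) i
  · show ‖((x : ℂ)).im‖ ≤ |t|
    simp
  · show ‖(sv m t j).im‖ ≤ |t|
    rw [Real.norm_eq_abs, sv_im]

theorem differentiable_zpt (m : ℕ) (t : ℝ) : Differentiable ℂ (zpt m t) := by
  refine differentiable_pi.2 fun i => ?_
  refine Fin.cases ?_ (fun j => ?_) i
  · exact differentiable_id
  · exact differentiable_const _

/-- **Theorem B.** -/
theorem bound_of_continuesTo {m : ℕ} (hm : 1 ≤ m) {w₀ : ℝ} (hw : 1 ≤ w₀)
    (h : ContinuesTo (m + m) 1 (pt (m + m) w₀)) {ε : ℝ} (hε : 0 < ε) :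
    ∃ (C : ℝ) (N : ℕ), 0 ≤ C ∧ ∀ (d : DD) (t : ℝ),
      ‖Lc d (1 / 2 + I * t)‖ ≤ C * ((d : ℕ) : ℝ) ^ ((w₀ + ε) / (2 * m)) * (1 + |t|) ^ N := by
  obtain ⟨Ω, hΩo, hΩc, hsub, hp, G₀, hG₀, hGeq⟩ := h
  obtain ⟨G, hG, hGG⟩ := bochner hΩo hΩc hG₀
  set W := convexHull ℝ Ω with hW
  have hΩW : Ω ⊆ W := subset_convexHull ℝ Ω
  have hWo : IsOpen W := hΩo.convexHull
  have hWc : Convex ℝ W := convex_convexHull ℝ Ω
  have hWorth : orth (m + m + 1) ⊆ W := hsub.trans hΩW
  have hGF : EqOn G (F (m + m) 1) (tube (orth (m + m + 1))) := fun z hz => by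
    rw [hGG (hsub hz), hGeq hz]
  have hBc := eqOn_Bc hWo hWc hWorth hG hGF
  have hptW : ∀ x : ℝ, w₀ ≤ x → pt (m + m) x ∈ W := fun x hx =>
    mem_of_ge hWo hWc hWorth (hΩW hp) (pt_mono _ hx)
  set x : ℝ := w₀ + ε with hx
  set x₁ : ℝ := max (2 * ((m + m : ℕ) : ℝ) + 2) (w₀ + ε + 1) with hx₁
  have hx₁1 : 2 * ((m + m : ℕ) : ℝ) + 2 ≤ x₁ := le_max_left _ _
  have hx₁2 : w₀ + ε + 1 ≤ x₁ := le_max_right _ _
  obtain ⟨C, N, hC⟩ := hG.2 {pt (m + m) x} (singleton_subset_iff.2 (hptW x (by linarith)))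
    isCompact_singleton
  set P : ℝ := (x - 1) ^ (2 ^ (m + m)) with hP
  have hx1 : 0 < x - 1 := by rw [hx]; linarith
  have hP0 : 0 < P := by positivity
  -- the main inequality
  have main : ∀ (d : DD) (t : ℝ), ‖Lc d (1 / 2 + I * t)‖ ^ (2 * m) * ((d : ℕ) : ℝ) ^ (-x) ≤
      |C| / P * (1 + |t|) ^ N := by
    intro d₀ t
    classical
    set r : ℕ → ℝ := fun n => if h : FundDisc n ∧ 1 < n then
      ‖Lc n (1 / 2 + I * t)‖ ^ (2 * m) else 0 with hr
    have hr0 : ∀ n, 0 ≤ r n := by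
      intro n
      simp only [hr]
      split_ifs <;> positivity
    have hrb : ∀ n, n ≠ 0 → ‖((r n : ℝ) : ℂ)‖ ≤
        (Ka (1 / 4) * ‖(1 / 2 + I * t : ℂ)‖) ^ (2 * m) * (n : ℝ) ^ ((2 * (m + m) : ℕ) : ℝ) := by
      intro n hn
      rw [Complex.norm_real, Real.norm_of_nonneg (hr0 n)]
      have hKa := Ka_nonneg (1 / 4)
      simp only [hr]
      split_ifs with h
      · have h1 := Lc_crude h.1 h.2 (by norm_num : (0 : ℝ) < 1 / 4) (s := 1 / 2 + I * t)
          (by simp; norm_num)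
        calc ‖Lc n (1 / 2 + I * t)‖ ^ (2 * m) ≤
              (Ka (1 / 4) * (n : ℝ) ^ 2 * ‖(1 / 2 + I * t : ℂ)‖) ^ (2 * m) := by gcongr
          _ = (Ka (1 / 4) * ‖(1 / 2 + I * t : ℂ)‖) ^ (2 * m) * (n : ℝ) ^ (2 * (m + m)) := by
              rw [mul_pow, mul_pow, mul_pow]; ring
          _ = _ := by rw [Real.rpow_natCast]
      · positivity
    have habs : LSeries.abscissaOfAbsConv (fun n => ((r n : ℝ) : ℂ)) < x₁ := by
      refine lt_of_le_of_lt (LSeries.abscissaOfAbsConv_le_of_le_const_mul_rpow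
        (x := ((2 * (m + m) : ℕ) : ℝ)) ⟨_, hrb⟩) ?_
      have : (((2 * (m + m) : ℕ) : ℝ) : ℝ) + 1 < x₁ := by
        push_cast at hx₁1 ⊢
        linarith
      exact_mod_cast this
    set hfun : ℂ → ℂ := fun w => G (zpt m t w) / ∏ J : Finset (Fin (m + m)), (sigma J (zpt m t w) - 1)
      with hhf
    have hsig : ∀ w : ℂ, 1 < w.re → ∀ J : Finset (Fin (m + m)),
        w.re - 1 ≤ ‖sigma J (zpt m t w) - 1‖ := by
      intro w _ J
      have h1 : (sigma J (zpt m t w) - 1).re = w.re - 1 := by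
        rw [Complex.sub_re, sigma_re, zpt_re, rsig_pt, Complex.one_re]
      rw [← h1]
      exact Complex.re_le_norm _
    have hne : ∀ w : ℂ, 1 < w.re →
        (∏ J : Finset (Fin (m + m)), (sigma J (zpt m t w) - 1)) ≠ 0 := by
      intro w hw1
      rw [Finset.prod_ne_zero_iff]
      intro J _ h0
      have h1 := hsig w hw1 J
      rw [h0, norm_zero] at h1
      linarith
    have hmem : ∀ w : ℂ, w₀ < w.re → zpt m t w ∈ tube W := by
      intro w hw'
      show (fun i => (zpt m t w i).re) ∈ W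
      rw [zpt_re]
      exact hptW _ hw'.le
    have hdiff : DifferentiableOn ℂ hfun {w | w₀ < w.re} := by
      intro w hw'
      have hw1 : 1 < w.re := lt_of_le_of_lt hw hw'
      apply DifferentiableAt.differentiableWithinAt
      refine DifferentiableAt.div ?_ ?_ (hne w hw1)
      · exact (hG.1.differentiableAt ((isOpen_tube hWo).mem_nhds (hmem w hw'))).comp w
          (differentiable_zpt m t w)
      · have h1 := (tempered_polar (k := m + m) (Ω := univ)).1
        have h2 : DifferentiableAt ℂ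
            (fun z : Fin (m + m + 1) → ℂ => ∏ J : Finset (Fin (m + m)), (sigma J z - 1)) (zpt m t w) :=
          h1.differentiableAt ((isOpen_tube isOpen_univ).mem_nhds (mem_univ _))
        exact h2.comp w (differentiable_zpt m t w)
    have heq : hfun =ᶠ[𝓝 (x₁ : ℂ)] LSeries (fun n => ((r n : ℝ) : ℂ)) := by
      have hnh : {w : ℂ | x₁ - 1 / 2 < w.re} ∈ 𝓝 (x₁ : ℂ) :=
        (isOpen_lt continuous_const continuous_re).mem_nhds (by
          show x₁ - 1 / 2 < ((x₁ : ℂ)).re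
          rw [Complex.ofReal_re]; linarith)
      filter_upwards [hnh] with w hw'
      have hw'' : x₁ - 1 / 2 < w.re := hw'
      have hw1 : w₀ < w.re := by linarith
      have hcr : zpt m t w ∈ tube (Ocr (m + m)) := by
        show (fun i => (zpt m t w i).re) ∈ Ocr (m + m)
        rw [zpt_re]
        refine ⟨?_, fun j => ?_⟩
        · rw [pt_zero]; linarith
        · rw [pt_succ]; norm_num
      have h1 : G (zpt m t w) = Bc (m + m) 1 (zpt m t w) := hBc ⟨hmem w hw1, hcr⟩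
      have h2 : hfun w = ∑' d : DD, cf (m + m) 1 d (zpt m t w) := by
        simp only [hhf]
        rw [h1]
        unfold Bc
        rw [mul_div_cancel_right₀ _ (hne w (by linarith))]
      rw [h2]
      -- both sides as sums over `ℕ`
      have h3 : ∀ d : DD, cf (m + m) 1 d (zpt m t w) =
          LSeries.term (fun n => ((r n : ℝ) : ℂ)) w d := by
        intro d
        have hd0 : (d : ℕ) ≠ 0 := by have := d.2.2; omega
        rw [LSeries.term_of_ne_zero hd0]
        unfold cf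
        have e1 : ∏ j : Fin (m + m), Lc d (zpt m t w j.succ) =
            ((‖Lc d (1 / 2 + I * t)‖ ^ (2 * m) : ℝ) : ℂ) := prod_sv d m t
        have e2 : zpt m t w 0 = w := rfl
        have e3 : kron d 1 = 1 := by unfold kron; simp
        rw [e1, e2, e3]
        simp only [hr]
        rw [dif_pos d.2, Complex.cpow_neg]
        push_cast
        ring
      rw [tsum_congr h3]
      unfold LSeries
      have h4 : ∑' d : DD, LSeries.term (fun n => ((r n : ℝ) : ℂ)) w d =
          ∑' n : ℕ, ({n : ℕ | FundDisc n ∧ 1 < n}).indicator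
            (LSeries.term (fun n => ((r n : ℝ) : ℂ)) w) n :=
        tsum_subtype _ _
      rw [h4]
      refine tsum_congr fun n => ?_
      by_cases hn : FundDisc n ∧ 1 < n
      · exact indicator_of_mem (show n ∈ {n : ℕ | FundDisc n ∧ 1 < n} from hn) _
      · rw [indicator_of_notMem (show n ∉ {n : ℕ | FundDisc n ∧ 1 < n} from hn)]
        rw [LSeries.term_def]
        split_ifs with h0
        · rfl
        · simp only [hr]
          rw [dif_neg hn]
          simp
    have hd1 : 1 ≤ (d₀ : ℕ) := by have := d₀.2.2; omega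
    have hl := landau_term hr0 habs hdiff heq (x := x) (by rw [hx]; linarith)
      (by rw [hx]; linarith) hd1
    have hrd : r d₀ = ‖Lc d₀ (1 / 2 + I * t)‖ ^ (2 * m) := by
      simp only [hr]; rw [dif_pos d₀.2]
    rw [hrd] at hl
    refine hl.trans ?_
    simp only [hhf]
    rw [norm_div, norm_prod]
    have h5 : ‖G (zpt m t (x : ℂ))‖ ≤ |C| * (1 + |t|) ^ N := by
      have h6 := hC (zpt m t (x : ℂ)) (by
        rw [zpt_re, Complex.ofReal_re]; rfl)
      have h7 := zpt_im m t x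
      calc ‖G (zpt m t (x : ℂ))‖ ≤ C * (1 + ‖fun i => (zpt m t (x : ℂ) i).im‖) ^ N := h6
        _ ≤ |C| * (1 + ‖fun i => (zpt m t (x : ℂ) i).im‖) ^ N := by
            gcongr; exact le_abs_self C
        _ ≤ |C| * (1 + |t|) ^ N := by gcongr
    have h8 : P ≤ ∏ J : Finset (Fin (m + m)), ‖sigma J (zpt m t (x : ℂ)) - 1‖ := by
      have h9 : P = ∏ _J : Finset (Fin (m + m)), (x - 1) := by
        rw [Finset.prod_const, Finset.card_univ, Fintype.card_finset, Fintype.card_fin]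
      rw [h9]
      refine Finset.prod_le_prod (fun J _ => hx1.le) (fun J _ => ?_)
      have := hsig (x : ℂ) (by rw [Complex.ofReal_re]; linarith) J
      rwa [Complex.ofReal_re] at this
    calc ‖G (zpt m t (x : ℂ))‖ / ∏ J : Finset (Fin (m + m)), ‖sigma J (zpt m t (x : ℂ)) - 1‖
        ≤ (|C| * (1 + |t|) ^ N) / P := by gcongr
      _ = _ := by ring
  -- extraction of the root
  refine ⟨max 1 (|C| / P), N, le_trans zero_le_one (le_max_left _ _), fun d t => ?_⟩
  have hd1 : (1 : ℝ) ≤ ((d : ℕ) : ℝ) := by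
    have := d.2.2
    exact_mod_cast (by omega : 1 ≤ (d : ℕ))
  have hd0 : (0 : ℝ) < ((d : ℕ) : ℝ) := by linarith
  have hm0 : (0 : ℝ) < 2 * (m : ℝ) := by
    have : (1 : ℝ) ≤ m := by exact_mod_cast hm
    linarith
  have h1 : ‖Lc d (1 / 2 + I * t)‖ ^ (2 * m) ≤
      (max 1 (|C| / P) * ((d : ℕ) : ℝ) ^ (x / (2 * m)) * (1 + |t|) ^ N) ^ (2 * m) := by
    have h2 := main d t
    have h3 : ‖Lc d (1 / 2 + I * t)‖ ^ (2 * m) ≤ |C| / P * (1 + |t|) ^ N * ((d : ℕ) : ℝ) ^ x := by
      rw [Real.rpow_neg hd0.le, ← div_eq_mul_inv, div_le_iff₀ (by positivity)] at h2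
      exact h2
    have h4 : (((d : ℕ) : ℝ) ^ (x / (2 * m))) ^ (2 * m) = ((d : ℕ) : ℝ) ^ x := by
      rw [← Real.rpow_natCast, ← Real.rpow_mul hd0.le]
      congr 1
      push_cast
      field_simp
    have h5 : |C| / P ≤ (max 1 (|C| / P)) ^ (2 * m) := by
      have e1 : 1 ≤ max 1 (|C| / P) := le_max_left _ _
      calc |C| / P ≤ max 1 (|C| / P) := le_max_right _ _
        _ ≤ (max 1 (|C| / P)) ^ (2 * m) := le_self_pow₀ e1 (by omega)
    have h6 : (1 + |t|) ^ N ≤ ((1 + |t|) ^ N) ^ (2 * m) := by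
      have e1 : 1 ≤ (1 + |t|) ^ N := one_le_pow₀ (by linarith [abs_nonneg t])
      exact le_self_pow₀ e1 (by omega)
    rw [mul_pow, mul_pow, h4]
    calc ‖Lc d (1 / 2 + I * t)‖ ^ (2 * m) ≤ |C| / P * (1 + |t|) ^ N * ((d : ℕ) : ℝ) ^ x := h3
      _ ≤ (max 1 (|C| / P)) ^ (2 * m) * ((1 + |t|) ^ N) ^ (2 * m) * ((d : ℕ) : ℝ) ^ x := by gcongr
      _ = _ := by ring
  exact (pow_le_pow_iff_left₀ (norm_nonneg _) (by positivity) (by omega)).1 h1

end Pool.Agent.Q48.MDS
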