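import Pool.Agent.Q48.MDS.Glue
import Pool.Agent.Q48.MDS.Char

/-!
# Series of tempered functions; the region where the continued series converges
-/

set_option autoImplicit false
set_option linter.unusedSectionVars false

open MeasureTheory Set Filter Topology Metric Complex

namespace Pool.Agent.Q48.MDS

variable {ι : Type*} [Fintype ι] [DecidableEq ι]

/-- A series of holomorphic functions with a summable tempered majorant is tempered. -/
theorem tempered_tsum {D : Type*} [Countable D] {Ω : Set (ι → ℝ)} (hΩ : IsOpen Ω)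
    (f : D → (ι → ℂ) → ℂ) (hd : ∀ d, DifferentiableOn ℂ (f d) (tube Ω))
    (hb : ∀ K ⊆ Ω, IsCompact K → ∃ (b : D → ℝ) (N : ℕ), Summable b ∧ (∀ d, 0 ≤ b d) ∧
      ∀ z : ι → ℂ, (fun i => (z i).re) ∈ K → ∀ d,
        ‖f d z‖ ≤ b d * (1 + ‖fun i => (z i).im‖) ^ N) :
    Tempered Ω (fun z => ∑' d, f d z) := by
  let _ : MeasurableSpace D := ⊤
  have hsum : ∀ z ∈ tube Ω, Summable (fun d => f d z) := by
    intro z hz
    obtain ⟨b, N, hbs, hb0, hbd⟩ := hb {fun i => (z i).re} (singleton_subset_iff.2 hz)
      isCompact_singleton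
    exact Summable.of_norm_bounded (hbs.mul_right _) (hbd z rfl)
  have hint : ∀ z ∈ tube Ω, ∫ d, f d z ∂Measure.count = ∑' d, f d z := by
    intro z hz
    rw [integral_countable (integrable_count_iff.2 (hsum z hz).norm)]
    congr 1
    funext d
    simp [measureReal_def]
  refine ⟨?_, ?_⟩
  · have h1 : DifferentiableOn ℂ (fun z => ∫ d, f d z ∂Measure.count) (tube Ω) := by
      refine differentiableOn_integral (isOpen_tube hΩ) (fun z d => f d z) hd ?_ ?_
      · intro z _
        exact (measurable_of_countable _).aestronglyMeasurable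
      · intro z₀ hz₀
        obtain ⟨r, hr, hrs⟩ := Metric.isOpen_iff.1 hΩ _ hz₀
        set K := closedBall (fun i => (z₀ i).re) (r / 2) with hKdef
        have hK : K ⊆ Ω := (closedBall_subset_ball (by linarith)).trans hrs
        obtain ⟨b, N, hbs, hb0, hbd⟩ := hb K hK (isCompact_closedBall _ _)
        refine ⟨{z | (fun i => (z i).re) ∈ K ∧ ‖fun i => (z i).im‖ ≤ ‖fun i => (z₀ i).im‖ + 1}, ?_,
          fun d => b d * (1 + (‖fun i => (z₀ i).im‖ + 1)) ^ N, ?_, fun z hz d =>
            (hbd z hz.1 d).trans ?_⟩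
        · refine inter_mem ?_ ?_
          · have hn : K ∈ 𝓝 (fun i => (z₀ i).re) := closedBall_mem_nhds _ (by positivity)
            exact (continuous_re' (ι := ι)).continuousAt.preimage_mem_nhds (x := z₀) hn
          · have hci : Continuous (fun z : ι → ℂ => ‖fun i => (z i).im‖) :=
              (continuous_pi fun i => Complex.continuous_im.comp (continuous_apply i)).norm
            have : Iic (‖fun i => (z₀ i).im‖ + 1) ∈ 𝓝 ‖fun i => (z₀ i).im‖ :=
              Iic_mem_nhds (by linarith)
            exact hci.continuousAt.preimage_mem_nhds this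
        · rw [integrable_count_iff]
          exact (hbs.mul_right ((1 + (‖fun i => (z₀ i).im‖ + 1)) ^ N)).norm
        · have := hz.2
          have := hb0 d
          show b d * (1 + ‖fun i => (z i).im‖) ^ N ≤ b d * (1 + (‖fun i => (z₀ i).im‖ + 1)) ^ N
          gcongr
    exact h1.congr fun z hz => (hint z hz).symm
  · intro K hK hc
    obtain ⟨b, N, hbs, hb0, hbd⟩ := hb K hK hc
    refine ⟨∑' d, b d, N, fun z hz => ?_⟩
    have h1 := tsum_of_norm_bounded ((hbs.mul_right ((1 + ‖fun i => (z i).im‖) ^ N)).hasSum)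
      (hbd z hz)
    rw [tsum_mul_right] at h1
    exact h1

end Pool.Agent.Q48.MDS
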