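import Pool.Agent.Q48.MDS.Holo

/-!
# Tubes, tempered holomorphic functions; elementary estimates
-/

set_option autoImplicit false

open MeasureTheory Set Filter Topology Metric

namespace Pool.Agent.Q48.MDS

/-- The tube over `Ω`. -/
def tube {ι : Type*} (Ω : Set (ι → ℝ)) : Set (ι → ℂ) := {z | (fun i => (z i).re) ∈ Ω}

/-- `F` is holomorphic on the tube over `Ω` and polynomially bounded in vertical strips. -/
def Tempered {ι : Type*} [Fintype ι] (Ω : Set (ι → ℝ)) (F : (ι → ℂ) → ℂ) : Prop :=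
  DifferentiableOn ℂ F (tube Ω) ∧
  ∀ K ⊆ Ω, IsCompact K → ∃ (C : ℝ) (N : ℕ), ∀ z : ι → ℂ, (fun i => (z i).re) ∈ K →
    ‖F z‖ ≤ C * (1 + ‖fun i => (z i).im‖) ^ N

theorem continuous_re' {ι : Type*} : Continuous (fun z : ι → ℂ => fun i => (z i).re) :=
  continuous_pi fun i => Complex.continuous_re.comp (continuous_apply i)

theorem isOpen_tube {ι : Type*} {Ω : Set (ι → ℝ)} (h : IsOpen Ω) : IsOpen (tube Ω) :=
  h.preimage continuous_re'

theorem Tempered.mono {ι : Type*} [Fintype ι] {Ω Ω' : Set (ι → ℝ)} {F : (ι → ℂ) → ℂ}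
    (h : Tempered Ω F) (hs : Ω' ⊆ Ω) : Tempered Ω' F :=
  ⟨h.1.mono fun _ hz => hs hz, fun K hK hc => h.2 K (hK.trans hs) hc⟩

/-- `(1+t)^M e^{-c t^2}` is bounded. -/
theorem pow_mul_gauss_le (M : ℕ) {c : ℝ} (hc : 0 < c) :
    ∃ C : ℝ, 0 < C ∧ ∀ t : ℝ, 0 ≤ t → (1 + t) ^ M * Real.exp (-c * t ^ 2) ≤ C := by
  refine ⟨M.factorial * Real.exp (1 + 1 / (4 * c)), by positivity, fun t ht => ?_⟩
  have h1 := Real.pow_div_factorial_le_exp (x := 1 + t) (by positivity) M
  have h2 : (1 + t) ^ M ≤ M.factorial * Real.exp (1 + t) := by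
    rw [div_le_iff₀ (by positivity)] at h1
    linarith
  have h3 : 1 + t - c * t ^ 2 ≤ 1 + 1 / (4 * c) := by
    have h4 : 0 ≤ (2 * c * t - 1) ^ 2 := sq_nonneg _
    have h5 : t - c * t ^ 2 ≤ 1 / (4 * c) := by
      rw [le_div_iff₀ (by positivity)]
      nlinarith
    linarith
  calc (1 + t) ^ M * Real.exp (-c * t ^ 2) ≤ (M.factorial * Real.exp (1 + t)) * Real.exp (-c * t ^ 2) := by
        gcongr
    _ = M.factorial * Real.exp (1 + t - c * t ^ 2) := by
        rw [mul_assoc, ← Real.exp_add]; ring_nf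
    _ ≤ _ := by gcongr

/-- `(1+t)^M e^{-r t}` is bounded. -/
theorem pow_mul_exp_le (M : ℕ) {r : ℝ} (hr : 0 < r) :
    ∃ C : ℝ, 0 < C ∧ ∀ t : ℝ, 0 ≤ t → (1 + t) ^ M * Real.exp (-r * t) ≤ C := by
  refine ⟨M.factorial * Real.exp r / r ^ M, by positivity, fun t ht => ?_⟩
  have h1 := Real.pow_div_factorial_le_exp (x := r * (1 + t)) (by positivity) M
  rw [div_le_iff₀ (by positivity), mul_pow] at h1
  have h2 : Real.exp (r * (1 + t)) = Real.exp r * Real.exp (r * t) := by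
    rw [← Real.exp_add]; ring_nf
  rw [h2] at h1
  rw [le_div_iff₀ (by positivity)]
  have h3 : Real.exp (r * t) * Real.exp (-r * t) = 1 := by
    rw [← Real.exp_add]; simp
  calc (1 + t) ^ M * Real.exp (-r * t) * r ^ M = (r ^ M * (1 + t) ^ M) * Real.exp (-r * t) := by ring
    _ ≤ (Real.exp r * Real.exp (r * t) * M.factorial) * Real.exp (-r * t) := by gcongr
    _ = M.factorial * Real.exp r * (Real.exp (r * t) * Real.exp (-r * t)) := by ring
    _ = _ := by rw [h3, mul_one]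

section

variable {V : Type*} [NormedAddCommGroup V] [InnerProductSpace ℝ V] [FiniteDimensional ℝ V]
  [MeasurableSpace V] [BorelSpace V]

theorem integrable_of_pow_bound {f : V → ℝ} (hf : Continuous f) (h0 : ∀ y, 0 ≤ f y)
    (hb : ∃ C : ℝ, ∀ y, (1 + ‖y‖) ^ (Module.finrank ℝ V + 1) * f y ≤ C) : Integrable f := by
  obtain ⟨C, hC⟩ := hb
  have h1 : Integrable (fun y : V => C * (1 + ‖y‖) ^ (-((Module.finrank ℝ V : ℝ) + 1))) :=
    (integrable_one_add_norm (by linarith)).const_mul C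
  refine h1.mono' hf.aestronglyMeasurable (Eventually.of_forall fun y => ?_)
  rw [Real.norm_of_nonneg (h0 y)]
  have h2 : 0 < 1 + ‖y‖ := by positivity
  have h3 : (1 + ‖y‖) ^ (-((Module.finrank ℝ V : ℝ) + 1)) =
      ((1 + ‖y‖) ^ (Module.finrank ℝ V + 1))⁻¹ := by
    rw [Real.rpow_neg h2.le]
    congr 1
    exact_mod_cast Real.rpow_natCast (1 + ‖y‖) (Module.finrank ℝ V + 1)
  rw [h3, ← div_eq_mul_inv, le_div_iff₀ (by positivity)]
  linarith [hC y]

theorem integrable_pow_gauss (N : ℕ) {c : ℝ} (hc : 0 < c) :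
    Integrable (fun y : V => (1 + ‖y‖) ^ N * Real.exp (-c * ‖y‖ ^ 2)) := by
  refine integrable_of_pow_bound (by fun_prop) (fun y => by positivity) ?_
  obtain ⟨C, _, hC⟩ := pow_mul_gauss_le (Module.finrank ℝ V + 1 + N) hc
  refine ⟨C, fun y => ?_⟩
  rw [← mul_assoc, ← pow_add]
  exact hC ‖y‖ (norm_nonneg _)

theorem integrable_pow_exp (N : ℕ) {r : ℝ} (hr : 0 < r) :
    Integrable (fun y : V => (1 + ‖y‖) ^ N * Real.exp (-r * ‖y‖)) := by
  refine integrable_of_pow_bound (by fun_prop) (fun y => by positivity) ?_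
  obtain ⟨C, _, hC⟩ := pow_mul_exp_le (Module.finrank ℝ V + 1 + N) hr
  refine ⟨C, fun y => ?_⟩
  rw [← mul_assoc, ← pow_add]
  exact hC ‖y‖ (norm_nonneg _)

theorem integrable_exp_norm {r : ℝ} (hr : 0 < r) :
    Integrable (fun y : V => Real.exp (-r * ‖y‖)) := by
  simpa using integrable_pow_exp (V := V) 0 hr

end

end Pool.Agent.Q48.MDS
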