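import Pool.Agent.Q48.MDS.Flat

/-!
# The tube theorem with a flat piece
-/

set_option autoImplicit false
set_option linter.unusedSectionVars false

open MeasureTheory Set Filter Topology Metric Complex

namespace Pool.Agent.Q48.MDS

section general

variable {ι : Type*} [Fintype ι] [DecidableEq ι]

open scoped FourierTransform RealInnerProductSpace

/-- The tempered extension to the tube over the set on which the transform decays. -/
theorem bochner_P {Ω : Set (ι → ℝ)} (hΩ : IsOpen Ω) (hp : IsConnected Ω) {F : (ι → ℂ) → ℂ}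
    (hF : Tempered Ω F) {u : ι → ℂ} (hu : u ∈ tube Ω) :
    ∃ G : (ι → ℂ) → ℂ, Tempered (Pset F u) G ∧ EqOn G F (tube Ω) := by
  have hpre := hp.isPreconnected
  set P := Pset F u with hPdef
  have hsub : Ω ⊆ P := subset_Pset hΩ hpre hF hu
  set G : EuclideanSpace ℝ ι → (ι → ℂ) → ℂ := fun η z => lap F η u z * cexp (-gau η z) with hG
  have hGd : ∀ η, DifferentiableOn ℂ (G η) (tube P) := fun η =>
    (differentiableOn_lap hF η hu).mul (differentiable_gau η).neg.cexp.differentiableOn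
  have hGF : ∀ η, EqOn (G η) F (tube Ω) := by
    intro η z hz
    simp only [hG]
    rw [lap_eq hΩ hpre hF η hu hz, mul_assoc, ← Complex.exp_add]
    simp
  have hGG : ∀ η, EqOn (G 0) (G η) (tube P) := fun η =>
    eqOn_tube hΩ hp.nonempty (isOpen_Pset F u) (convex_Pset F u) hsub (hGd 0) (hGd η)
      (fun z hz => (hGF 0 hz).trans (hGF η hz).symm)
  have hT : Tempered P (G 0) := by
    refine ⟨hGd 0, fun K hK hc => ?_⟩
    -- a local bound
    have hloc : ∀ x ∈ K, ∃ (δ C : ℝ) (N : ℕ), 0 < δ ∧ 0 ≤ C ∧ ∀ z : ι → ℂ,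
        (fun i => (z i).re) ∈ ball x δ → ‖G 0 z‖ ≤ C * (1 + ‖fun i => (z i).im‖) ^ N := by
      intro x hx
      obtain ⟨δ, r, C, N, hδ, hr, hC0, hC⟩ := Pset_near (hK hx)
      set J := ∫ ξ : EuclideanSpace ℝ ι, Real.exp (-r * ‖ξ‖) with hJ
      have hJ0 : 0 ≤ J := integral_nonneg fun y => by positivity
      set D : ℝ := (Real.sqrt (Fintype.card ι) + 1) with hD
      have hD1 : 1 ≤ D := by rw [hD]; linarith [Real.sqrt_nonneg (Fintype.card ι : ℝ)]
      refine ⟨δ, C * D ^ N * J, N, hδ, by positivity, fun z hz => ?_⟩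
      have hzP : z ∈ tube P := ⟨r, C, N, hr, hC0, hC _ hz⟩
      rw [hGG (imV z) hzP]
      simp only [hG]
      rw [norm_mul]
      have h1 : ‖cexp (-gau (imV z) z)‖ ≤ 1 := by
        rw [Complex.exp_neg, norm_inv, norm_exp_gau]
        simp only [sub_self, norm_zero]
        apply inv_le_one_of_one_le₀
        have : (0 : ℝ) ≤ ∑ j, (z j).re ^ 2 := Finset.sum_nonneg fun j _ => sq_nonneg _
        simpa using this
      have h2 : ‖lap F (imV z) u z‖ ≤ C * (1 + ‖imV z‖) ^ N * J := by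
        unfold lap
        calc _ ≤ ∫ ξ : EuclideanSpace ℝ ι,
              ‖hat F (imV z) ξ u * cexp (((2 * Real.pi : ℝ) : ℂ) * pair z ξ)‖ :=
              norm_integral_le_integral_norm _
          _ ≤ ∫ ξ : EuclideanSpace ℝ ι, C * (1 + ‖imV z‖) ^ N * Real.exp (-r * ‖ξ‖) := by
              refine integral_mono_of_nonneg (Eventually.of_forall fun _ => norm_nonneg _)
                ((integrable_exp_norm hr).const_mul _) (Eventually.of_forall fun ξ => ?_)
              show ‖hat F (imV z) ξ u * cexp (((2 * Real.pi : ℝ) : ℂ) * pair z ξ)‖ ≤ _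
              rw [norm_mul, norm_exp_pair]
              exact hC _ hz (imV z) ξ
          _ = _ := integral_const_mul _ _
      have h3 : ‖imV z‖ ≤ D * ‖fun i => (z i).im‖ := by
        have h4 : ‖imV z‖ ^ 2 ≤ (Fintype.card ι : ℝ) * ‖fun i => (z i).im‖ ^ 2 := by
          rw [EuclideanSpace.norm_sq_eq]
          calc ∑ i, ‖imV z i‖ ^ 2 ≤ ∑ _i : ι, ‖fun i => (z i).im‖ ^ 2 := by
                refine Finset.sum_le_sum fun i _ => ?_
                have : ‖imV z i‖ ≤ ‖fun i => (z i).im‖ := norm_le_pi_norm (fun i => (z i).im) i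
                gcongr
            _ = _ := by simp
        have h5 : ‖imV z‖ ≤ Real.sqrt (Fintype.card ι) * ‖fun i => (z i).im‖ := by
          rw [← pow_le_pow_iff_left₀ (norm_nonneg _) (by positivity) two_ne_zero]
          rw [mul_pow, Real.sq_sqrt (by positivity)]
          exact h4
        refine h5.trans ?_
        gcongr
        rw [hD]; linarith
      have h6 : 1 + ‖imV z‖ ≤ D * (1 + ‖fun i => (z i).im‖) := by
        rw [mul_add, mul_one]; linarith
      calc ‖lap F (imV z) u z‖ * ‖cexp (-gau (imV z) z)‖ ≤ (C * (1 + ‖imV z‖) ^ N * J) * 1 := by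
            gcongr
        _ ≤ (C * (D * (1 + ‖fun i => (z i).im‖)) ^ N * J) * 1 := by gcongr
        _ = _ := by rw [mul_pow]; ring
    choose! δ C N hδ hC0 hC using hloc
    obtain ⟨t, ht, hcov⟩ := hc.elim_nhds_subcover (fun x => ball x (δ x))
      (fun x hx => ball_mem_nhds x (hδ x hx))
    refine ⟨∑ x ∈ t, C x, t.sup N, fun z hz => ?_⟩
    obtain ⟨x, hxt, hzx⟩ := mem_iUnion₂.1 (hcov hz)
    have h1 := hC x (ht x hxt) z hzx
    have h2 : 1 ≤ 1 + ‖fun i => (z i).im‖ := by linarith [norm_nonneg (fun i => (z i).im)]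
    calc ‖G 0 z‖ ≤ C x * (1 + ‖fun i => (z i).im‖) ^ N x := h1
      _ ≤ (∑ x ∈ t, C x) * (1 + ‖fun i => (z i).im‖) ^ t.sup N := by
          have e1 : C x ≤ ∑ x ∈ t, C x := Finset.single_le_sum (fun y hy => hC0 y (ht y hy)) hxt
          have e2 : (1 + ‖fun i => (z i).im‖) ^ N x ≤ (1 + ‖fun i => (z i).im‖) ^ t.sup N :=
            pow_le_pow_right₀ h2 (Finset.le_sup (f := N) hxt)
          have e3 : 0 ≤ C x := hC0 x (ht x hxt)
          gcongr
          exact e3.trans e1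
  exact ⟨G 0, hT, hGF 0⟩



/-- a point of the decay set on a segment towards a point at which the transform is bounded -/
theorem mem_Pset_of_flat {F : (ι → ℂ) → ℂ} {u : ι → ℂ} {x x' : ι → ℝ} {C : ℝ} {N : ℕ} (hC : 0 ≤ C)
    (h : ∀ η ξ : EuclideanSpace ℝ ι, ‖hat F η ξ u‖ * Real.exp (2 * Real.pi * ∑ j, x j * ξ j) ≤
      C * (1 + ‖η‖) ^ N) (hx' : x' ∈ Pset F u) {b : ℝ} (hb : 0 < b) (hb1 : b ≤ 1) :
    (1 - b) • x + b • x' ∈ Pset F u := by
  obtain ⟨r, C', N', hr, hC0', hC'⟩ := hx'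
  refine ⟨r * b, (C + 1) * (C' + 1), N + N', by positivity, by positivity, fun η ξ => ?_⟩
  have e1 : 2 * Real.pi * ∑ j, ((1 - b) • x + b • x') j * ξ j =
      (1 - b) * (2 * Real.pi * ∑ j, x j * ξ j) + b * (2 * Real.pi * ∑ j, x' j * ξ j) := by
    simp only [Pi.add_apply, Pi.smul_apply, smul_eq_mul, Finset.mul_sum]
    rw [← Finset.sum_add_distrib]
    refine Finset.sum_congr rfl fun j _ => ?_
    ring
  set T := ‖hat F η ξ u‖ with hT
  have hT0 : 0 ≤ T := norm_nonneg _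
  set A := T * Real.exp (2 * Real.pi * ∑ j, x j * ξ j) with hA
  set B := T * Real.exp (2 * Real.pi * ∑ j, x' j * ξ j) with hB
  have hA0 : 0 ≤ A := by positivity
  have hB0 : 0 ≤ B := by positivity
  have e2 : T * Real.exp (2 * Real.pi * ∑ j, ((1 - b) • x + b • x') j * ξ j) =
      A ^ (1 - b) * B ^ b := by
    rw [e1, Real.exp_add, hA, hB, Real.mul_rpow hT0 (Real.exp_pos _).le,
      Real.mul_rpow hT0 (Real.exp_pos _).le, ← Real.exp_mul, ← Real.exp_mul]
    have e3 : T = T ^ (1 - b) * T ^ b := by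
      rcases hT0.eq_or_lt with h0 | h0
      · rw [← h0, Real.zero_rpow hb.ne', mul_zero]
      · rw [← Real.rpow_add h0, sub_add_cancel, Real.rpow_one]
    conv_lhs => rw [e3]
    rw [mul_comm (1 - b) (2 * Real.pi * ∑ j, x j * ξ j), mul_comm b (2 * Real.pi * ∑ j, x' j * ξ j)]
    ring
  have hη : 1 ≤ 1 + ‖η‖ := by linarith [norm_nonneg η]
  have hηN : 1 ≤ (1 + ‖η‖) ^ N := one_le_pow₀ hη
  have hηN' : 1 ≤ (1 + ‖η‖) ^ N' := one_le_pow₀ hη
  have h1 : A ^ (1 - b) ≤ (C + 1) * (1 + ‖η‖) ^ N := by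
    have h2 : A ≤ (C + 1) * (1 + ‖η‖) ^ N := (h η ξ).trans (by nlinarith)
    have h3 : 1 ≤ (C + 1) * (1 + ‖η‖) ^ N := by nlinarith
    calc A ^ (1 - b) ≤ ((C + 1) * (1 + ‖η‖) ^ N) ^ (1 - b) :=
          Real.rpow_le_rpow hA0 h2 (by linarith)
      _ ≤ ((C + 1) * (1 + ‖η‖) ^ N) ^ (1 : ℝ) :=
          Real.rpow_le_rpow_of_exponent_le h3 (by linarith)
      _ = _ := Real.rpow_one _
  have h4 : B ^ b ≤ (C' + 1) * (1 + ‖η‖) ^ N' * Real.exp (-(r * b) * ‖ξ‖) := by
    have h2 : B ≤ ((C' + 1) * (1 + ‖η‖) ^ N') * Real.exp (-r * ‖ξ‖) := by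
      refine (hC' η ξ).trans ?_
      have := Real.exp_pos (-r * ‖ξ‖)
      gcongr
      linarith
    have h3 : 1 ≤ (C' + 1) * (1 + ‖η‖) ^ N' := by nlinarith
    calc B ^ b ≤ (((C' + 1) * (1 + ‖η‖) ^ N') * Real.exp (-r * ‖ξ‖)) ^ b :=
          Real.rpow_le_rpow hB0 h2 hb.le
      _ = ((C' + 1) * (1 + ‖η‖) ^ N') ^ b * Real.exp (-(r * b) * ‖ξ‖) := by
          rw [Real.mul_rpow (by positivity) (Real.exp_pos _).le, ← Real.exp_mul]
          congr 2
          ring
      _ ≤ ((C' + 1) * (1 + ‖η‖) ^ N') ^ (1 : ℝ) * Real.exp (-(r * b) * ‖ξ‖) := by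
          gcongr
      _ = _ := by rw [Real.rpow_one]
  rw [e2]
  calc A ^ (1 - b) * B ^ b ≤ ((C + 1) * (1 + ‖η‖) ^ N) *
        ((C' + 1) * (1 + ‖η‖) ^ N' * Real.exp (-(r * b) * ‖ξ‖)) := by
        gcongr
    _ = _ := by rw [pow_add]; ring

end general

/-- **The tube theorem with a flat piece.** Let `F` be tempered on the tube over a connected open
set `Ω` containing `(x; σ)` for all `x` in `[W, W']`.  If the functions `w ↦ F(w; σ + it)`, `t` real, continue from
`Re w = W` to the strip `a ≤ Re w ≤ W`, with a polynomial bound uniform in `t`, then `F` extends to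
a tempered function on the tube over a convex open set containing `Ω` and all the points `(x; σ)`
with `a < x ≤ W`. -/
theorem tube_flat {k : ℕ} {Ω : Set (Fin (k + 1) → ℝ)} (hΩ : IsOpen Ω) (hp : IsConnected Ω)
    {F : (Fin (k + 1) → ℂ) → ℂ} (hF : Tempered Ω F)
    {σ : Fin k → ℝ} {a W : ℝ} (haW : a ≤ W) (hW : xx σ W ∈ Ω) {g : (Fin k → ℝ) → ℂ → ℂ}
    (hd : ∀ t, DifferentiableOn ℂ (g t) {w | a ≤ w.re ∧ w.re ≤ W}) {C : ℝ} {N : ℕ}
    (hb : ∀ t w, a ≤ w.re → w.re ≤ W → ‖g t w‖ ≤ C * (1 + ‖t‖ + |w.im|) ^ N)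
    (he : ∀ t w, w.re = W → g t w = F (zz σ t w)) :
    ∃ (P : Set (Fin (k + 1) → ℝ)) (G : (Fin (k + 1) → ℂ) → ℂ), IsOpen P ∧ Convex ℝ P ∧ Ω ⊆ P ∧
      (∀ x : ℝ, a < x → x ≤ W → xx σ x ∈ P) ∧ Tempered P G ∧ EqOn G F (tube Ω) := by
  set u : Fin (k + 1) → ℂ := rl (xx σ W) with hu'
  have hu : u ∈ tube Ω := rl_mem hW
  obtain ⟨G, hG, hGF⟩ := bochner_P hΩ hp hF hu
  obtain ⟨C', hC0, hC'⟩ := hat_flat hF haW hW hd hb he
  have hsub : Ω ⊆ Pset F u := subset_Pset hΩ hp.isPreconnected hF hu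
  refine ⟨Pset F u, G, isOpen_Pset F u, convex_Pset F u, hsub, fun x hx hxW => ?_, hG, hGF⟩
  have haW' : a < W := hx.trans_le hxW
  have h1 := mem_Pset_of_flat hC0 hC' (hsub hW) (b := (x - a) / (W - a))
    (div_pos (by linarith) (by linarith)) (by rw [div_le_one (by linarith)]; linarith)
  have h2 : (1 - (x - a) / (W - a)) • xx σ a + ((x - a) / (W - a)) • xx σ W = xx σ x := by
    have h3 : W - a ≠ 0 := by linarith
    funext i
    refine Fin.cases ?_ (fun j => ?_) i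
    · simp only [Pi.add_apply, Pi.smul_apply, smul_eq_mul, xx_zero]
      field_simp
      ring
    · simp only [Pi.add_apply, Pi.smul_apply, smul_eq_mul, xx_succ]
      ring
  rwa [h2] at h1

end Pool.Agent.Q48.MDS
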