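import Pool.Agent.Q48.MDS.ZBase2
import Pool.Agent.Q48.MDS.Tsum

/-!
# Adding variables
-/

set_option autoImplicit false

open Complex Set

namespace Pool.Agent.Q48.MDS

/-- the region `w > x`, `s_j > 6` -/
def RS (k : ℕ) (x : ℝ) : Set (Fin (k + 1) → ℝ) := {y | x < y 0 ∧ ∀ j : Fin k, 6 < y j.succ}

theorem isOpen_RS (k : ℕ) (x : ℝ) : IsOpen (RS k x) := by
  have : RS k x = {y | x < y 0} ∩ ⋂ j : Fin k, {y | 6 < y j.succ} := by
    ext y; simp [RS]
  rw [this]
  exact (isOpen_lt continuous_const (continuous_apply 0)).inter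
    (isOpen_iInter_of_finite fun j => isOpen_lt continuous_const (continuous_apply _))

theorem convex_RS (k : ℕ) (x : ℝ) : Convex ℝ (RS k x) := by
  intro y hy z hz a b ha hb hab
  refine ⟨?_, fun j => ?_⟩
  · have h1 := hy.1
    have h2 := hz.1
    show x < a * y 0 + b * z 0
    rcases eq_or_lt_of_le ha with h | h
    · subst h
      have : b = 1 := by linarith
      subst this; linarith
    · obtain rfl : b = 1 - a := by linarith
      nlinarith [mul_pos h (sub_pos.2 h1), mul_nonneg hb (sub_pos.2 h2).le]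
  · have h1 := hy.2 j
    have h2 := hz.2 j
    show 6 < a * y j.succ + b * z j.succ
    rcases eq_or_lt_of_le ha with h | h
    · subst h
      have : b = 1 := by linarith
      subst this; linarith
    · obtain rfl : b = 1 - a := by linarith
      nlinarith [mul_pos h (sub_pos.2 h1), mul_nonneg hb (sub_pos.2 h2).le]

/-- The functions `F_m`, `m ≥ 1`, continue to `w > x`, `s_j > 6`, uniformly in `m`. -/
def Unif (k : ℕ) (x : ℝ) : Prop :=
  ∃ G : ℕ → (Fin (k + 1) → ℂ) → ℂ, (∀ m : ℕ, 1 ≤ m → DifferentiableOn ℂ (G m) (tube (RS k x))) ∧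
    (∀ K ⊆ RS k x, IsCompact K → ∃ (C : ℝ) (N : ℕ), 0 ≤ C ∧ ∀ m : ℕ, 1 ≤ m →
      ∀ z : Fin (k + 1) → ℂ, (fun i => (z i).re) ∈ K →
        ‖G m z‖ ≤ C * (m : ℝ) ^ 4 * (1 + ‖fun i => (z i).im‖) ^ N) ∧
    (∀ m : ℕ, 1 ≤ m → ∀ z ∈ tube (RS k x), 1 < (z 0).re → G m z = F k m z)

theorem unif_zero {θ x : ℝ} (hθ : 1 / 2 ≤ θ) (hx : θ < 2 * x)
    (hz : ∀ s : ℂ, θ < s.re → riemannZeta s ≠ 0) : Unif 0 x := by
  obtain ⟨C, N, g, hC, hg⟩ := base_cont hθ hx hz
  refine ⟨fun m z => g m (z 0), ?_, ?_, ?_⟩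
  · intro m hm z hzz
    have hz0 : x < (z 0).re := hzz.1
    have h1 : DifferentiableAt ℂ (g m) (z 0) :=
      (hg m hm).1.differentiableAt ((isOpen_lt continuous_const continuous_re).mem_nhds hz0)
    have h2 : DifferentiableAt ℂ (fun z : Fin (0 + 1) → ℂ => z 0) z :=
      (differentiable_apply (𝕜 := ℂ) (0 : Fin (0 + 1))).differentiableAt
    exact (DifferentiableAt.comp (g := g m) z h1 h2).differentiableWithinAt
  · intro K hK hc
    obtain ⟨E, hE⟩ := (hc.image ((continuous_apply (0 : Fin (0 + 1))).norm)).bddAbove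
    refine ⟨C * (1 + |E|) ^ N, N, by positivity, fun m hm z hzK => ?_⟩
    have hz0 : x < (z 0).re := (hK hzK).1
    have h1 := (hg m hm).2.2 (z 0) hz0
    have h2 : |(z 0).re| ≤ |E| := (hE ⟨_, hzK, rfl⟩).trans (le_abs_self E)
    have h3 : |(z 0).im| ≤ ‖fun i => (z i).im‖ := norm_le_pi_norm (fun i => (z i).im) 0
    have h4 := Complex.norm_le_abs_re_add_abs_im (z 0)
    have h5 : 1 + ‖z 0‖ ≤ (1 + |E|) * (1 + ‖fun i => (z i).im‖) := by
      nlinarith [abs_nonneg E, norm_nonneg (fun i => (z i).im)]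
    calc _ ≤ C * (m : ℝ) ^ 4 * (1 + ‖z 0‖) ^ N := h1
      _ ≤ C * (m : ℝ) ^ 4 * ((1 + |E|) * (1 + ‖fun i => (z i).im‖)) ^ N := by
          gcongr
      _ = _ := by rw [mul_pow]; ring
  · intro m hm z hzz h1
    have e : z = fun _ => z 0 := by
      funext i
      have hi : i = 0 := by apply Fin.ext; omega
      rw [hi]
    show g m (z 0) = F 0 m z
    rw [(hg m hm).2.1 (z 0) h1, e, F_zero_eq]

theorem F_sn {k M : ℕ} (z : Fin (k + 1) → ℂ) (s : ℂ) :
    F (k + 1) M (sn z s) =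
      (A (k + 1) M (sn z s) - (∏ j : Fin k, riemannZeta (z j.succ)) * riemannZeta s) *
        (∏ J : Finset (Fin k), (sigma J z - 1)) * Dlast (sn z s) := by
  unfold F
  rw [prod_subsets_succ, Fin.prod_univ_castSucc, sn_succ_last]
  simp_rw [sn_succ, sigma_map]
  have h2 : ∏ J : Finset (Fin k), (sigma (ins J) (sn z s) - 1) = Dlast (sn z s) := rfl
  rw [h2]
  ring

theorem coef_mul {k m n : ℕ} (hm : 1 ≤ m) (hn : 1 ≤ n) (z : Fin (k + 1) → ℂ)
    (d : {d : ℕ // FundDisc d}) : coef k (m * n) z d = coef k m z d * (kron d n : ℂ) := by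
  unfold coef
  rw [kron_mul hm hn]
  push_cast
  ring

/-- the series in the last variable -/
theorem series_last {k m : ℕ} (hm : 1 ≤ m) {z : Fin (k + 1) → ℂ} (hz : z ∈ tube (orth (k + 1)))
    {s : ℂ} (hs : 1 < s.re) :
    ∑' n : PN, ((n : ℕ) : ℂ) ^ (-s) * F k (m * n) z =
      (A (k + 1) m (sn z s) - (∏ j : Fin k, riemannZeta (z j.succ)) * riemannZeta s) *
        (∏ J : Finset (Fin k), (sigma J z - 1)) := by
  have hs0 : s ≠ 0 := by rintro rfl; simp at hs; linarith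
  set P := ∏ J : Finset (Fin k), (sigma J z - 1) with hP
  set Q := ∏ j : Fin k, riemannZeta (z j.succ) with hQ
  have sz : Summable (fun n : PN => ((n : ℕ) : ℂ) ^ (-s)) := by
    have := (summable_of_bdd (f := fun _ : ℕ => (1 : ℂ)) (fun n => by simp) hs).of_norm
    simp only [one_mul] at this
    exact this.comp_injective Subtype.val_injective
  have szn : Summable (fun n : PN => ‖((n : ℕ) : ℂ) ^ (-s)‖) := sz.norm
  have hzeta : riemannZeta s = ∑' n : PN, ((n : ℕ) : ℂ) ^ (-s) := by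
    have h1 := LSeries_one_eq_riemannZeta (s := s) hs
    rw [← h1, LSeries_eq hs0, tsum_PN _ (by rw [Nat.cast_zero, zero_cpow (neg_ne_zero.2 hs0), mul_zero])]
    congr 1
    funext n
    simp
  have hcs := (summable_coef k m hz)
  -- the double series
  have hdouble : Summable (fun x : {d : ℕ // FundDisc d} × PN =>
      coef k m z x.1 * (kron x.1 x.2 : ℂ) * ((x.2 : ℕ) : ℂ) ^ (-s)) := by
    have h1 := hcs.norm.mul_of_nonneg szn (fun d => norm_nonneg _) (fun n => norm_nonneg _)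
    refine Summable.of_norm_bounded h1 (fun x => ?_)
    rw [norm_mul, norm_mul]
    have h2 := norm_kron_le (x.1 : ℕ) (x.2 : ℕ)
    calc _ ≤ ‖coef k m z x.1‖ * 1 * ‖((x.2 : ℕ) : ℂ) ^ (-s)‖ := by gcongr
      _ = _ := by rw [mul_one]
  have hA : A (k + 1) m (sn z s) = ∑' n : PN, ((n : ℕ) : ℂ) ^ (-s) * A k (m * n) z := by
    rw [A_sn]
    have h1 : ∀ d : {d : ℕ // FundDisc d}, coef k m z d * Lchi d s =
        ∑' n : PN, coef k m z d * (kron d n : ℂ) * ((n : ℕ) : ℂ) ^ (-s) := by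
      intro d
      unfold Lchi
      rw [LSeries_eq hs0, tsum_PN _ (by rw [Nat.cast_zero, zero_cpow (neg_ne_zero.2 hs0), mul_zero]),
        ← tsum_mul_left]
      congr 1
      funext n
      ring
    simp_rw [h1]
    rw [← Summable.tsum_comm (f := fun (d : {d : ℕ // FundDisc d}) (n : PN) =>
      coef k m z d * (kron d n : ℂ) * ((n : ℕ) : ℂ) ^ (-s)) hdouble]
    congr 1
    funext n
    have h2 : A k (m * n) z = ∑' d : {d : ℕ // FundDisc d}, coef k (m * n) z d := rfl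
    rw [h2, ← tsum_mul_left]
    congr 1
    funext d
    rw [coef_mul hm n.2]
    ring
  have hsA : Summable (fun n : PN => ((n : ℕ) : ℂ) ^ (-s) * A k (m * n) z) := by
    have h1 := hdouble.prod_symm.prod
    refine h1.congr fun n => ?_
    have h2 : A k (m * n) z = ∑' d : {d : ℕ // FundDisc d}, coef k (m * n) z d := rfl
    rw [h2, ← tsum_mul_left]
    congr 1
    funext d
    rw [coef_mul hm n.2]
    simp only [Prod.swap_prod_mk]
    ring
  have h3 : ∀ n : PN, ((n : ℕ) : ℂ) ^ (-s) * F k (m * n) z =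
      (((n : ℕ) : ℂ) ^ (-s) * A k (m * n) z - Q * ((n : ℕ) : ℂ) ^ (-s)) * P := by
    intro n
    unfold F
    rw [← hP, ← hQ]
    ring
  simp_rw [h3]
  rw [tsum_mul_right, hsA.tsum_sub (sz.mul_left Q), tsum_mul_left, ← hA, ← hzeta]

end Pool.Agent.Q48.MDS
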