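import Pool.Agent.Q48.MDS.ZAdd
import Pool.Agent.Q48.MDS.ThmA

/-!
# Adding variables
-/

set_option autoImplicit false

open Complex Set

namespace Pool.Agent.Q48.MDS

theorem init_mem {k : ℕ} {x : ℝ} {y : Fin (k + 2) → ℝ} (hy : y ∈ RS (k + 1) x) :
    Fin.init y ∈ RS k x ∧ 6 < y (Fin.last (k + 1)) := by
  refine ⟨⟨hy.1, fun j => ?_⟩, ?_⟩
  · have := hy.2 j.castSucc
    exact this
  · have := hy.2 (Fin.last k)
    exact this

theorem im_init_le {k : ℕ} (z : Fin (k + 2) → ℂ) :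
    ‖fun i => ((Fin.init z : Fin (k + 1) → ℂ) i).im‖ ≤ ‖fun i => (z i).im‖ := by
  rw [pi_norm_le_iff_of_nonneg (norm_nonneg _)]
  intro i
  exact norm_le_pi_norm (fun i => (z i).im) i.castSucc

theorem continuous_init {k : ℕ} : Continuous (fun y : Fin (k + 2) → ℝ => (Fin.init y : Fin (k + 1) → ℝ)) :=
  continuous_pi fun i => continuous_apply i.castSucc

/-- **Adding a variable.** -/
theorem unif_succ {k : ℕ} {x : ℝ} (h : Unif k x) : Unif (k + 1) x := by
  obtain ⟨G, hGd, hGb, hGe⟩ := h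
  -- the bound of the terms on a compact set
  have key : ∀ K ⊆ RS (k + 1) x, IsCompact K → ∃ (C : ℝ) (N : ℕ), 0 ≤ C ∧ ∀ m : ℕ, 1 ≤ m →
      ∀ z : Fin (k + 2) → ℂ, (fun i => (z i).re) ∈ K → ∀ n : PN,
        ‖((n : ℕ) : ℂ) ^ (-(z (Fin.last (k + 1)))) * G (m * n) (Fin.init z)‖ ≤
          (C * (m : ℝ) ^ 4 * ((n : ℕ) : ℝ) ^ (-2 : ℝ)) * (1 + ‖fun i => (z i).im‖) ^ N := by
    intro K hK hc
    have hK' : (fun y : Fin (k + 2) → ℝ => (Fin.init y : Fin (k + 1) → ℝ)) '' K ⊆ RS k x := by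
      rintro _ ⟨y, hy, rfl⟩
      exact (init_mem (hK hy)).1
    obtain ⟨C, N, hC, hb⟩ := hGb _ hK' (hc.image continuous_init)
    refine ⟨C, N, hC, fun m hm z hz n => ?_⟩
    have h1 := hb (m * n) (Nat.mul_pos hm n.2) (Fin.init z) ⟨_, hz, rfl⟩
    have hn1 : (1 : ℝ) ≤ ((n : ℕ) : ℝ) := by exact_mod_cast n.2
    have hn0 : (0 : ℝ) < ((n : ℕ) : ℝ) := by linarith
    have h6 : 6 < (z (Fin.last (k + 1))).re := (init_mem (hK hz)).2
    have h2 : ‖((n : ℕ) : ℂ) ^ (-(z (Fin.last (k + 1))))‖ ≤ ((n : ℕ) : ℝ) ^ (-6 : ℝ) := by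
      rw [norm_natCast_cpow_of_pos n.2]
      apply Real.rpow_le_rpow_of_exponent_le hn1
      simp; linarith
    have h3 : ‖fun i => ((Fin.init z : Fin (k + 1) → ℂ) i).im‖ ≤ ‖fun i => (z i).im‖ := im_init_le z
    have h4 : ((n : ℕ) : ℝ) ^ (-6 : ℝ) * ((n : ℕ) : ℝ) ^ (4 : ℕ) = ((n : ℕ) : ℝ) ^ (-2 : ℝ) := by
      rw [← Real.rpow_natCast, ← Real.rpow_add hn0]
      norm_num
    rw [norm_mul]
    calc _ ≤ ((n : ℕ) : ℝ) ^ (-6 : ℝ) * (C * (((m * n : ℕ) : ℝ)) ^ 4 *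
          (1 + ‖fun i => ((Fin.init z : Fin (k + 1) → ℂ) i).im‖) ^ N) := by gcongr
      _ ≤ ((n : ℕ) : ℝ) ^ (-6 : ℝ) * (C * (((m * n : ℕ) : ℝ)) ^ 4 *
          (1 + ‖fun i => (z i).im‖) ^ N) := by gcongr
      _ = C * (m : ℝ) ^ 4 * (((n : ℕ) : ℝ) ^ (-6 : ℝ) * ((n : ℕ) : ℝ) ^ (4 : ℕ)) *
          (1 + ‖fun i => (z i).im‖) ^ N := by push_cast; ring
      _ = _ := by rw [h4]
  have hsum2 : Summable (fun n : PN => ((n : ℕ) : ℝ) ^ (-2 : ℝ)) :=
    (Real.summable_nat_rpow.2 (by norm_num)).comp_injective Subtype.val_injective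
  -- the series
  set T : ℕ → (Fin (k + 2) → ℂ) → ℂ := fun m z =>
    ∑' n : PN, ((n : ℕ) : ℂ) ^ (-(z (Fin.last (k + 1)))) * G (m * n) (Fin.init z) with hT
  have hTt : ∀ m : ℕ, 1 ≤ m → Tempered (RS (k + 1) x) (T m) := by
    intro m hm
    refine tempered_tsum (isOpen_RS (k + 1) x)
      (fun (n : PN) z => ((n : ℕ) : ℂ) ^ (-(z (Fin.last (k + 1)))) * G (m * n) (Fin.init z)) ?_ ?_
    · intro n z hz
      have hz' : (Fin.init z : Fin (k + 1) → ℂ) ∈ tube (RS k x) :=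
        (init_mem (y := fun i => (z i).re) hz).1
      have d1 : DifferentiableAt ℂ (G (m * n)) (Fin.init z) :=
        (hGd (m * n) (Nat.mul_pos hm n.2)).differentiableAt ((isOpen_tube (isOpen_RS k x)).mem_nhds hz')
      have d2 : DifferentiableAt ℂ (fun z : Fin (k + 2) → ℂ => (Fin.init z : Fin (k + 1) → ℂ)) z := by
        rw [differentiableAt_pi]
        intro i
        exact (differentiable_apply (𝕜 := ℂ) (i.castSucc : Fin (k + 2))).differentiableAt
      have hn0 : ((n : ℕ) : ℂ) ≠ 0 := by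
        have := n.2
        exact_mod_cast (by omega : (n : ℕ) ≠ 0)
      have d3 : DifferentiableAt ℂ (fun z : Fin (k + 2) → ℂ => ((n : ℕ) : ℂ) ^ (-(z (Fin.last (k + 1))))) z :=
        DifferentiableAt.const_cpow
          ((differentiable_apply (𝕜 := ℂ) (Fin.last (k + 1))).differentiableAt).neg (Or.inl hn0)
      exact (d3.mul (DifferentiableAt.comp (g := G (m * n)) z d1 d2)).differentiableWithinAt
    · intro K hK hc
      obtain ⟨C, N, hC, hb⟩ := key K hK hc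
      exact ⟨fun n => C * (m : ℝ) ^ 4 * ((n : ℕ) : ℝ) ^ (-2 : ℝ), N, hsum2.mul_left _,
        fun n => by positivity, fun z hz n => hb m hm z hz n⟩
  have hD : Tempered (RS (k + 1) x) (Dlast : (Fin (k + 2) → ℂ) → ℂ) :=
    tempered_finsetProd _ _ fun J => tempered_sigma (ins J)
  refine ⟨fun m z => T m z * Dlast z, fun m hm => ((hTt m hm).mul hD).1, ?_, ?_⟩
  · intro K hK hc
    obtain ⟨C, N, hC, hb⟩ := key K hK hc
    obtain ⟨C', N', hb'⟩ := hD.2 K hK hc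
    refine ⟨(C * ∑' n : PN, ((n : ℕ) : ℝ) ^ (-2 : ℝ)) * |C'|, N + N', ?_, fun m hm z hz => ?_⟩
    · have : 0 ≤ ∑' n : PN, ((n : ℕ) : ℝ) ^ (-2 : ℝ) := tsum_nonneg fun n => by positivity
      positivity
    · have h1 : ‖T m z‖ ≤ (C * (m : ℝ) ^ 4 * ∑' n : PN, ((n : ℕ) : ℝ) ^ (-2 : ℝ)) *
          (1 + ‖fun i => (z i).im‖) ^ N := by
        have h2 := tsum_of_norm_bounded
          (((hsum2.mul_left (C * (m : ℝ) ^ 4)).mul_right ((1 + ‖fun i => (z i).im‖) ^ N)).hasSum)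
          (hb m hm z hz)
        rw [tsum_mul_right, tsum_mul_left] at h2
        exact h2
      have h2 : ‖Dlast z‖ ≤ |C'| * (1 + ‖fun i => (z i).im‖) ^ N' := (hb' z hz).trans (by
        gcongr; exact le_abs_self C')
      rw [norm_mul]
      calc _ ≤ ((C * (m : ℝ) ^ 4 * ∑' n : PN, ((n : ℕ) : ℝ) ^ (-2 : ℝ)) *
            (1 + ‖fun i => (z i).im‖) ^ N) * (|C'| * (1 + ‖fun i => (z i).im‖) ^ N') := by
            apply mul_le_mul h1 h2 (norm_nonneg _)
            have : 0 ≤ ∑' n : PN, ((n : ℕ) : ℝ) ^ (-2 : ℝ) := tsum_nonneg fun n => by positivity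
            positivity
        _ = _ := by rw [pow_add]; ring
  · intro m hm z hz h1
    have hz' := init_mem (y := fun i => (z i).re) hz
    have e : z = sn (Fin.init z) (z (Fin.last (k + 1))) := (Fin.snoc_init_self z).symm
    have h6 : 6 < (z (Fin.last (k + 1))).re := hz'.2
    have hzo : (Fin.init z : Fin (k + 1) → ℂ) ∈ tube (orth (k + 1)) := by
      intro i
      refine Fin.cases ?_ (fun j => ?_) i
      · exact h1
      · have : 6 < ((Fin.init z : Fin (k + 1) → ℂ) j.succ).re := hz'.1.2 j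
        linarith
    have h2 : T m z = (A (k + 1) m z - (∏ j : Fin k, riemannZeta ((Fin.init z : Fin (k + 1) → ℂ) j.succ)) *
        riemannZeta (z (Fin.last (k + 1)))) *
        (∏ J : Finset (Fin k), (sigma J (Fin.init z : Fin (k + 1) → ℂ) - 1)) := by
      have h3 := series_last hm hzo (s := z (Fin.last (k + 1))) (by linarith)
      rw [← e] at h3
      rw [← h3]
      simp only [hT]
      congr 1
      funext n
      rw [hGe (m * n) (Nat.mul_pos hm n.2) (Fin.init z) hz'.1 h1]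
    have h4 := F_sn (M := m) (Fin.init z : Fin (k + 1) → ℂ) (z (Fin.last (k + 1)))
    rw [← e] at h4
    show T m z * Dlast z = _
    rw [h4, h2]

theorem unif_all {θ x : ℝ} (hθ : 1 / 2 ≤ θ) (hx : θ < 2 * x)
    (hz : ∀ s : ℂ, θ < s.re → riemannZeta s ≠ 0) (k : ℕ) : Unif k x := by
  induction k with
  | zero => exact unif_zero hθ hx hz
  | succ k ih => exact unif_succ ih

/-- **The converse.** In a zero-free half-plane the function continues. -/
theorem continuesTo_of_zero_free {θ x : ℝ} (hθ : 1 / 2 ≤ θ) (hx : θ < 2 * x)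
    (hz : ∀ s : ℂ, θ < s.re → riemannZeta s ≠ 0) (k : ℕ) {M : ℕ} (hM : 1 ≤ M)
    {p : Fin (k + 1) → ℝ} (hp : p ∈ RS k x) : ContinuesTo k M p := by
  obtain ⟨G, hGd, hGb, hGe⟩ := unif_all hθ hx hz k
  have hG : Tempered (RS k x) (G M) := by
    refine ⟨hGd M hM, fun K hK hc => ?_⟩
    obtain ⟨C, N, hC, hb⟩ := hGb K hK hc
    exact ⟨C * (M : ℝ) ^ 4, N, fun z hz => hb M hM z hz⟩
  have he : EqOn (G M) (Bc k M) (tube (RS k x ∩ orth (k + 1))) := by
    intro z hz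
    rw [hGe M hM z hz.1 (hz.2 0), Bc_eq_F k M hz.2]
  obtain ⟨g, hg, hg1, hg2⟩ := tempered_glue (isOpen_RS k x) (isOpen_orth (k + 1)) hG
    (tempered_Bc_orth k M) he
  refine ⟨RS k x ∪ orth (k + 1), (isOpen_RS k x).union (isOpen_orth _), ⟨⟨p, Or.inl hp⟩, ?_⟩,
    subset_union_right, Or.inl hp, g, hg, fun z hz => ?_⟩
  · set c : Fin (k + 1) → ℝ := fun _ => max x 0 + 7 with hc
    have h1 : c ∈ RS k x := ⟨by rw [hc]; linarith [le_max_left x 0], fun j => by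
      rw [hc]; linarith [le_max_right x 0]⟩
    have h2 : c ∈ orth (k + 1) := fun i => by rw [hc]; linarith [le_max_right x 0]
    exact IsPreconnected.union c h1 h2 (convex_RS k x).isPreconnected (convex_orth _).isPreconnected
  · rw [hg2 hz, Bc_eq_F k M hz]

end Pool.Agent.Q48.MDS
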