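import Pool.Agent.Q48.MDS.ZMean3
import Pool.Agent.H491R3.J.FE

/-!
# For `0 < Re w < 1/2` some `L(w, (·/d))`, `d` odd and squarefree, does not vanish
-/

set_option autoImplicit false

open Complex

namespace Pool.Agent.Q48.MDS

open Pool.Agent.H491R3.J (jchi LJ OS L chi)

theorem changeLevel_natCast {m N : ℕ} [NeZero N] (h : m ∣ N) (χ : DirichletCharacter ℂ m) (n : ℕ) :
    DirichletCharacter.changeLevel h χ (n : ZMod N) =
      if Nat.Coprime n N then χ (n : ZMod m) else 0 := by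
  split_ifs with hc
  · have hu : IsUnit (n : ZMod N) := (ZMod.isUnit_iff_coprime n N).2 hc
    obtain ⟨a, ha⟩ := hu
    rw [← ha, DirichletCharacter.changeLevel_eq_cast_of_dvd χ h a, ha, ZMod.cast_natCast h]
  · apply MulChar.map_nonunit
    intro hu
    exact hc ((ZMod.isUnit_iff_coprime n N).1 hu)

theorem char_ext {N : ℕ} [NeZero N] {χ χ' : DirichletCharacter ℂ N}
    (h : ∀ n : ℕ, Nat.Coprime n N → χ (n : ZMod N) = χ' (n : ZMod N)) : χ = χ' := by
  ext a
  have h1 : (((a : ZMod N).val : ℕ) : ZMod N) = a := ZMod.natCast_zmod_val _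
  rw [← h1]
  apply h
  apply (ZMod.isUnit_iff_coprime _ N).1
  rw [h1]
  exact a.isUnit

theorem jchi_changeLevel {d m : ℕ} [NeZero d] [NeZero (d * m ^ 2)] :
    jchi (d * m ^ 2) = DirichletCharacter.changeLevel (Dvd.intro (m ^ 2) rfl) (jchi d) := by
  apply char_ext
  intro n hc
  rw [changeLevel_natCast, if_pos hc, jchi_apply, jchi_apply]
  have hcm : Nat.Coprime n m := Nat.Coprime.coprime_dvd_right ⟨d * m, by ring⟩ hc
  have hd0 : d ≠ 0 := NeZero.ne d
  have hm0 : m ^ 2 ≠ 0 := by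
    intro h0
    exact NeZero.ne (d * m ^ 2) (by rw [h0, mul_zero])
  rw [jacobiSym.mul_right' _ hd0 hm0, jacobiSym.pow_right]
  have : jacobiSym (n : ℤ) m ^ 2 = 1 := jacobiSym.sq_one (by exact_mod_cast hcm)
  rw [this, mul_one]

theorem LJ_zero {s : ℂ} (hs : s ≠ 1) (h : ∀ d : OS, L d s = 0) {l : ℕ} (ho : Odd l)
    (hsq : ¬ IsSquare l) : LJ l s = 0 := by
  obtain ⟨d, m, hdm, hd⟩ := Nat.sq_mul_squarefree l
  have hl0 : l ≠ 0 := by
    rintro rfl
    exact hsq ⟨0, rfl⟩
  have hd0 : d ≠ 0 := by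
    rintro rfl
    exact not_squarefree_zero hd
  have hm0 : m ≠ 0 := by
    rintro rfl
    apply hl0
    rw [← hdm]; ring
  have hod : Odd d := by
    rw [← hdm] at ho
    exact (Nat.odd_mul.1 ho).2
  have hd1 : 1 < d := by
    by_contra hcon
    have : d = 1 := by omega
    apply hsq
    rw [← hdm, this]
    exact ⟨m, by ring⟩
  have e : l = d * m ^ 2 := by rw [← hdm]; ring
  subst e
  have i1 : NeZero d := ⟨hd0⟩
  have i2 : NeZero (d * m ^ 2) := ⟨hl0⟩
  unfold LJ
  rw [dif_neg hl0, jchi_changeLevel, DirichletCharacter.LFunction_changeLevel _ _ (Or.inr hs)]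
  have := h ⟨d, hod, hd, hd1⟩
  unfold L chi at this
  rw [this, zero_mul]

/-- **Non-vanishing.** For `0 < Re w < 1/2` there is an odd squarefree `d > 1` with
`L(w, (·/d)) ≠ 0`. -/
theorem exists_OS {w : ℂ} (h0 : 0 < w.re) (h1 : w.re < 1 / 2) : ∃ d : OS, L d w ≠ 0 := by
  by_contra hcon
  have hall : ∀ d : OS, L d w = 0 := by
    intro d
    by_contra h
    exact hcon ⟨d, h⟩
  have hall' : ∀ d : OS, L d (1 - w) = 0 := by
    intro d
    rw [Pool.Agent.H491R3.J.L_one_sub d h0, hall d, mul_zero]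
  have hre : (1 - w).re = 1 - w.re := by simp
  obtain ⟨l, ho, hs, hne⟩ := exists_ne_zero (s := 1 - w) (by rw [hre]; linarith) (by rw [hre]; linarith)
  apply hne
  apply LJ_zero _ hall' ho hs
  intro h
  have : w = 0 := by linear_combination -h
  rw [this] at h0
  simp at h0

end Pool.Agent.Q48.MDS
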