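import Pool.Agent.Q48.MDS.ZTrans
import Pool.Agent.Q48.MDS.ZFE
import Pool.Agent.H313R3.TK.J

/-!
# The barrier
-/

set_option autoImplicit false

open Complex Set

namespace Pool.Agent.Q48.MDS

open Pool.Agent.H491R3.J (jchi LJ OS L chi)

theorem kronTwo_odd {n : ℕ} (hn : Odd n) : kronTwo n * kronTwo n = 1 := by
  unfold kronTwo
  have := Nat.odd_iff.1 hn
  by_cases h : n % 8 = 1 ∨ n % 8 = 7
  · rw [if_pos h]; norm_num
  · rw [if_neg h, if_pos (by omega)]; norm_num

theorem kron_odd_right (n : ℕ) {l : ℕ} (hl : Odd l) : kron n l = jacobiSym n l := by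
  unfold kron
  have h : padicValNat 2 l = 0 := padicValNat.eq_zero_of_not_dvd (by
    intro h
    exact (Nat.not_even_iff_odd.2 hl) (even_iff_two_dvd.2 h))
  rw [h]
  simp

theorem kron_sq_odd {n N : ℕ} (hn : Odd n) (hN : 1 ≤ N) :
    kron n N * kron n N = if Nat.Coprime n N then 1 else 0 := by
  set N' := N / 2 ^ padicValNat 2 N with hN'
  have hN'0 : N' ≠ 0 := by
    have : Fact (Nat.Prime 2) := ⟨Nat.prime_two⟩
    have := Nat.div_pos (Nat.le_of_dvd (by omega) (pow_padicValNat_dvd (p := 2) (n := N)))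
      (by positivity)
    omega
  have i1 : NeZero N' := ⟨hN'0⟩
  have hNN : N = 2 ^ padicValNat 2 N * N' := by
    have : Fact (Nat.Prime 2) := ⟨Nat.prime_two⟩
    exact (Nat.mul_div_cancel' pow_padicValNat_dvd).symm
  have hco : Nat.Coprime n N ↔ Nat.Coprime n N' := by
    rw [hNN, Nat.coprime_mul_iff_right]
    constructor
    · exact fun h => h.2
    · exact fun h => ⟨Nat.Coprime.pow_right _ (Nat.coprime_two_right.2 hn), h⟩
  unfold kron
  rw [← hN']
  have h1 : kronTwo n ^ padicValNat 2 N * jacobiSym n N' * (kronTwo n ^ padicValNat 2 N * jacobiSym n N') =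
      (kronTwo n * kronTwo n) ^ padicValNat 2 N * (jacobiSym n N' * jacobiSym n N') := by
    rw [mul_pow]; ring
  rw [h1, kronTwo_odd hn, one_pow, one_mul, ← sq]
  split_ifs with h
  · exact jacobiSym.sq_one (by exact_mod_cast (hco.1 h))
  · have : jacobiSym (n : ℤ) N' = 0 := by
      rw [jacobiSym.eq_zero_iff_not_coprime]
      intro h2
      apply h
      rw [hco]
      rwa [Int.gcd_natCast_natCast] at h2
    rw [this]; norm_num

theorem kron_four {n : ℕ} (hn : Odd n) : kron n 4 = 1 := by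
  have h1 : kron n 4 = kron n 2 * kron n 2 := by
    rw [show (4 : ℕ) = 2 * 2 by norm_num, kron_mul (by norm_num) (by norm_num)]
  rw [h1, kron_sq_odd hn (by norm_num), if_pos (Nat.coprime_two_right.2 hn)]

/-- the character modulo 4 -/
noncomputable def c4 : DirichletCharacter ℂ 4 := ZMod.χ₄.ringHomComp (Int.castRingHom ℂ)

theorem c4_apply (n : ℕ) : c4 (n : ZMod 4) = ((ZMod.χ₄ (n : ZMod 4) : ℤ) : ℂ) := rfl

/-- the modulus -/
def QM (M l r : ℕ) : ℕ := 4 * M * l * r

theorem l_dvd (M l r : ℕ) : l ∣ QM M l r := ⟨4 * M * r, by unfold QM; ring⟩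
theorem four_dvd (M l r : ℕ) : 4 ∣ QM M l r := ⟨M * l * r, by unfold QM; ring⟩

/-- the two characters -/
noncomputable def psa (M l r : ℕ) [NeZero l] : DirichletCharacter ℂ (QM M l r) :=
  DirichletCharacter.changeLevel (l_dvd M l r) (jchi l)

noncomputable def psb (M l r : ℕ) [NeZero l] : DirichletCharacter ℂ (QM M l r) :=
  psa M l r * DirichletCharacter.changeLevel (four_dvd M l r) c4

theorem f1_val {M l r : ℕ} [NeZero l] [NeZero (QM M l r)] (hM : 1 ≤ M) (hr : 1 ≤ r) (hl : Odd l)
    (n : ℕ) : f1 (M * (4 * M * l * r ^ 2)) n =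
      1 / 2 * (psa M l r (n : ZMod (QM M l r)) + psb M l r (n : ZMod (QM M l r))) := by
  have hl1 : 1 ≤ l := hl.pos
  unfold psb
  rw [MulChar.mul_apply]
  unfold psa
  rw [changeLevel_natCast, changeLevel_natCast, jchi_apply, c4_apply]
  by_cases ho : Odd n
  · have hk : kron n (M * (4 * M * l * r ^ 2)) =
        (kron n M * kron n M) * (kron n r * kron n r) * jacobiSym n l := by
      have e1 : M * (4 * M * l * r ^ 2) = M * (4 * (M * (l * (r * r)))) := by ring
      have p1 : 1 ≤ r * r := Nat.mul_pos hr hr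
      have p2 : 1 ≤ l * (r * r) := Nat.mul_pos hl1 p1
      have p3 : 1 ≤ M * (l * (r * r)) := Nat.mul_pos hM p2
      rw [e1, kron_mul hM (by omega), kron_mul (by norm_num) p3, kron_mul hM p2, kron_mul hl1 p1,
        kron_mul hr hr, kron_four ho, kron_odd_right n hl]
      ring
    have hq : Nat.Coprime n (QM M l r) ↔ (Nat.Coprime n M ∧ Nat.Coprime n r) ∧ Nat.Coprime n l := by
      unfold QM
      rw [Nat.coprime_mul_iff_right, Nat.coprime_mul_iff_right, Nat.coprime_mul_iff_right]
      have : Nat.Coprime n 4 := by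
        have := Nat.Coprime.pow_right 2 (Nat.coprime_two_right.2 ho)
        simpa using this
      tauto
    unfold f1
    rw [hk, kron_sq_odd ho hM, kron_sq_odd ho hr, ZMod.χ₄_nat_eq_if_mod_four]
    have hodd := Nat.odd_iff.1 ho
    rw [if_neg (show ¬ (n % 2 = 0) by omega)]
    by_cases hc : Nat.Coprime n (QM M l r)
    · obtain ⟨⟨h1, h2⟩, h3⟩ := hq.1 hc
      rw [if_pos hc, if_pos hc, if_pos h1, if_pos h2]
      by_cases h4 : n % 4 = 1
      · rw [if_pos h4, if_pos h4]; push_cast; ring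
      · rw [if_neg h4, if_neg h4]; push_cast; ring
    · rw [if_neg hc, if_neg hc]
      have h0 : (if n % 4 = 1 then
          ((((if Nat.Coprime n M then 1 else 0) * (if Nat.Coprime n r then 1 else 0) *
            jacobiSym n l : ℤ)) : ℂ) else 0) = 0 := by
        by_cases h4 : n % 4 = 1
        · rw [if_pos h4]
          by_cases h1 : Nat.Coprime n M
          · by_cases h2 : Nat.Coprime n r
            · have h3 : ¬ Nat.Coprime n l := fun h3 => hc (hq.2 ⟨⟨h1, h2⟩, h3⟩)
              have : jacobiSym (n : ℤ) l = 0 := by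
                rw [jacobiSym.eq_zero_iff_not_coprime]
                intro h5
                apply h3
                rwa [Int.gcd_natCast_natCast] at h5
              rw [this]; simp
            · rw [if_neg h2]; simp
          · rw [if_neg h1]; simp
        · rw [if_neg h4]
      rw [h0]; ring
  · have hc : ¬ Nat.Coprime n (QM M l r) := by
      intro hc
      apply ho
      have h2 : (2 : ℕ) ∣ QM M l r := ⟨2 * M * l * r, by unfold QM; ring⟩
      exact Nat.coprime_two_right.1 (Nat.Coprime.coprime_dvd_right h2 hc)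
    unfold f1
    rw [if_neg hc, if_neg hc, if_neg]
    · ring
    · intro h
      apply ho
      rw [Nat.odd_iff]; omega

theorem char_tsum {N : ℕ} [NeZero N] (χ : DirichletCharacter ℂ N) {w : ℂ} (hw : 1 < w.re) :
    χ.LFunction w = ∑' n : ℕ, χ (n : ZMod N) * (n : ℂ) ^ (-w) := by
  have hw0 : w ≠ 0 := by rintro rfl; simp at hw; linarith
  rw [DirichletCharacter.LFunction_eq_LSeries χ hw, LSeries_eq hw0]

theorem f1_series {M l r : ℕ} [NeZero l] [NeZero (QM M l r)] (hM : 1 ≤ M) (hr : 1 ≤ r) (hl : Odd l)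
    {w : ℂ} (hw : 1 < w.re) : LSeries (f1 (M * (4 * M * l * r ^ 2))) w =
      1 / 2 * ((psa M l r).LFunction w + (psb M l r).LFunction w) := by
  have hw0 : w ≠ 0 := by rintro rfl; simp at hw; linarith
  have sa := (summable_of_bdd (f := fun n : ℕ => psa M l r (n : ZMod (QM M l r)))
    (fun n => DirichletCharacter.norm_le_one _ _) hw).of_norm
  have sb := (summable_of_bdd (f := fun n : ℕ => psb M l r (n : ZMod (QM M l r)))
    (fun n => DirichletCharacter.norm_le_one _ _) hw).of_norm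
  rw [LSeries_eq hw0, char_tsum _ hw, char_tsum _ hw, ← sa.tsum_add sb, ← tsum_mul_left]
  congr 1
  funext n
  rw [f1_val hM hr hl]
  ring

theorem sum_zero {M l r : ℕ} [NeZero l] [NeZero (QM M l r)] (hM : 1 ≤ M) (hr : 1 ≤ r) (hl : Odd l)
    {x : ℝ} (h : ContinuesTo 0 (M * (4 * M * l * r ^ 2)) (fun _ => x)) {w₀ : ℂ} (hw : x < w₀.re)
    (hw1 : w₀ ≠ 1) (hζ : riemannZeta (2 * w₀) = 0) :
    (psa M l r).LFunction w₀ + (psb M l r).LFunction w₀ = 0 := by
  obtain ⟨Ea, hEa, hEa'⟩ := exists_entire (psa M l r)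
  obtain ⟨Eb, hEb, hEb'⟩ := exists_entire (psb M l r)
  have hl1 : 1 ≤ l := hl.pos
  have h1 := zero_transfer (m := M * (4 * M * l * r ^ 2))
    (Nat.mul_pos hM (Nat.mul_pos (Nat.mul_pos (Nat.mul_pos (by norm_num) hM) hl1) (by positivity)))
    (⟨M * (2 * M * l * r ^ 2), by ring⟩) h
    (E := fun w => 1 / 2 * (Ea w + Eb w)) ((hEa.add hEb).const_mul _) (fun w hw => by
      have hw1 : w ≠ 1 := by rintro rfl; simp at hw
      rw [f1_series hM hr hl hw, hEa' w hw1, hEb' w hw1]
      ring) hw hζ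
  beta_reduce at h1
  rw [hEa' w₀ hw1, hEb' w₀ hw1] at h1
  have h2 : w₀ - 1 ≠ 0 := sub_ne_zero.2 hw1
  have h3 : (w₀ - 1) * ((psa M l r).LFunction w₀ + (psb M l r).LFunction w₀) = 0 := by
    linear_combination 2 * h1
  rcases mul_eq_zero.1 h3 with h4 | h4
  · exact absurd h4 h2
  · exact h4

end Pool.Agent.Q48.MDS
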