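import Pool.Agent.Q48.MDS.ZBar

/-!
# The barrier
-/

set_option autoImplicit false

open Complex Set

namespace Pool.Agent.Q48.MDS

open Pool.Agent.H491R3.J (jchi LJ OS L chi)

theorem QM_dvd (M l p : ℕ) : QM M l 1 ∣ QM M l p := ⟨p, by unfold QM; ring⟩

theorem QM_one_mul (M l p : ℕ) : QM M l p = QM M l 1 * p := by unfold QM; ring

theorem psa_change {M l p : ℕ} [NeZero l] : psa M l p =
    DirichletCharacter.changeLevel (QM_dvd M l p) (psa M l 1) := by
  unfold psa
  rw [← DirichletCharacter.changeLevel_trans]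

theorem psb_change {M l p : ℕ} [NeZero l] : psb M l p =
    DirichletCharacter.changeLevel (QM_dvd M l p) (psb M l 1) := by
  unfold psb
  rw [map_mul, ← psa_change, ← DirichletCharacter.changeLevel_trans]

theorem euler_one {N p : ℕ} [NeZero N] [NeZero (N * p)] (hp : p.Prime)
    (χ : DirichletCharacter ℂ N) (s : ℂ) :
    ∏ p' ∈ (N * p).primeFactors, (1 - χ (p' : ZMod N) * (p' : ℂ) ^ (-s)) =
      1 - χ (p : ZMod N) * (p : ℂ) ^ (-s) := by
  apply Finset.prod_eq_single p
  · intro b hb hbp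
    have hb1 := Nat.prime_of_mem_primeFactors hb
    have hb2 := Nat.dvd_of_mem_primeFactors hb
    have hb3 : b ∣ N := by
      rcases hb1.dvd_mul.1 hb2 with h | h
      · exact h
      · exact absurd ((Nat.prime_dvd_prime_iff_eq hb1 hp).1 h) hbp
    have h0 : χ (b : ZMod N) = 0 := by
      apply MulChar.map_nonunit
      intro hu
      have := (ZMod.isUnit_iff_coprime b N).1 hu
      have h1 := Nat.Coprime.eq_one_of_dvd this hb3
      exact hb1.one_lt.ne' h1
    rw [h0]; ring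
  · intro h
    exfalso
    apply h
    rw [Nat.mem_primeFactors]
    exact ⟨hp, ⟨N, by ring⟩, NeZero.ne _⟩

/-- if both sums vanish then so does `L(w, (·/l))` -/
theorem L_zero_of {M : ℕ} (hM : 1 ≤ M) {l : ℕ} [NeZero l] (hl : Odd l) {x : ℝ}
    (h : ∀ m : ℕ, 1 ≤ m → ContinuesTo 0 (M * m) (fun _ => x)) {w₀ : ℂ} (hw : x < w₀.re)
    (hw0 : 0 < w₀.re) (hw1 : w₀ ≠ 1) (hζ : riemannZeta (2 * w₀) = 0) :
    (jchi l).LFunction w₀ = 0 := by
  have hl1 : 1 ≤ l := hl.pos
  have hQ1 : 1 ≤ QM M l 1 := by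
    unfold QM
    exact Nat.mul_pos (Nat.mul_pos (Nat.mul_pos (by norm_num) hM) hl1) (by norm_num)
  obtain ⟨p, hpgt, hp, hp4⟩ := Nat.forall_exists_prime_gt_and_modEq (QM M l 1) (q := 4) (a := 3)
    (by norm_num) (by norm_num)
  have hp4' : p % 4 = 3 := by
    have : p % 4 = 3 % 4 := hp4
    simpa using this
  have hpN : ¬ p ∣ QM M l 1 := fun hd => by
    have := Nat.le_of_dvd (by omega) hd
    omega
  have hcop : Nat.Coprime p (QM M l 1) := (Nat.Prime.coprime_iff_not_dvd hp).2 hpN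
  have i1 : NeZero (QM M l 1) := ⟨by omega⟩
  have i2 : NeZero (QM M l p) := ⟨by
    rw [QM_one_mul]
    exact mul_ne_zero (by omega) hp.ne_zero⟩
  have i3 : NeZero (QM M l 1 * p) := ⟨mul_ne_zero (by omega) hp.ne_zero⟩
  have hm1 : ∀ r : ℕ, 1 ≤ r → 1 ≤ 4 * M * l * r ^ 2 := fun r hr =>
    Nat.mul_pos (Nat.mul_pos (Nat.mul_pos (by norm_num) hM) hl1) (by positivity)
  have e1 := sum_zero (M := M) (l := l) (r := 1) hM le_rfl hl (h _ (hm1 1 le_rfl)) hw hw1 hζ
  have e2 := sum_zero (M := M) (l := l) (r := p) hM hp.one_le hl (h _ (hm1 p hp.one_le)) hw hw1 hζ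
  have pf : (QM M l p).primeFactors = (QM M l 1 * p).primeFactors := by rw [QM_one_mul]
  rw [psa_change, psb_change, DirichletCharacter.LFunction_changeLevel _ _ (Or.inr hw1),
    DirichletCharacter.LFunction_changeLevel _ _ (Or.inr hw1), pf, euler_one hp, euler_one hp] at e2
  -- the values at `p`
  have hva : psa M l 1 (p : ZMod (QM M l 1)) = ((jacobiSym (p : ℤ) l : ℤ) : ℂ) := by
    unfold psa
    rw [changeLevel_natCast, if_pos hcop, jchi_apply]
  have hvb : psb M l 1 (p : ZMod (QM M l 1)) = -((jacobiSym (p : ℤ) l : ℤ) : ℂ) := by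
    unfold psb
    rw [MulChar.mul_apply, hva, changeLevel_natCast, if_pos hcop, c4_apply,
      ZMod.χ₄_nat_eq_if_mod_four, if_neg (by omega), if_neg (by omega)]
    push_cast; ring
  have hcl : Nat.Coprime p l := Nat.Coprime.coprime_dvd_right (l_dvd M l 1) hcop
  have hj : ((jacobiSym (p : ℤ) l : ℤ) : ℂ) ≠ 0 := by
    have : jacobiSym (p : ℤ) l ≠ 0 := by
      rw [Ne, jacobiSym.eq_zero_iff_not_coprime, not_not, Int.gcd_natCast_natCast]
      exact hcl
    exact_mod_cast this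
  have hpc : (p : ℂ) ^ (-w₀) ≠ 0 := by
    rw [Ne, cpow_eq_zero_iff]
    rintro ⟨h0, _⟩
    exact hp.ne_zero (by exact_mod_cast h0)
  rw [hva, hvb] at e2
  set a := (psa M l 1).LFunction w₀
  set b := (psb M l 1).LFunction w₀
  set J := ((jacobiSym (p : ℤ) l : ℤ) : ℂ)
  set P := (p : ℂ) ^ (-w₀)
  have e3 : (2 * J * P) * a = 0 := by
    linear_combination (1 + J * P) * e1 - e2
  have ha : a = 0 := by
    rcases mul_eq_zero.1 e3 with h4 | h4
    · exfalso
      exact (mul_ne_zero (mul_ne_zero (by norm_num) hj) hpc) h4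
    · exact h4
  -- remove the Euler factors
  have e4 : a = (jchi l).LFunction w₀ * ∏ p ∈ (QM M l 1).primeFactors,
      (1 - jchi l (p : ZMod l) * (p : ℂ) ^ (-w₀)) := by
    show (psa M l 1).LFunction w₀ = _
    unfold psa
    exact DirichletCharacter.LFunction_changeLevel _ _ (Or.inr hw1)
  rw [ha] at e4
  rcases mul_eq_zero.1 e4.symm with h4 | h4
  · exact h4
  · exfalso
    rw [Finset.prod_eq_zero_iff] at h4
    obtain ⟨r, hr, h5⟩ := h4
    have hrp := Nat.prime_of_mem_primeFactors hr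
    have h6 : jchi l (r : ZMod l) * (r : ℂ) ^ (-w₀) = 1 := by linear_combination -h5
    have h7 : ‖jchi l (r : ZMod l) * (r : ℂ) ^ (-w₀)‖ < 1 := by
      rw [norm_mul, norm_natCast_cpow_of_pos hrp.pos]
      have h8 : ‖jchi l (r : ZMod l)‖ ≤ 1 := DirichletCharacter.norm_le_one _ _
      have h9 : (r : ℝ) ^ (-w₀).re < 1 := by
        apply Real.rpow_lt_one_of_one_lt_of_neg
        · exact_mod_cast hrp.one_lt
        · simp; exact hw0
      have h10 : 0 ≤ (r : ℝ) ^ (-w₀).re := by positivity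
      calc _ ≤ 1 * (r : ℝ) ^ (-w₀).re := mul_le_mul_of_nonneg_right h8 h10
        _ < 1 := by rw [one_mul]; exact h9
    rw [h6] at h7
    simp at h7

/-- dropping all the variables -/
theorem drop_all : ∀ {k M : ℕ}, 1 ≤ M → ∀ {p : Fin (k + 2) → ℝ}, ContinuesTo (k + 1) M p →
    ∀ m : ℕ, 1 ≤ m → ContinuesTo 0 (M * m) (fun _ => p 0) := by
  intro k
  induction k with
  | zero =>
    intro M hM p h m hm
    have e : p = sn (Fin.init p) (p (Fin.last 1)) := (Fin.snoc_init_self p).symm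
    rw [e] at h
    have h1 := continuesTo_drop hM hm h
    have e2 : (Fin.init p : Fin 1 → ℝ) = fun _ => p 0 := by
      funext i
      have : i = 0 := Subsingleton.elim _ _
      subst this
      rfl
    rwa [e2] at h1
  | succ k ih =>
    intro M hM p h m hm
    have e : p = sn (Fin.init p) (p (Fin.last (k + 2))) := (Fin.snoc_init_self p).symm
    rw [e] at h
    have h1 := continuesTo_drop (m := 1) hM le_rfl h
    rw [mul_one] at h1
    exact ih hM h1 m hm

/-- **The barrier.** -/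
theorem no_zero {k M : ℕ} (hM : 1 ≤ M) {p : Fin (k + 2) → ℝ} (h : ContinuesTo (k + 1) M p) {s : ℂ}
    (hs0 : 0 < s.re) (hs : 2 * p 0 < s.re) : riemannZeta s ≠ 0 := by
  intro hζ
  have hs1 : s.re < 1 := by
    by_contra hcon
    exact riemannZeta_ne_zero_of_one_le_re (not_lt.1 hcon) hζ
  set w₀ : ℂ := s / 2 with hw₀
  have hre : w₀.re = s.re / 2 := by simp [hw₀]
  have h2 : 2 * w₀ = s := by rw [hw₀]; ring
  have hw1 : w₀ ≠ 1 := by
    intro h1
    have := congrArg Complex.re h1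
    rw [hre] at this
    simp at this
    linarith
  obtain ⟨d, hd⟩ := exists_OS (w := w₀) (by rw [hre]; linarith) (by rw [hre]; linarith)
  apply hd
  exact L_zero_of (l := d.1) hM d.2.1 (drop_all hM h) (by rw [hre]; linarith) (by rw [hre]; linarith)
    hw1 (by rw [h2]; exact hζ)

theorem quarter_le {k M : ℕ} (hM : 1 ≤ M) {p : Fin (k + 2) → ℝ} (h : ContinuesTo (k + 1) M p) :
    1 / 4 ≤ p 0 := by
  obtain ⟨ρ, h1, h2, h3⟩ := H313.TK.exists_zero
  by_contra hcon
  rw [not_le] at hcon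
  exact no_zero hM h (s := ρ) (by linarith) (by linarith) h1

end Pool.Agent.Q48.MDS
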