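import Pool.Agent.Q48.MDS.ZInv
import Pool.Agent.Q48.MDS.Char

/-!
# Periodic functions: continuation of the Dirichlet series with bounds
-/

set_option autoImplicit false

open Complex Set

namespace Pool.Agent.Q48.MDS

/-- The Dirichlet series of a periodic function. -/
theorem periodic_cont : ∃ C : ℝ, 0 ≤ C ∧ ∀ q : ℕ, 1 ≤ q → ∀ f : ℕ → ℂ, (∀ n, ‖f n‖ ≤ 1) →
    (∀ n, f (n % q) = f n) → ∃ E : ℂ → ℂ, Differentiable ℂ E ∧
      (∀ w : ℂ, 1 < w.re → E w = (w - 1) * LSeries f w) ∧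
      ∀ w : ℂ, 1 / 4 ≤ w.re → ‖E w‖ ≤ C * (q : ℝ) ^ 2 * (1 + ‖w‖) ^ 2 := by
  refine ⟨2 * Ka (1 / 4) + 11, by have := Ka_nonneg (1 / 4); linarith, ?_⟩
  intro q hq f hf hper
  have iq : NeZero q := ⟨by omega⟩
  set Φ : ZMod q → ℂ := fun j => f j.val with hΦ
  have hΦn : ∀ n : ℕ, Φ (n : ZMod q) = f n := by
    intro n
    simp only [hΦ]
    rw [ZMod.val_natCast, hper]
  set c : ℂ := (∑ j, Φ j) / q with hc
  have hq0 : (q : ℂ) ≠ 0 := by exact_mod_cast (by omega : q ≠ 0)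
  have hqr : (0 : ℝ) < q := by exact_mod_cast hq
  have hΦ1 : ∀ j, ‖Φ j‖ ≤ 1 := fun j => hf _
  have hc1 : ‖c‖ ≤ 1 := by
    rw [hc, norm_div, Complex.norm_natCast, div_le_one hqr]
    calc ‖∑ j, Φ j‖ ≤ ∑ j : ZMod q, ‖Φ j‖ := norm_sum_le _ _
      _ ≤ ∑ j : ZMod q, (1 : ℝ) := Finset.sum_le_sum fun j _ => hΦ1 j
      _ = q := by simp [ZMod.card]
  set Φ0 : ZMod q → ℂ := fun j => (Φ j - c) / 2 with hΦ0
  have h0 : ∑ j, Φ0 j = 0 := by
    simp only [hΦ0]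
    rw [← Finset.sum_div, Finset.sum_sub_distrib]
    simp only [Finset.sum_const, Finset.card_univ, ZMod.card, nsmul_eq_mul]
    rw [hc]
    field_simp
    ring
  have hΦ01 : ∀ j, ‖Φ0 j‖ ≤ 1 := by
    intro j
    simp only [hΦ0]
    rw [norm_div, Complex.norm_ofNat, div_le_one (by norm_num)]
    calc ‖Φ j - c‖ ≤ ‖Φ j‖ + ‖c‖ := norm_sub_le _ _
      _ ≤ 1 + 1 := add_le_add (hΦ1 j) hc1
      _ = 2 := by norm_num
  refine ⟨fun w => 2 * (w - 1) * ZMod.LFunction Φ0 w + c * riemannZeta₁ w, ?_, ?_, ?_⟩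
  · have h1 := ZMod.differentiable_LFunction_of_sum_zero h0
    fun_prop
  · intro w hw
    have hw0 : w ≠ 0 := by rintro rfl; simp at hw; linarith
    have hw1 : w ≠ 1 := by rintro rfl; simp at hw
    beta_reduce
    rw [ZMod.LFunction_eq_LSeries Φ0 hw, z1_eq' hw1, ← LSeries_one_eq_riemannZeta hw,
      LSeries_eq hw0, LSeries_eq hw0, LSeries_eq hw0]
    have s1 := (summable_of_bdd (f := fun n : ℕ => Φ0 (n : ZMod q)) (fun n => hΦ01 _) hw).of_norm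
    have s2 := (summable_of_bdd (f := fun _ : ℕ => (1 : ℂ)) (fun n => by simp) hw).of_norm
    have h2 : ∑' n : ℕ, f n * (n : ℂ) ^ (-w) =
        2 * ∑' n : ℕ, Φ0 (n : ZMod q) * (n : ℂ) ^ (-w) + c * ∑' n : ℕ, (1 : ℂ) * (n : ℂ) ^ (-w) := by
      rw [← tsum_mul_left, ← tsum_mul_left, ← (s1.mul_left 2).tsum_add (s2.mul_left c)]
      congr 1
      funext n
      simp only [hΦ0]
      rw [hΦn]
      ring
    rw [h2]
    simp only [Pi.one_apply]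
    ring
  · intro w hw
    have h1 := LFunction_crude Φ0 hΦ01 h0 (a := 1 / 4) (by norm_num) hw
    have h2 := SG.z1_growth (z := w) (by linarith)
    have h3 : ‖w - 1‖ ≤ 1 + ‖w‖ := by
      calc ‖w - 1‖ ≤ ‖w‖ + ‖(1 : ℂ)‖ := norm_sub_le _ _
        _ = 1 + ‖w‖ := by rw [norm_one]; ring
    have hw0 := norm_nonneg w
    have hK := Ka_nonneg (1 / 4)
    have hq1 : (1 : ℝ) ≤ q := by exact_mod_cast hq
    have hq2 : (1 : ℝ) ≤ (q : ℝ) ^ 2 := one_le_pow₀ hq1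
    calc _ ≤ ‖2 * (w - 1) * ZMod.LFunction Φ0 w‖ + ‖c * riemannZeta₁ w‖ := norm_add_le _ _
      _ = 2 * ‖w - 1‖ * ‖ZMod.LFunction Φ0 w‖ + ‖c‖ * ‖riemannZeta₁ w‖ := by
          rw [norm_mul, norm_mul, norm_mul, Complex.norm_ofNat]
      _ ≤ 2 * (1 + ‖w‖) * (Ka (1 / 4) * (q : ℝ) ^ 2 * ‖w‖) + 1 * (11 * (‖w‖ + 1) ^ 2) := by
          gcongr
      _ ≤ 2 * (1 + ‖w‖) * (Ka (1 / 4) * (q : ℝ) ^ 2 * (1 + ‖w‖)) + (q : ℝ) ^ 2 * (11 * (‖w‖ + 1) ^ 2) := by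
          gcongr
          linarith
      _ = _ := by ring

theorem kron_mod (d : ℕ) {m : ℕ} {d' : ℕ} (h : d % (8 * m) = d' % (8 * m)) :
    kron d m = kron d' m := by
  have h8 : d % 8 = d' % 8 := by
    have := congrArg (· % 8) h
    simp only [Nat.mod_mul_right_mod] at this
    exact this
  set m' := m / 2 ^ padicValNat 2 m with hm'
  have hmm : m' ∣ m := Nat.div_dvd_of_dvd (by
    have : Fact (Nat.Prime 2) := ⟨Nat.prime_two⟩
    exact pow_padicValNat_dvd)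
  have hmod : d % m' = d' % m' := by
    have h1 : m' ∣ 8 * m := hmm.trans ⟨8, by ring⟩
    calc d % m' = d % (8 * m) % m' := (Nat.mod_mod_of_dvd d h1).symm
      _ = d' % (8 * m) % m' := by rw [h]
      _ = d' % m' := Nat.mod_mod_of_dvd d' h1
  unfold kron kronTwo
  rw [h8, ← hm', jacobiSym.mod_left (d : ℤ) m', jacobiSym.mod_left (d' : ℤ) m']
  have : (d : ℤ) % (m' : ℤ) = (d' : ℤ) % (m' : ℤ) := by exact_mod_cast hmod
  rw [this]

theorem f1_per (m n : ℕ) : f1 m (n % (8 * m)) = f1 m n := by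
  unfold f1
  have h4 : n % (8 * m) % 4 = n % 4 := Nat.mod_mod_of_dvd n ⟨2 * m, by ring⟩
  rw [h4, kron_mod _ (show n % (8 * m) % (8 * m) = n % (8 * m) by simp)]

theorem f2_per (m n : ℕ) : f2 m (n % (8 * m)) = f2 m n := by
  unfold f2
  have h4 : n % (8 * m) % 4 = n % 4 := Nat.mod_mod_of_dvd n ⟨2 * m, by ring⟩
  rw [h4, kron_mod _ (show (4 * (n % (8 * m))) % (8 * m) = (4 * n) % (8 * m) by simp [Nat.mul_mod])]

theorem f3_per (m n : ℕ) : f3 m (n % (8 * m)) = f3 m n := by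
  unfold f3
  have h4 : n % (8 * m) % 2 = n % 2 := Nat.mod_mod_of_dvd n ⟨4 * m, by ring⟩
  rw [h4, kron_mod _ (show (8 * (n % (8 * m))) % (8 * m) = (8 * n) % (8 * m) by simp [Nat.mul_mod])]

end Pool.Agent.Q48.MDS
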