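import Pool.Agent.Q48.MDS.ZBase

/-!
# No L-functions: continuation in a zero-free half-plane, uniformly in the twist
-/

set_option autoImplicit false

open Complex Set

namespace Pool.Agent.Q48.MDS

theorem euler_inv {m : ℕ} (hm : 1 ≤ m) {s : ℂ} (hs : 1 / 2 ≤ s.re) :
    ∏ p ∈ (2 * m).primeFactors, (1 - (p : ℂ) ^ (-s)) ≠ 0 ∧
      ‖(∏ p ∈ (2 * m).primeFactors, (1 - (p : ℂ) ^ (-s)))⁻¹‖ ≤ 4 * (m : ℝ) ^ 2 := by
  have hfac : ∀ p ∈ (2 * m).primeFactors, ((p : ℝ) ^ 2)⁻¹ ≤ ‖1 - (p : ℂ) ^ (-s)‖ := by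
    intro p hp
    have hp1 := Nat.prime_of_mem_primeFactors hp
    have hp2 : (2 : ℝ) ≤ p := by exact_mod_cast hp1.two_le
    have h1 : ‖(p : ℂ) ^ (-s)‖ ≤ 3 / 4 := by
      rw [norm_natCast_cpow_of_pos hp1.pos]
      have h2 : (p : ℝ) ^ (-s).re ≤ (p : ℝ) ^ (-(1 / 2) : ℝ) :=
        Real.rpow_le_rpow_of_exponent_le (by linarith) (by simp; linarith)
      have h3 : (p : ℝ) ^ (-(1 / 2) : ℝ) ≤ (2 : ℝ) ^ (-(1 / 2) : ℝ) :=
        Real.rpow_le_rpow_of_nonpos (by norm_num) hp2 (by norm_num)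
      have h4 : (2 : ℝ) ^ (-(1 / 2) : ℝ) ≤ 3 / 4 := by
        rw [Real.rpow_neg (by norm_num), ← Real.sqrt_eq_rpow]
        rw [inv_le_comm₀ (by positivity) (by norm_num)]
        apply Real.le_sqrt_of_sq_le
        norm_num
      linarith
    have h2 : 1 - ‖(p : ℂ) ^ (-s)‖ ≤ ‖1 - (p : ℂ) ^ (-s)‖ := by
      have := norm_sub_norm_le (1 : ℂ) ((p : ℂ) ^ (-s))
      rwa [norm_one] at this
    have h3 : ((p : ℝ) ^ 2)⁻¹ ≤ 1 / 4 := by
      rw [inv_le_comm₀ (by positivity) (by norm_num)]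
      nlinarith
    linarith
  have hne : ∏ p ∈ (2 * m).primeFactors, (1 - (p : ℂ) ^ (-s)) ≠ 0 := by
    rw [Finset.prod_ne_zero_iff]
    intro p hp h0
    have h1 := hfac p hp
    rw [h0, norm_zero] at h1
    have hp1 := (Nat.prime_of_mem_primeFactors hp).pos
    have : 0 < ((p : ℝ) ^ 2)⁻¹ := by
      have : (0 : ℝ) < p := by exact_mod_cast hp1
      positivity
    linarith
  refine ⟨hne, ?_⟩
  rw [← Finset.prod_inv_distrib, norm_prod]
  have h1 : ∏ p ∈ (2 * m).primeFactors, ‖(1 - (p : ℂ) ^ (-s))⁻¹‖ ≤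
      ∏ p ∈ (2 * m).primeFactors, (p : ℝ) ^ 2 := by
    refine Finset.prod_le_prod (fun p _ => norm_nonneg _) fun p hp => ?_
    have hp1 := (Nat.prime_of_mem_primeFactors hp).pos
    have hp0 : (0 : ℝ) < p := by exact_mod_cast hp1
    rw [norm_inv]
    have := inv_anti₀ (by positivity) (hfac p hp)
    rwa [inv_inv] at this
  have h2 : ∏ p ∈ (2 * m).primeFactors, (p : ℝ) ^ 2 ≤ ((2 * m : ℕ) : ℝ) ^ 2 := by
    rw [Finset.prod_pow]
    have h3 : ∏ p ∈ (2 * m).primeFactors, p ≤ 2 * m :=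
      Nat.le_of_dvd (by omega) (Nat.prod_primeFactors_dvd (2 * m))
    have h4 : ((∏ p ∈ (2 * m).primeFactors, p : ℕ) : ℝ) ≤ ((2 * m : ℕ) : ℝ) := by exact_mod_cast h3
    push_cast at h4 ⊢
    exact pow_le_pow_left₀ (Finset.prod_nonneg fun p _ => Nat.cast_nonneg p) h4 2
  refine h1.trans (h2.trans (le_of_eq ?_))
  push_cast; ring

/-- **The base case.** -/
theorem base_cont {θ x : ℝ} (hθ : 1 / 2 ≤ θ) (hx : θ < 2 * x)
    (hz : ∀ s : ℂ, θ < s.re → riemannZeta s ≠ 0) :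
    ∃ (C : ℝ) (N : ℕ) (g : ℕ → ℂ → ℂ), 0 ≤ C ∧ ∀ m : ℕ, 1 ≤ m →
      DifferentiableOn ℂ (g m) {w | x < w.re} ∧
      (∀ w : ℂ, 1 < w.re → g m w = (A 0 m (fun _ => w) - 1) * (w - 1)) ∧
      ∀ w : ℂ, x < w.re → ‖g m w‖ ≤ C * (m : ℝ) ^ 4 * (1 + ‖w‖) ^ N := by
  obtain ⟨C1, N1, hC1, hinv⟩ := z1_inv_bound hθ hx hz
  obtain ⟨C2, hC2, hper⟩ := periodic_cont
  have h8 : ∀ m : ℕ, 1 ≤ m → 1 ≤ 8 * m := fun m hm => by omega
  choose! E1 hE1d hE1e hE1b using fun m (hm : 1 ≤ m) => hper (8 * m) (h8 m hm) (f1 m) (f1_le m) (f1_per m)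
  choose! E2 hE2d hE2e hE2b using fun m (hm : 1 ≤ m) => hper (8 * m) (h8 m hm) (f2 m) (f2_le m) (f2_per m)
  choose! E3 hE3d hE3e hE3b using fun m (hm : 1 ≤ m) => hper (8 * m) (h8 m hm) (f3 m) (f3_le m) (f3_per m)
  refine ⟨2 * (3 * (C2 * 64)) * (C1 * 2 ^ N1) * 4 + 1, N1 + 3,
    fun m w => (2 * w - 1) * (E1 m w + (4 : ℂ) ^ (-w) * E2 m w + (8 : ℂ) ^ (-w) * E3 m w) *
      (riemannZeta₁ (2 * w))⁻¹ * (∏ p ∈ (2 * m).primeFactors, (1 - (p : ℂ) ^ (-(2 * w))))⁻¹ - (w - 1),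
    by positivity, fun m hm => ⟨?_, ?_, ?_⟩⟩
  · intro w hw
    have hw' : x < w.re := hw
    have hre : (2 * w).re = 2 * w.re := by simp
    have d1 := (hE1d m hm).differentiableAt (x := w)
    have d2 := (hE2d m hm).differentiableAt (x := w)
    have d3 := (hE3d m hm).differentiableAt (x := w)
    have hz1 : riemannZeta₁ (2 * w) ≠ 0 := (hinv (2 * w) (by rw [hre]; linarith)).1
    have hP := (euler_inv hm (s := 2 * w) (by rw [hre]; linarith)).1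
    have dz : DifferentiableAt ℂ (fun w => riemannZeta₁ (2 * w)) w := by fun_prop
    have dP : DifferentiableAt ℂ (fun w : ℂ => ∏ p ∈ (2 * m).primeFactors, (1 - (p : ℂ) ^ (-(2 * w)))) w := by
      have hD : Differentiable ℂ (fun w : ℂ => ∏ p ∈ (2 * m).primeFactors, (1 - (p : ℂ) ^ (-(2 * w)))) := by
        refine Differentiable.fun_finsetProd fun p hp => ?_
        have hp0 : (p : ℂ) ≠ 0 := by
          exact_mod_cast (Nat.prime_of_mem_primeFactors hp).ne_zero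
        exact (differentiable_const _).sub
          ((differentiable_id.const_mul (2 : ℂ)).neg.const_cpow (Or.inl hp0))
      exact hD w
    have d4 : DifferentiableAt ℂ (fun w : ℂ => (4 : ℂ) ^ (-w)) w :=
      differentiableAt_id.neg.const_cpow (Or.inl (by norm_num))
    have d8 : DifferentiableAt ℂ (fun w : ℂ => (8 : ℂ) ^ (-w)) w :=
      differentiableAt_id.neg.const_cpow (Or.inl (by norm_num))
    refine DifferentiableAt.differentiableWithinAt ?_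
    exact (((((differentiableAt_id.const_mul (2 : ℂ)).sub_const 1).mul
      ((d1.add (d4.mul d2)).add (d8.mul d3))).mul (dz.inv hz1)).mul (dP.inv hP)).sub
      (differentiableAt_id.sub_const 1)
  · intro w hw
    have hre : (2 * w).re = 2 * w.re := by simp
    have hre1 : 1 < (2 * w).re := by rw [hre]; linarith
    beta_reduce
    rw [hE1e m hm w hw, hE2e m hm w hw, hE3e m hm w hw,
      sqf_factor (f1_le m) (kap_le m) (fun a e _ _ => f1_sq hm a e) hw,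
      sqf_factor (f2_le m) (kap_le m) (fun a e _ _ => f2_sq hm a e) hw,
      sqf_factor (f3_le m) (kap_le m) (fun a e _ _ => f3_sq hm a e) hw, A_zero_eq hw]
    have hk := kap_series hm hre1
    unfold Zk at hk
    have hz1 : riemannZeta₁ (2 * w) ≠ 0 := by
      have h1 : (2 * w : ℂ) ≠ 1 := by
        intro h
        rw [h] at hre1
        simp at hre1
      rw [z1_eq' h1]
      exact mul_ne_zero (sub_ne_zero.2 h1) (riemannZeta_ne_zero_of_one_lt_re hre1)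
    have hP := (euler_inv hm (s := 2 * w) (by rw [hre]; linarith)).1
    set P := ∏ p ∈ (2 * m).primeFactors, (1 - (p : ℂ) ^ (-(2 * w))) with hPdef
    have h2 : (2 * w - 1) * LSeries (kap m) (2 * w) * ((riemannZeta₁ (2 * w))⁻¹ * P⁻¹) = 1 := by
      rw [hk]
      field_simp
    calc _ = (w - 1) * (Sq (f1 m) w + (4 : ℂ) ^ (-w) * Sq (f2 m) w + (8 : ℂ) ^ (-w) * Sq (f3 m) w) *
          ((2 * w - 1) * LSeries (kap m) (2 * w) * ((riemannZeta₁ (2 * w))⁻¹ * P⁻¹)) - (w - 1) := by ring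
      _ = _ := by rw [h2]; ring
  · intro w hw
    have hre : (2 * w).re = 2 * w.re := by simp
    have hw4 : 1 / 4 ≤ w.re := by linarith
    have b1 := hE1b m hm w hw4
    have b2 := hE2b m hm w hw4
    have b3 := hE3b m hm w hw4
    have bz := (hinv (2 * w) (by rw [hre]; linarith)).2
    have bP := (euler_inv hm (s := 2 * w) (by rw [hre]; linarith)).2
    have hw0 := norm_nonneg w
    have h4 : ‖(4 : ℂ) ^ (-w)‖ ≤ 1 := by
      have := norm_natCast_cpow_of_pos (n := 4) (by norm_num) (-w)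
      push_cast at this
      rw [this]
      apply Real.rpow_le_one_of_one_le_of_nonpos (by norm_num)
      simp; linarith
    have h8' : ‖(8 : ℂ) ^ (-w)‖ ≤ 1 := by
      have := norm_natCast_cpow_of_pos (n := 8) (by norm_num) (-w)
      push_cast at this
      rw [this]
      apply Real.rpow_le_one_of_one_le_of_nonpos (by norm_num)
      simp; linarith
    have hm1 : (1 : ℝ) ≤ m := by exact_mod_cast hm
    set B := C2 * ((8 * m : ℕ) : ℝ) ^ 2 * (1 + ‖w‖) ^ 2 with hB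
    have hB0 : 0 ≤ B := by positivity
    have hS : ‖E1 m w + (4 : ℂ) ^ (-w) * E2 m w + (8 : ℂ) ^ (-w) * E3 m w‖ ≤ 3 * B := by
      calc _ ≤ ‖E1 m w + (4 : ℂ) ^ (-w) * E2 m w‖ + ‖(8 : ℂ) ^ (-w) * E3 m w‖ := norm_add_le _ _
        _ ≤ (‖E1 m w‖ + ‖(4 : ℂ) ^ (-w) * E2 m w‖) + ‖(8 : ℂ) ^ (-w) * E3 m w‖ := by
            gcongr; exact norm_add_le _ _
        _ ≤ (B + 1 * B) + 1 * B := by
            rw [norm_mul, norm_mul]
            gcongr
        _ = 3 * B := by ring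
    have h21 : ‖2 * w - 1‖ ≤ 2 * (1 + ‖w‖) := by
      calc ‖2 * w - 1‖ ≤ ‖2 * w‖ + ‖(1 : ℂ)‖ := norm_sub_le _ _
        _ = 2 * ‖w‖ + 1 := by rw [norm_mul, norm_one, Complex.norm_ofNat]
        _ ≤ _ := by linarith
    have hw1 : ‖w - 1‖ ≤ 1 + ‖w‖ := by
      calc ‖w - 1‖ ≤ ‖w‖ + ‖(1 : ℂ)‖ := norm_sub_le _ _
        _ = 1 + ‖w‖ := by rw [norm_one]; ring
    have hbz : ‖(riemannZeta₁ (2 * w))⁻¹‖ ≤ (C1 * 2 ^ N1) * (1 + ‖w‖) ^ N1 := by
      refine bz.trans ?_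
      rw [mul_assoc, ← mul_pow]
      have h1 : |(2 * w).im| ≤ 2 * ‖w‖ := by
        have h2 : (2 * w).im = 2 * w.im := by simp
        rw [h2, abs_mul]
        have := abs_im_le_norm w
        norm_num
        linarith
      gcongr
      linarith
    have hone : (1 : ℝ) ≤ (1 + ‖w‖) := by linarith
    have hpow : (1 + ‖w‖) ≤ (m : ℝ) ^ 4 * (1 + ‖w‖) ^ (N1 + 3) := by
      calc (1 + ‖w‖) = 1 * (1 + ‖w‖) ^ 1 := by ring
        _ ≤ (m : ℝ) ^ 4 * (1 + ‖w‖) ^ (N1 + 3) := by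
            gcongr
            · exact one_le_pow₀ hm1
            · omega
    calc _ ≤ ‖(2 * w - 1) * (E1 m w + (4 : ℂ) ^ (-w) * E2 m w + (8 : ℂ) ^ (-w) * E3 m w) *
          (riemannZeta₁ (2 * w))⁻¹ * (∏ p ∈ (2 * m).primeFactors, (1 - (p : ℂ) ^ (-(2 * w))))⁻¹‖ +
          ‖w - 1‖ := norm_sub_le _ _
      _ ≤ 2 * (1 + ‖w‖) * (3 * B) * ((C1 * 2 ^ N1) * (1 + ‖w‖) ^ N1) * (4 * (m : ℝ) ^ 2) +
          (1 + ‖w‖) := by
          rw [norm_mul, norm_mul, norm_mul]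
          gcongr
      _ = 2 * (3 * (C2 * 64)) * (C1 * 2 ^ N1) * 4 * ((m : ℝ) ^ 4 * (1 + ‖w‖) ^ (N1 + 3)) +
          (1 + ‖w‖) := by
          rw [hB]; push_cast; ring
      _ ≤ 2 * (3 * (C2 * 64)) * (C1 * 2 ^ N1) * 4 * ((m : ℝ) ^ 4 * (1 + ‖w‖) ^ (N1 + 3)) +
          (m : ℝ) ^ 4 * (1 + ‖w‖) ^ (N1 + 3) := by gcongr
      _ = _ := by ring

end Pool.Agent.Q48.MDS
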