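import Mathlib

/-!
# Elementary counts and sums
-/

set_option autoImplicit false

open Finset

namespace Pool.Agent.Q48.MDS

/-- Power sums. -/
theorem sum_Icc_rpow_le {a : ℝ} (h0 : 0 ≤ a) (h1 : a < 1) (n : ℕ) :
    ∑ j ∈ Icc 1 n, (j : ℝ) ^ (-a) ≤ (n : ℝ) ^ (1 - a) / (1 - a) := by
  induction n with
  | zero =>
    simp
    positivity
  | succ n ih =>
    rw [Finset.sum_Icc_succ_top (by omega)]
    have hn : (0 : ℝ) < ((n + 1 : ℕ) : ℝ) := by positivity
    set N : ℝ := ((n + 1 : ℕ) : ℝ) with hN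
    have hn1 : (n : ℝ) = N * (1 + (-(1 / N))) := by
      have : N ≠ 0 := hn.ne'
      field_simp
      rw [hN]; push_cast; ring
    have hle : 1 / N ≤ 1 := by
      rw [div_le_one hn, hN]; push_cast; linarith [(Nat.cast_nonneg n : (0 : ℝ) ≤ n)]
    have h2 : (1 + (-(1 / N))) ^ (1 - a) ≤ 1 + (1 - a) * (-(1 / N)) :=
      rpow_one_add_le_one_add_mul_self (by linarith) (by linarith) (by linarith)
    have h3 : (n : ℝ) ^ (1 - a) ≤ N ^ (1 - a) * (1 + (1 - a) * (-(1 / N))) := by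
      rw [hn1, Real.mul_rpow hn.le (by linarith)]
      exact mul_le_mul_of_nonneg_left h2 (by positivity)
    have h4 : N ^ (-a) = N ^ (1 - a) * (1 / N) := by
      rw [show -a = (1 - a) - 1 by ring, Real.rpow_sub_one hn.ne']
      ring
    have h5 : (0 : ℝ) < 1 - a := by linarith
    rw [le_div_iff₀ h5] at ih ⊢
    rw [add_mul]
    calc _ ≤ (n : ℝ) ^ (1 - a) + N ^ (-a) * (1 - a) := by linarith
      _ ≤ N ^ (1 - a) * (1 + (1 - a) * (-(1 / N))) + N ^ (1 - a) * (1 / N) * (1 - a) := by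
          rw [h4]; linarith
      _ = N ^ (1 - a) := by ring

theorem count_block (m k : ℕ) : #{x ∈ Ico 1 (1 + m * k) | m.Coprime x} = m.totient * k := by
  induction k with
  | zero => simp
  | succ k ih =>
    have h1 : Ico 1 (1 + m * (k + 1)) = Ico 1 (1 + m * k) ∪ Ico (1 + m * k) (1 + m * k + m) := by
      rw [Ico_union_Ico_eq_Ico (by omega) (by omega)]
      congr 1
      ring
    rw [h1, filter_union, card_union_of_disjoint, ih, Nat.filter_coprime_Ico_eq_totient]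
    · ring
    · exact disjoint_filter_filter (Ico_disjoint_Ico_consecutive _ _ _)

/-- the number of the integers up to `X` prime to `m` -/
theorem count_coprime {m : ℕ} (hm : 1 ≤ m) (X : ℕ) :
    |(#{x ∈ Icc 1 X | m.Coprime x} : ℝ) - X * ((m.totient : ℝ) / m)| ≤ m := by
  set k := X / m with hk
  have h1 : m * k ≤ X := Nat.mul_div_le X m
  have h2 : X < m * (k + 1) := by
    have := Nat.lt_mul_div_succ X (show 0 < m by omega)
    exact this
  have e1 : m.totient * k ≤ #{x ∈ Icc 1 X | m.Coprime x} := by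
    rw [← count_block m k]
    apply card_le_card
    apply filter_subset_filter
    intro x hx
    rw [mem_Ico] at hx
    rw [mem_Icc]
    omega
  have e2 : #{x ∈ Icc 1 X | m.Coprime x} ≤ m.totient * (k + 1) := by
    rw [← count_block m (k + 1)]
    apply card_le_card
    apply filter_subset_filter
    intro x hx
    rw [mem_Icc] at hx
    rw [mem_Ico]
    omega
  have hm0 : (0 : ℝ) < m := by exact_mod_cast hm
  have f1 : (m.totient : ℝ) * k ≤ (#{x ∈ Icc 1 X | m.Coprime x} : ℝ) := by exact_mod_cast e1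
  have f2 : (#{x ∈ Icc 1 X | m.Coprime x} : ℝ) ≤ (m.totient : ℝ) * (k + 1) := by exact_mod_cast e2
  have g1 : (k : ℝ) ≤ X / m := by
    rw [le_div_iff₀ hm0]
    have : ((m * k : ℕ) : ℝ) ≤ X := by exact_mod_cast h1
    push_cast at this; linarith
  have g2 : (X : ℝ) / m ≤ k + 1 := by
    rw [div_le_iff₀ hm0]
    have : (X : ℝ) ≤ ((m * (k + 1) : ℕ) : ℝ) := by exact_mod_cast h2.le
    push_cast at this; linarith
  have ht : (m.totient : ℝ) ≤ m := by exact_mod_cast Nat.totient_le m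
  have ht0 : (0 : ℝ) ≤ m.totient := Nat.cast_nonneg _
  have e3 : (X : ℝ) * ((m.totient : ℝ) / m) = m.totient * (X / m) := by ring
  rw [e3, abs_le]
  constructor
  · nlinarith
  · nlinarith

/-- `φ(2m)/(2m)` -/
noncomputable def Gd (m : ℕ) : ℝ := ((2 * m).totient : ℝ) / ((2 * m : ℕ) : ℝ)

theorem Gd_eq {m : ℕ} (hm : m ≠ 0) : Gd m = ∏ p ∈ (2 * m).primeFactors, (1 - (p : ℝ)⁻¹) := by
  have h := Nat.totient_eq_mul_prod_factors (2 * m)
  have h2 : (((2 * m).totient : ℚ) : ℝ) = ((((2 * m : ℕ) : ℚ) *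
      ∏ p ∈ (2 * m).primeFactors, (1 - (p : ℚ)⁻¹) : ℚ) : ℝ) := by rw [h]
  push_cast at h2
  unfold Gd
  have h3 : ((2 * m : ℕ) : ℝ) ≠ 0 := by exact_mod_cast (by omega : 2 * m ≠ 0)
  rw [div_eq_iff h3, h2]
  push_cast
  ring

theorem Gd_pos {m : ℕ} (hm : m ≠ 0) : 0 < Gd m := by
  unfold Gd
  have h1 : 0 < (2 * m).totient := Nat.totient_pos.2 (by omega)
  have h2 : 0 < 2 * m := by omega
  positivity

theorem Gd_mul_le {m e : ℕ} (hm : m ≠ 0) (he : e ≠ 0) : Gd (m * e) ≤ Gd m := by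
  rw [Gd_eq hm, Gd_eq (mul_ne_zero hm he)]
  have hsub : (2 * m).primeFactors ⊆ (2 * (m * e)).primeFactors :=
    Nat.primeFactors_mono ⟨e, by ring⟩ (by positivity)
  rw [← prod_sdiff hsub]
  have h1 : ∏ p ∈ (2 * (m * e)).primeFactors \ (2 * m).primeFactors, (1 - (p : ℝ)⁻¹) ≤ 1 := by
    apply prod_le_one
    · intro p hp
      have h2 : p.Prime := Nat.prime_of_mem_primeFactors (mem_sdiff.1 hp).1
      have h3 : (p : ℝ)⁻¹ ≤ 1 := inv_le_one_of_one_le₀ (by exact_mod_cast h2.one_le)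
      linarith
    · intro p hp
      have : (0 : ℝ) ≤ (p : ℝ)⁻¹ := by positivity
      linarith
  have h4 : 0 ≤ ∏ p ∈ (2 * m).primeFactors, (1 - (p : ℝ)⁻¹) := by
    rw [← Gd_eq hm]; exact (Gd_pos hm).le
  calc _ ≤ 1 * ∏ p ∈ (2 * m).primeFactors, (1 - (p : ℝ)⁻¹) := mul_le_mul_of_nonneg_right h1 h4
    _ = _ := one_mul _

theorem Gd_mul_dvd {m e : ℕ} (hm : m ≠ 0) (he : e ∣ m) : Gd (m * e) = Gd m := by
  have he0 : e ≠ 0 := by
    rintro rfl
    exact hm (zero_dvd_iff.1 he)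
  rw [Gd_eq hm, Gd_eq (mul_ne_zero hm he0)]
  congr 1
  ext p
  rw [Nat.mem_primeFactors, Nat.mem_primeFactors]
  constructor
  · rintro ⟨hp, hd, _⟩
    refine ⟨hp, ?_, by omega⟩
    rw [show 2 * (m * e) = (2 * m) * e by ring, hp.dvd_mul] at hd
    rcases hd with hd | hd
    · exact hd
    · exact (hd.trans he).trans (Dvd.intro_left 2 rfl)
  · rintro ⟨hp, hd, _⟩
    exact ⟨hp, hd.trans ⟨e, by ring⟩, by positivity⟩

end Pool.Agent.Q48.MDS
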