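import Pool.Agent.Q48.MDS.ZPieces
import Pool.Agent.Q48.MDS.Glue

/-!
# Transfer of a zero
-/

set_option autoImplicit false

open Complex Set

namespace Pool.Agent.Q48.MDS

/-- `(s - 1)` times the L-function of the trivial character modulo `2m` -/
noncomputable def Zk (m : ℕ) (s : ℂ) : ℂ :=
  (∏ p ∈ (2 * m).primeFactors, (1 - (p : ℂ) ^ (-s))) * riemannZeta₁ s

theorem z1_eq' {s : ℂ} (hs : s ≠ 1) : riemannZeta₁ s = (s - 1) * riemannZeta s := by
  have : s - 1 ≠ 0 := sub_ne_zero.2 hs
  rw [riemannZeta_eq_inv_sub_mul hs, ← mul_assoc, mul_inv_cancel₀ this, one_mul]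

theorem differentiable_Zk (m : ℕ) : Differentiable ℂ (Zk m) := by
  unfold Zk
  refine Differentiable.mul ?_ differentiable_riemannZeta₁
  refine Differentiable.fun_finsetProd fun p hp => ?_
  have hp0 : (p : ℂ) ≠ 0 := by
    exact_mod_cast (Nat.prime_of_mem_primeFactors hp).ne_zero
  exact (differentiable_const _).sub ((differentiable_neg).const_cpow (Or.inl hp0))

theorem kap_series {m : ℕ} (hm : 1 ≤ m) {s : ℂ} (hs : 1 < s.re) :
    (s - 1) * LSeries (kap m) s = Zk m s := by
  have i : NeZero (2 * m) := ⟨by omega⟩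
  have hs1 : s ≠ 1 := by rintro rfl; simp at hs
  have h1 : LSeries (kap m) s = DirichletCharacter.LFunctionTrivChar (2 * m) s := by
    unfold DirichletCharacter.LFunctionTrivChar
    rw [DirichletCharacter.LFunction_eq_LSeries _ hs]
    refine LSeries_congr (fun {n} hn => ?_) s
    unfold kap
    by_cases hc : Nat.Coprime n (2 * m)
    · rw [if_pos hc, MulChar.one_apply ((ZMod.isUnit_iff_coprime n (2 * m)).2 hc)]
    · rw [if_neg hc, MulChar.map_nonunit]
      exact fun h => hc ((ZMod.isUnit_iff_coprime n (2 * m)).1 h)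
  rw [h1, DirichletCharacter.LFunctionTrivChar_eq_mul_riemannZeta hs1]
  unfold Zk
  rw [z1_eq' hs1]
  ring

theorem kron_even_zero {m : ℕ} (hm : 1 ≤ m) (hev : Even m) {d : ℕ} (hd : d % 2 = 0) : kron d m = 0 := by
  unfold kron kronTwo
  rw [if_neg (by omega), if_neg (by omega)]
  have : Fact (Nat.Prime 2) := ⟨Nat.prime_two⟩
  have h : padicValNat 2 m ≠ 0 := by
    intro h0
    rw [padicValNat.eq_zero_iff] at h0
    rcases h0 with h | h | h
    · omega
    · omega
    · exact h (even_iff_two_dvd.1 hev)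
  rw [zero_pow h, zero_mul]

theorem A_zero_even {m : ℕ} (hm : 1 ≤ m) (hev : Even m) {w : ℂ} (hw : 1 < w.re) :
    A 0 m (fun _ => w) = Sq (f1 m) w := by
  rw [A_zero_eq hw]
  have h2 : Sq (f2 m) w = 0 := by
    unfold Sq
    rw [← tsum_zero (α := ℂ) (β := SF)]
    congr 1
    funext a
    have : f2 m a = 0 := by
      unfold f2
      rw [kron_even_zero hm hev (by omega)]
      simp
    rw [this, zero_mul]
  have h3 : Sq (f3 m) w = 0 := by
    unfold Sq
    rw [← tsum_zero (α := ℂ) (β := SF)]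
    congr 1
    funext a
    have : f3 m a = 0 := by
      unfold f3
      rw [kron_even_zero hm hev (by omega)]
      simp
    rw [this, zero_mul]
  rw [h2, h3]
  ring

theorem F_zero_eq (m : ℕ) (w : ℂ) :
    F 0 m (fun _ => w) = (A 0 m (fun _ => w) - 1) * (w - 1) := by
  unfold F sigma
  have h1 : (Finset.univ : Finset (Finset (Fin 0))) = {∅} := by
    ext J
    simp only [Finset.mem_univ, Finset.mem_singleton, true_iff]
    exact Finset.eq_empty_of_isEmpty J
  rw [h1, Finset.prod_singleton]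
  simp

/-- One variable: the continuation as a function of `w`. -/
theorem one_var {m : ℕ} {x : ℝ} (h : ContinuesTo 0 m (fun _ => x)) :
    ∃ g : ℂ → ℂ, DifferentiableOn ℂ g {w | x < w.re} ∧
      ∀ w : ℂ, 1 < w.re → g w = (A 0 m (fun _ => w) - 1) * (w - 1) := by
  obtain ⟨Ω, hΩo, hΩc, hsub, hp, G₀, hG₀, hGeq⟩ := h
  obtain ⟨G, hG, hGG⟩ := bochner hΩo hΩc hG₀
  have hΩW : Ω ⊆ convexHull ℝ Ω := subset_convexHull ℝ Ω
  have hmem : ∀ w : ℂ, x < w.re → (fun _ : Fin 1 => w) ∈ tube (convexHull ℝ Ω) := by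
    intro w hw
    exact mem_of_ge hΩo.convexHull (convex_convexHull ℝ Ω) (hsub.trans hΩW) (hΩW hp)
      (q := fun _ => w.re) (fun _ => hw.le)
  refine ⟨fun w => G (fun _ => w), ?_, ?_⟩
  · intro w hw
    have h1 : DifferentiableAt ℂ G (fun _ => w) :=
      hG.1.differentiableAt ((isOpen_tube hΩo.convexHull).mem_nhds (hmem w hw))
    have h2 : DifferentiableAt ℂ (fun w : ℂ => (fun _ : Fin 1 => w)) w := by fun_prop
    exact (h1.comp w h2).differentiableWithinAt
  · intro w hw
    have h1 : (fun _ : Fin 1 => w) ∈ tube (orth (0 + 1)) := fun _ => hw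
    show G (fun _ => w) = _
    rw [hGG (hsub h1), hGeq h1, F_zero_eq]

/-- **Transfer of a zero.** -/
theorem zero_transfer {m : ℕ} (hm : 1 ≤ m) (hev : Even m) {x : ℝ}
    (h : ContinuesTo 0 m (fun _ => x)) {E : ℂ → ℂ} (hE : Differentiable ℂ E)
    (hEeq : ∀ w : ℂ, 1 < w.re → E w = (w - 1) * LSeries (f1 m) w) {w₀ : ℂ} (hw : x < w₀.re)
    (hζ : riemannZeta (2 * w₀) = 0) : E w₀ = 0 := by
  obtain ⟨g, hg, hgeq⟩ := one_var h
  set U : Set ℂ := {w | x < w.re} with hU
  have hUo : IsOpen U := isOpen_lt continuous_const continuous_re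
  have hUc : IsPreconnected U := (convex_halfSpace_re_gt x).isPreconnected
  have a1 : AnalyticOnNhd ℂ (fun w => (2 * w - 1) * E w) U :=
    (Differentiable.differentiableOn (by fun_prop)).analyticOnNhd hUo
  have a2 : AnalyticOnNhd ℂ (fun w => (g w + (w - 1)) * Zk m (2 * w)) U := by
    refine DifferentiableOn.analyticOnNhd ?_ hUo
    refine DifferentiableOn.mul (hg.add (by fun_prop)) ?_
    exact ((differentiable_Zk m).comp (differentiable_id.const_mul (2 : ℂ))).differentiableOn
  set c : ℂ := ((max x 1 + 1 : ℝ) : ℂ) with hc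
  have hcU : c ∈ U := by
    show x < c.re
    rw [hc, ofReal_re]
    linarith [le_max_left x 1]
  have hev' : (fun w => (2 * w - 1) * E w) =ᶠ[nhds c] (fun w => (g w + (w - 1)) * Zk m (2 * w)) := by
    have hn : {w : ℂ | 1 < w.re} ∈ nhds c := by
      refine (isOpen_lt continuous_const continuous_re).mem_nhds ?_
      show 1 < c.re
      rw [hc, ofReal_re]
      linarith [le_max_right x 1]
    filter_upwards [hn] with w hw1
    have hw1' : 1 < w.re := hw1
    have hre2 : 1 < (2 * w).re := by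
      have : (2 * w).re = 2 * w.re := by simp
      rw [this]; linarith
    rw [hEeq w hw1', hgeq w hw1', A_zero_even hm hev hw1', ← kap_series hm hre2,
      sqf_factor (f1_le m) (kap_le m) (fun a e _ _ => f1_sq hm a e) hw1']
    ring
  have h1 := a1.eqOn_of_preconnected_of_eventuallyEq a2 hUc hcU hev' (show w₀ ∈ U from hw)
  simp only at h1
  have h2 : (2 * w₀ : ℂ) ≠ 1 := by
    intro h3
    rw [h3] at hζ
    exact riemannZeta_ne_zero_of_one_le_re (by simp) hζ
  have h3 : Zk m (2 * w₀) = 0 := by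
    unfold Zk
    rw [z1_eq' h2, hζ, mul_zero, mul_zero]
  rw [h3, mul_zero] at h1
  rcases mul_eq_zero.1 h1 with h4 | h4
  · exact absurd (by linear_combination h4) h2
  · exact h4

/-- `(s - 1) L(s, χ)` is entire -/
theorem exists_entire {N : ℕ} [NeZero N] (χ : DirichletCharacter ℂ N) :
    ∃ E : ℂ → ℂ, Differentiable ℂ E ∧ ∀ s : ℂ, s ≠ 1 → E s = (s - 1) * χ.LFunction s := by
  by_cases h : χ = 1
  · subst h
    refine ⟨DirichletCharacter.LFunctionTrivChar₁ N,
      DirichletCharacter.differentiable_LFunctionTrivChar₁ N, fun s hs => ?_⟩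
    unfold DirichletCharacter.LFunctionTrivChar₁
    rw [Function.update_of_ne hs]
  · exact ⟨fun s => (s - 1) * χ.LFunction s,
      (differentiable_id.sub_const 1).mul (DirichletCharacter.differentiable_LFunction h), fun s _ => rfl⟩

end Pool.Agent.Q48.MDS
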