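import Pool.Agent.H382R2.Zeta1
import Pool.Agent.H382R2.Zeta2
import Pool.Agent.H491R3.J.InvL
import Pool.Agent.Q48.MDS.ZTrans

/-!
# The inverse of `(s-1) ζ(s)` in a zero-free half-plane
-/

set_option autoImplicit false

open Complex Set Metric

namespace Pool.Agent.Q48.MDS

theorem z1_ge_right {s : ℂ} (hs : 2 ≤ s.re) : 1 / 3 ≤ ‖riemannZeta₁ s‖ := by
  obtain ⟨h1, h2⟩ := SG.zeta_inv_bound s hs
  have hs1 : s ≠ 1 := by
    rintro rfl
    norm_num at hs
  have h3 : 1 ≤ ‖s - 1‖ := by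
    have : (s - 1).re ≤ ‖s - 1‖ := Complex.re_le_norm _
    simp at this
    linarith
  have h4 : 0 < ‖riemannZeta s‖ := norm_pos_iff.2 h1
  have h5 : 1 / 3 ≤ ‖riemannZeta s‖ := by
    rw [norm_inv, inv_le_comm₀ h4 (by norm_num)] at h2
    linarith
  rw [z1_eq' hs1, norm_mul]
  nlinarith

/-- **A zero-free half-plane.** -/
theorem z1_inv_bound {θ θ' : ℝ} (hθ : 1 / 2 ≤ θ) (hθθ : θ < θ')
    (hz : ∀ s : ℂ, θ < s.re → riemannZeta s ≠ 0) :
    ∃ (C : ℝ) (N : ℕ), 0 ≤ C ∧ ∀ s : ℂ, θ' ≤ s.re → riemannZeta₁ s ≠ 0 ∧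
      ‖(riemannZeta₁ s)⁻¹‖ ≤ C * (1 + |s.im|) ^ N := by
  have hz1 : ∀ s : ℂ, θ < s.re → riemannZeta₁ s ≠ 0 := by
    intro s hs
    by_cases h1 : s = 1
    · subst h1; rw [riemannZeta₁_one]; norm_num
    · rw [z1_eq' h1]
      exact mul_ne_zero (sub_ne_zero.2 h1) (hz s hs)
  set δ := (θ' - θ) / 2 with hδ
  have hδ0 : 0 < δ := by rw [hδ]; linarith
  obtain ⟨N, hN⟩ := exists_nat_ge (4 / δ)
  refine ⟨3 * (1188 : ℝ) ^ N, 2 * N, by positivity, fun s hs => ⟨hz1 s (by linarith), ?_⟩⟩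
  have him : 0 ≤ |s.im| := abs_nonneg _
  have h1188 : (1 : ℝ) ≤ 1188 ^ N := one_le_pow₀ (by norm_num)
  have hone : (1 : ℝ) ≤ (1 + |s.im|) ^ (2 * N) := one_le_pow₀ (by linarith)
  rcases le_or_gt 2 s.re with h2 | h2
  · have h3 := z1_ge_right h2
    rw [norm_inv]
    calc ‖riemannZeta₁ s‖⁻¹ ≤ (1 / 3)⁻¹ := inv_anti₀ (by norm_num) h3
      _ = 3 * 1 * 1 := by norm_num
      _ ≤ _ := by gcongr
  · set z0 : ℂ := 2 + s.im * I with hz0
    set R : ℝ := 2 - θ - δ with hR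
    have hRp : 2 - θ' < R := by rw [hR, hδ]; linarith
    have hR0 : 0 < R := by linarith
    set f : ℂ → ℂ := fun z => riemannZeta₁ (z0 + z) with hf
    have hf0 : 1 / 3 ≤ ‖f 0‖ := by
      simp only [hf, add_zero]
      exact z1_ge_right (by simp [hz0])
    set M := 33 * (|s.im| + 6) ^ 2 with hM
    have hM1 : 1 < M := by rw [hM]; nlinarith
    have hθ1 : θ < 2 := by linarith
    have hre : ∀ z ∈ ball (0 : ℂ) R, θ + δ < (z0 + z).re ∧ ‖z0 + z‖ ≤ |s.im| + 5 := by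
      intro z hz
      rw [mem_ball_zero_iff] at hz
      constructor
      · have h3 : |z.re| ≤ ‖z‖ := abs_re_le_norm z
        have := (abs_le.1 h3).1
        simp [hz0]
        rw [hR] at hz
        linarith
      · calc ‖z0 + z‖ ≤ ‖z0‖ + ‖z‖ := norm_add_le _ _
          _ ≤ (2 + |s.im|) + R := by
            gcongr
            calc ‖z0‖ ≤ ‖(2 : ℂ)‖ + ‖(s.im : ℂ) * I‖ := norm_add_le _ _
              _ = 2 + |s.im| := by simp
          _ ≤ _ := by rw [hR]; linarith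
    have hdiff : DifferentiableOn ℂ f (ball 0 R) := by
      have : Differentiable ℂ f := by
        simp only [hf]
        fun_prop
      exact this.differentiableOn
    have hnv : ∀ z ∈ ball (0 : ℂ) R, f z ≠ 0 := fun z hz => hz1 _ (by linarith [(hre z hz).1])
    have hbd : ∀ z ∈ ball (0 : ℂ) R, ‖f z‖ ≤ M * ‖f 0‖ := by
      intro z hz
      obtain ⟨h3, h4⟩ := hre z hz
      have h5 := SG.z1_growth (z := z0 + z) (by linarith)
      calc ‖f z‖ ≤ 11 * (‖z0 + z‖ + 1) ^ 2 := h5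
        _ ≤ 11 * ((|s.im| + 5) + 1) ^ 2 := by gcongr
        _ = M * (1 / 3) := by rw [hM]; ring
        _ ≤ M * ‖f 0‖ := mul_le_mul_of_nonneg_left hf0 (by linarith)
    set z : ℂ := ((s.re - 2 : ℝ) : ℂ) with hzdef
    have hzn : ‖z‖ = 2 - s.re := by
      rw [hzdef, Complex.norm_real, Real.norm_eq_abs, abs_of_neg (by linarith)]
      ring
    have hzb : z ∈ ball (0 : ℂ) R := by
      rw [mem_ball_zero_iff, hzn]; linarith
    have hzs : z0 + z = s := by
      apply Complex.ext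
      · simp [hz0, hzdef]
      · simp [hz0, hzdef]
    have h3 := Pool.Agent.H491R3.J.lower_of_nonvanishing hR0 hM1 hdiff hnv hbd hzb
    have hfz : f z = riemannZeta₁ s := by simp only [hf]; rw [hzs]
    rw [hfz, hzn] at h3
    have hlogM : 0 < Real.log M := Real.log_pos hM1
    have hexp : 2 * Real.log M * (2 - s.re) / (R - (2 - s.re)) ≤ Real.log M * N := by
      have h4 : δ ≤ R - (2 - s.re) := by rw [hR, hδ]; linarith
      have h5 : 2 * Real.log M * (2 - s.re) / (R - (2 - s.re)) ≤ 2 * Real.log M * 2 / δ := by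
        apply div_le_div₀ (by positivity) _ hδ0 h4
        have : 2 - s.re ≤ 2 := by linarith
        nlinarith
      have h6 : 2 * Real.log M * 2 / δ = Real.log M * (4 / δ) := by ring
      rw [h6] at h5
      exact h5.trans (mul_le_mul_of_nonneg_left hN hlogM.le)
    have hM0 : 0 < M := by linarith
    have h4 : (1 / 3) * Real.exp (-(Real.log M * N)) ≤ ‖riemannZeta₁ s‖ := by
      refine le_trans ?_ h3
      apply mul_le_mul hf0 _ (Real.exp_pos _).le (norm_nonneg _)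
      apply Real.exp_le_exp.2
      linarith
    have h5 : Real.exp (-(Real.log M * N)) = (M ^ N)⁻¹ := by
      rw [Real.exp_neg, mul_comm, ← Real.log_pow, Real.exp_log (by positivity)]
    rw [h5] at h4
    rw [norm_inv]
    calc ‖riemannZeta₁ s‖⁻¹ ≤ ((1 / 3) * (M ^ N)⁻¹)⁻¹ := inv_anti₀ (by positivity) h4
      _ = 3 * M ^ N := by rw [mul_inv, inv_inv]; norm_num
      _ ≤ 3 * (1188 * (1 + |s.im|) ^ 2) ^ N := by
          have : M ≤ 1188 * (1 + |s.im|) ^ 2 := by rw [hM]; nlinarith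
          gcongr
      _ = 3 * (1188 : ℝ) ^ N * (1 + |s.im|) ^ (2 * N) := by
          rw [mul_pow, ← pow_mul]; ring

end Pool.Agent.Q48.MDS
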