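import Pool.Agent.Q48.MDS.ZAdd2
import Pool.Agent.Q48.MDS.ZBar2

/-!
# The range of `Re w` and the zero-free half-planes of the Riemann zeta function
-/

set_option autoImplicit false

open Complex Set

namespace Pool.Agent.Q48.MDS

theorem RH_of_right (h : ∀ s : ℂ, 1 / 2 < s.re → s ≠ 1 → riemannZeta s ≠ 0) : RiemannHypothesis := by
  intro s hs htriv h1
  by_contra hne
  rcases lt_or_gt_of_ne hne with hlt | hgt
  · by_cases h0 : s.re < 0
    · -- trivial zeros
      have h2 : ∀ n : ℕ, (1 - s) ≠ -n := by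
        intro n hn
        have := congrArg Complex.re hn
        simp at this
        have : (0:ℝ) ≤ n := Nat.cast_nonneg n
        linarith
      have h3 : (1 - s) ≠ 1 := by
        intro h3
        have := congrArg Complex.re h3
        simp at this
        linarith
      have key := riemannZeta_one_sub h2 h3
      rw [sub_sub_cancel, hs] at key
      have hz : riemannZeta (1 - s) ≠ 0 := riemannZeta_ne_zero_of_one_lt_re (by simp; linarith)
      have hG : Complex.Gamma (1 - s) ≠ 0 := Complex.Gamma_ne_zero h2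
      have hp : (2 * (Real.pi : ℂ)) ^ (-(1 - s)) ≠ 0 := by
        rw [Complex.cpow_ne_zero_iff]
        left
        have := Real.pi_ne_zero
        simpa using this
      have hc : Complex.cos (Real.pi * (1 - s) / 2) = 0 := by
        by_contra hc
        exact (mul_ne_zero (mul_ne_zero (mul_ne_zero (mul_ne_zero two_ne_zero hp) hG) hc) hz) key.symm
      rw [Complex.cos_eq_zero_iff] at hc
      obtain ⟨k, hk⟩ := hc
      have hpi : (Real.pi : ℂ) ≠ 0 := by exact_mod_cast Real.pi_ne_zero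
      have hs2 : s = -2 * (k : ℂ) := by
        field_simp at hk
        linear_combination (-1 : ℂ) * hk
      have hkpos : 0 < k := by
        have := congrArg Complex.re hs2
        simp at this
        have h5 : (0:ℝ) < k := by linarith
        exact_mod_cast h5
      apply htriv
      refine ⟨(k - 1).toNat, ?_⟩
      have h6 : (((k - 1).toNat : ℕ) : ℂ) = (k : ℂ) - 1 := by
        have : (((k - 1).toNat : ℤ)) = k - 1 := Int.toNat_of_nonneg (by omega)
        have h7 : (((k - 1).toNat : ℤ) : ℂ) = ((k - 1 : ℤ) : ℂ) := by rw [this]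
        push_cast at h7
        exact_mod_cast h7
      rw [h6, hs2]
      ring
    · have h2 : ∀ n : ℕ, s ≠ -n := by
        intro n hn
        rcases Nat.eq_zero_or_pos n with h5 | h5
        · rw [hn, h5] at hs
          simp [riemannZeta_zero] at hs
        · have := congrArg Complex.re hn
          simp at this
          have h6 : (1:ℝ) ≤ n := by exact_mod_cast h5
          linarith
      have key := riemannZeta_one_sub h2 h1
      rw [hs, mul_zero] at key
      refine h (1 - s) (by simp; linarith) ?_ key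
      intro h3
      have : s = 0 := by linear_combination -h3
      rw [this] at hs
      simp [riemannZeta_zero] at hs
  · exact h s hgt h1 hs

theorem half_le_of_free {θ : ℝ} (hz : ∀ s : ℂ, θ < s.re → riemannZeta s ≠ 0) : 1 / 2 ≤ θ := by
  obtain ⟨ρ, h1, h2, h3⟩ := H313.TK.exists_zero
  by_contra hcon
  exact hz ρ (by linarith) h1

theorem exists_free {k M : ℕ} (hk : 1 ≤ k) (hM : 1 ≤ M) {p : Fin (k + 1) → ℝ}
    (h : ContinuesTo k M p) : ∃ θ < 2 * p 0, ∀ s : ℂ, θ < s.re → riemannZeta s ≠ 0 := by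
  obtain ⟨n, rfl⟩ : ∃ n, k = n + 1 := ⟨k - 1, by omega⟩
  obtain ⟨Ω, hΩo, hΩc, hsub, hp, G, hG, hGe⟩ := h
  -- move a little to the left
  have hcont : Continuous (fun t : ℝ => Function.update p 0 (p 0 - t)) := by fun_prop
  have h0 : Function.update p 0 (p 0 - 0) = p := by simp
  have hn : ∀ᶠ t : ℝ in nhds 0, Function.update p 0 (p 0 - t) ∈ Ω := by
    have : Ω ∈ nhds (Function.update p 0 (p 0 - 0)) := by rw [h0]; exact hΩo.mem_nhds hp
    exact hcont.continuousAt.eventually this
  have hn2 : ∀ᶠ t : ℝ in nhdsWithin 0 (Ioi 0), Function.update p 0 (p 0 - t) ∈ Ω ∧ 0 < t := by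
    filter_upwards [nhdsWithin_le_nhds hn, self_mem_nhdsWithin] with t h1 h2 using ⟨h1, h2⟩
  obtain ⟨t, ht, ht0⟩ := hn2.exists
  have hc : ContinuesTo (n + 1) M (Function.update p 0 (p 0 - t)) :=
    ⟨Ω, hΩo, hΩc, hsub, ht, G, hG, hGe⟩
  have h1 := quarter_le hM hc
  rw [Function.update_self] at h1
  refine ⟨2 * (p 0 - t), by linarith, fun s hs => ?_⟩
  exact no_zero hM hc (by linarith) (by rw [Function.update_self]; exact hs)

theorem continues_of_free {k M : ℕ} (hM : 1 ≤ M) {θ : ℝ}
    (hz : ∀ s : ℂ, θ < s.re → riemannZeta s ≠ 0) {p : Fin (k + 1) → ℝ} (hp : θ < 2 * p 0)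
    (hs : ∀ j : Fin k, 6 < p j.succ) : ContinuesTo k M p :=
  continuesTo_of_zero_free (θ := θ) (x := (θ / 2 + p 0) / 2) (half_le_of_free hz) (by linarith) hz k hM
    ⟨by linarith, hs⟩

theorem range_iff {k M : ℕ} (hk : 1 ≤ k) (hM : 1 ≤ M) (x : ℝ) :
    (∃ p : Fin (k + 1) → ℝ, p 0 = x ∧ ContinuesTo k M p) ↔
      ∃ θ < 2 * x, ∀ s : ℂ, θ < s.re → riemannZeta s ≠ 0 := by
  constructor
  · rintro ⟨p, rfl, h⟩
    exact exists_free hk hM h
  · rintro ⟨θ, hθ, hz⟩
    exact ⟨Fin.cons x (fun _ => 7), rfl, continues_of_free hM hz hθ (fun j => by simp; norm_num)⟩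

theorem rh_iff {k M : ℕ} (hk : 1 ≤ k) (hM : 1 ≤ M) :
    RiemannHypothesis ↔ ∀ x : ℝ, 1 / 4 < x → ∃ p : Fin (k + 1) → ℝ, p 0 = x ∧ ContinuesTo k M p := by
  constructor
  · intro hRH x hx
    rw [range_iff hk hM]
    refine ⟨1 / 2, by linarith, fun s hs h0 => ?_⟩
    have h1 : s ≠ 1 := by
      rintro rfl
      exact riemannZeta_ne_zero_of_one_le_re (by simp) h0
    have h2 := hRH s h0 (by
      rintro ⟨n, hn⟩
      have := congrArg Complex.re hn
      simp at this
      have h3 : (0 : ℝ) ≤ n := Nat.cast_nonneg n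
      linarith) h1
    linarith
  · intro h
    apply RH_of_right
    intro s hs _
    obtain ⟨θ, hθ, hz⟩ := (range_iff hk hM ((1 / 2 + s.re) / 4)).1 (h _ (by linarith))
    exact hz s (by linarith)

theorem below_half_iff {k M : ℕ} (hk : 1 ≤ k) (hM : 1 ≤ M) :
    (∃ p : Fin (k + 1) → ℝ, p 0 < 1 / 2 ∧ ContinuesTo k M p) ↔
      ∃ θ < 1, ∀ s : ℂ, θ < s.re → riemannZeta s ≠ 0 := by
  constructor
  · rintro ⟨p, hp, h⟩
    obtain ⟨θ, hθ, hz⟩ := exists_free hk hM h
    exact ⟨θ, by linarith, hz⟩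
  · rintro ⟨θ, hθ, hz⟩
    obtain ⟨p, hp, h⟩ := (range_iff hk hM ((θ + 1) / 4)).2 ⟨θ, by linarith, hz⟩
    exact ⟨p, by rw [hp]; linarith, h⟩

end Pool.Agent.Q48.MDS
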