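import Pool.Agent.Q48.MDS.ZTail
import Pool.Agent.Q48.MDS.ZCount
import Pool.Agent.H491R3.J.Defs
import Pool.Agent.H38R2.CG.PV
import Pool.Agent.Helper919.Char

/-!
# The mean value of `L(s, (·/l))` over the odd `l` which are not squares
-/

set_option autoImplicit false

open Finset Complex

namespace Pool.Agent.Q48.MDS

open Pool.Agent.H491R3.J (jchi LJ)

theorem jchi_apply (l : ℕ) [NeZero l] (n : ℕ) :
    jchi l (n : ZMod l) = ((jacobiSym (n : ℤ) l : ℤ) : ℂ) := by
  change ((jacobiSym (((n : ZMod l).val : ℕ) : ℤ) l : ℤ) : ℂ) = _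
  rw [ZMod.val_natCast, Pool.Agent.H491R3.J.jac_periodic]

theorem exists_neg_one {l : ℕ} (ho : Odd l) (hs : ¬ IsSquare l) :
    ∃ n : ℕ, jacobiSym (n : ℤ) l = -1 := by
  -- quadratic reciprocity turns the statement on the numerator into the one on the denominator
  obtain ⟨d, hd, hj⟩ := Pool.Agent.Helper919.exists_jacobi_neg_one (l : ℤ) (by
    rintro ⟨r, hr⟩
    apply hs
    refine ⟨r.natAbs, ?_⟩
    have := congrArg Int.natAbs hr
    rwa [Int.natAbs_natCast, Int.natAbs_mul] at this)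
  have h1 := jacobiSym.quadratic_reciprocity' ho hd
  have h2 : jacobiSym (l : ℤ) d = -1 := hj
  -- `(l/d) = ± (d/l)`; if the sign is `-1` replace `d` by `-d`
  by_cases h3 : jacobiSym (d : ℤ) l = -1
  · exact ⟨d, h3⟩
  · have h4 : jacobiSym (d : ℤ) l = 1 ∨ jacobiSym (d : ℤ) l = 0 := by
      rcases jacobiSym.trichotomy (d : ℤ) l with h | h | h
      · exact Or.inr h
      · exact Or.inl h
      · exact absurd h h3
    have h5 : jacobiSym (d : ℤ) l ≠ 0 := by
      intro h0
      have hd0 : NeZero d := ⟨hd.pos.ne'⟩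
      have hl0 : NeZero l := ⟨ho.pos.ne'⟩
      rw [jacobiSym.eq_zero_iff_not_coprime] at h0
      have h6 : jacobiSym (l : ℤ) d = 0 := by
        rw [jacobiSym.eq_zero_iff_not_coprime]
        rw [Int.gcd_comm] at h0
        exact h0
      rw [h6] at h2; norm_num at h2
    have h6 : jacobiSym (d : ℤ) l = 1 := by tauto
    -- then the sign is `-1`, so `l ≡ 3 mod 4` and `(-1/l) = -1`
    have h7 : ¬ (l % 4 = 1) := by
      intro h8
      have := jacobiSym.quadratic_reciprocity_one_mod_four (a := l) (b := d) h8 hd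
      rw [h2, h6] at this; norm_num at this
    have hl3 : l % 4 = 3 := by
      have := Nat.odd_iff.1 ho
      omega
    refine ⟨l - 1, ?_⟩
    have hl : 1 ≤ l := ho.pos
    have h9 : ((l - 1 : ℕ) : ℤ) = -1 + (l : ℤ) * 1 := by
      push_cast [Nat.cast_sub hl]; ring
    rw [h9, jacobiSym.mod_left, Int.add_mul_emod_self_left, ← jacobiSym.mod_left,
      jacobiSym.at_neg_one ho, ZMod.χ₄_nat_eq_if_mod_four, if_neg (by omega), if_neg (by omega)]

theorem jchi_ne_one {l : ℕ} [NeZero l] (ho : Odd l) (hs : ¬ IsSquare l) : jchi l ≠ 1 := by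
  obtain ⟨n, hn⟩ := exists_neg_one ho hs
  intro h
  have h1 := jchi_apply l n
  rw [h, hn] at h1
  rcases em (IsUnit (n : ZMod l)) with hu | hu
  · rw [MulChar.one_apply hu] at h1; norm_num at h1
  · rw [MulChar.map_nonunit _ hu] at h1; norm_num at h1

/-- `∑_{l ≤ X, l odd} (n/l)` -/
noncomputable def UU (n X : ℕ) : ℝ := ∑ l ∈ Icc 1 X with Odd l, ((jacobiSym (n : ℤ) l : ℤ) : ℝ)

theorem UU_nonsquare {n : ℕ} (hn : 1 ≤ n) (hs : ¬ IsSquare n) (X : ℕ) :
    |UU n X| ≤ 8 * √(n : ℝ) * (1 + Real.log (4 * n)) := by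
  have hn0 : (n : ℤ) ≠ 0 := by exact_mod_cast (by omega : n ≠ 0)
  have hns : ¬ IsSquare (n : ℤ) := by
    rintro ⟨r, hr⟩
    apply hs
    refine ⟨r.natAbs, ?_⟩
    have := congrArg Int.natAbs hr
    rwa [Int.natAbs_natCast, Int.natAbs_mul] at this
  have h1 := Pool.Agent.H38R2.CG.PVh.sum_le (4 * (n : ℤ).natAbs)
    (Pool.Agent.Helper919.psi n hn0) (by simp; omega)
    (Pool.Agent.Helper919.psi_ne_one n hn0 hns) X
  have h2 : ∑ l ∈ Icc 1 X, Pool.Agent.Helper919.psi n hn0 (l : ZMod (4 * (n : ℤ).natAbs)) =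
      ((UU n X : ℝ) : ℂ) := by
    unfold UU
    rw [Finset.sum_filter]
    push_cast
    refine Finset.sum_congr rfl fun l _ => ?_
    rw [Pool.Agent.Helper919.psi_apply, Pool.Agent.Helper919.XX_apply]
  rw [h2, Complex.norm_real, Real.norm_eq_abs] at h1
  have h3 : ((4 * (n : ℤ).natAbs : ℕ) : ℝ) = 4 * n := by simp
  rw [h3] at h1
  have h4 : √(4 * (n : ℝ)) = 2 * √(n : ℝ) := by
    rw [Real.sqrt_mul (by norm_num), show √(4 : ℝ) = 2 by
      rw [show (4 : ℝ) = 2 ^ 2 by norm_num]; exact Real.sqrt_sq (by norm_num)]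
  rw [h4] at h1
  calc |UU n X| ≤ _ := h1
    _ = _ := by ring

theorem UU_square {m : ℕ} (hm : 1 ≤ m) (X : ℕ) : |UU (m ^ 2) X - X * Gd m| ≤ 2 * m := by
  have h1 : UU (m ^ 2) X = (#{x ∈ Icc 1 X | (2 * m).Coprime x} : ℝ) := by
    unfold UU
    rw [Finset.card_filter, Finset.sum_filter]
    push_cast
    refine Finset.sum_congr rfl fun l hl => ?_
    have hl1 : 1 ≤ l := (mem_Icc.1 hl).1
    have hl0 : NeZero l := ⟨by omega⟩
    by_cases ho : Odd l
    · rw [if_pos ho]
      by_cases hc : Nat.Coprime m l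
      · rw [if_pos (Nat.Coprime.mul_left (Nat.coprime_two_left.2 ho) hc)]
        have : jacobiSym ((m : ℤ) ^ 2) l = 1 := jacobiSym.sq_one' (by exact_mod_cast hc)
        rw [this]; norm_num
      · rw [if_neg (fun h => hc (Nat.Coprime.coprime_dvd_left (Dvd.intro_left 2 rfl) h))]
        have : jacobiSym ((m : ℤ) ^ 2) l = 0 := by
          rw [jacobiSym.eq_zero_iff_not_coprime]
          intro h
          apply hc
          have h2 : Nat.Coprime (m ^ 2) l := by
            have : Int.gcd ((m ^ 2 : ℕ) : ℤ) (l : ℤ) = 1 := by push_cast; exact h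
            rwa [Int.gcd_natCast_natCast] at this
          exact (Nat.coprime_pow_left_iff (by norm_num) _ _).1 h2
        rw [this]; norm_num
    · rw [if_neg ho, if_neg]
      intro h
      exact ho (Nat.coprime_two_left.1 (Nat.Coprime.coprime_dvd_left (Dvd.intro m rfl) h))
  rw [h1]
  have h2 := count_coprime (show 1 ≤ 2 * m by omega) X
  have h3 : ((2 * m : ℕ) : ℝ) = 2 * m := by push_cast; ring
  rw [h3] at h2
  unfold Gd
  rw [h3]
  exact h2

end Pool.Agent.Q48.MDS
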