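import Pool.Agent.Q48.MDS.ZMean

/-!
# For every `s` in the critical strip with `Re s > 1/2` some `L(s, (·/l))` does not vanish
-/

set_option autoImplicit false

open Finset Complex Filter Topology

namespace Pool.Agent.Q48.MDS

open Pool.Agent.H491R3.J (jchi LJ)

/-- the truncated mean value -/
noncomputable def TT (b X : ℕ) (s : ℂ) : ℂ :=
  ∑ l ∈ Icc 1 X with (Odd l ∧ ¬ IsSquare l), ((jacobiSym ((b : ℤ) ^ 2) l : ℤ) : ℂ) *
    ∑ n ∈ Icc 1 X, ((jacobiSym (n : ℤ) l : ℤ) : ℂ) * (n : ℂ) ^ (-s)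

theorem TT_le {s : ℂ} (hs : 0 < s.re) (hz : ∀ l : ℕ, Odd l → ¬ IsSquare l → LJ l s = 0) (b : ℕ)
    {X : ℕ} (hX : 1 ≤ X) :
    ‖TT b X s‖ ≤ X * (4 * √(X : ℝ) * (1 + Real.log X) * (1 + ‖s‖ / s.re) * (X : ℝ) ^ (-s.re)) := by
  unfold TT
  refine (norm_sum_le _ _).trans ?_
  have hX0 : (0 : ℝ) < X := by exact_mod_cast hX
  have hlX : 0 ≤ Real.log X := Real.log_nonneg (by exact_mod_cast hX)
  set B := 4 * √(X : ℝ) * (1 + Real.log X) * (1 + ‖s‖ / s.re) * (X : ℝ) ^ (-s.re) with hB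
  have hB0 : 0 ≤ B := by positivity
  have hterm : ∀ l ∈ (Icc 1 X).filter (fun l => Odd l ∧ ¬ IsSquare l),
      ‖((jacobiSym ((b : ℤ) ^ 2) l : ℤ) : ℂ) *
        ∑ n ∈ Icc 1 X, ((jacobiSym (n : ℤ) l : ℤ) : ℂ) * (n : ℂ) ^ (-s)‖ ≤ B := by
    intro l hl
    rw [mem_filter, mem_Icc] at hl
    obtain ⟨⟨hl1, hlX'⟩, ho, hsq⟩ := hl
    have : NeZero l := ⟨by omega⟩
    have hl2 : 2 ≤ l := by
      by_contra h
      apply hsq
      have : l = 1 := by omega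
      rw [this]; exact ⟨1, rfl⟩
    have h1 : ‖((jacobiSym ((b : ℤ) ^ 2) l : ℤ) : ℂ)‖ ≤ 1 := by
      rcases jacobiSym.trichotomy ((b : ℤ) ^ 2) l with h | h | h <;> rw [h] <;> simp
    have hne := jchi_ne_one ho hsq
    have hPV : ∀ N : ℕ, ‖∑ n ∈ Icc 1 N, jchi l (n : ZMod l)‖ ≤ 4 * √(X : ℝ) * (1 + Real.log X) := by
      intro N
      refine (Pool.Agent.H38R2.CG.PVh.sum_le l (jchi l) hl2 hne N).trans ?_
      have h2 : (l : ℝ) ≤ X := by exact_mod_cast hlX'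
      have h3 : (1 : ℝ) ≤ l := by exact_mod_cast hl1
      have h4 : Real.log l ≤ Real.log X := Real.log_le_log (by linarith) h2
      have h5 : 0 ≤ Real.log l := Real.log_nonneg h3
      gcongr
    have h2 := char_tail hne hPV hs hX
    have h3 : (jchi l).LFunction s = 0 := by
      have := hz l ho hsq
      unfold LJ at this
      rwa [dif_neg (by omega)] at this
    rw [h3, zero_sub, norm_neg] at h2
    have h4 : ∑ n ∈ Icc 1 X, ((jacobiSym (n : ℤ) l : ℤ) : ℂ) * (n : ℂ) ^ (-s) =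
        ∑ n ∈ Icc 1 X, jchi l (n : ZMod l) * (n : ℂ) ^ (-s) :=
      Finset.sum_congr rfl fun n _ => by rw [jchi_apply]
    rw [norm_mul, h4]
    calc _ ≤ 1 * B := mul_le_mul h1 h2 (norm_nonneg _) (by norm_num)
      _ = B := one_mul B
  refine (Finset.sum_le_sum hterm).trans ?_
  rw [Finset.sum_const, nsmul_eq_mul]
  refine mul_le_mul_of_nonneg_right ?_ hB0
  have : #{l ∈ Icc 1 X | Odd l ∧ ¬ IsSquare l} ≤ X := by
    calc _ ≤ #(Icc 1 X) := card_filter_le _ _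
      _ = X := by simp
  exact_mod_cast this

/-- the squares -/
noncomputable def VV (n X : ℕ) : ℝ :=
  ∑ l ∈ Icc 1 X with (Odd l ∧ IsSquare l), ((jacobiSym (n : ℤ) l : ℤ) : ℝ)

theorem VV_le (n Y : ℕ) : |VV n (Y ^ 2)| ≤ Y := by
  unfold VV
  refine (abs_sum_le_sum_abs _ _).trans ?_
  have h1 : ∀ l ∈ (Icc 1 (Y ^ 2)).filter (fun l => Odd l ∧ IsSquare l),
      |((jacobiSym (n : ℤ) l : ℤ) : ℝ)| ≤ 1 := by
    intro l _
    rcases jacobiSym.trichotomy (n : ℤ) l with h | h | h <;> rw [h] <;> simp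
  refine (Finset.sum_le_sum h1).trans ?_
  rw [Finset.sum_const, nsmul_eq_mul, mul_one]
  have h2 : (Icc 1 (Y ^ 2)).filter (fun l => Odd l ∧ IsSquare l) ⊆ (Icc 1 Y).image (fun e => e ^ 2) := by
    intro l hl
    rw [mem_filter, mem_Icc] at hl
    obtain ⟨⟨h1, h2⟩, _, r, hr⟩ := hl
    rw [mem_image]
    refine ⟨r, ?_, by rw [hr]; ring⟩
    rw [mem_Icc]
    constructor
    · rcases Nat.eq_zero_or_pos r with h | h
      · subst h; omega
      · exact h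
    · have : r ^ 2 ≤ Y ^ 2 := by rw [sq, ← hr]; exact h2
      exact (Nat.pow_le_pow_iff_left (by norm_num)).1 this
  have h3 := (card_le_card h2).trans card_image_le
  rw [Nat.card_Icc] at h3
  exact_mod_cast (by omega : #{l ∈ Icc 1 (Y ^ 2) | Odd l ∧ IsSquare l} ≤ Y)

theorem TT_swap (b X : ℕ) (s : ℂ) :
    TT b X s = ∑ n ∈ Icc 1 X, (n : ℂ) ^ (-s) * (((UU (n * b ^ 2) X : ℝ) : ℂ) -
      ((VV (n * b ^ 2) X : ℝ) : ℂ)) := by
  have h1 : ∀ n : ℕ, UU (n * b ^ 2) X - VV (n * b ^ 2) X =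
      ∑ l ∈ Icc 1 X with (Odd l ∧ ¬ IsSquare l), ((jacobiSym ((n * b ^ 2 : ℕ) : ℤ) l : ℤ) : ℝ) := by
    intro n
    unfold UU VV
    rw [sub_eq_iff_eq_add, ← Finset.sum_union]
    · congr 1
      ext l
      simp only [mem_filter, mem_union]
      tauto
    · rw [Finset.disjoint_filter]
      rintro l _ ⟨_, h⟩ ⟨_, h'⟩
      exact h h'
  unfold TT
  simp_rw [Finset.mul_sum]
  rw [Finset.sum_comm]
  refine Finset.sum_congr rfl fun n _ => ?_
  rw [← Complex.ofReal_sub, h1]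
  push_cast
  rw [Finset.mul_sum]
  refine Finset.sum_congr rfl fun l _ => ?_
  rw [jacobiSym.mul_left]
  push_cast
  ring

end Pool.Agent.Q48.MDS
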