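import Pool.Agent.Q48.MDS.ZMean2

/-!
# For every `s` in the critical strip with `Re s > 1/2` some `L(s, (·/l))` does not vanish
-/

set_option autoImplicit false

open Finset Complex Filter Topology

namespace Pool.Agent.Q48.MDS

open Pool.Agent.H491R3.J (jchi LJ)

theorem sum_squares {M : Type*} [AddCommMonoid M] (g : ℕ → M) (Y : ℕ) :
    ∑ n ∈ Icc 1 (Y ^ 2) with IsSquare n, g n = ∑ e ∈ Icc 1 Y, g (e ^ 2) := by
  have h1 : (Icc 1 (Y ^ 2)).filter (fun n => IsSquare n) = (Icc 1 Y).image (fun e => e ^ 2) := by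
    ext n
    rw [mem_filter, mem_image, mem_Icc]
    constructor
    · rintro ⟨⟨h1, h2⟩, r, hr⟩
      refine ⟨r, ?_, by rw [hr]; ring⟩
      rw [mem_Icc]
      constructor
      · rcases Nat.eq_zero_or_pos r with h | h
        · subst h; omega
        · exact h
      · have : r ^ 2 ≤ Y ^ 2 := by rw [sq, ← hr]; exact h2
        exact (Nat.pow_le_pow_iff_left (by norm_num)).1 this
    · rintro ⟨e, he, rfl⟩
      rw [mem_Icc] at he
      exact ⟨⟨Nat.one_le_pow _ _ he.1, Nat.pow_le_pow_left he.2 2⟩, ⟨e, by ring⟩⟩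
  rw [h1, Finset.sum_image]
  intro a _ c _ h
  exact Nat.pow_left_injective (by norm_num) h

theorem norm_cpow_neg {n : ℕ} (hn : 1 ≤ n) (s : ℂ) : ‖(n : ℂ) ^ (-s)‖ = (n : ℝ) ^ (-s.re) := by
  rw [norm_natCast_cpow_of_pos hn]; simp

theorem main_le {s : ℂ} (h1 : 1 / 2 < s.re) (h2 : s.re < 1)
    (hz : ∀ l : ℕ, Odd l → ¬ IsSquare l → LJ l s = 0) {b : ℕ} (hb : 1 ≤ b) {Y : ℕ} (hY : 1 ≤ Y) :
    ‖∑ e ∈ Icc 1 Y, (e : ℂ) ^ (-(2 * s)) * ((Gd (b * e) : ℝ) : ℂ)‖ ≤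
      (4 * (1 + ‖s‖ / s.re) + 1 / (1 - s.re) + 18 * b) * (1 + Real.log (4 * b ^ 2 * (Y : ℝ) ^ 2)) *
        ((Y : ℝ) ^ 2) ^ (1 / 2 - s.re) := by
  set σ := s.re with hσ
  set X : ℕ := Y ^ 2 with hXdef
  have hX1 : 1 ≤ X := Nat.one_le_pow _ _ hY
  have hXr : (1 : ℝ) ≤ X := by exact_mod_cast hX1
  have hX0 : (0 : ℝ) < X := by linarith
  have hXY : (X : ℝ) = (Y : ℝ) ^ 2 := by rw [hXdef]; push_cast; ring
  have hYr : (1 : ℝ) ≤ Y := by exact_mod_cast hY
  have hbr : (1 : ℝ) ≤ b := by exact_mod_cast hb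
  rw [← hXY]
  set R : ℝ := (X : ℝ) ^ (3 / 2 - σ) with hR
  have hR0 : 0 < R := Real.rpow_pos_of_pos hX0 _
  set LG : ℝ := 1 + Real.log (4 * b ^ 2 * X) with hLG
  have hlogX : 0 ≤ Real.log X := Real.log_nonneg hXr
  have h4b : (1 : ℝ) ≤ 4 * b ^ 2 := by nlinarith
  have hLG1 : 1 + Real.log X ≤ LG := by
    have : Real.log X ≤ Real.log (4 * b ^ 2 * X) :=
      Real.log_le_log hX0 (by nlinarith)
    linarith
  have hLG0 : 1 ≤ LG := by linarith
  -- the identity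
  have hid : (X : ℂ) * ∑ e ∈ Icc 1 Y, (e : ℂ) ^ (-(2 * s)) * ((Gd (b * e) : ℝ) : ℂ) =
      TT b X s + ∑ n ∈ Icc 1 X, (n : ℂ) ^ (-s) * ((VV (n * b ^ 2) X : ℝ) : ℂ) -
        ∑ n ∈ Icc 1 X with ¬ IsSquare n, (n : ℂ) ^ (-s) * ((UU (n * b ^ 2) X : ℝ) : ℂ) -
        ∑ e ∈ Icc 1 Y, (e : ℂ) ^ (-(2 * s)) * (((UU ((b * e) ^ 2) X - X * Gd (b * e) : ℝ)) : ℂ) := by
    have e1 := Finset.sum_filter_add_sum_filter_not (Icc 1 X) (fun n => IsSquare n)
      (fun n : ℕ => (n : ℂ) ^ (-s) * ((UU (n * b ^ 2) X : ℝ) : ℂ))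
    rw [sum_squares] at e1
    have e2 : TT b X s + ∑ n ∈ Icc 1 X, (n : ℂ) ^ (-s) * ((VV (n * b ^ 2) X : ℝ) : ℂ) =
        ∑ n ∈ Icc 1 X, (n : ℂ) ^ (-s) * ((UU (n * b ^ 2) X : ℝ) : ℂ) := by
      rw [TT_swap, ← Finset.sum_add_distrib]
      refine Finset.sum_congr rfl fun n _ => ?_
      ring
    rw [e2, ← e1]
    have e3 : ∑ e ∈ Icc 1 Y, (e : ℂ) ^ (-(2 * s)) * (((UU ((b * e) ^ 2) X - X * Gd (b * e) : ℝ)) : ℂ) =
        ∑ e ∈ Icc 1 Y, ((e ^ 2 : ℕ) : ℂ) ^ (-s) * ((UU (e ^ 2 * b ^ 2) X : ℝ) : ℂ) -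
          (X : ℂ) * ∑ e ∈ Icc 1 Y, (e : ℂ) ^ (-(2 * s)) * ((Gd (b * e) : ℝ) : ℂ) := by
      rw [Finset.mul_sum, ← Finset.sum_sub_distrib]
      refine Finset.sum_congr rfl fun e _ => ?_
      have e4 : ((e ^ 2 : ℕ) : ℂ) ^ (-s) = (e : ℂ) ^ (-(2 * s)) := by
        have : ((e ^ 2 : ℕ) : ℂ) = (e : ℂ) * (e : ℂ) := by push_cast; ring
        rw [this, natCast_mul_natCast_cpow]
        rcases Nat.eq_zero_or_pos e with h0 | h0
        · subst h0
          have hs0 : s ≠ 0 := by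
            rintro rfl
            simp [hσ] at h1
            linarith
          rw [Nat.cast_zero, zero_cpow (neg_ne_zero.2 hs0), zero_cpow (by simpa using hs0)]
          ring
        · rw [← cpow_add _ _ (by exact_mod_cast (by omega : e ≠ 0))]
          congr 1
          ring
      rw [e4, show e ^ 2 * b ^ 2 = (b * e) ^ 2 by ring]
      push_cast
      ring
    rw [e3]
    ring
  -- the bounds
  have a1 : ‖TT b X s‖ ≤ 4 * (1 + ‖s‖ / σ) * (LG * R) := by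
    refine (TT_le (by linarith) hz b hX1).trans ?_
    have e1 : (X : ℝ) * (4 * √(X : ℝ) * (1 + Real.log X) * (1 + ‖s‖ / s.re) * (X : ℝ) ^ (-s.re)) =
        4 * (1 + ‖s‖ / σ) * ((1 + Real.log X) * R) := by
      have : R = (X : ℝ) * √(X : ℝ) * (X : ℝ) ^ (-σ) := by
        rw [hR, Real.sqrt_eq_rpow, show (3 / 2 - σ : ℝ) = 1 + 1 / 2 + (-σ) by ring,
          Real.rpow_add hX0, Real.rpow_add hX0, Real.rpow_one]
      rw [this]
      ring
    rw [e1]
    gcongr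
  have hYX : (Y : ℝ) = (X : ℝ) ^ (1 / 2 : ℝ) := by
    rw [hXY, ← Real.sqrt_eq_rpow, Real.sqrt_sq (by linarith)]
  have a2 : ‖∑ n ∈ Icc 1 X, (n : ℂ) ^ (-s) * ((VV (n * b ^ 2) X : ℝ) : ℂ)‖ ≤
      1 / (1 - σ) * (LG * R) := by
    calc _ ≤ ∑ n ∈ Icc 1 X, (n : ℝ) ^ (-σ) * Y := by
          refine (norm_sum_le _ _).trans (Finset.sum_le_sum fun n hn => ?_)
          rw [norm_mul, norm_cpow_neg (mem_Icc.1 hn).1, Complex.norm_real, Real.norm_eq_abs]
          exact mul_le_mul_of_nonneg_left (VV_le _ _) (by positivity)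
      _ = (∑ n ∈ Icc 1 X, (n : ℝ) ^ (-σ)) * Y := by rw [Finset.sum_mul]
      _ ≤ ((X : ℝ) ^ (1 - σ) / (1 - σ)) * Y := by
          gcongr
          exact sum_Icc_rpow_le (by linarith) h2 X
      _ = 1 / (1 - σ) * (1 * R) := by
          rw [hYX, hR, show (3 / 2 - σ : ℝ) = (1 - σ) + 1 / 2 by ring, Real.rpow_add hX0]
          ring
      _ ≤ 1 / (1 - σ) * (LG * R) := by
          have : 0 ≤ 1 / (1 - σ) := by
            apply div_nonneg <;> linarith
          gcongr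
  have a3 : ‖∑ n ∈ Icc 1 X with ¬ IsSquare n, (n : ℂ) ^ (-s) * ((UU (n * b ^ 2) X : ℝ) : ℂ)‖ ≤
      16 * b * (LG * R) := by
    calc _ ≤ ∑ n ∈ Icc 1 X with ¬ IsSquare n, (n : ℝ) ^ (-(σ - 1 / 2)) * (8 * b * LG) := by
          refine (norm_sum_le _ _).trans (Finset.sum_le_sum fun n hn => ?_)
          rw [mem_filter, mem_Icc] at hn
          obtain ⟨⟨hn1, hnX⟩, hsq⟩ := hn
          have hn0 : (0 : ℝ) < n := by exact_mod_cast hn1
          rw [norm_mul, norm_cpow_neg hn1, Complex.norm_real, Real.norm_eq_abs]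
          have hsq' : ¬ IsSquare (n * b ^ 2) := by
            rintro ⟨r, hr⟩
            apply hsq
            have hd : b ∣ r := by
              have : b ^ 2 ∣ r ^ 2 := ⟨n, by rw [sq r, ← hr]; ring⟩
              exact (Nat.pow_dvd_pow_iff (by norm_num)).1 this
            obtain ⟨t, ht⟩ := hd
            refine ⟨t, ?_⟩
            have h3 : n * b ^ 2 = (t * t) * b ^ 2 := by rw [hr, ht]; ring
            exact Nat.eq_of_mul_eq_mul_right (by positivity) h3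
          have h3 := UU_nonsquare (n := n * b ^ 2) (by
            have : 1 ≤ b ^ 2 := Nat.one_le_pow _ _ hb
            exact Nat.mul_pos hn1 this) hsq' X
          have h4 : √(((n * b ^ 2 : ℕ) : ℝ)) = b * √(n : ℝ) := by
            push_cast
            rw [Real.sqrt_mul hn0.le, Real.sqrt_sq (by linarith)]
            ring
          have h5 : Real.log (4 * ((n * b ^ 2 : ℕ) : ℝ)) ≤ Real.log (4 * b ^ 2 * X) := by
            apply Real.log_le_log
            · push_cast; positivity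
            · push_cast
              have : (n : ℝ) ≤ X := by exact_mod_cast hnX
              nlinarith
          rw [h4] at h3
          have h6 : (n : ℝ) ^ (-(σ - 1 / 2)) = (n : ℝ) ^ (-σ) * √(n : ℝ) := by
            rw [Real.sqrt_eq_rpow, ← Real.rpow_add hn0]
            congr 1; ring
          rw [h6]
          calc _ ≤ (n : ℝ) ^ (-σ) * (8 * (b * √(n : ℝ)) * (1 + Real.log (4 * ((n * b ^ 2 : ℕ) : ℝ)))) := by
                gcongr
            _ ≤ (n : ℝ) ^ (-σ) * (8 * (b * √(n : ℝ)) * LG) := by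
                have h7 : 1 + Real.log (4 * ((n * b ^ 2 : ℕ) : ℝ)) ≤ LG := by rw [hLG]; linarith
                gcongr
            _ = _ := by ring
      _ ≤ ∑ n ∈ Icc 1 X, (n : ℝ) ^ (-(σ - 1 / 2)) * (8 * b * LG) := by
          apply Finset.sum_le_sum_of_subset_of_nonneg (Finset.filter_subset _ _)
          intro n _ _
          positivity
      _ = (∑ n ∈ Icc 1 X, (n : ℝ) ^ (-(σ - 1 / 2))) * (8 * b * LG) := by rw [Finset.sum_mul]
      _ ≤ ((X : ℝ) ^ (1 - (σ - 1 / 2)) / (1 - (σ - 1 / 2))) * (8 * b * LG) := by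
          gcongr
          exact sum_Icc_rpow_le (by linarith) (by linarith) X
      _ ≤ (2 * R) * (8 * b * LG) := by
          gcongr
          rw [show (1 - (σ - 1 / 2) : ℝ) = 3 / 2 - σ by ring, ← hR, div_le_iff₀ (by linarith)]
          nlinarith
      _ = 16 * b * (LG * R) := by ring
  have a4 : ‖∑ e ∈ Icc 1 Y, (e : ℂ) ^ (-(2 * s)) *
      (((UU ((b * e) ^ 2) X - X * Gd (b * e) : ℝ)) : ℂ)‖ ≤ 2 * b * (LG * R) := by
    calc _ ≤ ∑ e ∈ Icc 1 Y, (2 * b : ℝ) := by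
          refine (norm_sum_le _ _).trans (Finset.sum_le_sum fun e he => ?_)
          have he1 := (mem_Icc.1 he).1
          have her : (1 : ℝ) ≤ e := by exact_mod_cast he1
          rw [norm_mul, norm_cpow_neg he1, Complex.norm_real, Real.norm_eq_abs]
          have h3 := UU_square (m := b * e) (Nat.mul_pos hb he1) X
          have h4 : (2 * s).re = 2 * σ := by simp [hσ]
          rw [h4]
          calc _ ≤ (e : ℝ) ^ (-(2 * σ)) * (2 * ((b * e : ℕ) : ℝ)) := by gcongr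
            _ = (e : ℝ) ^ (-(2 * σ)) * (e : ℝ) ^ (1 : ℝ) * (2 * b) := by
                rw [Real.rpow_one]; push_cast; ring
            _ = (e : ℝ) ^ (-(2 * σ) + 1) * (2 * b) := by
                rw [Real.rpow_add (by linarith)]
            _ ≤ 1 * (2 * b) := by
                gcongr
                exact Real.rpow_le_one_of_one_le_of_nonpos her (by linarith)
            _ = 2 * b := one_mul _
      _ = 2 * b * Y := by rw [Finset.sum_const, Nat.card_Icc, nsmul_eq_mul]; push_cast; ring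
      _ ≤ 2 * b * (1 * R) := by
          rw [one_mul, hYX, hR]
          have := Real.rpow_le_rpow_of_exponent_le hXr (show (1 / 2 : ℝ) ≤ 3 / 2 - σ by linarith)
          gcongr
      _ ≤ _ := by gcongr
  have hnorm : (X : ℝ) * ‖∑ e ∈ Icc 1 Y, (e : ℂ) ^ (-(2 * s)) * ((Gd (b * e) : ℝ) : ℂ)‖ ≤
      (4 * (1 + ‖s‖ / σ) + 1 / (1 - σ) + 18 * b) * (LG * R) := by
    have e1 : (X : ℝ) * ‖∑ e ∈ Icc 1 Y, (e : ℂ) ^ (-(2 * s)) * ((Gd (b * e) : ℝ) : ℂ)‖ =
        ‖(X : ℂ) * ∑ e ∈ Icc 1 Y, (e : ℂ) ^ (-(2 * s)) * ((Gd (b * e) : ℝ) : ℂ)‖ := by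
      rw [norm_mul, Complex.norm_natCast]
    rw [e1, hid]
    refine (norm_sub_le _ _).trans ?_
    have e2 := norm_sub_le (TT b X s + ∑ n ∈ Icc 1 X, (n : ℂ) ^ (-s) * ((VV (n * b ^ 2) X : ℝ) : ℂ))
      (∑ n ∈ Icc 1 X with ¬ IsSquare n, (n : ℂ) ^ (-s) * ((UU (n * b ^ 2) X : ℝ) : ℂ))
    have e3 := norm_add_le (TT b X s) (∑ n ∈ Icc 1 X, (n : ℂ) ^ (-s) * ((VV (n * b ^ 2) X : ℝ) : ℂ))
    have e4 : (4 * (1 + ‖s‖ / σ) + 1 / (1 - σ) + 18 * b) * (LG * R) =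
        4 * (1 + ‖s‖ / σ) * (LG * R) + 1 / (1 - σ) * (LG * R) + 16 * b * (LG * R) +
          2 * b * (LG * R) := by ring
    rw [e4]
    linarith
  have hRX : R = (X : ℝ) * (X : ℝ) ^ (1 / 2 - σ) := by
    rw [hR, show (3 / 2 - σ : ℝ) = 1 + (1 / 2 - σ) by ring, Real.rpow_add hX0, Real.rpow_one]
  rw [hRX] at hnorm
  have hfin : (X : ℝ) * ‖∑ e ∈ Icc 1 Y, (e : ℂ) ^ (-(2 * s)) * ((Gd (b * e) : ℝ) : ℂ)‖ ≤
      (X : ℝ) * ((4 * (1 + ‖s‖ / σ) + 1 / (1 - σ) + 18 * b) * LG * (X : ℝ) ^ (1 / 2 - σ)) := by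
    calc _ ≤ _ := hnorm
      _ = _ := by ring
  exact le_of_mul_le_mul_left hfin hX0

theorem lim_zero {σ C a : ℝ} (h1 : 1 / 2 < σ) (ha : 0 < a) :
    Tendsto (fun Y : ℕ => C * (1 + Real.log (a * (Y : ℝ) ^ 2)) * ((Y : ℝ) ^ 2) ^ (1 / 2 - σ))
      atTop (𝓝 0) := by
  have hcast : Tendsto (fun Y : ℕ => (Y : ℝ) ^ 2) atTop atTop :=
    (tendsto_pow_atTop (by norm_num)).comp tendsto_natCast_atTop_atTop
  have h2 : Tendsto (fun x : ℝ => C * (1 + Real.log (a * x)) * x ^ (1 / 2 - σ)) atTop (𝓝 0) := by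
    have h3 : Tendsto (fun x : ℝ => x ^ (-(σ - 1 / 2))) atTop (𝓝 0) :=
      tendsto_rpow_neg_atTop (by linarith)
    have h4 : Tendsto (fun x : ℝ => Real.log x / x ^ (σ - 1 / 2)) atTop (𝓝 0) :=
      (isLittleO_log_rpow_atTop (by linarith)).tendsto_div_nhds_zero
    have h5 : Tendsto (fun x : ℝ => C * ((1 + Real.log a) * x ^ (-(σ - 1 / 2)) +
        Real.log x / x ^ (σ - 1 / 2))) atTop (𝓝 (C * ((1 + Real.log a) * 0 + 0))) :=
      ((h3.const_mul _).add h4).const_mul C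
    rw [mul_zero, add_zero, mul_zero] at h5
    refine h5.congr' ?_
    filter_upwards [eventually_gt_atTop 0] with x hx
    rw [Real.log_mul ha.ne' hx.ne', show (1 / 2 - σ : ℝ) = -(σ - 1 / 2) by ring, Real.rpow_neg hx.le]
    field_simp
    ring
  exact h2.comp hcast

theorem exists_ne_zero {s : ℂ} (h1 : 1 / 2 < s.re) (h2 : s.re < 1) :
    ∃ l : ℕ, Odd l ∧ ¬ IsSquare l ∧ LJ l s ≠ 0 := by
  by_contra hcon
  have hz : ∀ l : ℕ, Odd l → ¬ IsSquare l → LJ l s = 0 := by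
    intro l ho hs
    by_contra h
    exact hcon ⟨l, ho, hs, h⟩
  have hs2 : (2 * s) ≠ 0 := by
    intro h
    have : s = 0 := by simpa using h
    rw [this] at h1; norm_num at h1
  have hre : 1 < (2 * s).re := by
    have : (2 * s).re = 2 * s.re := by simp
    rw [this]; linarith
  have hsum0 : Summable (fun e : ℕ => ‖(e : ℂ) ^ (-(2 * s))‖) := by
    have := (Complex.summable_one_div_nat_cpow (p := 2 * s)).2 hre
    refine this.norm.congr fun e => ?_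
    rw [cpow_neg, one_div]
  have hGle : ∀ {b : ℕ}, 1 ≤ b → ∀ e : ℕ, e ≠ 0 → ‖((Gd (b * e) : ℝ) : ℂ)‖ ≤ Gd b := by
    intro b hb e he
    rw [Complex.norm_real, Real.norm_eq_abs, abs_of_pos (Gd_pos (mul_ne_zero (by omega) he))]
    exact Gd_mul_le (by omega) he
  have hzero : ∀ e : ℕ, e = 0 → (e : ℂ) ^ (-(2 * s)) = 0 := by
    rintro e rfl
    rw [Nat.cast_zero, zero_cpow (neg_ne_zero.2 hs2)]
  have hterm : ∀ {b : ℕ}, 1 ≤ b → ∀ e : ℕ, ‖(e : ℂ) ^ (-(2 * s)) * ((Gd (b * e) : ℝ) : ℂ)‖ ≤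
      ‖(e : ℂ) ^ (-(2 * s))‖ * Gd b := by
    intro b hb e
    rcases Nat.eq_zero_or_pos e with h | h
    · rw [hzero e h]; simp
    · rw [norm_mul]
      exact mul_le_mul_of_nonneg_left (hGle hb e (by omega)) (norm_nonneg _)
  -- all the sums vanish
  have hall : ∀ b : ℕ, 1 ≤ b → ∑' e : ℕ, (e : ℂ) ^ (-(2 * s)) * ((Gd (b * e) : ℝ) : ℂ) = 0 := by
    intro b hb
    have hs : Summable (fun e : ℕ => (e : ℂ) ^ (-(2 * s)) * ((Gd (b * e) : ℝ) : ℂ)) :=
      Summable.of_norm_bounded (hsum0.mul_right _) (hterm hb)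
    have t1 : Tendsto (fun Y : ℕ => ∑ e ∈ Icc 1 Y, (e : ℂ) ^ (-(2 * s)) * ((Gd (b * e) : ℝ) : ℂ))
        atTop (𝓝 (∑' e : ℕ, (e : ℂ) ^ (-(2 * s)) * ((Gd (b * e) : ℝ) : ℂ))) := by
      have := (tendsto_add_atTop_iff_nat 1).2 hs.hasSum.tendsto_sum_nat
      refine this.congr fun Y => ?_
      rw [Finset.range_eq_Ico, Finset.sum_eq_sum_Ico_succ_bot (by omega)]
      rw [hzero 0 rfl, zero_mul, zero_add]
      rfl
    have t2 : Tendsto (fun Y : ℕ => ∑ e ∈ Icc 1 Y, (e : ℂ) ^ (-(2 * s)) * ((Gd (b * e) : ℝ) : ℂ))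
        atTop (𝓝 0) := by
      rw [tendsto_zero_iff_norm_tendsto_zero]
      refine squeeze_zero' (Eventually.of_forall fun Y => norm_nonneg _) ?_
        (lim_zero (σ := s.re) (C := 4 * (1 + ‖s‖ / s.re) + 1 / (1 - s.re) + 18 * b)
          (a := 4 * (b : ℝ) ^ 2) h1 (by positivity))
      filter_upwards [eventually_ge_atTop 1] with Y hY using main_le h1 h2 hz hb hY
    exact tendsto_nhds_unique t1 t2
  -- the limit over the factorials
  have hlim : Tendsto (fun Y : ℕ => ∑' e : ℕ, (e : ℂ) ^ (-(2 * s)) *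
      (((Gd (Y.factorial * e) / Gd Y.factorial : ℝ)) : ℂ)) atTop
      (𝓝 (∑' e : ℕ, (e : ℂ) ^ (-(2 * s)))) := by
    refine tendsto_tsum_of_dominated_convergence (bound := fun e : ℕ => ‖(e : ℂ) ^ (-(2 * s))‖)
      hsum0 (fun e => ?_) (Eventually.of_forall fun Y e => ?_)
    · refine tendsto_const_nhds.congr' ?_
      filter_upwards [eventually_ge_atTop e] with Y hY
      rcases Nat.eq_zero_or_pos e with h | h
      · rw [hzero e h, zero_mul]
      · have hf : Y.factorial ≠ 0 := Nat.factorial_ne_zero Y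
        rw [Gd_mul_dvd hf (Nat.dvd_factorial h hY), div_self (Gd_pos hf).ne']
        simp
    · have hf : 1 ≤ Y.factorial := Nat.factorial_pos Y
      have hG := Gd_pos (show Y.factorial ≠ 0 by omega)
      rcases Nat.eq_zero_or_pos e with h | h
      · rw [hzero e h, zero_mul]
      · rw [norm_mul]
        have h3 : ‖(((Gd (Y.factorial * e) / Gd Y.factorial : ℝ)) : ℂ)‖ ≤ 1 := by
          rw [Complex.norm_real, Real.norm_eq_abs, abs_div, abs_of_pos hG, div_le_one hG,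
            abs_of_pos (Gd_pos (mul_ne_zero (by omega) (by omega)))]
          exact Gd_mul_le (by omega) (by omega)
        calc _ ≤ ‖(e : ℂ) ^ (-(2 * s))‖ * 1 := mul_le_mul_of_nonneg_left h3 (norm_nonneg _)
          _ = _ := mul_one _
  have hzeroseq : ∀ Y : ℕ, ∑' e : ℕ, (e : ℂ) ^ (-(2 * s)) *
      (((Gd (Y.factorial * e) / Gd Y.factorial : ℝ)) : ℂ) = 0 := by
    intro Y
    have h3 : ∀ e : ℕ, (e : ℂ) ^ (-(2 * s)) * (((Gd (Y.factorial * e) / Gd Y.factorial : ℝ)) : ℂ) =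
        ((e : ℂ) ^ (-(2 * s)) * ((Gd (Y.factorial * e) : ℝ) : ℂ)) * ((Gd Y.factorial : ℝ) : ℂ)⁻¹ := by
      intro e; push_cast; rw [div_eq_mul_inv]; ring
    simp_rw [h3]
    rw [tsum_mul_right, hall _ (Nat.factorial_pos Y), zero_mul]
  simp_rw [hzeroseq] at hlim
  have hfin := tendsto_nhds_unique tendsto_const_nhds hlim
  have hzeta := zeta_eq_tsum_one_div_nat_cpow hre
  have h3 : ∑' e : ℕ, (e : ℂ) ^ (-(2 * s)) = riemannZeta (2 * s) := by
    rw [hzeta]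
    congr 1
    funext e
    rw [cpow_neg, one_div]
  rw [h3] at hfin
  exact riemannZeta_ne_zero_of_one_lt_re hre hfin.symm

end Pool.Agent.Q48.MDS
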