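import Pool.Agent.Q48.MDS.ZSqf
import Pool.Agent.Q48.MDS.Drop

/-!
# The sum over the fundamental discriminants in terms of sums over the squarefree integers
-/

set_option autoImplicit false

open Complex Set

namespace Pool.Agent.Q48.MDS

noncomputable def f1 (m a : ℕ) : ℂ := if a % 4 = 1 then (kron a m : ℂ) else 0
noncomputable def f2 (m a : ℕ) : ℂ := if a % 4 = 3 then (kron (4 * a) m : ℂ) else 0
noncomputable def f3 (m a : ℕ) : ℂ := if a % 2 = 1 then (kron (8 * a) m : ℂ) else 0

theorem f1_le (m a : ℕ) : ‖f1 m a‖ ≤ 1 := by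
  unfold f1; split_ifs
  · exact norm_kron_le _ _
  · simp

theorem f2_le (m a : ℕ) : ‖f2 m a‖ ≤ 1 := by
  unfold f2; split_ifs
  · exact norm_kron_le _ _
  · simp

theorem f3_le (m a : ℕ) : ‖f3 m a‖ ≤ 1 := by
  unfold f3; split_ifs
  · exact norm_kron_le _ _
  · simp

def S1 : Set ℕ := {d | d % 4 = 1 ∧ Squarefree d}
def S2 : Set ℕ := {d | ∃ m, d = 4 * m ∧ m % 4 = 3 ∧ Squarefree m}
def S3 : Set ℕ := {d | ∃ a, d = 8 * a ∧ a % 2 = 1 ∧ Squarefree a}

theorem fund_iff (d : ℕ) : FundDisc d ↔ (d ∈ S1 ∨ d ∈ S2 ∨ d ∈ S3) := by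
  unfold FundDisc
  constructor
  · rintro (⟨h1, h2⟩ | ⟨m, h1, h2 | h2, h3⟩)
    · exact Or.inl ⟨h1, h2⟩
    · right; right
      refine ⟨m / 2, by omega, by omega, h3.squarefree_of_dvd ⟨2, by omega⟩⟩
    · right; left
      exact ⟨m, h1, h2, h3⟩
  · rintro (⟨h1, h2⟩ | ⟨m, h1, h2, h3⟩ | ⟨a, h1, h2, h3⟩)
    · exact Or.inl ⟨h1, h2⟩
    · exact Or.inr ⟨m, h1, Or.inr h2, h3⟩
    · refine Or.inr ⟨2 * a, by omega, Or.inl (by omega), ?_⟩
      have hc : Nat.Coprime 2 a := Nat.coprime_two_left.2 (Nat.odd_iff.2 h2)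
      exact (Nat.squarefree_mul hc).2 ⟨Nat.squarefree_two, h3⟩

theorem not_S1_S2 {d : ℕ} (h1 : d ∈ S1) (h2 : d ∈ S2) : False := by
  obtain ⟨h1, _⟩ := h1
  obtain ⟨m, hm, _⟩ := h2
  omega

theorem not_S1_S3 {d : ℕ} (h1 : d ∈ S1) (h2 : d ∈ S3) : False := by
  obtain ⟨h1, _⟩ := h1
  obtain ⟨m, hm, _⟩ := h2
  omega

theorem not_S2_S3 {d : ℕ} (h1 : d ∈ S2) (h2 : d ∈ S3) : False := by
  obtain ⟨m, hm, h, _⟩ := h1
  obtain ⟨a, ha, h', _⟩ := h2
  omega

theorem Sq_eq (f : ℕ → ℂ) (w : ℂ) :
    Sq f w = ∑' a : ℕ, ({a : ℕ | Squarefree a}).indicator (fun a => f a * (a : ℂ) ^ (-w)) a := by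
  rw [← tsum_subtype]
  rfl

theorem cpow_mul_nat (c a : ℕ) (w : ℂ) : ((c * a : ℕ) : ℂ) ^ (-w) = (c : ℂ) ^ (-w) * (a : ℂ) ^ (-w) := by
  push_cast
  rw [natCast_mul_natCast_cpow]

theorem A_zero_eq {m : ℕ} {w : ℂ} (hw : 1 < w.re) :
    A 0 m (fun _ => w) = Sq (f1 m) w + (4 : ℂ) ^ (-w) * Sq (f2 m) w + (8 : ℂ) ^ (-w) * Sq (f3 m) w := by
  set g : ℕ → ℂ := fun d => (kron d m : ℂ) * (d : ℂ) ^ (-w) with hg
  have hsum : Summable g := (summable_of_bdd (fun n => norm_kron_le n m) hw).of_norm
  have e0 : A 0 m (fun _ => w) = ∑' d : ℕ, ({d : ℕ | FundDisc d}).indicator g d := by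
    rw [← tsum_subtype]
    unfold A
    congr 1
    funext d
    simp [hg]
  have e1 : ∀ d : ℕ, ({d : ℕ | FundDisc d}).indicator g d =
      S1.indicator g d + S2.indicator g d + S3.indicator g d := by
    intro d
    by_cases h1 : d ∈ S1
    · rw [indicator_of_mem (show d ∈ {d : ℕ | FundDisc d} from (fund_iff d).2 (Or.inl h1)),
        indicator_of_mem h1, indicator_of_notMem (fun h => not_S1_S2 h1 h),
        indicator_of_notMem (fun h => not_S1_S3 h1 h)]
      ring
    · by_cases h2 : d ∈ S2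
      · rw [indicator_of_mem (show d ∈ {d : ℕ | FundDisc d} from (fund_iff d).2 (Or.inr (Or.inl h2))),
          indicator_of_notMem h1, indicator_of_mem h2, indicator_of_notMem (fun h => not_S2_S3 h2 h)]
        ring
      · by_cases h3 : d ∈ S3
        · rw [indicator_of_mem (show d ∈ {d : ℕ | FundDisc d} from (fund_iff d).2 (Or.inr (Or.inr h3))),
            indicator_of_notMem h1, indicator_of_notMem h2, indicator_of_mem h3]
          ring
        · rw [indicator_of_notMem, indicator_of_notMem h1, indicator_of_notMem h2,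
            indicator_of_notMem h3]
          · ring
          · intro h
            rcases (fund_iff d).1 h with h | h | h
            · exact h1 h
            · exact h2 h
            · exact h3 h
  have s1 := hsum.indicator S1
  have s2 := hsum.indicator S2
  have s3 := hsum.indicator S3
  have t1 : ∑' d : ℕ, S1.indicator g d = Sq (f1 m) w := by
    rw [Sq_eq]
    congr 1
    funext d
    by_cases hs : Squarefree d
    · rw [indicator_of_mem (show d ∈ {a : ℕ | Squarefree a} from hs)]
      by_cases h1 : d % 4 = 1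
      · rw [indicator_of_mem (show d ∈ S1 from ⟨h1, hs⟩)]
        simp only [hg, f1, if_pos h1]
      · rw [indicator_of_notMem (show d ∉ S1 from fun h => h1 h.1)]
        simp only [f1, if_neg h1, zero_mul]
    · rw [indicator_of_notMem (show d ∉ {a : ℕ | Squarefree a} from hs),
        indicator_of_notMem (show d ∉ S1 from fun h => hs h.2)]
  have t2 : ∑' d : ℕ, S2.indicator g d = (4 : ℂ) ^ (-w) * Sq (f2 m) w := by
    have hinj : Function.Injective (fun a : ℕ => 4 * a) := fun a b h => by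
      have : 4 * a = 4 * b := h
      omega
    rw [← hinj.tsum_eq (f := S2.indicator g), Sq_eq, ← tsum_mul_left]
    · congr 1
      funext a
      by_cases hs : Squarefree a
      · rw [indicator_of_mem (show a ∈ {a : ℕ | Squarefree a} from hs)]
        by_cases h1 : a % 4 = 3
        · rw [indicator_of_mem (show 4 * a ∈ S2 from ⟨a, rfl, h1, hs⟩)]
          simp only [hg, f2, if_pos h1]
          rw [cpow_mul_nat]
          push_cast
          ring
        · rw [indicator_of_notMem (show 4 * a ∉ S2 from fun ⟨b, hb, h, _⟩ => h1 (by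
            have : a = b := by omega
            rw [this]; exact h))]
          simp only [f2, if_neg h1, zero_mul, mul_zero]
      · rw [indicator_of_notMem (show a ∉ {a : ℕ | Squarefree a} from hs), mul_zero,
          indicator_of_notMem (show 4 * a ∉ S2 from fun ⟨b, hb, _, h⟩ => hs (by
            have : a = b := by omega
            rw [this]; exact h))]
    · intro d hd
      rw [Function.mem_support] at hd
      by_contra h
      apply hd
      rw [indicator_of_notMem]
      rintro ⟨a, ha, _⟩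
      exact h ⟨a, ha.symm⟩
  have t3 : ∑' d : ℕ, S3.indicator g d = (8 : ℂ) ^ (-w) * Sq (f3 m) w := by
    have hinj : Function.Injective (fun a : ℕ => 8 * a) := fun a b h => by
      have : 8 * a = 8 * b := h
      omega
    rw [← hinj.tsum_eq (f := S3.indicator g), Sq_eq, ← tsum_mul_left]
    · congr 1
      funext a
      by_cases hs : Squarefree a
      · rw [indicator_of_mem (show a ∈ {a : ℕ | Squarefree a} from hs)]
        by_cases h1 : a % 2 = 1
        · rw [indicator_of_mem (show 8 * a ∈ S3 from ⟨a, rfl, h1, hs⟩)]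
          simp only [hg, f3, if_pos h1]
          rw [cpow_mul_nat]
          push_cast
          ring
        · rw [indicator_of_notMem (show 8 * a ∉ S3 from fun ⟨b, hb, h, _⟩ => h1 (by
            have : a = b := by omega
            rw [this]; exact h))]
          simp only [f3, if_neg h1, zero_mul, mul_zero]
      · rw [indicator_of_notMem (show a ∉ {a : ℕ | Squarefree a} from hs), mul_zero,
          indicator_of_notMem (show 8 * a ∉ S3 from fun ⟨b, hb, _, h⟩ => hs (by
            have : a = b := by omega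
            rw [this]; exact h))]
    · intro d hd
      rw [Function.mem_support] at hd
      by_contra h
      apply hd
      rw [indicator_of_notMem]
      rintro ⟨a, ha, _⟩
      exact h ⟨a, ha.symm⟩
  rw [e0]
  simp_rw [e1]
  rw [(s1.add s2).tsum_add s3, s1.tsum_add s2, t1, t2, t3]

/-- the symbol at `c a e²` -/
theorem kron_mul_sq {n : ℕ} (hn : 1 ≤ n) (c a : ℕ) {e : ℕ} (he : Odd e) :
    kron (c * (a * e ^ 2)) n = if Nat.Coprime e n then kron (c * a) n else 0 := by
  have h8 : (c * (a * e ^ 2)) % 8 = (c * a) % 8 := by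
    have h1 : e ^ 2 % 8 = 1 := by
      have h2 : e % 8 = 1 ∨ e % 8 = 3 ∨ e % 8 = 5 ∨ e % 8 = 7 := by
        have := Nat.odd_iff.1 he
        omega
      rw [sq, Nat.mul_mod]
      rcases h2 with h | h | h | h <;> rw [h]
    rw [← mul_assoc, Nat.mul_mod, h1, mul_one, Nat.mod_mod]
  have hk2 : kronTwo (c * (a * e ^ 2)) = kronTwo (c * a) := by
    unfold kronTwo; rw [h8]
  set n' := n / 2 ^ padicValNat 2 n with hn'
  have hn'0 : n' ≠ 0 := by
    have : Fact (Nat.Prime 2) := ⟨Nat.prime_two⟩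
    have := Nat.div_pos (Nat.le_of_dvd (by omega) (pow_padicValNat_dvd (p := 2) (n := n)))
      (by positivity)
    omega
  have i1 : NeZero n' := ⟨hn'0⟩
  have hnn : n = 2 ^ padicValNat 2 n * n' := by
    have : Fact (Nat.Prime 2) := ⟨Nat.prime_two⟩
    exact (Nat.mul_div_cancel' pow_padicValNat_dvd).symm
  have hco : Nat.Coprime e n ↔ Nat.Coprime e n' := by
    rw [hnn, Nat.coprime_mul_iff_right]
    constructor
    · exact fun h => h.2
    · exact fun h => ⟨Nat.Coprime.pow_right _ (Nat.coprime_two_right.2 he), h⟩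
  unfold kron
  rw [hk2, ← hn']
  have h9 : ((c * (a * e ^ 2) : ℕ) : ℤ) = ((c * a : ℕ) : ℤ) * ((e : ℤ) ^ 2) := by push_cast; ring
  rw [h9, jacobiSym.mul_left]
  split_ifs with h
  · have : jacobiSym ((e : ℤ) ^ 2) n' = 1 := jacobiSym.sq_one' (by exact_mod_cast (hco.1 h))
    rw [this, mul_one]
  · have : jacobiSym ((e : ℤ) ^ 2) n' = 0 := by
      rw [jacobiSym.eq_zero_iff_not_coprime]
      intro h2
      apply h
      rw [hco]
      have h3 : Nat.Coprime (e ^ 2) n' := by
        have h4 : Int.gcd ((e ^ 2 : ℕ) : ℤ) (n' : ℤ) = 1 := by push_cast; exact h2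
        rwa [Int.gcd_natCast_natCast] at h4
      exact (Nat.coprime_pow_left_iff (by norm_num) _ _).1 h3
    rw [this, mul_zero, mul_zero]

/-- the indicator of the integers prime to `2m` -/
noncomputable def kap (m e : ℕ) : ℂ := if Nat.Coprime e (2 * m) then 1 else 0

theorem kap_le (m e : ℕ) : ‖kap m e‖ ≤ 1 := by
  unfold kap; split_ifs <;> simp

theorem coprime_two_mul {e m : ℕ} : Nat.Coprime e (2 * m) ↔ Odd e ∧ Nat.Coprime e m := by
  rw [Nat.coprime_mul_iff_right, Nat.coprime_two_right]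

theorem sq_mod_four {e : ℕ} (he : Odd e) (a : ℕ) : (a * e ^ 2) % 4 = a % 4 := by
  have h1 : e ^ 2 % 4 = 1 := by
    have h2 : e % 4 = 1 ∨ e % 4 = 3 := by
      have := Nat.odd_iff.1 he
      omega
    rw [sq, Nat.mul_mod]
    rcases h2 with h | h <;> rw [h]
  rw [Nat.mul_mod, h1, mul_one, Nat.mod_mod]

theorem even_sq_mod_four {e : ℕ} (he : ¬ Odd e) (a : ℕ) : (a * e ^ 2) % 4 = 0 := by
  obtain ⟨r, hr⟩ := Nat.not_odd_iff_even.1 he
  have : a * e ^ 2 = 4 * (a * r ^ 2) := by rw [hr]; ring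
  omega

theorem f1_sq {m : ℕ} (hm : 1 ≤ m) (a e : ℕ) : f1 m (a * e ^ 2) = f1 m a * kap m e := by
  unfold f1 kap
  by_cases he : Odd e
  · rw [sq_mod_four he]
    have h := kron_mul_sq hm 1 a he
    rw [one_mul, one_mul] at h
    rw [h]
    by_cases hc : Nat.Coprime e m
    · rw [if_pos hc, if_pos (coprime_two_mul.2 ⟨he, hc⟩), mul_one]
    · rw [if_neg hc, if_neg (fun h => hc (coprime_two_mul.1 h).2)]
      simp
  · rw [even_sq_mod_four he, if_neg (by norm_num), if_neg (fun h => he (coprime_two_mul.1 h).1), mul_zero]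

theorem f2_sq {m : ℕ} (hm : 1 ≤ m) (a e : ℕ) : f2 m (a * e ^ 2) = f2 m a * kap m e := by
  unfold f2 kap
  by_cases he : Odd e
  · rw [sq_mod_four he, kron_mul_sq hm 4 a he]
    by_cases hc : Nat.Coprime e m
    · rw [if_pos hc, if_pos (coprime_two_mul.2 ⟨he, hc⟩), mul_one]
    · rw [if_neg hc, if_neg (fun h => hc (coprime_two_mul.1 h).2)]
      simp
  · rw [even_sq_mod_four he, if_neg (by norm_num), if_neg (fun h => he (coprime_two_mul.1 h).1), mul_zero]

theorem f3_sq {m : ℕ} (hm : 1 ≤ m) (a e : ℕ) : f3 m (a * e ^ 2) = f3 m a * kap m e := by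
  unfold f3 kap
  by_cases he : Odd e
  · have h2 : (a * e ^ 2) % 2 = a % 2 := by
      have := sq_mod_four he a
      omega
    rw [h2, kron_mul_sq hm 8 a he]
    by_cases hc : Nat.Coprime e m
    · rw [if_pos hc, if_pos (coprime_two_mul.2 ⟨he, hc⟩), mul_one]
    · rw [if_neg hc, if_neg (fun h => hc (coprime_two_mul.1 h).2)]
      simp
  · have h2 : (a * e ^ 2) % 2 = 0 := by
      have := even_sq_mod_four he a
      omega
    rw [h2, if_neg (by norm_num), if_neg (fun h => he (coprime_two_mul.1 h).1), mul_zero]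

end Pool.Agent.Q48.MDS
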