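import Mathlib

/-!
# Dirichlet series over the squarefree integers
-/

set_option autoImplicit false

open Complex

namespace Pool.Agent.Q48.MDS

abbrev SF : Type := {a : ℕ // Squarefree a}
abbrev PN : Type := {e : ℕ // 1 ≤ e}

theorem sqf_unique {a b e g : ℕ} (ha : Squarefree a) (hb : Squarefree b) (he : 1 ≤ e) (hg : 1 ≤ g)
    (h : a * e ^ 2 = b * g ^ 2) : a = b ∧ e = g := by
  have ha0 : a ≠ 0 := ha.ne_zero
  have hb0 : b ≠ 0 := hb.ne_zero
  have hab : a = b := by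
    apply Nat.eq_of_factorization_eq ha0 hb0
    intro p
    have h1 := congrArg (fun n => n.factorization p) h
    beta_reduce at h1
    rw [Nat.factorization_mul ha0 (by positivity), Nat.factorization_mul hb0 (by positivity),
      Nat.factorization_pow, Nat.factorization_pow] at h1
    simp only [Finsupp.add_apply, Finsupp.smul_apply, smul_eq_mul] at h1
    have h2 := ha.natFactorization_le_one p
    have h3 := hb.natFactorization_le_one p
    omega
  refine ⟨hab, ?_⟩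
  subst hab
  have h1 : e ^ 2 = g ^ 2 := Nat.eq_of_mul_eq_mul_left (Nat.pos_of_ne_zero ha0) h
  exact Nat.pow_left_injective (by norm_num) h1

/-- `(a, e) ↦ a e²` -/
noncomputable def pairEquiv : SF × PN ≃ PN :=
  Equiv.ofBijective (fun x => ⟨x.1.1 * x.2.1 ^ 2, by
    have h1 := Nat.pos_of_ne_zero x.1.2.ne_zero
    have h2 := x.2.2
    exact Nat.mul_pos h1 (by positivity)⟩) (by
    constructor
    · rintro ⟨⟨a, ha⟩, ⟨e, he⟩⟩ ⟨⟨b, hb⟩, ⟨g, hg⟩⟩ h
      have h1 : a * e ^ 2 = b * g ^ 2 := congrArg Subtype.val h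
      obtain ⟨h2, h3⟩ := sqf_unique ha hb he hg h1
      subst h2 h3
      rfl
    · rintro ⟨n, hn⟩
      obtain ⟨a, b, hab, ha⟩ := Nat.sq_mul_squarefree n
      have hb : 1 ≤ b := by
        rcases Nat.eq_zero_or_pos b with h | h
        · subst h; simp at hab; omega
        · exact h
      refine ⟨⟨⟨a, ha⟩, ⟨b, hb⟩⟩, ?_⟩
      apply Subtype.ext
      show a * b ^ 2 = n
      rw [← hab]; ring)

theorem pairEquiv_apply (x : SF × PN) : ((pairEquiv x : PN) : ℕ) = x.1.1 * x.2.1 ^ 2 := rfl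

theorem tsum_PN (g : ℕ → ℂ) (h0 : g 0 = 0) : ∑' n : ℕ, g n = ∑' n : PN, g n := by
  have := tsum_subtype_eq_of_support_subset (f := g) (s := {n | 1 ≤ n}) (by
    intro n hn
    rw [Function.mem_support] at hn
    show 1 ≤ n
    rcases Nat.eq_zero_or_pos n with h | h
    · subst h; exact absurd h0 hn
    · exact h)
  exact this.symm

theorem summable_of_bdd {f : ℕ → ℂ} (hf : ∀ n, ‖f n‖ ≤ 1) {w : ℂ} (hw : 1 < w.re) :
    Summable (fun n : ℕ => ‖f n * (n : ℂ) ^ (-w)‖) := by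
  have h1 : Summable (fun e : ℕ => ‖(e : ℂ) ^ (-w)‖) := by
    have := (Complex.summable_one_div_nat_cpow (p := w)).2 hw
    refine this.norm.congr fun e => ?_
    rw [cpow_neg, one_div]
  refine Summable.of_nonneg_of_le (fun n => norm_nonneg _) (fun n => ?_) h1
  rw [norm_mul]
  calc _ ≤ 1 * ‖(n : ℂ) ^ (-w)‖ := mul_le_mul_of_nonneg_right (hf n) (norm_nonneg _)
    _ = _ := one_mul _

theorem LSeries_eq {f : ℕ → ℂ} {w : ℂ} (hw : w ≠ 0) :
    LSeries f w = ∑' n : ℕ, f n * (n : ℂ) ^ (-w) := by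
  unfold LSeries
  congr 1
  funext n
  rcases Nat.eq_zero_or_pos n with h | h
  · subst h
    rw [LSeries.term_zero, Nat.cast_zero, zero_cpow (neg_ne_zero.2 hw), mul_zero]
  · rw [LSeries.term_of_ne_zero (by omega), cpow_neg, div_eq_mul_inv]

/-- the series over the squarefree integers -/
noncomputable def Sq (f : ℕ → ℂ) (w : ℂ) : ℂ := ∑' a : SF, f a * ((a : ℕ) : ℂ) ^ (-w)

/-- **Factorization.** If `f(a e²) = f(a) κ(e)` then the Dirichlet series of `f` is the one over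
the squarefree integers times the one of `κ` at `2w`. -/
theorem sqf_factor {f κ : ℕ → ℂ} (hf : ∀ n, ‖f n‖ ≤ 1) (hκ : ∀ n, ‖κ n‖ ≤ 1)
    (h : ∀ a e : ℕ, Squarefree a → 1 ≤ e → f (a * e ^ 2) = f a * κ e) {w : ℂ} (hw : 1 < w.re) :
    LSeries f w = Sq f w * LSeries κ (2 * w) := by
  have hw0 : w ≠ 0 := by rintro rfl; simp at hw; linarith
  have hw2 : 2 * w ≠ 0 := by simpa using hw0
  have hre2 : 1 < (2 * w).re := by
    have : (2 * w).re = 2 * w.re := by simp
    rw [this]; linarith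
  rw [LSeries_eq hw0, LSeries_eq hw2, tsum_PN _ (by rw [Nat.cast_zero, zero_cpow (neg_ne_zero.2 hw0), mul_zero]),
    tsum_PN _ (by rw [Nat.cast_zero, zero_cpow (neg_ne_zero.2 hw2), mul_zero])]
  unfold Sq
  have s1 : Summable (fun a : SF => ‖f a * ((a : ℕ) : ℂ) ^ (-w)‖) :=
    (summable_of_bdd hf hw).comp_injective Subtype.val_injective
  have s2 : Summable (fun e : PN => ‖κ e * ((e : ℕ) : ℂ) ^ (-(2 * w))‖) :=
    (summable_of_bdd hκ hre2).comp_injective Subtype.val_injective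
  rw [tsum_mul_tsum_of_summable_norm s1 s2, ← pairEquiv.tsum_eq]
  congr 1
  funext x
  obtain ⟨⟨a, ha⟩, ⟨e, he⟩⟩ := x
  show f (a * e ^ 2) * ((a * e ^ 2 : ℕ) : ℂ) ^ (-w) = f a * (a : ℂ) ^ (-w) * (κ e * (e : ℂ) ^ (-(2 * w)))
  rw [h a e ha he]
  have h1 : ((a * e ^ 2 : ℕ) : ℂ) ^ (-w) = (a : ℂ) ^ (-w) * (e : ℂ) ^ (-(2 * w)) := by
    have : ((a * e ^ 2 : ℕ) : ℂ) = (a : ℂ) * ((e * e : ℕ) : ℂ) := by push_cast; ring
    rw [this, natCast_mul_natCast_cpow]
    congr 1
    push_cast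
    rw [natCast_mul_natCast_cpow, ← cpow_add _ _ (by exact_mod_cast (by omega : e ≠ 0))]
    congr 1
    ring
  rw [h1]
  ring

end Pool.Agent.Q48.MDS
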