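import Pool.Agent.H370R2.DirGood

/-!
# Truncating a Dirichlet L-series
-/

set_option autoImplicit false

open MeasureTheory Set Complex

namespace Pool.Agent.Q48.MDS

/-- The tail of the Dirichlet series of a character with bounded partial sums. -/
theorem char_tail {q : ℕ} [NeZero q] {χ : DirichletCharacter ℂ q} (hχ : χ ≠ 1) {B : ℝ}
    (hB : ∀ N : ℕ, ‖∑ n ∈ Finset.Icc 1 N, χ (n : ZMod q)‖ ≤ B) {s : ℂ} (hs : 0 < s.re) {X : ℕ}
    (hX : 1 ≤ X) :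
    ‖χ.LFunction s - ∑ n ∈ Finset.Icc 1 X, χ (n : ZMod q) * (n : ℂ) ^ (-s)‖ ≤
      B * (1 + ‖s‖ / s.re) * (X : ℝ) ^ (-s.re) := by
  have hs0 : s ≠ 0 := by
    rintro rfl
    simp at hs
  have hX0 : (0 : ℝ) < X := by exact_mod_cast hX
  have hX1 : (1 : ℝ) ≤ X := by exact_mod_cast hX
  have hB0 : 0 ≤ B := (norm_nonneg _).trans (hB 0)
  have hc0 : χ ((0 : ℕ) : ZMod q) = 0 := by
    rw [Nat.cast_zero]
    apply MulChar.map_nonunit
    rw [isUnit_zero_iff]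
    intro h
    apply hχ
    ext a
    have h1 : ∀ x : ZMod q, x = 0 := fun x => by
      calc x = x * 1 := (mul_one x).symm
        _ = x * 0 := by rw [h]
        _ = 0 := mul_zero x
    have h2 : (a : ZMod q) = 1 := by rw [h1 (a : ZMod q), h1 1]
    rw [h2, map_one, map_one]
  set A : ℝ → ℂ := fun u => ∑ k ∈ Finset.Icc 1 ⌊u⌋₊, χ (k : ZMod q) with hA
  have hA0 : ∀ m : ℕ, ∑ k ∈ Finset.Icc 0 m, χ (k : ZMod q) = ∑ k ∈ Finset.Icc 1 m, χ (k : ZMod q) := by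
    intro m
    rw [Finset.Icc_eq_cons_Ioc (Nat.zero_le _), Finset.sum_cons, hc0, zero_add]
    rfl
  have hm : Measurable A :=
    (measurable_from_nat (f := fun n : ℕ => ∑ k ∈ Finset.Icc 1 n, χ (k : ZMod q))).comp
      Nat.measurable_floor
  have hAB : ∀ u, ‖A u‖ ≤ B := fun u => hB _
  -- integrability on `(a, ∞)`
  have hint : ∀ a : ℝ, 0 < a → IntegrableOn (fun u : ℝ => A u * (u : ℂ) ^ (-s - 1)) (Ioi a) := by
    intro a ha
    refine Integrable.mono' ((integrableOn_Ioi_rpow_of_lt (a := -s.re - 1) (by linarith) ha).const_mul B)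
      ?_ ?_
    · refine (hm.aestronglyMeasurable).mul ?_
      refine (ContinuousOn.aestronglyMeasurable ?_ measurableSet_Ioi)
      refine ContinuousOn.cpow_const (by fun_prop) fun u hu => ?_
      have hu0 : 0 < u := lt_trans ha hu
      exact Or.inl (by simpa using hu0)
    · refine (ae_restrict_iff' measurableSet_Ioi).mpr (Filter.Eventually.of_forall fun u hu => ?_)
      have hu0 : 0 < u := lt_trans ha hu
      rw [norm_mul, norm_cpow_eq_rpow_re_of_pos hu0]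
      have : (-s - 1).re = -s.re - 1 := by simp
      rw [this]
      exact mul_le_mul_of_nonneg_right (hAB u) (Real.rpow_nonneg hu0.le _)
  -- the tail of the integral
  have htail : ‖∫ u in Ioi (X : ℝ), A u * (u : ℂ) ^ (-s - 1)‖ ≤ B * ((X : ℝ) ^ (-s.re) / s.re) := by
    have h1 : ∫ u in Ioi (X : ℝ), B * u ^ (-s.re - 1) = B * ((X : ℝ) ^ (-s.re) / s.re) := by
      rw [integral_const_mul, integral_Ioi_rpow_of_lt (by linarith) hX0,
        show -s.re - 1 + 1 = -s.re by ring, neg_div_neg_eq]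
    rw [← h1]
    refine norm_integral_le_of_norm_le ((integrableOn_Ioi_rpow_of_lt (by linarith) hX0).const_mul B) ?_
    refine (ae_restrict_iff' measurableSet_Ioi).mpr (Filter.Eventually.of_forall fun u hu => ?_)
    have hu0 : 0 < u := lt_trans hX0 hu
    rw [norm_mul, norm_cpow_eq_rpow_re_of_pos hu0]
    have : (-s - 1).re = -s.re - 1 := by simp
    rw [this]
    exact mul_le_mul_of_nonneg_right (hAB u) (Real.rpow_nonneg hu0.le _)
  -- summation by parts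
  have hder : ∀ t ∈ Icc (1 : ℝ) X, HasDerivAt (fun t : ℝ => (t : ℂ) ^ (-s)) (-s * (t : ℂ) ^ (-s - 1)) t := by
    intro t ht
    exact hasDerivAt_ofReal_cpow_const (by linarith [ht.1]) (by simpa using hs0)
  have hdeq : ∀ t ∈ Icc (1 : ℝ) X, deriv (fun t : ℝ => (t : ℂ) ^ (-s)) t = -s * (t : ℂ) ^ (-s - 1) :=
    fun t ht => (hder t ht).deriv
  have hcont : ContinuousOn (fun t : ℝ => -s * (t : ℂ) ^ (-s - 1)) (Icc 1 X) := by
    refine ContinuousOn.const_mul ?_ _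
    refine ContinuousOn.cpow_const (by fun_prop) fun u hu => ?_
    have hu0 : 0 < u := by linarith [hu.1]
    exact Or.inl (by simpa using hu0)
  have hab := sum_mul_eq_sub_integral_mul₀' (𝕜 := ℂ) (f := fun t : ℝ => (t : ℂ) ^ (-s))
    (fun k : ℕ => χ (k : ZMod q)) hc0 X (fun t ht => (hder t ht).differentiableAt)
    ((hcont.integrableOn_Icc).congr_fun (fun t ht => (hdeq t ht).symm) measurableSet_Icc)
  have e1 : ∑ n ∈ Finset.Icc 1 X, χ (n : ZMod q) * (n : ℂ) ^ (-s) =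
      ∑ k ∈ Finset.Icc 0 X, (fun t : ℝ => (t : ℂ) ^ (-s)) (k : ℝ) * χ (k : ZMod q) := by
    rw [Finset.Icc_eq_cons_Ioc (Nat.zero_le _), Finset.sum_cons, hc0, mul_zero, zero_add]
    refine Finset.sum_congr rfl fun k _ => ?_
    simp only [ofReal_natCast]
    ring
  have e2 : ∫ t in Ioc (1 : ℝ) X, deriv (fun t : ℝ => (t : ℂ) ^ (-s)) t *
      ∑ k ∈ Finset.Icc 0 ⌊t⌋₊, χ (k : ZMod q) =
      -(s * ∫ u in Ioc (1 : ℝ) X, A u * (u : ℂ) ^ (-s - 1)) := by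
    rw [← integral_const_mul, ← integral_neg]
    refine setIntegral_congr_fun measurableSet_Ioc fun t ht => ?_
    show deriv (fun t : ℝ => (t : ℂ) ^ (-s)) t * ∑ k ∈ Finset.Icc 0 ⌊t⌋₊, χ (k : ZMod q) =
      -(s * (A t * (t : ℂ) ^ (-s - 1)))
    rw [hdeq t ⟨ht.1.le, ht.2⟩, hA0]
    ring
  have e3 : ∫ u in Ioi (1 : ℝ), A u * (u : ℂ) ^ (-s - 1) =
      (∫ u in Ioc (1 : ℝ) X, A u * (u : ℂ) ^ (-s - 1)) + ∫ u in Ioi (X : ℝ), A u * (u : ℂ) ^ (-s - 1) := by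
    rw [← setIntegral_union (Ioc_disjoint_Ioi le_rfl) measurableSet_Ioi
      ((hint 1 one_pos).mono_set Ioc_subset_Ioi_self) (hint X hX0), Ioc_union_Ioi_eq_Ioi hX1]
  rw [H370.DL.L_integral hχ hs, e1, hab, e2, hA0]
  have e4 : s * (∫ u in Ioi (1 : ℝ), (∑ k ∈ Finset.Icc 1 ⌊u⌋₊, χ (k : ZMod q)) * (u : ℂ) ^ (-s - 1)) -
      ((fun t : ℝ => (t : ℂ) ^ (-s)) (X : ℝ) * ∑ k ∈ Finset.Icc 1 X, χ (k : ZMod q) -
        -(s * ∫ u in Ioc (1 : ℝ) X, A u * (u : ℂ) ^ (-s - 1))) =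
      s * (∫ u in Ioi (X : ℝ), A u * (u : ℂ) ^ (-s - 1)) -
        (X : ℂ) ^ (-s) * ∑ k ∈ Finset.Icc 1 X, χ (k : ZMod q) := by
    have : (∫ u in Ioi (1 : ℝ), (∑ k ∈ Finset.Icc 1 ⌊u⌋₊, χ (k : ZMod q)) * (u : ℂ) ^ (-s - 1)) =
        ∫ u in Ioi (1 : ℝ), A u * (u : ℂ) ^ (-s - 1) := rfl
    rw [this, e3]
    simp only [ofReal_natCast]
    ring
  rw [e4]
  have hXs : ‖(X : ℂ) ^ (-s)‖ = (X : ℝ) ^ (-s.re) := by
    rw [norm_natCast_cpow_of_pos hX]; simp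
  calc _ ≤ ‖s * (∫ u in Ioi (X : ℝ), A u * (u : ℂ) ^ (-s - 1))‖ +
        ‖(X : ℂ) ^ (-s) * ∑ k ∈ Finset.Icc 1 X, χ (k : ZMod q)‖ := norm_sub_le _ _
    _ ≤ ‖s‖ * (B * ((X : ℝ) ^ (-s.re) / s.re)) + (X : ℝ) ^ (-s.re) * B := by
        rw [norm_mul, norm_mul, hXs]
        gcongr
        exact hB X
    _ = _ := by ring

end Pool.Agent.Q48.MDS
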